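import Mathlib

/-! MP_05cdf2_gt, B-Sp: chains of lists. `Ch α = List α →₀ ℤ`, the boundary satisfies
`∂ (a :: l) = l - a :: ∂ l`, `∂ [] = 0` (this is the augmented complex of ordered tuples).
`Acy S`: for a set `S` of lists, every cycle supported in `S` bounds in `S`. -/

set_option autoImplicit false

namespace Tor
open Finsupp

/-- chains of lists -/
abbrev Ch (α : Type) : Type := List α →₀ ℤ

section
variable {α β : Type}

/-- put `a` in front -/
noncomputable def cone (a : α) : Ch α →ₗ[ℤ] Ch α := Finsupp.lmapDomain ℤ ℤ (List.cons a)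

/-- boundary of a list -/
noncomputable def bdL : List α → Ch α
  | [] => 0
  | a :: l => single l 1 - cone a (bdL l)

/-- the boundary -/
noncomputable def bd : Ch α →ₗ[ℤ] Ch α := Finsupp.linearCombination ℤ bdL

@[simp] theorem cone_single (a : α) (l : List α) (n : ℤ) : cone a (single l n) = single (a :: l) n := by
  simp [cone]

@[simp] theorem bd_single (l : List α) (n : ℤ) : bd (single l n) = n • bdL l := by
  simp [bd]

theorem bdL_nil : bdL ([] : List α) = 0 := rfl

theorem bdL_cons (a : α) (l : List α) : bdL (a :: l) = single l 1 - cone a (bdL l) := rfl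

/-- induction for linear maps out of chains -/
theorem Ch.ext_lin {M : Type} [AddCommGroup M] {f g : Ch α →ₗ[ℤ] M}
    (h : ∀ l, f (single l 1) = g (single l 1)) : f = g := by
  refine Finsupp.lhom_ext' fun l => ?_
  refine LinearMap.ext_ring ?_
  exact h l

theorem bd_cone (a : α) (c : Ch α) : bd (cone a c) = c - cone a (bd c) := by
  have : bd ∘ₗ cone a = LinearMap.id - (cone a) ∘ₗ bd := by
    apply Ch.ext_lin
    intro l
    simp [bdL_cons]
  exact LinearMap.congr_fun this c

theorem bd_bdL (l : List α) : bd (bdL l) = 0 := by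
  induction l with
  | nil => simp [bdL_nil]
  | cons a l ih => rw [bdL_cons, map_sub, bd_cone, ih]; simp

theorem bd_bd (c : Ch α) : bd (bd c) = 0 := by
  have : bd ∘ₗ bd = (0 : Ch α →ₗ[ℤ] Ch α) := by
    apply Ch.ext_lin
    intro l
    simp [bd_bdL]
  exact LinearMap.congr_fun this c

/-- functoriality -/
theorem bd_map (f : α → β) (c : Ch α) :
    bd (mapDomain (List.map f) c) = mapDomain (List.map f) (bd c) := by
  have key : ∀ l : List α, bdL (l.map f) = mapDomain (List.map f) (bdL l) := by
    intro l
    induction l with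
    | nil => simp [bdL_nil]
    | cons a l ih =>
      rw [List.map_cons, bdL_cons, ih, bdL_cons, Finsupp.mapDomain_sub, mapDomain_single]
      congr 1
      simp only [cone, lmapDomain_apply, ← mapDomain_comp]
      congr 1
  have : bd ∘ₗ (Finsupp.lmapDomain ℤ ℤ (List.map f)) =
      (Finsupp.lmapDomain ℤ ℤ (List.map f)) ∘ₗ (bd : Ch α →ₗ[ℤ] Ch α) := by
    apply Ch.ext_lin
    intro l
    simp [key]
  exact LinearMap.congr_fun this c

/-- chains supported in `S` -/
noncomputable abbrev Sup (S : Set (List α)) : Submodule ℤ (Ch α) := Finsupp.supported ℤ ℤ S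

/-- closed under sublists -/
def Closed (S : Set (List α)) : Prop := ∀ l ∈ S, ∀ l', l'.Sublist l → l' ∈ S

/-- every cycle in `S` bounds in `S` -/
def Acy (S : Set (List α)) : Prop := ∀ z ∈ Sup S, bd z = 0 → ∃ w ∈ Sup S, bd w = z

/-- the boundary of `l` is supported on the sublists of `l` with one element less -/
theorem bdL_support (l : List α) :
    ∀ l' ∈ (bdL l).support, l'.Sublist l ∧ l'.length + 1 = l.length := by
  induction l with
  | nil => intro l' h; simp [bdL_nil] at h
  | cons a l ih =>
    intro l' h
    classical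
    rw [bdL_cons] at h
    have h := Finsupp.support_sub h
    rw [Finset.mem_union] at h
    rcases h with h | h
    · have : l' = l := by
        have := Finsupp.support_single_subset h
        simpa using this
      subst this
      exact ⟨List.sublist_cons_self a l', by simp⟩
    · have h2 := Finsupp.mapDomain_support h
      rw [Finset.mem_image] at h2
      obtain ⟨l'', h3, rfl⟩ := h2
      obtain ⟨h4, h5⟩ := ih l'' h3
      exact ⟨h4.cons_cons a, by simp [h5]⟩

theorem single_mem_Sup {S : Set (List α)} {l : List α} (h : l ∈ S) (n : ℤ) :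
    single l n ∈ Sup S := Finsupp.single_mem_supported ℤ n h

/-- to check that a linear map sends `Sup S` to a submodule check the generators -/
theorem map_Sup {M : Type} [AddCommGroup M] {S : Set (List α)} (f : Ch α →ₗ[ℤ] M)
    (N : Submodule ℤ M) (h : ∀ l ∈ S, f (single l 1) ∈ N) {c : Ch α} (hc : c ∈ Sup S) : f c ∈ N := by
  rw [← Finsupp.sum_single c, Finsupp.sum, map_sum]
  refine N.sum_mem fun l hl => ?_
  have hlS : l ∈ S := (Finsupp.mem_supported ℤ c).1 hc hl
  have : single l (c l) = c l • (single l 1 : Ch α) := by simp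
  rw [this, map_smul]
  exact N.smul_mem _ (h l hlS)

theorem bd_mem_Sup {S : Set (List α)} (hS : Closed S) {c : Ch α} (hc : c ∈ Sup S) :
    bd c ∈ Sup S := by
  refine map_Sup bd (Sup S) ?_ hc
  intro l hl
  rw [bd_single, one_smul]
  rw [Finsupp.mem_supported]
  intro l' hl'
  exact hS l hl l' (bdL_support l l' hl').1

theorem cone_mem_Sup {S T : Set (List α)} (a : α) (h : ∀ l ∈ S, a :: l ∈ T) {c : Ch α}
    (hc : c ∈ Sup S) : cone a c ∈ Sup T := by
  refine map_Sup (cone a) (Sup T) ?_ hc
  intro l hl
  rw [cone_single]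
  exact single_mem_Sup (h l hl) 1

theorem Sup_mono {S T : Set (List α)} (h : S ⊆ T) {c : Ch α} (hc : c ∈ Sup S) : c ∈ Sup T :=
  Finsupp.supported_mono h hc

end

end Tor
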