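import Mathlib

/-! MP_05cdf2_gt, stream B-Sp (helper49): modules of type FP_n. Definition and the elementary lemmas
about short exact sequences.

All rings and modules live in `Type`. `FP R 0 M` means finitely generated, `FP R (n+1) M` means that
there is a surjection from a finitely generated free module whose kernel is `FP R n`.
-/

set_option autoImplicit false

namespace Tor

/-- modules of type FP_n over a ring -/
def FP (R : Type) [Ring R] : ℕ → (M : Type) → [AddCommGroup M] → [Module R M] → Prop
  | 0, M, _, _ => Module.Finite R M
  | n + 1, M, _, _ => ∃ (k : ℕ) (f : (Fin k → R) →ₗ[R] M),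
      Function.Surjective f ∧ FP R n (LinearMap.ker f)

/-- type FP_infinity -/
def FPI (R : Type) [Ring R] (M : Type) [AddCommGroup M] [Module R M] : Prop := ∀ n, FP R n M

end Tor
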