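import Mathlib
import Pool.Agent.Lib.MP_05cdf2_gt.B.FPDef

/-! MP_05cdf2_gt, B-Sp, job FPa: first properties of FP_n.

`FP.iso`: by cases on `n`: `n = 0` is `Module.Finite.equiv`, `n + 1`: compose the surjection with the
equivalence, the kernel is the same submodule (`LinearMap.ker_comp` with an injective map), so use
`LinearEquiv.ofEq` and the case `n` (prove it by induction on `n` generalizing the modules, or directly
note that the kernels are EQUAL submodules and rewrite).

`FP.free`: `Fin k → R` : `n = 0` is an instance; `n + 1`: take `f = id`, the kernel is `⊥`; so we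
need `FP R n` of a zero module (`FP.of_subsingleton`, by induction on `n`: take `k = 0`, the kernel of
`(Fin 0 → R) → M` is subsingleton).

`FP.down`: `FP R (n+1) M → FP R n M`, induction on `n` generalizing `M`.

`FP.ext` (horseshoe): `0 → A → B → C → 0` exact, `A` and `C` of type FP_n, then `B` is. Induction on `n`
generalizing the modules. `n = 0`: `Module.Finite.of_submodule_quotient` or
`Module.Finite` of an extension (`Submodule.fg_of_fg_map_of_fg_inf_ker`). Step: `a : (Fin k → R) → A`,
`c : (Fin l → R) → C` with kernels FP_n. Lift `c` through `g` to `c' : (Fin l → R) → B` (choose images of the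
basis vectors, `Module.projective_lifting_property` or `Fintype.linearCombination`). Put
`b : (Fin (k + l) → R) → B`, `b (x, y) = i (a x) + c' y` (transport along `Fin.appendEquiv` or
`(Fin k → R) × (Fin l → R) ≃ₗ (Fin (k + l) → R)`, there is `LinearEquiv.sumArrowLequivProdArrow` and
`finSumFinEquiv`). It is surjective, and `0 → ker a → ker b → ker c → 0` is exact (snake lemma by hand:
`(x, y) ∈ ker b ⟹ c y = g (b (x, y)) = 0`; given `y ∈ ker c`, `g (c' y) = 0` so `c' y = i t`, `t = a x`,
and `(-x, y) ∈ ker b`).

`FP.quot`: `0 → A → B → C → 0` exact, `B` FP_{n+1}, `A` FP_n, then `C` is FP_{n+1}. Take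
`f : (Fin k → R) → B` surjective with kernel FP_n, then `g ∘ f` is surjective onto `C` and
`0 → ker f → ker (g ∘ f) → A → 0` is exact; apply `FP.ext`.
-/

set_option autoImplicit false

namespace Tor
variable {R : Type} [Ring R]

theorem FP.iso {n : ℕ} {M N : Type} [AddCommGroup M] [Module R M] [AddCommGroup N] [Module R N]
    (h : FP R n M) (e : M ≃ₗ[R] N) : FP R n N := by
  cases n with
  | zero =>
    have h1 : Module.Finite R M := h
    exact Module.Finite.equiv e
  | succ n =>
    obtain ⟨k, f, hf, hk⟩ := h
    refine ⟨k, e.toLinearMap.comp f, e.surjective.comp hf, ?_⟩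
    have h2 : LinearMap.ker (e.toLinearMap.comp f) = LinearMap.ker f := by
      ext x
      simp
    rw [h2]
    exact hk

theorem FP.of_subsingleton (n : ℕ) {M : Type} [AddCommGroup M] [Module R M] [Subsingleton M] :
    FP R n M := by
  induction n generalizing M with
  | zero =>
    change Module.Finite R M
    infer_instance
  | succ n ih =>
    refine ⟨0, 0, fun x => ⟨0, Subsingleton.elim _ _⟩, ?_⟩
    exact ih

theorem FP.free (n k : ℕ) : FP R n (Fin k → R) := by
  cases n with
  | zero =>
    change Module.Finite R (Fin k → R)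
    infer_instance
  | succ n =>
    refine ⟨k, LinearMap.id, Function.surjective_id, ?_⟩
    rw [LinearMap.ker_id]
    exact FP.of_subsingleton n

theorem FP.self (n : ℕ) : FP R n R :=
  FP.iso (FP.free n 1) (LinearEquiv.funUnique (Fin 1) R R)

theorem FP.down {n : ℕ} {M : Type} [AddCommGroup M] [Module R M] (h : FP R (n + 1) M) :
    FP R n M := by
  induction n generalizing M with
  | zero =>
    obtain ⟨k, f, hf, _⟩ := h
    exact Module.Finite.of_surjective f hf
  | succ n ih =>
    obtain ⟨k, f, hf, hk⟩ := h
    exact ⟨k, f, hf, ih hk⟩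

/-- A surjection from a product of two finite free modules with kernel of type FP_n. -/
theorem fpa_prod {n k l : ℕ} {B : Type} [AddCommGroup B] [Module R B]
    (b : ((Fin k → R) × (Fin l → R)) →ₗ[R] B) (hb : Function.Surjective b)
    (h : FP R n (LinearMap.ker b)) : FP R (n + 1) B := by
  let e : (Fin (k + l) → R) ≃ₗ[R] (Fin k → R) × (Fin l → R) :=
    (LinearEquiv.funCongrLeft R R finSumFinEquiv).trans
      (LinearEquiv.sumArrowLequivProdArrow (Fin k) (Fin l) R R)
  refine ⟨k + l, b.comp e.toLinearMap, hb.comp e.surjective, ?_⟩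
  rw [LinearMap.ker_comp]
  exact FP.iso h (LinearEquiv.ofSubmodule' e (LinearMap.ker b)).symm

theorem FP.ext {n : ℕ} {A B C : Type} [AddCommGroup A] [Module R A] [AddCommGroup B] [Module R B]
    [AddCommGroup C] [Module R C] (i : A →ₗ[R] B) (g : B →ₗ[R] C) (hi : Function.Injective i)
    (hg : Function.Surjective g) (hex : ∀ b, g b = 0 ↔ ∃ a, i a = b)
    (hA : FP R n A) (hC : FP R n C) : FP R n B := by
  induction n generalizing A B C with
  | zero =>
    have h1 : Module.Finite R A := hA
    have h2 : Module.Finite R C := hC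
    have h3 : LinearMap.ker g = LinearMap.range i := by
      ext b
      rw [LinearMap.mem_ker, LinearMap.mem_range]
      exact hex b
    have h4 : Module.Finite R (LinearMap.ker g) := by
      rw [h3]
      infer_instance
    have h5 : Module.Finite R (B ⧸ LinearMap.ker g) :=
      Module.Finite.equiv (LinearMap.quotKerEquivOfSurjective g hg).symm
    exact Module.Finite.of_submodule_quotient (LinearMap.ker g)
  | succ n ih =>
    obtain ⟨k, a, ha, hka⟩ := hA
    obtain ⟨l, c, hc, hkc⟩ := hC
    obtain ⟨c', hc'⟩ := Module.projective_lifting_property g c hg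
    have hgc : ∀ y, g (c' y) = c y := fun y => LinearMap.congr_fun hc' y
    have hgi : ∀ x, g (i x) = 0 := fun x => (hex _).2 ⟨x, rfl⟩
    let b : ((Fin k → R) × (Fin l → R)) →ₗ[R] B := LinearMap.coprod (i.comp a) c'
    have hb : ∀ x y, b (x, y) = i (a x) + c' y := fun x y => by
      simp [b]
    have hbs : Function.Surjective b := by
      intro z
      obtain ⟨y, hy⟩ := hc (g z)
      have h1 : g (z - c' y) = 0 := by
        rw [map_sub, hgc, hy, sub_self]
      obtain ⟨t, ht⟩ := (hex _).1 h1
      obtain ⟨x, hx⟩ := ha t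
      refine ⟨(x, y), ?_⟩
      rw [hb, hx, ht]
      abel
    refine fpa_prod b hbs ?_
    have hi1 : ∀ x : LinearMap.ker a, ((LinearMap.inl R (Fin k → R) (Fin l → R)).comp
        (LinearMap.ker a).subtype) x ∈ LinearMap.ker b := by
      intro x
      have hx : a x = 0 := x.2
      rw [LinearMap.mem_ker]
      change b ((x : Fin k → R), 0) = 0
      rw [hb, hx, map_zero, map_zero, add_zero]
    have hg1 : ∀ z : LinearMap.ker b, ((LinearMap.snd R (Fin k → R) (Fin l → R)).comp
        (LinearMap.ker b).subtype) z ∈ LinearMap.ker c := by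
      intro z
      have hz : b (z.1.1, z.1.2) = 0 := z.2
      rw [LinearMap.mem_ker]
      change c z.1.2 = 0
      rw [← hgc]
      have h2 : c' z.1.2 = - i (a z.1.1) := by
        rw [hb] at hz
        exact eq_neg_of_add_eq_zero_right hz
      rw [h2, map_neg, hgi, neg_zero]
    refine ih (LinearMap.codRestrict (LinearMap.ker b) _ hi1)
      (LinearMap.codRestrict (LinearMap.ker c) _ hg1) ?_ ?_ ?_ hka hkc
    · intro x x' h
      have h1 := congrArg (fun z : LinearMap.ker b => z.1.1) h
      exact Subtype.ext h1
    · rintro ⟨y, hy⟩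
      have hy0 : c y = 0 := hy
      have h1 : g (c' y) = 0 := by rw [hgc, hy0]
      obtain ⟨t, ht⟩ := (hex _).1 h1
      obtain ⟨x, hx⟩ := ha t
      refine ⟨⟨(-x, y), ?_⟩, ?_⟩
      · rw [LinearMap.mem_ker, hb, map_neg, map_neg, hx, ht, neg_add_cancel]
      · exact Subtype.ext rfl
    · rintro ⟨⟨x, y⟩, hxy⟩
      constructor
      · intro h
        have hy : y = 0 := congrArg Subtype.val h
        subst hy
        have h1 : b (x, 0) = 0 := hxy
        rw [hb, map_zero, add_zero] at h1
        have h2 : a x = 0 := hi (by rw [h1, map_zero])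
        exact ⟨⟨x, h2⟩, Subtype.ext rfl⟩
      · rintro ⟨z, hz⟩
        have h1 := congrArg (fun w : LinearMap.ker b => w.1.2) hz
        have h2 : (0 : Fin l → R) = y := h1
        exact Subtype.ext h2.symm

theorem FP.quot {n : ℕ} {A B C : Type} [AddCommGroup A] [Module R A] [AddCommGroup B] [Module R B]
    [AddCommGroup C] [Module R C] (i : A →ₗ[R] B) (g : B →ₗ[R] C) (hi : Function.Injective i)
    (hg : Function.Surjective g) (hex : ∀ b, g b = 0 ↔ ∃ a, i a = b)
    (hA : FP R n A) (hB : FP R (n + 1) B) : FP R (n + 1) C := by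
  obtain ⟨k, f, hf, hk⟩ := hB
  refine ⟨k, g.comp f, hg.comp hf, ?_⟩
  have hle : LinearMap.ker f ≤ LinearMap.ker (g.comp f) := LinearMap.ker_le_ker_comp f g
  have hr : ∀ x : LinearMap.ker (g.comp f),
      (f.comp (LinearMap.ker (g.comp f)).subtype) x ∈ LinearMap.range i := by
    intro x
    have hx : g (f x) = 0 := x.2
    exact (hex _).1 hx
  let p : LinearMap.ker (g.comp f) →ₗ[R] A :=
    (LinearEquiv.ofInjective i hi).symm.toLinearMap.comp
      (LinearMap.codRestrict (LinearMap.range i) _ hr)
  have hp : ∀ x : LinearMap.ker (g.comp f), i (p x) = f x := by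
    intro x
    have h1 := (LinearEquiv.ofInjective i hi).apply_symm_apply
      ((LinearMap.codRestrict (LinearMap.range i) _ hr) x)
    exact congrArg Subtype.val h1
  refine FP.ext (Submodule.inclusion hle) p ?_ ?_ ?_ hk hA
  · exact Submodule.inclusion_injective hle
  · intro t
    obtain ⟨x, hx⟩ := hf (i t)
    have h1 : g (f x) = 0 := by
      rw [hx]
      exact (hex _).2 ⟨t, rfl⟩
    refine ⟨⟨x, h1⟩, hi ?_⟩
    rw [hp]
    exact hx
  · intro x
    constructor
    · intro h
      have h1 : f x = 0 := by rw [← hp, h, map_zero]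
      exact ⟨⟨x, h1⟩, Subtype.ext rfl⟩
    · rintro ⟨y, rfl⟩
      refine hi ?_
      rw [hp, map_zero]
      exact y.2

end Tor
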