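import Mathlib
import Pool.Agent.Lib.MP_05cdf2_gt.B.FPa

/-! MP_05cdf2_gt, B-Sp, job FPb: Schanuel, kernels.

`FP.ker_of_surj` (Schanuel): if `M` is FP_{n+1} and `f : (Fin k → R) → M` is ANY surjection then
`ker f` is FP_n. Proof: let `f' : (Fin l → R) → M` be a surjection with `ker f'` FP_n (definition). Put
`P = {(x, y) : f x = f' y}` (submodule of the product, a kernel of `f.coprod (-f')`).
`P → (Fin k → R)` is surjective with kernel `≅ ker f'`, so `P` is FP_n by `FP.ext`
(`FP.free`). `P → (Fin l → R)` is surjective with kernel `≅ ker f`, and it splits since `Fin l → R` is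
projective: choose a section `s`, so `ker f` is a quotient of `P` (`(x,y) ↦ (x,y) - s(y)`) with kernel the
image of `s`, isomorphic to `Fin l → R`. If `n = 0`: quotient of a finite module. If `n = m + 1`:
`FP.quot` with `A = (Fin l → R)`.

`FP.ker`: `0 → A → B → C → 0` exact, `B` FP_n, `C` FP_{n+1}, then `A` FP_n. Induction on `n` not needed:
take `f : (Fin k → R) → B` surjective (finite generation of `B`, from `FP.finite`), with (if `n = m+1`)
`ker f` FP_m by `FP.ker_of_surj`; `g ∘ f` is surjective so `ker (g ∘ f)` is FP_n by `FP.ker_of_surj`;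
`ker (g ∘ f) → A` is surjective with kernel `ker f`. For `n = 0`: quotient of a finite module is finite.
For `n = m + 1`: `FP.quot`.
-/

set_option autoImplicit false

namespace Tor
variable {R : Type} [Ring R]

theorem FP.finite {n : ℕ} {M : Type} [AddCommGroup M] [Module R M] (h : FP R n M) :
    Module.Finite R M := by
  cases n with
  | zero => exact h
  | succ n =>
    obtain ⟨k, f, hf, _⟩ := h
    exact Module.Finite.of_surjective f hf

theorem FP.ker_of_surj {n k : ℕ} {M : Type} [AddCommGroup M] [Module R M]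
    (h : FP R (n + 1) M) (f : (Fin k → R) →ₗ[R] M) (hf : Function.Surjective f) :
    FP R n (LinearMap.ker f) := by
  obtain ⟨l, f', hf', hk'⟩ := h
  let q : ((Fin k → R) × (Fin l → R)) →ₗ[R] M :=
    f.comp (LinearMap.fst R _ _) - f'.comp (LinearMap.snd R _ _)
  have hq : ∀ x y, q (x, y) = f x - f' y := fun x y => rfl
  have hmem : ∀ z : LinearMap.ker q, f z.1.1 = f' z.1.2 := fun z =>
    sub_eq_zero.1 (show f z.1.1 - f' z.1.2 = 0 from z.2)
  have hi1 : ∀ y : LinearMap.ker f', ((LinearMap.inr R (Fin k → R) (Fin l → R)).comp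
      (LinearMap.ker f').subtype) y ∈ LinearMap.ker q := by
    intro y
    have hy : f' y = 0 := y.2
    rw [LinearMap.mem_ker]
    change q (0, (y : Fin l → R)) = 0
    rw [hq, hy, map_zero, sub_zero]
  have hP : FP R n (LinearMap.ker q) := by
    refine FP.ext (LinearMap.codRestrict (LinearMap.ker q) _ hi1)
      ((LinearMap.fst R (Fin k → R) (Fin l → R)).comp (LinearMap.ker q).subtype) ?_ ?_ ?_ hk'
      (FP.free n k)
    · intro x x' hx
      have h1 := congrArg (fun z : LinearMap.ker q => z.1.2) hx
      exact Subtype.ext h1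
    · intro x
      obtain ⟨y, hy⟩ := hf' (f x)
      refine ⟨⟨(x, y), ?_⟩, rfl⟩
      rw [LinearMap.mem_ker, hq, hy, sub_self]
    · rintro ⟨⟨x, y⟩, hxy⟩
      constructor
      · intro h
        have hx : x = 0 := h
        subst hx
        have h1 : q (0, y) = 0 := hxy
        rw [hq, map_zero, zero_sub, neg_eq_zero] at h1
        exact ⟨⟨y, h1⟩, Subtype.ext rfl⟩
      · rintro ⟨z, hz⟩
        have h1 := congrArg (fun w : LinearMap.ker q => w.1.1) hz
        have h2 : (0 : Fin k → R) = x := h1
        exact h2.symm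
  have hp2 : Function.Surjective
      ((LinearMap.snd R (Fin k → R) (Fin l → R)).comp (LinearMap.ker q).subtype) := by
    intro y
    obtain ⟨x, hx⟩ := hf (f' y)
    refine ⟨⟨(x, y), ?_⟩, rfl⟩
    rw [LinearMap.mem_ker, hq, hx, sub_self]
  obtain ⟨s, hs⟩ := Module.projective_lifting_property _ (LinearMap.id : (Fin l → R) →ₗ[R] _) hp2
  have hs2 : ∀ y, (s y).1.2 = y := fun y => LinearMap.congr_fun hs y
  have hg1 : ∀ z : LinearMap.ker q,
      ((LinearMap.fst R (Fin k → R) (Fin l → R)).comp (LinearMap.ker q).subtype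
        - ((LinearMap.fst R (Fin k → R) (Fin l → R)).comp (LinearMap.ker q).subtype).comp
          (s.comp ((LinearMap.snd R (Fin k → R) (Fin l → R)).comp (LinearMap.ker q).subtype))) z
        ∈ LinearMap.ker f := by
    intro z
    rw [LinearMap.mem_ker]
    change f (z.1.1 - (s z.1.2).1.1) = 0
    rw [map_sub, hmem z, hmem (s z.1.2), hs2, sub_self]
  have hgs : Function.Surjective (LinearMap.codRestrict (LinearMap.ker f) _ hg1) := by
    rintro ⟨x, hx⟩
    have hx0 : f x = 0 := hx
    refine ⟨⟨(x, 0), ?_⟩, Subtype.ext ?_⟩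
    · rw [LinearMap.mem_ker, hq, hx0, map_zero, sub_zero]
    · change x - (s 0).1.1 = x
      rw [map_zero]
      exact sub_zero x
  cases n with
  | zero =>
    have h1 : Module.Finite R (LinearMap.ker q) := hP
    exact Module.Finite.of_surjective _ hgs
  | succ m =>
    refine FP.quot s (LinearMap.codRestrict (LinearMap.ker f) _ hg1) ?_ hgs ?_ (FP.free m l) hP
    · intro y y' h
      rw [← hs2 y, h, hs2]
    · intro z
      constructor
      · intro h
        have h1 : z.1.1 - (s z.1.2).1.1 = 0 := congrArg Subtype.val h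
        refine ⟨z.1.2, Subtype.ext (Prod.ext ?_ ?_)⟩
        · exact (sub_eq_zero.1 h1).symm
        · exact hs2 z.1.2
      · rintro ⟨y, rfl⟩
        refine Subtype.ext ?_
        change (s y).1.1 - (s (s y).1.2).1.1 = 0
        rw [hs2, sub_self]

/-- The map to `A` from the kernel of `g ∘ f`. -/
theorem fpb_proj {A B C D : Type} [AddCommGroup A] [Module R A] [AddCommGroup B] [Module R B]
    [AddCommGroup C] [Module R C] [AddCommGroup D] [Module R D]
    (i : A →ₗ[R] B) (g : B →ₗ[R] C) (hi : Function.Injective i)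
    (hex : ∀ b, g b = 0 ↔ ∃ a, i a = b) (f : D →ₗ[R] B) :
    ∃ p : LinearMap.ker (g.comp f) →ₗ[R] A, ∀ x : LinearMap.ker (g.comp f), i (p x) = f x := by
  have hr : ∀ x : LinearMap.ker (g.comp f),
      (f.comp (LinearMap.ker (g.comp f)).subtype) x ∈ LinearMap.range i := by
    intro x
    have hx : g (f x) = 0 := x.2
    exact (hex _).1 hx
  refine ⟨(LinearEquiv.ofInjective i hi).symm.toLinearMap.comp
    (LinearMap.codRestrict (LinearMap.range i) _ hr), fun x => ?_⟩
  have h1 := (LinearEquiv.ofInjective i hi).apply_symm_apply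
    ((LinearMap.codRestrict (LinearMap.range i) _ hr) x)
  exact congrArg Subtype.val h1

theorem FP.ker {n : ℕ} {A B C : Type} [AddCommGroup A] [Module R A] [AddCommGroup B] [Module R B]
    [AddCommGroup C] [Module R C] (i : A →ₗ[R] B) (g : B →ₗ[R] C) (hi : Function.Injective i)
    (hg : Function.Surjective g) (hex : ∀ b, g b = 0 ↔ ∃ a, i a = b)
    (hB : FP R n B) (hC : FP R (n + 1) C) : FP R n A := by
  have hfin : Module.Finite R B := hB.finite
  obtain ⟨k, f, hf⟩ := Module.Finite.exists_fin' R B
  have hK : FP R n (LinearMap.ker (g.comp f)) := hC.ker_of_surj (g.comp f) (hg.comp hf)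
  obtain ⟨p, hp⟩ := fpb_proj i g hi hex f
  have hps : Function.Surjective p := by
    intro t
    obtain ⟨x, hx⟩ := hf (i t)
    have h1 : g (f x) = 0 := by
      rw [hx]
      exact (hex _).2 ⟨t, rfl⟩
    refine ⟨⟨x, h1⟩, hi ?_⟩
    rw [hp]
    exact hx
  cases n with
  | zero =>
    have h1 : Module.Finite R (LinearMap.ker (g.comp f)) := hK
    exact Module.Finite.of_surjective p hps
  | succ m =>
    have hle : LinearMap.ker f ≤ LinearMap.ker (g.comp f) := LinearMap.ker_le_ker_comp f g
    refine FP.quot (Submodule.inclusion hle) p (Submodule.inclusion_injective hle) hps ?_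
      (hB.ker_of_surj f hf) hK
    intro x
    constructor
    · intro h
      have h1 : f x = 0 := by rw [← hp, h, map_zero]
      exact ⟨⟨x, h1⟩, Subtype.ext rfl⟩
    · rintro ⟨y, rfl⟩
      refine hi ?_
      rw [hp, map_zero]
      exact y.2

end Tor
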