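import Mathlib
import Pool.Agent.Lib.MP_05cdf2_gt.B.FPb

/-! MP_05cdf2_gt, B-Sp, job FPc: FPI modules: two out of three, exact complexes, restriction of scalars.

`FPI.ext, FPI.quot, FPI.ker`: two out of three, immediate from `FP.ext, FP.quot, FP.ker` (and `FP.down`).
`FPI.prod, FPI.pi`: from `FPI.ext` (for `pi` induction on `k`, with `Fin.consLinearEquiv` or the maps
`x ↦ x 0` and `x ↦ fun i => x i.succ`; `k = 0`: `FP.of_subsingleton`).

`FPI.of_exact`: an exact complex `... → D 1 → D 0 → M → 0` with all `D i` FPI gives `M` FPI. Prove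
`∀ n, ∀ M D ..., FP R n M` by induction on `n`: `M` is a quotient of `D 0` by `K = range (d 0)`, which is
resolved by the complex `D (i + 1)` (with `e := (d 0).rangeRestrict`); `n = 0`: quotient of a finite module;
`n + 1`: `K` FP_n by induction, `FP.quot`.

`FPI.of_noetherian`: prove `∀ n M, Module.Finite R M → FP R n M` by induction on `n`; the kernel of a map out of
`Fin k → R` is finite by noetherianity.

`FP.restrict`: induction on `n` generalizing `M`. `n = 0`: `M` is generated by finitely many elements over `S` and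
`S` by finitely many over `R`. `n + 1`: `f : (Fin k → S) → M` surjective over `S`; `(Fin k → S)` is FPI over `R` by
`FPI.pi` (module structure `Pi.module`), `ker f` is FP_n over `R` by induction, apply `FP.quot` to the `R`-linear
maps `ker f → (Fin k → S) → M` (the same functions; build them by hand with `hS`, `hM`). The `R`-module
structure on `ker f`: `Module.compHom _ φ`.
-/

set_option autoImplicit false

namespace Tor
variable {R : Type} [Ring R]

theorem FPI.iso {M N : Type} [AddCommGroup M] [Module R M] [AddCommGroup N] [Module R N]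
    (h : FPI R M) (e : M ≃ₗ[R] N) : FPI R N := fun n => (h n).iso e

theorem FPI.ext {A B C : Type} [AddCommGroup A] [Module R A] [AddCommGroup B] [Module R B]
    [AddCommGroup C] [Module R C] (i : A →ₗ[R] B) (g : B →ₗ[R] C) (hi : Function.Injective i)
    (hg : Function.Surjective g) (hex : ∀ b, g b = 0 ↔ ∃ a, i a = b)
    (hA : FPI R A) (hC : FPI R C) : FPI R B := by
  exact fun n => FP.ext i g hi hg hex (hA n) (hC n)

theorem FPI.quot {A B C : Type} [AddCommGroup A] [Module R A] [AddCommGroup B] [Module R B]
    [AddCommGroup C] [Module R C] (i : A →ₗ[R] B) (g : B →ₗ[R] C) (hi : Function.Injective i)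
    (hg : Function.Surjective g) (hex : ∀ b, g b = 0 ↔ ∃ a, i a = b)
    (hA : FPI R A) (hB : FPI R B) : FPI R C := by
  exact fun n => (FP.quot i g hi hg hex (hA n) (hB (n + 1))).down

theorem FPI.ker {A B C : Type} [AddCommGroup A] [Module R A] [AddCommGroup B] [Module R B]
    [AddCommGroup C] [Module R C] (i : A →ₗ[R] B) (g : B →ₗ[R] C) (hi : Function.Injective i)
    (hg : Function.Surjective g) (hex : ∀ b, g b = 0 ↔ ∃ a, i a = b)
    (hB : FPI R B) (hC : FPI R C) : FPI R A := by
  exact fun n => FP.ker i g hi hg hex (hB n) (hC (n + 1))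

theorem FPI.prod {A B : Type} [AddCommGroup A] [Module R A] [AddCommGroup B] [Module R B]
    (hA : FPI R A) (hB : FPI R B) : FPI R (A × B) := by
  refine FPI.ext (LinearMap.inl R A B) (LinearMap.snd R A B) LinearMap.inl_injective
    LinearMap.snd_surjective ?_ hA hB
  rintro ⟨a, b⟩
  constructor
  · intro h
    have hb : b = 0 := h
    exact ⟨a, by rw [hb]; rfl⟩
  · rintro ⟨a', h⟩
    exact (congrArg Prod.snd h).symm

/-- the inclusion of the last coordinates -/
def fpc_cons {k : ℕ} (A : Fin (k + 1) → Type) [∀ i, AddCommGroup (A i)] [∀ i, Module R (A i)] :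
    (∀ i : Fin k, A i.succ) →ₗ[R] (∀ i, A i) where
  toFun x := Fin.cons 0 x
  map_add' x y := by
    funext i
    refine Fin.cases ?_ (fun i => ?_) i
    · exact (add_zero (0 : A 0)).symm
    · rfl
  map_smul' r x := by
    funext i
    refine Fin.cases ?_ (fun i => ?_) i
    · exact (smul_zero r).symm
    · rfl

/-- finite products -/
theorem FPI.pi (k : ℕ) (A : Fin k → Type) [∀ i, AddCommGroup (A i)] [∀ i, Module R (A i)]
    (hA : ∀ i, FPI R (A i)) : FPI R (∀ i, A i) := by
  induction k with
  | zero => exact fun n => FP.of_subsingleton n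
  | succ k ih =>
    have h1 : FPI R (∀ i : Fin k, A i.succ) := ih (fun i => A i.succ) (fun i => hA i.succ)
    refine FPI.ext (fpc_cons A) (LinearMap.proj 0) ?_ ?_ ?_ h1 (hA 0)
    · intro x y hxy
      funext i
      have := congrFun hxy i.succ
      exact this
    · intro a
      exact ⟨Fin.cons a (fun _ => 0), rfl⟩
    · intro x
      constructor
      · intro h
        refine ⟨fun i => x i.succ, ?_⟩
        funext i
        refine Fin.cases ?_ (fun i => ?_) i
        · exact h.symm
        · rfl
      · rintro ⟨a, rfl⟩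
        rfl

theorem fpc_of_exact (n : ℕ) : ∀ (D : ℕ → Type) [∀ i, AddCommGroup (D i)] [∀ i, Module R (D i)]
    (_hD : ∀ i, FPI R (D i)) (M : Type) [AddCommGroup M] [Module R M]
    (d : ∀ i, D (i + 1) →ₗ[R] D i) (e : D 0 →ₗ[R] M) (_he : Function.Surjective e)
    (_h0 : ∀ x, e x = 0 ↔ ∃ y, d 0 y = x) (_hi : ∀ i x, d i x = 0 ↔ ∃ y, d (i + 1) y = x),
    FP R n M := by
  induction n with
  | zero =>
    intro D _ _ hD M _ _ d e he h0 hi
    have h1 : Module.Finite R (D 0) := hD 0 0
    exact Module.Finite.of_surjective e he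
  | succ n ih =>
    intro D _ _ hD M _ _ d e he h0 hi
    have hK : FP R n (LinearMap.range (d 0)) := by
      refine ih (fun i => D (i + 1)) (fun i => hD (i + 1)) (LinearMap.range (d 0))
        (fun i => d (i + 1)) (d 0).rangeRestrict (LinearMap.surjective_rangeRestrict _) ?_
        (fun i x => hi (i + 1) x)
      intro x
      rw [← hi 0 x]
      constructor
      · intro h
        exact congrArg Subtype.val h
      · intro h
        exact Subtype.ext h
    refine FP.quot (LinearMap.range (d 0)).subtype e Subtype.val_injective he ?_ hK (hD 0 (n + 1))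
    intro b
    rw [h0 b]
    constructor
    · rintro ⟨y, rfl⟩
      exact ⟨⟨d 0 y, ⟨y, rfl⟩⟩, rfl⟩
    · rintro ⟨⟨a, ⟨y, hy⟩⟩, rfl⟩
      exact ⟨y, hy⟩

theorem FPI.of_exact (D : ℕ → Type) [∀ i, AddCommGroup (D i)] [∀ i, Module R (D i)]
    (hD : ∀ i, FPI R (D i)) (M : Type) [AddCommGroup M] [Module R M]
    (d : ∀ i, D (i + 1) →ₗ[R] D i) (e : D 0 →ₗ[R] M) (he : Function.Surjective e)
    (h0 : ∀ x, e x = 0 ↔ ∃ y, d 0 y = x) (hi : ∀ i x, d i x = 0 ↔ ∃ y, d (i + 1) y = x) :
    FPI R M := by
  exact fun n => fpc_of_exact n D hD M d e he h0 hi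

theorem fpc_noeth [IsNoetherianRing R] (n : ℕ) : ∀ (M : Type) [AddCommGroup M] [Module R M]
    [Module.Finite R M], FP R n M := by
  induction n with
  | zero =>
    intro M _ _ hM
    exact hM
  | succ n ih =>
    intro M _ _ hM
    obtain ⟨k, f, hf⟩ := Module.Finite.exists_fin' R M
    exact ⟨k, f, hf, ih (LinearMap.ker f)⟩

/-- over a noetherian ring every finitely generated module is FPI -/
theorem FPI.of_noetherian [IsNoetherianRing R] {M : Type} [AddCommGroup M] [Module R M]
    [Module.Finite R M] : FPI R M := by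
  exact fun n => fpc_noeth n M

theorem fpc_restrict {S : Type} [Ring S] (φ : R →+* S) [Module R S]
    (hS : ∀ (r : R) (s : S), r • s = φ r * s) (hRS : FPI R S) (n : ℕ) :
    ∀ (M : Type) [AddCommGroup M] [Module S M] [Module R M]
      (_hM : ∀ (r : R) (m : M), r • m = φ r • m) (_h : FP S n M), FP R n M := by
  induction n with
  | zero =>
    intro M _ _ _ hM h
    have h1 : Module.Finite S M := h
    have h2 : Module.Finite R S := hRS 0
    have h3 : IsScalarTower R S M := ⟨fun r s m => by
      rw [hS, mul_smul, ← hM]⟩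
    exact Module.Finite.trans S M
  | succ n ih =>
    intro M _ _ _ hM h
    obtain ⟨k, f, hf, hk⟩ := h
    let _ : Module R (LinearMap.ker f) := Module.compHom (LinearMap.ker f) φ
    have h1 : FP R n (LinearMap.ker f) := ih (LinearMap.ker f) (fun r m => rfl) hk
    have h2 : FPI R (Fin k → S) := FPI.pi k (fun _ => S) (fun _ => hRS)
    have hr : ∀ (r : R) (x : Fin k → S), r • x = φ r • x := by
      intro r x
      funext j
      exact hS r (x j)
    let g : (Fin k → S) →ₗ[R] M :=
      { toFun := f
        map_add' := f.map_add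
        map_smul' := fun r x => by
          rw [hr, f.map_smul, RingHom.id_apply, hM] }
    let i : (LinearMap.ker f) →ₗ[R] (Fin k → S) :=
      { toFun := Subtype.val
        map_add' := fun x y => rfl
        map_smul' := fun r x => by
          rw [RingHom.id_apply, hr]
          rfl }
    refine FP.quot i g Subtype.val_injective hf ?_ h1 (h2 (n + 1))
    intro b
    constructor
    · intro hb
      exact ⟨⟨b, hb⟩, rfl⟩
    · rintro ⟨a, rfl⟩
      exact a.2

/-- restriction of scalars along `φ : R → S`, if `S` is FPI over `R` -/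
theorem FP.restrict {S : Type} [Ring S] (φ : R →+* S) [Module R S] (hS : ∀ (r : R) (s : S), r • s = φ r * s)
    (hRS : FPI R S) {n : ℕ} {M : Type} [AddCommGroup M] [Module S M] [Module R M]
    (hM : ∀ (r : R) (m : M), r • m = φ r • m) (h : FP S n M) : FP R n M := by
  exact fpc_restrict φ hS hRS n M hM h

end Tor
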