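import Mathlib
import Pool.Agent.Lib.MP_05cdf2_gt.B.FPc

/-! MP_05cdf2_gt, B-Sp, job Brown: an essentially acyclic filtered resolution (Brown's criterion).

`B 0 = M` is the module of interest, `B (k+1)` are projective, `d k : B (k+1) → B k`, `C n k ⊆ B k` (`n` = filtration
index) finitely generated for `k ≥ 1`; cycles `Z 0 = ⊤`, `Z (k+1) = ker (d k)`; every cycle in `C n k` is `d` of an element of `C m (k+1)`,
`m` depending on `n, k` only. Then `B 0` is FPI.

`Stage k K`: there are `n, a`, `ψ : K → Z k` with values in `C n k`, `φ : Z k → K`, `ι : K → R^a`, `β : R^a → K` linear with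
`φ (ψ x) = x + β (ι x)`.
(1) `stage_fin`: `Stage k K` implies `K` finitely generated: choose `m` for `(n, k)`. For `x ∈ K`: `ψ x = d w` with
`w ∈ C m (k+1)`, so `x = φ (d' w) - β (ι x)`, where `d' : B (k+1) → Z k` is the corestriction of `d k`. So `⊤ = map (φ ∘ d') (C m (k+1)) ⊔ range β`,
both finitely generated (`Submodule.FG.map`, `Submodule.FG.sup`).
(2) `stage_succ`: `Stage k K`, `π : R^b → K` surjective, `K' = ker π`; then `Stage (k+1) K'`. Choose for each basis vector `e_i` an element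
`w_i ∈ C m (k+1)` with `d w_i = ψ (π e_i)`; this gives `ψ' : R^b → B (k+1)` with values in `C m (k+1)` and `d' ∘ ψ' = ψ ∘ π`
(`(Pi.basisFun R (Fin b)).constr`, or `Fintype.linearCombination`, or `Module.projective_lifting_property`). `φ' : B (k+1) → R^b` with `π ∘ φ' = φ ∘ d'` (`B (k+1)` is
projective). `h₁ : R^a → R^b` with `π ∘ h₁ = β` (`R^a` projective). Let `D = φ' ∘ ψ' - id : R^b → R^b`;
`π ∘ D = φ d' ψ' - π = φ ψ π - π = β ι π`, so `β' := D - h₁ ι π` has values in `ker π = K'`. For `x ∈ K'`: `π x = 0`, so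
`β' x = φ' (ψ' x) - x`. Restrict: `ψ' x ∈ ker (d k)` for `x ∈ K'` as `d ψ' x = ψ π x = 0`; `φ' y ∈ K'` for `d y = 0`.
`a' = b`, `ι' = ` inclusion.
(3) `∀ j k K, Stage k K → FP R j K` by induction on `j` (`FP R 0` is `Module.Finite`).
(4) `Stage 0 (B 0)`: `n` with `C n 0 = ⊤`, `ψ`, `φ` the identity, `a = 0`, `β = 0`.
-/

set_option autoImplicit false

namespace Tor

section
variable {R : Type} [Ring R] (B : ℕ → Type) [∀ k, AddCommGroup (B k)] [∀ k, Module R (B k)]
  (d : ∀ k, B (k + 1) →ₗ[R] B k)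

/-- cycles -/
def brownZ : ∀ k, Submodule R (B k)
  | 0 => ⊤
  | k + 1 => LinearMap.ker (d k)

/-- the data of stage `k` for a module `K` -/
def BrownStage (C : ℕ → ∀ k, Submodule R (B k)) (k : ℕ) (K : Type) [AddCommGroup K] [Module R K] :
    Prop :=
  ∃ (n a : ℕ) (ψ : K →ₗ[R] brownZ B d k) (φ : brownZ B d k →ₗ[R] K) (ι : K →ₗ[R] (Fin a → R))
    (β : (Fin a → R) →ₗ[R] K), (∀ x, (ψ x : B k) ∈ C n k) ∧ ∀ x, φ (ψ x) = x + β (ι x)

theorem brown_mem (hdd : ∀ k x, d k (d (k + 1) x) = 0) : ∀ (k : ℕ) (x : B (k + 1)),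
    d k x ∈ brownZ B d k
  | 0, _ => Submodule.mem_top
  | k + 1, x => LinearMap.mem_ker.2 (hdd k x)

/-- the corestriction of `d k` to the cycles -/
def brownD (hdd : ∀ k x, d k (d (k + 1) x) = 0) (k : ℕ) : B (k + 1) →ₗ[R] brownZ B d k :=
  (d k).codRestrict (brownZ B d k) (brown_mem B d hdd k)

theorem brown_fin (hdd : ∀ k x, d k (d (k + 1) x) = 0)
    (C : ℕ → ∀ k, Submodule R (B k)) (hfg : ∀ n k, (C n (k + 1)).FG)
    (hess : ∀ k n, ∃ m, ∀ z ∈ C n k, z ∈ brownZ B d k → ∃ w ∈ C m (k + 1), d k w = z)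
    (k : ℕ) (K : Type) [AddCommGroup K] [Module R K] (h : BrownStage B d C k K) :
    Module.Finite R K := by
  obtain ⟨n, a, ψ, φ, ι, β, hψ, hφ⟩ := h
  obtain ⟨m, hm⟩ := hess k n
  have h1 : (Submodule.map (φ.comp (brownD B d hdd k)) (C m (k + 1)) ⊔ LinearMap.range β).FG := by
    refine Submodule.FG.sup ((hfg m k).map _) ?_
    rw [LinearMap.range_eq_map]
    exact (Module.Finite.fg_top).map _
  have h2 : (⊤ : Submodule R K) ≤
      Submodule.map (φ.comp (brownD B d hdd k)) (C m (k + 1)) ⊔ LinearMap.range β := by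
    intro x _
    obtain ⟨w, hw, hdw⟩ := hm (ψ x) (hψ x) (ψ x).2
    have h3 : brownD B d hdd k w = ψ x := Subtype.ext hdw
    have h4 : x = φ (brownD B d hdd k w) - β (ι x) := by
      rw [h3, hφ x]
      abel
    rw [h4]
    refine Submodule.sub_mem _ ?_ ?_
    · exact Submodule.mem_sup_left ⟨w, hw, rfl⟩
    · exact Submodule.mem_sup_right ⟨ι x, rfl⟩
  have h5 := top_le_iff.1 h2
  rw [h5] at h1
  exact ⟨h1⟩

theorem brown_succ (hdd : ∀ k x, d k (d (k + 1) x) = 0)
    (hproj : ∀ k, Module.Projective R (B (k + 1)))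
    (C : ℕ → ∀ k, Submodule R (B k))
    (hess : ∀ k n, ∃ m, ∀ z ∈ C n k, z ∈ brownZ B d k → ∃ w ∈ C m (k + 1), d k w = z)
    (k : ℕ) (K : Type) [AddCommGroup K] [Module R K] (h : BrownStage B d C k K)
    (b : ℕ) (π : (Fin b → R) →ₗ[R] K) (hπ : Function.Surjective π) :
    BrownStage B d C (k + 1) (LinearMap.ker π) := by
  obtain ⟨n, a, ψ, φ, ι, β, hψ, hφ⟩ := h
  obtain ⟨m, hm⟩ := hess k n
  have hw : ∀ i : Fin b, ∃ w ∈ C m (k + 1), d k w = ψ (π (Pi.basisFun R (Fin b) i)) :=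
    fun i => hm _ (hψ _) (ψ _).2
  choose w hwC hwd using hw
  let ψ' : (Fin b → R) →ₗ[R] B (k + 1) := (Pi.basisFun R (Fin b)).constr ℕ w
  have hψ'C : ∀ x, ψ' x ∈ C m (k + 1) := by
    intro x
    have h1 : ψ' x = ∑ i, (Pi.basisFun R (Fin b)).equivFun x i • w i :=
      (Pi.basisFun R (Fin b)).constr_apply_fintype ℕ w x
    rw [h1]
    exact Submodule.sum_mem _ fun i _ => Submodule.smul_mem _ _ (hwC i)
  have hψ'd : (brownD B d hdd k).comp ψ' = ψ.comp π := by
    refine (Pi.basisFun R (Fin b)).ext fun i => ?_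
    apply Subtype.ext
    have h1 : ψ' (Pi.basisFun R (Fin b) i) = w i := (Pi.basisFun R (Fin b)).constr_basis ℕ w i
    rw [LinearMap.comp_apply, LinearMap.comp_apply, h1]
    exact hwd i
  have : Module.Projective R (B (k + 1)) := hproj k
  obtain ⟨φ', hφ'⟩ := Module.projective_lifting_property π (φ.comp (brownD B d hdd k)) hπ
  obtain ⟨h₁, hh₁⟩ := Module.projective_lifting_property π β hπ
  have hπφ' : ∀ y, π (φ' y) = φ (brownD B d hdd k y) := fun y => LinearMap.congr_fun hφ' y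
  have hπh₁ : ∀ y, π (h₁ y) = β y := fun y => LinearMap.congr_fun hh₁ y
  have hdψ : ∀ x, brownD B d hdd k (ψ' x) = ψ (π x) := fun x => LinearMap.congr_fun hψ'd x
  let D : (Fin b → R) →ₗ[R] (Fin b → R) := φ'.comp ψ' - LinearMap.id - h₁.comp (ι.comp π)
  have hD : ∀ x, D x = φ' (ψ' x) - x - h₁ (ι (π x)) := fun _ => rfl
  have hβ' : ∀ x, D x ∈ LinearMap.ker π := by
    intro x
    rw [LinearMap.mem_ker, hD, map_sub, map_sub, hπφ', hπh₁, hdψ, hφ]
    abel
  have hmemψ : ∀ x : LinearMap.ker π, (ψ'.comp (LinearMap.ker π).subtype) x ∈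
      brownZ B d (k + 1) := by
    intro x
    refine LinearMap.mem_ker.2 ?_
    have h1 := hdψ x.1
    rw [LinearMap.mem_ker.1 x.2, map_zero] at h1
    exact congrArg Subtype.val h1
  have hmemφ : ∀ y : brownZ B d (k + 1), (φ'.comp (brownZ B d (k + 1)).subtype) y ∈
      LinearMap.ker π := by
    intro y
    refine LinearMap.mem_ker.2 ?_
    have h1 := hπφ' y.1
    have h2 : brownD B d hdd k y.1 = 0 := Subtype.ext (LinearMap.mem_ker.1 y.2)
    rw [h2, map_zero] at h1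
    exact h1
  refine ⟨m, b, (ψ'.comp (LinearMap.ker π).subtype).codRestrict (brownZ B d (k + 1)) hmemψ,
    (φ'.comp (brownZ B d (k + 1)).subtype).codRestrict (LinearMap.ker π) hmemφ,
    (LinearMap.ker π).subtype,
    D.codRestrict (LinearMap.ker π) hβ', ?_, ?_⟩
  · intro x
    exact hψ'C x.1
  · intro x
    apply Subtype.ext
    have h1 : φ' (ψ' x.1) = x.1 + (φ' (ψ' x.1) - x.1 - h₁ (ι (π x.1))) := by
      rw [LinearMap.mem_ker.1 x.2, map_zero, map_zero]
      abel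
    exact h1

theorem brown_zero (C : ℕ → ∀ k, Submodule R (B k)) (hC0 : ∃ n, C n 0 = ⊤) :
    BrownStage B d C 0 (B 0) := by
  obtain ⟨n, hn⟩ := hC0
  refine ⟨n, 0, LinearMap.id.codRestrict (brownZ B d 0) (fun _ => Submodule.mem_top),
    (brownZ B d 0).subtype, 0, 0, ?_, ?_⟩
  · intro x
    rw [hn]
    exact Submodule.mem_top
  · intro x
    have h1 : x = x + 0 := (add_zero x).symm
    exact h1

theorem brown_FP (hdd : ∀ k x, d k (d (k + 1) x) = 0)
    (hproj : ∀ k, Module.Projective R (B (k + 1)))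
    (C : ℕ → ∀ k, Submodule R (B k)) (hfg : ∀ n k, (C n (k + 1)).FG)
    (hess : ∀ k n, ∃ m, ∀ z ∈ C n k, z ∈ brownZ B d k → ∃ w ∈ C m (k + 1), d k w = z)
    (j : ℕ) : ∀ (k : ℕ) (K : Type) [AddCommGroup K] [Module R K] (_h : BrownStage B d C k K),
    FP R j K := by
  induction j with
  | zero =>
    intro k K _ _ h
    exact brown_fin B d hdd C hfg hess k K h
  | succ j ih =>
    intro k K _ _ h
    have : Module.Finite R K := brown_fin B d hdd C hfg hess k K h
    obtain ⟨b, π, hπ⟩ := Module.Finite.exists_fin' R K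
    exact ⟨b, π, hπ, ih (k + 1) (LinearMap.ker π)
      (brown_succ B d hdd hproj C hess k K h b π hπ)⟩

theorem FPI_of_ess (hdd : ∀ k x, d k (d (k + 1) x) = 0)
    (hproj : ∀ k, Module.Projective R (B (k + 1)))
    (C : ℕ → ∀ k, Submodule R (B k)) (hfg : ∀ n k, (C n (k + 1)).FG) (hC0 : ∃ n, C n 0 = ⊤)
    (hess : ∀ k n, ∃ m, ∀ z ∈ C n k, z ∈ brownZ B d k → ∃ w ∈ C m (k + 1), d k w = z) :
    FPI R (B 0) := by
  exact fun j => brown_FP B d hdd hproj C hfg hess j 0 (B 0) (brown_zero B d C hC0)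

end

end Tor
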