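import Mathlib
import Pool.Agent.Lib.MP_05cdf2_gt.B.FPDef

/-! MP_05cdf2_gt, B-Sp: permutation modules over the group ring `ℤ[G]`.
`PM G S` is the free abelian group `S →₀ ℤ` on a `G`-set `S` as module over `MonoidAlgebra ℤ G`.
`GFP G` : the group `G` is of type FP_infinity.
-/

set_option autoImplicit false

namespace Tor
open Finsupp

/-- the integral group ring -/
abbrev GA (G : Type) [Group G] : Type := MonoidAlgebra ℤ G

/-- the permutation module of a `G`-set, a copy of `S →₀ ℤ` -/
def PM (G S : Type) [Group G] [MulAction G S] : Type := S →₀ ℤ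

section
variable {G S T : Type} [Group G] [MulAction G S] [MulAction G T]

noncomputable instance PM.instAddCommGroup : AddCommGroup (PM G S) :=
  inferInstanceAs (AddCommGroup (S →₀ ℤ))

/-- the underlying abelian group -/
noncomputable def PM.eq (G S : Type) [Group G] [MulAction G S] : PM G S ≃+ (S →₀ ℤ) :=
  AddEquiv.refl _

/-- the action of `G` on `S →₀ ℤ` -/
noncomputable def PM.hom (G S : Type) [Group G] [MulAction G S] : G →* Module.End ℤ (S →₀ ℤ) where
  toFun g := Finsupp.lmapDomain ℤ ℤ (g • · : S → S)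
  map_one' := by
    refine LinearMap.ext fun x => ?_
    show mapDomain (fun s : S => (1 : G) • s) x = x
    simp only [one_smul]
    exact mapDomain_id
  map_mul' g h := by
    refine LinearMap.ext fun x => ?_
    show mapDomain (fun s : S => (g * h) • s) x = mapDomain (g • ·) (mapDomain (h • ·) x)
    rw [← mapDomain_comp]
    congr 1
    funext s
    exact mul_smul g h s

/-- the group ring acts -/
noncomputable def PM.act (G S : Type) [Group G] [MulAction G S] :
    GA G →+* Module.End ℤ (S →₀ ℤ) :=
  (MonoidAlgebra.lift ℤ (Module.End ℤ (S →₀ ℤ)) G (PM.hom G S)).toRingHom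

noncomputable instance PM.instModule : Module (GA G) (PM G S) where
  smul r x := (PM.eq G S).symm (PM.act G S r (PM.eq G S x))
  one_smul x := by
    show (PM.eq G S).symm (PM.act G S 1 (PM.eq G S x)) = x
    simp
  mul_smul r s x := by
    show (PM.eq G S).symm (PM.act G S (r * s) (PM.eq G S x)) =
      (PM.eq G S).symm (PM.act G S r (PM.eq G S ((PM.eq G S).symm (PM.act G S s (PM.eq G S x)))))
    simp
  smul_zero r := by
    show (PM.eq G S).symm (PM.act G S r (PM.eq G S 0)) = 0
    simp
  smul_add r x y := by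
    show (PM.eq G S).symm (PM.act G S r (PM.eq G S (x + y))) =
      (PM.eq G S).symm (PM.act G S r (PM.eq G S x)) + (PM.eq G S).symm (PM.act G S r (PM.eq G S y))
    simp
  add_smul r s x := by
    show (PM.eq G S).symm (PM.act G S (r + s) (PM.eq G S x)) =
      (PM.eq G S).symm (PM.act G S r (PM.eq G S x)) + (PM.eq G S).symm (PM.act G S s (PM.eq G S x))
    simp
  zero_smul x := by
    show (PM.eq G S).symm (PM.act G S 0 (PM.eq G S x)) = 0
    simp

theorem PM.eq_smul (r : GA G) (x : PM G S) :
    PM.eq G S (r • x) = PM.act G S r (PM.eq G S x) := rfl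

theorem PM.eq_of_smul (g : G) (x : PM G S) :
    PM.eq G S (MonoidAlgebra.of ℤ G g • x) = mapDomain (g • ·) (PM.eq G S x) := by
  rw [PM.eq_smul]
  simp only [PM.act]
  have : (MonoidAlgebra.lift ℤ (Module.End ℤ (S →₀ ℤ)) G (PM.hom G S)) (MonoidAlgebra.of ℤ G g)
      = PM.hom G S g := by
    exact MonoidAlgebra.lift_of (PM.hom G S) g
  show (MonoidAlgebra.lift ℤ (Module.End ℤ (S →₀ ℤ)) G (PM.hom G S)) (MonoidAlgebra.of ℤ G g) _ = _
  rw [this]
  rfl

theorem PM.eq_single_smul (g : G) (n : ℤ) (x : PM G S) :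
    PM.eq G S (MonoidAlgebra.single g n • x) = n • mapDomain (g • ·) (PM.eq G S x) := by
  have : (MonoidAlgebra.single g n : GA G) = n • MonoidAlgebra.of ℤ G g := by
    simp [MonoidAlgebra.of_apply]
  rw [this, smul_assoc, map_zsmul, PM.eq_of_smul]

/-- an additive map between modules over the group ring which commutes with `G` is linear -/
theorem smul_of_of {M N : Type} [AddCommGroup M] [Module (GA G) M] [AddCommGroup N] [Module (GA G) N]
    (f : M →+ N) (hf : ∀ (g : G) (x : M), f (MonoidAlgebra.of ℤ G g • x) =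
      MonoidAlgebra.of ℤ G g • f x) (r : GA G) (x : M) : f (r • x) = r • f x := by
  induction r using MonoidAlgebra.induction_on with
  | of g => exact hf g x
  | add a b ha hb => rw [add_smul, add_smul, map_add, ha, hb]
  | smul n a ha => rw [smul_assoc, smul_assoc, map_zsmul, ha]

/-- the linear map attached to an additive map commuting with `G` -/
noncomputable def linOf {M N : Type} [AddCommGroup M] [Module (GA G) M] [AddCommGroup N]
    [Module (GA G) N] (f : M →+ N) (hf : ∀ (g : G) (x : M), f (MonoidAlgebra.of ℤ G g • x) =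
      MonoidAlgebra.of ℤ G g • f x) : M →ₗ[GA G] N :=
  { f with map_smul' := fun r x => smul_of_of f hf r x }

/-- an additive map out of `S →₀ ℤ` which is equivariant is a module map on `PM G S` -/
noncomputable def PM.lift {M : Type} [AddCommGroup M] [Module (GA G) M] (f : (S →₀ ℤ) →+ M)
    (hf : ∀ (g : G) (x : S →₀ ℤ), f (mapDomain (g • ·) x) = MonoidAlgebra.of ℤ G g • f x) :
    PM G S →ₗ[GA G] M :=
  linOf (f.comp (PM.eq G S).toAddMonoidHom) (fun g x => by
    show f (PM.eq G S (MonoidAlgebra.of ℤ G g • x)) = _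
    rw [PM.eq_of_smul, hf]; rfl)

theorem PM.lift_apply {M : Type} [AddCommGroup M] [Module (GA G) M] (f : (S →₀ ℤ) →+ M)
    (hf : ∀ (g : G) (x : S →₀ ℤ), f (mapDomain (g • ·) x) = MonoidAlgebra.of ℤ G g • f x)
    (x : PM G S) : PM.lift f hf x = f (PM.eq G S x) := rfl

/-- an equivariant additive map between free abelian groups gives a module map -/
noncomputable def PM.map (f : (S →₀ ℤ) →+ (T →₀ ℤ))
    (hf : ∀ (g : G) (x : S →₀ ℤ), f (mapDomain (g • ·) x) = mapDomain (g • ·) (f x)) :
    PM G S →ₗ[GA G] PM G T :=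
  PM.lift ((PM.eq G T).symm.toAddMonoidHom.comp f) (fun g x => by
    apply (PM.eq G T).injective
    rw [PM.eq_of_smul]
    exact hf g x)

theorem PM.eq_map (f : (S →₀ ℤ) →+ (T →₀ ℤ))
    (hf : ∀ (g : G) (x : S →₀ ℤ), f (mapDomain (g • ·) x) = mapDomain (g • ·) (f x))
    (x : PM G S) : PM.eq G T (PM.map f hf x) = f (PM.eq G S x) := rfl

/-- an equivariant bijection of `G`-sets gives an isomorphism of permutation modules -/
theorem PM.congr (e : S ≃ T) (he : ∀ (g : G) (s : S), e (g • s) = g • e s) :
    Nonempty (PM G S ≃ₗ[GA G] PM G T) := by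
  refine ⟨LinearEquiv.ofBijective (PM.map (Finsupp.domCongr e).toAddMonoidHom ?_) ?_⟩
  · intro g x
    show Finsupp.domCongr e (mapDomain (g • ·) x) = mapDomain (g • ·) (Finsupp.domCongr e x)
    simp only [Finsupp.domCongr_apply, Finsupp.equivMapDomain_eq_mapDomain,
      ← Finsupp.mapDomain_comp]
    congr 1
    funext s
    exact he g s
  · exact (Finsupp.domCongr e : (S →₀ ℤ) ≃+ (T →₀ ℤ)).bijective

end

/-- the group `G` is of type FP_infinity: the trivial module is FPI -/
def GFP (G : Type) [Group G] : Prop := FPI (GA G) (PM G PUnit.{1})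

end Tor
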