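import Mathlib
import Pool.Agent.Lib.MP_05cdf2_gt.B.PM

/-! MP_05cdf2_gt, B-Sp, job EssP: free actions give projective permutation modules; submodules of permutation modules
spanned by an invariant set.

`PM_projective`: `G` acts freely on `S`. Let `Q` be the set of orbits (`MulAction.orbitRel.Quotient G S`), `out` a section. The map
`(Q →₀ GA G) → PM G S`, `Finsupp.lsum`/`Finsupp.linearCombination (GA G) (fun q => (PM.eq G S).symm (single q.out 1))`, is bijective:
as a map of abelian groups it is the bijection `G × Q ≃ S`, `(g, q) ↦ g • q.out`. So `PM G S` is free, hence projective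
(`Module.Projective.of_equiv`/`Module.Free.of_equiv`). Alternative: prove the lifting property `Module.Projective.of_lifting_property''`: for a
surjective linear `f : M → PM G S` choose for every `q` an element `m_q` with `f m_q = single q.out 1`, and define the section
as the `PM.lift` of `single (g • q.out) n ↦ n • of g • m_q` (the group element `g` with `s = g • q.out` is unique by
freeness; equivariance by uniqueness).

`PMsub V`: the elements of `PM G S` supported in the invariant set `V`. `PMsub_fg`: if every element of `V` is `g • t` with `t` in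
the finite set `F ⊆ V` then `PMsub V` is spanned by the `single t 1`, `t ∈ F`.
-/

set_option autoImplicit false

namespace Tor
open Finsupp

section
variable {G S : Type} [Group G] [MulAction G S]

theorem essp_unique (h : ∀ (g : G) (s : S), g • s = s → g = 1) {g g' : G} {s : S}
    (hs : g • s = g' • s) : g = g' := by
  have h1 : (g'⁻¹ * g) • s = s := by rw [mul_smul, hs, inv_smul_smul]
  exact (inv_mul_eq_one.1 (h _ _ h1)).symm

/-- the chosen point in the orbit -/
noncomputable def esspRep (G : Type) {S : Type} [Group G] [MulAction G S] (s : S) : S :=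
  Quotient.out (Quotient.mk (MulAction.orbitRel G S) s)

theorem esspRep_smul (g : G) (s : S) : esspRep G (g • s) = esspRep G s := by
  unfold esspRep
  have h : Quotient.mk (MulAction.orbitRel G S) (g • s) =
      Quotient.mk (MulAction.orbitRel G S) s :=
    Quotient.sound (MulAction.orbitRel_apply.2 ⟨g, rfl⟩)
  rw [h]

theorem esspRep_exists (s : S) : ∃ g : G, g • esspRep G s = s := by
  have h : (MulAction.orbitRel G S) (esspRep G s) s :=
    Quotient.mk_out (s := MulAction.orbitRel G S) s
  obtain ⟨g, hg⟩ := MulAction.orbitRel_apply.1 h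
  exact ⟨g⁻¹, by rw [← hg, inv_smul_smul]⟩

theorem essp_single_smul (g : G) (s : S) (n : ℤ) :
    n • (MonoidAlgebra.of ℤ G g • (PM.eq G S).symm (single s 1)) =
      (PM.eq G S).symm (single (g • s) n) := by
  apply (PM.eq G S).injective
  rw [map_zsmul, PM.eq_of_smul, AddEquiv.apply_symm_apply, AddEquiv.apply_symm_apply,
    mapDomain_single, smul_single]
  simp

theorem PM_projective (h : ∀ (g : G) (s : S), g • s = s → g = 1) :
    Module.Projective (GA G) (PM G S) := by
  refine Module.Projective.of_lifting_property'' fun f hf => ?_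
  choose κ hκ using fun s : S => esspRep_exists (G := G) s
  choose m hm using fun t : S => hf ((PM.eq G S).symm (single t 1))
  have hκg : ∀ (g : G) (s : S), κ (g • s) = g * κ s := by
    intro g s
    refine essp_unique h (s := esspRep G s) ?_
    have h1 := hκ (g • s)
    rw [esspRep_smul] at h1
    rw [h1, mul_smul, hκ]
  let F : (S →₀ ℤ) →+ (PM G S →₀ GA G) := Finsupp.liftAddHom
    (fun s => zmultiplesHom (PM G S →₀ GA G) (MonoidAlgebra.of ℤ G (κ s) • m (esspRep G s)))
  have hF : ∀ (s : S) (n : ℤ), F (single s n) =
      n • (MonoidAlgebra.of ℤ G (κ s) • m (esspRep G s)) := by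
    intro s n
    simp only [F, Finsupp.liftAddHom_apply_single]
    rfl
  have hFe : ∀ (g : G) (x : S →₀ ℤ), F (mapDomain (g • ·) x) =
      MonoidAlgebra.of ℤ G g • F x := by
    intro g x
    induction x using Finsupp.induction_linear with
    | zero => rw [mapDomain_zero, map_zero, smul_zero]
    | add x y hx hy => rw [mapDomain_add, map_add, hx, hy, map_add, smul_add]
    | single s n =>
      rw [mapDomain_single, hF, hF, hκg, esspRep_smul, map_mul, mul_smul, smul_comm]
  refine ⟨PM.lift F hFe, ?_⟩
  refine LinearMap.ext fun x => ?_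
  rw [LinearMap.comp_apply, PM.lift_apply, LinearMap.id_apply]
  have key : ∀ y : S →₀ ℤ, f (F y) = (PM.eq G S).symm y := by
    intro y
    induction y using Finsupp.induction_linear with
    | zero => rw [map_zero, map_zero, map_zero]
    | add x y hx hy => rw [map_add, map_add, hx, hy, map_add]
    | single s n =>
      rw [hF, map_zsmul, map_smul, hm, essp_single_smul, hκ]
  rw [key, AddEquiv.symm_apply_apply]

/-- elements of the permutation module supported in an invariant set -/
noncomputable def PMsub (V : Set S) (hV : ∀ (g : G), ∀ s ∈ V, g • s ∈ V) :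
    Submodule (GA G) (PM G S) where
  carrier := {x | PM.eq G S x ∈ Finsupp.supported ℤ ℤ V}
  add_mem' := by
    intro x y hx hy
    change PM.eq G S (x + y) ∈ Finsupp.supported ℤ ℤ V
    rw [map_add]
    exact Submodule.add_mem _ hx hy
  zero_mem' := by
    change PM.eq G S 0 ∈ Finsupp.supported ℤ ℤ V
    rw [map_zero]
    exact Submodule.zero_mem _
  smul_mem' := by
    intro c x hx
    change PM.eq G S x ∈ Finsupp.supported ℤ ℤ V at hx
    change PM.eq G S (c • x) ∈ Finsupp.supported ℤ ℤ V
    induction c using MonoidAlgebra.induction_on with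
    | of g =>
      rw [PM.eq_of_smul, Finsupp.mem_supported]
      rw [Finsupp.mem_supported] at hx
      intro t ht
      classical
      have h1 := Finsupp.mapDomain_support ht
      rw [Finset.mem_image] at h1
      obtain ⟨s, hs, rfl⟩ := h1
      exact hV g s (hx hs)
    | add a b ha hb =>
      rw [add_smul, map_add]
      exact Submodule.add_mem _ ha hb
    | smul n a ha =>
      rw [smul_assoc, map_zsmul]
      exact Submodule.smul_mem _ n ha

theorem mem_PMsub (V : Set S) (hV : ∀ (g : G), ∀ s ∈ V, g • s ∈ V) (x : PM G S) :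
    x ∈ PMsub V hV ↔ PM.eq G S x ∈ Finsupp.supported ℤ ℤ V := Iff.rfl

theorem PMsub_fg (V : Set S) (hV : ∀ (g : G), ∀ s ∈ V, g • s ∈ V) (F : Set S) (hF : F.Finite)
    (hFV : F ⊆ V) (hr : ∀ s ∈ V, ∃ t ∈ F, ∃ g : G, g • t = s) : (PMsub V hV).FG := by
  rw [Submodule.fg_def]
  refine ⟨(fun s => (PM.eq G S).symm (single s 1)) '' F, hF.image _, le_antisymm ?_ ?_⟩
  · rw [Submodule.span_le]
    rintro _ ⟨s, hs, rfl⟩
    change PM.eq G S ((PM.eq G S).symm (single s 1)) ∈ Finsupp.supported ℤ ℤ V
    rw [AddEquiv.apply_symm_apply]
    exact Finsupp.single_mem_supported ℤ 1 (hFV hs)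
  · intro x hx
    rw [mem_PMsub, Finsupp.mem_supported] at hx
    have h1 : x = ∑ s ∈ (PM.eq G S x).support, (PM.eq G S).symm (single s (PM.eq G S x s)) := by
      apply (PM.eq G S).injective
      rw [map_sum]
      simp only [AddEquiv.apply_symm_apply]
      exact (Finsupp.sum_single (PM.eq G S x)).symm
    rw [h1]
    refine Submodule.sum_mem _ fun s hs => ?_
    obtain ⟨t, ht, g, rfl⟩ := hr s (hx hs)
    rw [← essp_single_smul]
    have h2 : (PM.eq G S).symm (single t 1) ∈ Submodule.span (GA G)
        ((fun s => (PM.eq G S).symm (single s 1)) '' F) :=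
      Submodule.subset_span ⟨t, ht, rfl⟩
    exact zsmul_mem (Submodule.smul_mem _ _ h2) _

end

end Tor
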