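import Mathlib
import Pool.Agent.Lib.MP_05cdf2_gt.B.PM

/-! MP_05cdf2_gt, B-Sp, job IndA: the group ring of `G` as right module over the group ring of a subgroup.

`inc : ℤ[H] → ℤ[G]` is the inclusion, `comp q x` (for a left coset `q` of `H`) is the element of `ℤ[H]`
with coefficients `h ↦ x (q.out * h)`. Every `x ∈ ℤ[G]` is the finite sum of the `q.out * inc (comp q x)`
over the cosets meeting its support. Work with coefficients (`MonoidAlgebra.coeff`, `MonoidAlgebra.ofCoeff`,
`MonoidAlgebra.ext`), or by induction on `x` for `sum_comp` and `comp_mul_inc`.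

`comp_inc_mul` : `comp q (x * inc y) = comp q x * y`: check on `x = single g 1`, `y = single h 1`
(`MonoidAlgebra.induction_on` or additivity): if `g ∈ q` then `g = q.out * k` and
`comp q (single g 1) = single k 1`, `g h = q.out * (k h)`; if `g ∉ q` then also `g h ∉ q`, both are `0`.
-/

set_option autoImplicit false

namespace Tor
open Finsupp

variable {G : Type} [Group G] (H : Subgroup G)

/-- inclusion of group rings -/
noncomputable def inc : GA H →+* GA G := MonoidAlgebra.mapDomainRingHom ℤ H.subtype

/-- coset component -/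
noncomputable def comp (q : G ⧸ H) : GA G →+ GA H where
  toFun x := MonoidAlgebra.ofCoeff (Finsupp.comapDomain (fun h : H => q.out * (h : G)) x.coeff
    (Function.Injective.injOn (fun a b hab => Subtype.ext (mul_left_cancel hab))))
  map_zero' := by
    refine MonoidAlgebra.ext (Finsupp.ext fun h => ?_)
    rfl
  map_add' x y := by
    refine MonoidAlgebra.ext (Finsupp.ext fun h => ?_)
    rfl

private theorem inda_coeff (q : G ⧸ H) (x : GA G) (h : H) : (comp H q x).coeff h = x.coeff (q.out * (h : G)) := rfl

theorem inc_single (h : H) (n : ℤ) :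
    inc H (MonoidAlgebra.single h n) = MonoidAlgebra.single (h : G) n := by
  show MonoidAlgebra.mapDomain H.subtype (MonoidAlgebra.single h n) = _
  rw [MonoidAlgebra.mapDomain_single]
  rfl

theorem comp_single_mem (q : G ⧸ H) (k : H) (n : ℤ) :
    comp H q (MonoidAlgebra.single (q.out * (k : G)) n) = MonoidAlgebra.single k n := by
  classical
  refine MonoidAlgebra.ext (Finsupp.ext fun h => ?_)
  rw [inda_coeff, MonoidAlgebra.coeff_single, MonoidAlgebra.coeff_single, Finsupp.single_apply, Finsupp.single_apply]
  by_cases hk : k = h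
  · subst hk
    rw [if_pos rfl, if_pos rfl]
  · rw [if_neg hk, if_neg]
    intro h'
    exact hk (Subtype.ext (mul_left_cancel h'))

theorem comp_single_not_mem (q : G ⧸ H) (g : G) (hg : (QuotientGroup.mk g : G ⧸ H) ≠ q) (n : ℤ) :
    comp H q (MonoidAlgebra.single g n) = 0 := by
  classical
  refine MonoidAlgebra.ext (Finsupp.ext fun h => ?_)
  rw [inda_coeff, MonoidAlgebra.coeff_single, Finsupp.single_apply, if_neg]
  · rfl
  · intro h'
    refine hg ?_
    rw [h', QuotientGroup.mk_mul_of_mem _ h.2]
    exact QuotientGroup.out_eq' q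

private theorem inda_mem (q : G ⧸ H) (g : G) (hg : (QuotientGroup.mk g : G ⧸ H) = q) :
    ∃ k : H, g = q.out * (k : G) := by
  refine ⟨⟨q.out⁻¹ * g, ?_⟩, by simp⟩
  rw [← QuotientGroup.eq, hg]
  exact QuotientGroup.out_eq' q

theorem comp_mul_inc (q : G ⧸ H) (x : GA G) (y : GA H) :
    comp H q (x * inc H y) = comp H q x * y := by
  induction x using MonoidAlgebra.induction_linear with
  | zero => rw [zero_mul, map_zero, zero_mul]
  | add a b ha hb => rw [add_mul, map_add, ha, hb, map_add, add_mul]
  | single g m =>
    induction y using MonoidAlgebra.induction_linear with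
    | zero => rw [map_zero, mul_zero, map_zero, mul_zero]
    | add a b ha hb => rw [map_add, mul_add, map_add, ha, hb, mul_add]
    | single h n =>
      rw [inc_single, MonoidAlgebra.single_mul_single]
      by_cases hg : (QuotientGroup.mk g : G ⧸ H) = q
      · obtain ⟨k, hk⟩ := inda_mem H q g hg
        have h1 : g * (h : G) = q.out * ((k * h : H) : G) := by
          rw [hk, Subgroup.coe_mul, mul_assoc]
        rw [h1, comp_single_mem, hk, comp_single_mem, MonoidAlgebra.single_mul_single]
      · have h1 : (QuotientGroup.mk (g * (h : G)) : G ⧸ H) ≠ q := by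
          rw [QuotientGroup.mk_mul_of_mem _ h.2]
          exact hg
        rw [comp_single_not_mem H q _ h1, comp_single_not_mem H q _ hg, zero_mul]

/-- `comp q` picks out the component of `q.out * inc y` -/
theorem comp_out_inc (q q' : G ⧸ H) [Decidable (q = q')] (y : GA H) :
    comp H q (MonoidAlgebra.single q'.out 1 * inc H y) = if q = q' then y else 0 := by
  rw [comp_mul_inc]
  split_ifs with h
  · subst h
    have h1 := comp_single_mem H q 1 1
    rw [Subgroup.coe_one, mul_one] at h1
    rw [h1, ← MonoidAlgebra.one_def, one_mul]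
  · rw [comp_single_not_mem H q, zero_mul]
    rw [QuotientGroup.out_eq']
    exact Ne.symm h

private theorem inda_extend (x : GA G) {s t : Finset (G ⧸ H)} (hst : s ⊆ t) (hs : ∀ q, q ∉ s → comp H q x = 0) :
    ∑ q ∈ s, MonoidAlgebra.single q.out 1 * inc H (comp H q x) =
      ∑ q ∈ t, MonoidAlgebra.single q.out 1 * inc H (comp H q x) := by
  refine Finset.sum_subset hst fun q _ hq => ?_
  rw [hs q hq, map_zero, mul_zero]

/-- decomposition of an element of the group ring; `s` any finite set of cosets containing the
cosets of the support -/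
theorem sum_comp (x : GA G) : ∃ s : Finset (G ⧸ H), (∀ q, q ∉ s → comp H q x = 0) ∧
    x = ∑ q ∈ s, MonoidAlgebra.single q.out 1 * inc H (comp H q x) := by
  classical
  induction x using MonoidAlgebra.induction_linear with
  | zero => exact ⟨∅, fun q _ => map_zero _, by simp⟩
  | add a b ha hb =>
    obtain ⟨s, hs1, hs2⟩ := ha
    obtain ⟨t, ht1, ht2⟩ := hb
    refine ⟨s ∪ t, fun q hq => ?_, ?_⟩
    · rw [Finset.mem_union, not_or] at hq
      rw [map_add, hs1 q hq.1, ht1 q hq.2, add_zero]
    · rw [inda_extend H a Finset.subset_union_left hs1] at hs2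
      rw [inda_extend H b Finset.subset_union_right ht1] at ht2
      have h1 : ∑ q ∈ s ∪ t, MonoidAlgebra.single q.out 1 * inc H (comp H q (a + b)) =
          ∑ q ∈ s ∪ t, MonoidAlgebra.single q.out 1 * inc H (comp H q a) +
            ∑ q ∈ s ∪ t, MonoidAlgebra.single q.out 1 * inc H (comp H q b) := by
        rw [← Finset.sum_add_distrib]
        refine Finset.sum_congr rfl fun q _ => ?_
        rw [map_add, map_add, mul_add]
      rw [h1, ← hs2, ← ht2]
  | single g n =>
    refine ⟨{QuotientGroup.mk g}, fun q hq => ?_, ?_⟩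
    · refine comp_single_not_mem H q g (fun h => hq ?_) n
      rw [Finset.mem_singleton, h]
    · rw [Finset.sum_singleton]
      obtain ⟨k, hk⟩ := inda_mem H (QuotientGroup.mk g) g rfl
      have h1 : comp H (QuotientGroup.mk g) (MonoidAlgebra.single g n) = MonoidAlgebra.single k n := by
        have h2 := comp_single_mem H (QuotientGroup.mk g) k n
        rw [← hk] at h2
        exact h2
      rw [h1, inc_single, MonoidAlgebra.single_mul_single, ← hk, one_mul]

/-- the same for tuples -/
theorem sum_comp_pi {k : ℕ} (x : Fin k → GA G) : ∃ s : Finset (G ⧸ H),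
    (∀ q, q ∉ s → ∀ i, comp H q (x i) = 0) ∧
    x = ∑ q ∈ s, (MonoidAlgebra.single q.out 1 : GA G) • (fun i => inc H (comp H q (x i))) := by
  classical
  choose s hs1 hs2 using fun i => sum_comp H (x i)
  refine ⟨Finset.univ.biUnion s, fun q hq i => ?_, ?_⟩
  · refine hs1 i q fun h => hq ?_
    rw [Finset.mem_biUnion]
    exact ⟨i, Finset.mem_univ i, h⟩
  · funext i
    have h1 := hs2 i
    rw [inda_extend H (x i) (Finset.subset_biUnion_of_mem s (Finset.mem_univ i)) (hs1 i)] at h1
    rw [Finset.sum_apply]
    exact h1

end Tor
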