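import Mathlib
import Pool.Agent.Lib.MP_05cdf2_gt.B.PM
import Pool.Agent.Lib.MP_05cdf2_gt.B.FPc
import Pool.Agent.Lib.MP_05cdf2_gt.B.IndA

/-! MP_05cdf2_gt, B-Sp, job IndB: induction of FP_n modules from a subgroup.

For a submodule `K` of `(ℤ[H])^k` let `Ind K` be the `ℤ[G]`-submodule of `(ℤ[G])^k` generated by `K`.

`mem_Ind` : `x ∈ Ind K` iff all components `comp q x` are in `K`. (⇐) by `sum_comp_pi`. (⇒)
`{x | ∀ q, comp q x ∈ K}` is an additive subgroup, contains `r • inc y` for `y ∈ K`, `r ∈ ℤ[G]` because of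
`comp_mul_inc` (`comp q (r * inc y_i) = comp q r * y_i`); use `Submodule.span_induction`.

`Ind_map` : let `f : (ℤ[H])^l → (ℤ[H])^k` be linear. There is `F : (ℤ[G])^l → (ℤ[G])^k` linear
with `F (inc y) = inc (f y)` for all `y` (take the images of the basis vectors,
`(Pi.basisFun _ _).constr`, or `F x = ∑ i, x i • inc (f (Pi.single i 1))`); moreover
`comp q (F x) = f (comp q x)` for all `x` (by `comp_mul_inc`, `comp q (x i * inc (a)) = comp q (x i) * a`).
So `ker F = Ind (ker f)` and `range F = Ind (range f)` by `mem_Ind`.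

`FP_Ind` : if `K` is FP_n over `ℤ[H]` then `Ind K` is FP_n over `ℤ[G]`. Induction on `n` generalizing `k, K`.
`n = 0`: a finite generating set of `K` generates `Ind K`. `n + 1`: `f : (ℤ[H])^l → K` surjective, kernel
FP_n; apply `Ind_map` to `K.subtype ∘ f`, whose kernel is the kernel of `f` (use `FP.iso` or equality of
submodules) and whose range is `K`.

`FPI_coset` : if `GFP H` then `PM G (G ⧸ H)` is FPI over `ℤ[G]`. `FP 0`: generated by one element. `FP (n+1)`:
let `ε_H : (Fin 1 → ℤ[H]) → PM H PUnit`, `y ↦ y 0 • (single point)`, surjective, with kernel `K` FP_n by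
`FP.ker_of_surj`. `π : (Fin 1 → ℤ[G]) → PM G (G ⧸ H)`, `x ↦ x 0 • single (mk 1) 1` is surjective and its
kernel is `Ind K` (`π x = 0` iff for each coset the sum of the coefficients of `comp q (x 0)` is `0`, because
`PM.eq (π x) = ∑_q (sum of coefficients of comp q (x 0)) single q`).
-/

set_option autoImplicit false

namespace Tor
open Finsupp

variable {G : Type} [Group G] (H : Subgroup G)

/-- the induced submodule -/
noncomputable def Ind {k : ℕ} (K : Submodule (GA H) (Fin k → GA H)) :
    Submodule (GA G) (Fin k → GA G) :=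
  Submodule.span (GA G) ((fun (y : Fin k → GA H) (i : Fin k) => inc H (y i)) '' (K : Set (Fin k → GA H)))

theorem indb_comp_smul_mem {k : ℕ} (K : Submodule (GA H) (Fin k → GA H)) (x : Fin k → GA G)
    (r : GA G) (hx : ∀ q : G ⧸ H, (fun i => comp H q (x i)) ∈ K) (q : G ⧸ H) :
    (fun i => comp H q ((r • x) i)) ∈ K := by
  obtain ⟨s, -, hs⟩ := sum_comp_pi H x
  have h1 : (fun i => comp H q ((r • x) i)) =
      ∑ q' ∈ s, comp H q (r * MonoidAlgebra.single q'.out 1) • (fun i => comp H q' (x i)) := by
    funext i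
    have h2 : (r • x) i = ∑ q' ∈ s, (r * MonoidAlgebra.single q'.out 1) * inc H (comp H q' (x i)) := by
      have h3 : x i = ∑ q' ∈ s, (MonoidAlgebra.single q'.out 1 : GA G) * inc H (comp H q' (x i)) := by
        have h4 := congrFun hs i
        rw [Finset.sum_apply] at h4
        exact h4
      show r * x i = _
      conv_lhs => rw [h3]
      rw [Finset.mul_sum]
      refine Finset.sum_congr rfl fun q' _ => ?_
      rw [mul_assoc]
    rw [h2, map_sum, Finset.sum_apply]
    refine Finset.sum_congr rfl fun q' _ => ?_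
    rw [comp_mul_inc]
    rfl
  rw [h1]
  exact K.sum_mem fun q' _ => K.smul_mem _ (hx q')

theorem mem_Ind {k : ℕ} (K : Submodule (GA H) (Fin k → GA H)) (x : Fin k → GA G) :
    x ∈ Ind H K ↔ ∀ q : G ⧸ H, (fun i => comp H q (x i)) ∈ K := by
  constructor
  · intro hx
    unfold Ind at hx
    induction hx using Submodule.span_induction with
    | mem y hy =>
      obtain ⟨y, hy, rfl⟩ := hy
      intro q
      have h1 : (fun i => comp H q (inc H (y i))) = comp H q 1 • y := by
        funext i
        rw [← one_mul (inc H (y i)), comp_mul_inc]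
        rfl
      show (fun i => comp H q (inc H (y i))) ∈ K
      rw [h1]
      exact K.smul_mem _ hy
    | zero =>
      intro q
      have h1 : (fun i => comp H q ((0 : Fin k → GA G) i)) = 0 := by
        funext i
        exact map_zero _
      rw [h1]
      exact K.zero_mem
    | add a b _ _ ha hb =>
      intro q
      have h1 : (fun i => comp H q ((a + b) i)) =
          (fun i => comp H q (a i)) + (fun i => comp H q (b i)) := by
        funext i
        exact map_add _ _ _
      rw [h1]
      exact K.add_mem (ha q) (hb q)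
    | smul r a _ ha => exact indb_comp_smul_mem H K a r ha
  · intro hx
    obtain ⟨s, -, hs⟩ := sum_comp_pi H x
    rw [hs]
    refine Submodule.sum_mem _ fun q _ => Submodule.smul_mem _ _ ?_
    exact Submodule.subset_span ⟨fun i => comp H q (x i), hx q, rfl⟩

theorem indb_eq_zero {k : ℕ} (x : Fin k → GA G) (hx : ∀ q : G ⧸ H, ∀ i, comp H q (x i) = 0) :
    x = 0 := by
  obtain ⟨s, -, hs⟩ := sum_comp_pi H x
  rw [hs]
  refine Finset.sum_eq_zero fun q _ => ?_
  have h1 : (fun i => inc H (comp H q (x i))) = 0 := by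
    funext i
    rw [hx q i, map_zero]
    rfl
  rw [h1, smul_zero]

/-- the linear map induced by a linear map -/
noncomputable def indbF {k l : ℕ} (f : (Fin l → GA H) →ₗ[GA H] (Fin k → GA H)) :
    (Fin l → GA G) →ₗ[GA G] (Fin k → GA G) where
  toFun x := fun j => ∑ i, x i * inc H (f (Pi.single i 1) j)
  map_add' x y := by
    funext j
    show ∑ i, (x i + y i) * _ = ∑ i, x i * _ + ∑ i, y i * _
    rw [← Finset.sum_add_distrib]
    refine Finset.sum_congr rfl fun i _ => ?_
    rw [add_mul]
  map_smul' r x := by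
    funext j
    show ∑ i, (r * x i) * _ = r * ∑ i, x i * _
    rw [Finset.mul_sum]
    refine Finset.sum_congr rfl fun i _ => ?_
    rw [mul_assoc]

theorem indbF_apply {k l : ℕ} (f : (Fin l → GA H) →ₗ[GA H] (Fin k → GA H)) (x : Fin l → GA G)
    (j : Fin k) : indbF H f x j = ∑ i, x i * inc H (f (Pi.single i 1) j) := rfl

theorem indb_lin {k l : ℕ} (f : (Fin l → GA H) →ₗ[GA H] (Fin k → GA H)) (y : Fin l → GA H)
    (j : Fin k) : f y j = ∑ i, y i * f (Pi.single i 1) j := by
  have h1 : y = ∑ i, y i • (Pi.single i (1 : GA H) : Fin l → GA H) := by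
    funext a
    rw [Finset.sum_apply, Finset.sum_eq_single a]
    · simp
    · intro b _ hb
      simp [Pi.single_eq_of_ne (Ne.symm hb)]
    · intro h
      exact absurd (Finset.mem_univ a) h
  conv_lhs => rw [h1]
  rw [map_sum, Finset.sum_apply]
  refine Finset.sum_congr rfl fun i _ => ?_
  rw [map_smul]
  rfl

theorem indbF_comp {k l : ℕ} (f : (Fin l → GA H) →ₗ[GA H] (Fin k → GA H)) (x : Fin l → GA G)
    (q : G ⧸ H) (j : Fin k) : comp H q (indbF H f x j) = f (fun i => comp H q (x i)) j := by
  rw [indbF_apply, indb_lin, map_sum]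
  refine Finset.sum_congr rfl fun i _ => ?_
  rw [comp_mul_inc]

theorem indbF_inc {k l : ℕ} (f : (Fin l → GA H) →ₗ[GA H] (Fin k → GA H)) (y : Fin l → GA H) :
    indbF H f (fun i => inc H (y i)) = fun j => inc H (f y j) := by
  funext j
  rw [indbF_apply, indb_lin H f y, map_sum]
  refine Finset.sum_congr rfl fun i _ => ?_
  rw [map_mul]

theorem Ind_map {k l : ℕ} (f : (Fin l → GA H) →ₗ[GA H] (Fin k → GA H)) :
    ∃ F : (Fin l → GA G) →ₗ[GA G] (Fin k → GA G),
      LinearMap.ker F = Ind H (LinearMap.ker f) ∧ LinearMap.range F = Ind H (LinearMap.range f) := by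
  refine ⟨indbF H f, ?_, ?_⟩
  · ext x
    rw [LinearMap.mem_ker, mem_Ind]
    constructor
    · intro hx q
      rw [LinearMap.mem_ker]
      funext j
      rw [← indbF_comp, hx]
      exact map_zero _
    · intro hx
      refine indb_eq_zero H _ fun q j => ?_
      rw [indbF_comp]
      have h1 := hx q
      rw [LinearMap.mem_ker] at h1
      rw [h1]
      rfl
  · refine le_antisymm ?_ ?_
    · rintro _ ⟨x, rfl⟩
      rw [mem_Ind]
      intro q
      refine ⟨fun i => comp H q (x i), ?_⟩
      funext j
      rw [indbF_comp]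
    · unfold Ind
      rw [Submodule.span_le]
      rintro _ ⟨_, ⟨y, rfl⟩, rfl⟩
      exact ⟨fun i => inc H (y i), indbF_inc H f y⟩

theorem FP_Ind {n k : ℕ} (K : Submodule (GA H) (Fin k → GA H)) (h : FP (GA H) n K) :
    FP (GA G) n (Ind H K) := by
  induction n generalizing k K with
  | zero =>
    have h' : Module.Finite (GA H) K := h
    obtain ⟨l, f0, hf0⟩ := Module.Finite.exists_fin' (GA H) K
    have hr : LinearMap.range (K.subtype ∘ₗ f0) = K := by
      rw [LinearMap.range_comp, LinearMap.range_eq_top.mpr hf0, Submodule.map_top,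
        Submodule.range_subtype]
    obtain ⟨F, -, hF⟩ := Ind_map H (K.subtype ∘ₗ f0)
    rw [hr] at hF
    rw [← hF]
    show Module.Finite (GA G) (LinearMap.range F)
    infer_instance
  | succ n ih =>
    obtain ⟨l, f0, hf0, hk0⟩ := h
    have hr : LinearMap.range (K.subtype ∘ₗ f0) = K := by
      rw [LinearMap.range_comp, LinearMap.range_eq_top.mpr hf0, Submodule.map_top,
        Submodule.range_subtype]
    have hk : LinearMap.ker (K.subtype ∘ₗ f0) = LinearMap.ker f0 :=
      LinearMap.ker_comp_of_ker_eq_bot _ K.ker_subtype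
    obtain ⟨F, hF1, hF2⟩ := Ind_map H (K.subtype ∘ₗ f0)
    rw [hr] at hF2
    rw [hk] at hF1
    rw [← hF2]
    refine ⟨l, F.rangeRestrict, F.surjective_rangeRestrict, ?_⟩
    rw [LinearMap.ker_rangeRestrict, hF1]
    exact ih _ hk0

/-- the point of the trivial module -/
noncomputable def indbPt : PM H PUnit.{1} := (PM.eq H PUnit.{1}).symm (single PUnit.unit 1)

/-- the base coset -/
noncomputable def indbE : PM G (G ⧸ H) := (PM.eq G (G ⧸ H)).symm (single (QuotientGroup.mk 1) 1)

theorem indb_single_pt (k : H) (n : ℤ) :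
    PM.eq H PUnit.{1} ((MonoidAlgebra.single k n : GA H) • indbPt H) = single PUnit.unit n := by
  rw [PM.eq_single_smul]
  unfold indbPt
  rw [AddEquiv.apply_symm_apply, mapDomain_single, smul_single]
  simp

theorem indb_single_E (g : G) (n : ℤ) :
    PM.eq G (G ⧸ H) ((MonoidAlgebra.single g n : GA G) • indbE H) =
      single (QuotientGroup.mk g : G ⧸ H) n := by
  rw [PM.eq_single_smul]
  unfold indbE
  rw [AddEquiv.apply_symm_apply, mapDomain_single, smul_single]
  have h1 : g • (QuotientGroup.mk 1 : G ⧸ H) = QuotientGroup.mk g := by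
    show (QuotientGroup.mk (g * 1) : G ⧸ H) = _
    rw [mul_one]
  simp only [h1, smul_eq_mul, mul_one]

theorem indb_key (x : GA G) (q : G ⧸ H) :
    (PM.eq G (G ⧸ H) (x • indbE H)) q = (PM.eq H PUnit.{1} (comp H q x • indbPt H)) PUnit.unit := by
  induction x using MonoidAlgebra.induction_on with
  | of g =>
    show (PM.eq G (G ⧸ H) ((MonoidAlgebra.single g 1 : GA G) • indbE H)) q = _
    rw [indb_single_E]
    by_cases hq : (QuotientGroup.mk g : G ⧸ H) = q
    · have h1 : q.out⁻¹ * g ∈ H := by
        rw [← QuotientGroup.eq, QuotientGroup.out_eq', hq]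
      have h2 : g = q.out * ((⟨q.out⁻¹ * g, h1⟩ : H) : G) := by
        show g = q.out * (q.out⁻¹ * g)
        rw [mul_inv_cancel_left]
      have h3 : comp H q (MonoidAlgebra.of ℤ G g) =
          MonoidAlgebra.single (⟨q.out⁻¹ * g, h1⟩ : H) 1 := by
        rw [← comp_single_mem H q]
        congr 1
        show MonoidAlgebra.single g 1 = _
        rw [← h2]
      rw [h3, indb_single_pt, hq, single_eq_same, single_eq_same]
    · have h3 : comp H q (MonoidAlgebra.of ℤ G g) = 0 := comp_single_not_mem H q g hq 1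
      have h4 : PM.eq H PUnit.{1} ((0 : GA H) • indbPt H) = 0 := by
        rw [zero_smul]
        exact AddEquiv.map_zero _
      rw [h3, h4, single_eq_of_ne (Ne.symm hq), Finsupp.zero_apply]
  | add a b ha hb =>
    have e1 : PM.eq G (G ⧸ H) ((a + b) • indbE H) =
        PM.eq G (G ⧸ H) (a • indbE H) + PM.eq G (G ⧸ H) (b • indbE H) := by
      rw [add_smul]
      exact AddEquiv.map_add _ _ _
    have e2 : PM.eq H PUnit.{1} (comp H q (a + b) • indbPt H) =
        PM.eq H PUnit.{1} (comp H q a • indbPt H) + PM.eq H PUnit.{1} (comp H q b • indbPt H) := by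
      rw [(comp H q).map_add, add_smul]
      exact AddEquiv.map_add _ _ _
    rw [e1, e2, Finsupp.add_apply, Finsupp.add_apply, ha, hb]
  | smul n a ha =>
    have e1 : PM.eq G (G ⧸ H) ((n • a) • indbE H) = n • PM.eq G (G ⧸ H) (a • indbE H) := by
      rw [smul_assoc]
      exact map_zsmul (PM.eq G (G ⧸ H)) _ _
    have e2 : PM.eq H PUnit.{1} (comp H q (n • a) • indbPt H) =
        n • PM.eq H PUnit.{1} (comp H q a • indbPt H) := by
      rw [map_zsmul (comp H q), smul_assoc]
      exact map_zsmul (PM.eq H PUnit.{1}) _ _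
    rw [e1, e2, Finsupp.smul_apply, Finsupp.smul_apply, ha]

theorem FPI_coset (h : GFP H) : FPI (GA G) (PM G (G ⧸ H)) := by
  -- the two augmentations
  let eH : (Fin 1 → GA H) →ₗ[GA H] PM H PUnit.{1} :=
    { toFun := fun y => y 0 • indbPt H
      map_add' := fun y z => add_smul _ _ _
      map_smul' := fun r y => mul_smul _ _ _ }
  let p : (Fin 1 → GA G) →ₗ[GA G] PM G (G ⧸ H) :=
    { toFun := fun y => y 0 • indbE H
      map_add' := fun y z => add_smul _ _ _
      map_smul' := fun r y => mul_smul _ _ _ }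
  have heH : Function.Surjective eH := by
    intro z
    refine ⟨fun _ => MonoidAlgebra.single 1 (PM.eq H PUnit.{1} z PUnit.unit), ?_⟩
    apply (PM.eq H PUnit.{1}).injective
    show PM.eq H PUnit.{1} ((MonoidAlgebra.single 1 _ : GA H) • indbPt H) = _
    rw [indb_single_pt]
    refine Finsupp.ext fun u => ?_
    cases u
    exact single_eq_same
  have hp : Function.Surjective p := by
    have h1 : ∀ f : (G ⧸ H) →₀ ℤ, ∃ x : GA G, PM.eq G (G ⧸ H) (x • indbE H) = f := by
      intro f
      induction f using Finsupp.induction_linear with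
      | zero => exact ⟨0, by rw [zero_smul, map_zero]⟩
      | add a b ha hb =>
        obtain ⟨x, hx⟩ := ha
        obtain ⟨y, hy⟩ := hb
        exact ⟨x + y, by rw [add_smul, map_add, hx, hy]⟩
      | single q n =>
        refine ⟨MonoidAlgebra.single q.out n, ?_⟩
        rw [indb_single_E, QuotientGroup.out_eq']
    intro z
    obtain ⟨x, hx⟩ := h1 (PM.eq G (G ⧸ H) z)
    exact ⟨fun _ => x, (PM.eq G (G ⧸ H)).injective hx⟩
  have hker : LinearMap.ker p = Ind H (LinearMap.ker eH) := by
    ext x
    rw [LinearMap.mem_ker, mem_Ind]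
    constructor
    · intro hx q
      rw [LinearMap.mem_ker]
      show comp H q (x 0) • indbPt H = 0
      apply (PM.eq H PUnit.{1}).injective
      have hx' : x 0 • indbE H = 0 := hx
      refine Finsupp.ext fun u => ?_
      cases u
      rw [← indb_key, hx', AddEquiv.map_zero, AddEquiv.map_zero, Finsupp.zero_apply, Finsupp.zero_apply]
    · intro hx
      show x 0 • indbE H = 0
      apply (PM.eq G (G ⧸ H)).injective
      refine Finsupp.ext fun q => ?_
      have h1 : comp H q (x 0) • indbPt H = 0 := hx q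
      rw [indb_key, h1, AddEquiv.map_zero, AddEquiv.map_zero, Finsupp.zero_apply, Finsupp.zero_apply]
  intro n
  refine FP.down ⟨1, p, hp, ?_⟩
  rw [hker]
  exact FP_Ind H _ (FP.ker_of_surj (h (n + 1)) eH heH)

end Tor
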