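import Mathlib
import Pool.Agent.Lib.MP_05cdf2_gt.B.IndB

/-! MP_05cdf2_gt, B-Sp, job Orb: permutation modules with finitely many orbits and FPI stabilisers.

`FPI_sum`: `PM G (S ⊕ T)` from `PM G S` and `PM G T` (exact sequence `FPI.ext`, or an equivalence with the
product, `Finsupp.sumFinsuppAddEquivProdFinsupp`).

`FPI_transitive`: if `s` is a point with `∀ t, ∃ g, g • s = t` then `PM G S ≅ PM G (G ⧸ stabilizer G s)`
(`PM.congr` with `MulAction.equivQuotientStabilizer` / `MulAction.orbitEquivQuotientStabilizer`).

`FPI_PM`: induction on a natural number `N` for the statement: for every `G`-set `S` whose orbit set has at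
most `N` elements (`Nat.card` or: there is a function `r : Fin N → S` such that every `s` is in the orbit of
some `r i`) ... Suggestion: prove `FPI_of_reps` by induction on `N`: `S' = {s | s ∈ orbit of r (last)}` and
its complement are `G`-invariant subsets (give them the `MulAction` structure of subtypes by hand with
`⟨g • s.1, _⟩`), `S ≃ S' ⊕ S'ᶜ` equivariantly, and the stabilisers of the points of the subtypes are the
same subgroups. `N = 0`: `S` is empty, `PM G S` is trivial.
-/

set_option autoImplicit false

namespace Tor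
open Finsupp

variable {G : Type} [Group G]

theorem FPI_sum {S T : Type} [MulAction G S] [MulAction G T] (hS : FPI (GA G) (PM G S))
    (hT : FPI (GA G) (PM G T)) : FPI (GA G) (PM G (S ⊕ T)) := by
  have hl : ∀ (g : G) (x : S →₀ ℤ), (Finsupp.mapDomain.addMonoidHom (Sum.inl : S → S ⊕ T)) (mapDomain (g • ·) x) =
      mapDomain (g • ·) ((Finsupp.mapDomain.addMonoidHom (Sum.inl : S → S ⊕ T)) x) := by
    intro g x
    show mapDomain Sum.inl (mapDomain (g • ·) x) = mapDomain (g • ·) (mapDomain Sum.inl x)
    rw [← mapDomain_comp, ← mapDomain_comp]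
    rfl
  have hr : ∀ (g : G) (x : T →₀ ℤ), (Finsupp.mapDomain.addMonoidHom (Sum.inr : T → S ⊕ T)) (mapDomain (g • ·) x) =
      mapDomain (g • ·) ((Finsupp.mapDomain.addMonoidHom (Sum.inr : T → S ⊕ T)) x) := by
    intro g x
    show mapDomain Sum.inr (mapDomain (g • ·) x) = mapDomain (g • ·) (mapDomain Sum.inr x)
    rw [← mapDomain_comp, ← mapDomain_comp]
    rfl
  have key : ∀ z : (S →₀ ℤ) × (T →₀ ℤ), mapDomain Sum.inl z.1 + mapDomain Sum.inr z.2 =
      (sumFinsuppAddEquivProdFinsupp.symm z : S ⊕ T →₀ ℤ) := by
    intro z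
    refine Finsupp.ext fun a => ?_
    rw [Finsupp.add_apply]
    rcases a with a | a
    · rw [sumFinsuppAddEquivProdFinsupp_symm_inl, mapDomain_apply Sum.inl_injective,
        mapDomain_of_notMem_range, add_zero]
      rintro ⟨b, hb⟩
      exact Sum.inr_ne_inl hb
    · rw [sumFinsuppAddEquivProdFinsupp_symm_inr, mapDomain_apply Sum.inr_injective,
        mapDomain_of_notMem_range, zero_add]
      rintro ⟨b, hb⟩
      exact Sum.inl_ne_inr hb
  have hb : Function.Bijective (fun z : (S →₀ ℤ) × (T →₀ ℤ) =>
      (mapDomain Sum.inl z.1 + mapDomain Sum.inr z.2 : S ⊕ T →₀ ℤ)) := by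
    rw [funext key]
    exact AddEquiv.bijective _
  exact FPI.iso (FPI.prod hS hT) (LinearEquiv.ofBijective
    ((PM.map (Finsupp.mapDomain.addMonoidHom Sum.inl) hl).coprod
      (PM.map (Finsupp.mapDomain.addMonoidHom Sum.inr) hr)) hb)

theorem FPI_transitive {S : Type} [MulAction G S] (s : S) (hs : ∀ t : S, ∃ g : G, g • s = t)
    (h : GFP (MulAction.stabilizer G s)) : FPI (GA G) (PM G S) := by
  have hb : Function.Bijective (MulAction.ofQuotientStabilizer G s) := by
    refine ⟨MulAction.injective_ofQuotientStabilizer G s, fun t => ?_⟩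
    obtain ⟨g, hg⟩ := hs t
    exact ⟨(g : G ⧸ MulAction.stabilizer G s), hg⟩
  obtain ⟨e⟩ := PM.congr (Equiv.ofBijective _ hb) (fun g x => MulAction.ofQuotientStabilizer_smul G s g x)
  exact FPI.iso (FPI_coset (MulAction.stabilizer G s) h) e

/-- the action on an invariant subset -/
private abbrev orbAct {S : Type} [MulAction G S] (P : S → Prop) (hP : ∀ (g : G) (s : S), P s → P (g • s)) :
    MulAction G {s : S // P s} where
  smul g s := ⟨g • s.1, hP g s.1 s.2⟩
  one_smul s := Subtype.ext (one_smul G s.1)
  mul_smul g h s := Subtype.ext (mul_smul g h s.1)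

private theorem orb_empty {S : Type} [MulAction G S] (hS : IsEmpty S) : FPI (GA G) (PM G S) := by
  intro n
  have : Subsingleton (PM G S) := inferInstanceAs (Subsingleton (S →₀ ℤ))
  exact FP.of_subsingleton n

theorem FPI_of_reps {S : Type} [MulAction G S] (N : ℕ) (r : Fin N → S)
    (hr : ∀ s : S, ∃ (i : Fin N) (g : G), g • r i = s)
    (h : ∀ s : S, GFP (MulAction.stabilizer G s)) : FPI (GA G) (PM G S) := by
  classical
  induction N generalizing S with
  | zero =>
    refine orb_empty ⟨fun s => ?_⟩
    obtain ⟨i, _⟩ := hr s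
    exact i.elim0
  | succ N ih =>
    let P : S → Prop := fun s => ∃ g : G, g • r 0 = s
    have hP : ∀ (g : G) (s : S), P s → P (g • s) := by
      rintro g s ⟨k, hk⟩
      exact ⟨g * k, by rw [mul_smul, hk]⟩
    have hQ : ∀ (g : G) (s : S), ¬ P s → ¬ P (g • s) := by
      intro g s hs h1
      refine hs ?_
      have h2 := hP g⁻¹ _ h1
      rwa [inv_smul_smul] at h2
    let i1 : MulAction G {s : S // P s} := orbAct P hP
    let i2 : MulAction G {s : S // ¬ P s} := orbAct (fun s => ¬ P s) hQ
    have hst1 : ∀ x : {s : S // P s}, MulAction.stabilizer G x = MulAction.stabilizer G x.1 := by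
      intro x
      ext g
      rw [MulAction.mem_stabilizer_iff, MulAction.mem_stabilizer_iff]
      exact Subtype.ext_iff
    have hst2 : ∀ x : {s : S // ¬ P s}, MulAction.stabilizer G x = MulAction.stabilizer G x.1 := by
      intro x
      ext g
      rw [MulAction.mem_stabilizer_iff, MulAction.mem_stabilizer_iff]
      exact Subtype.ext_iff
    have h1 : FPI (GA G) (PM G {s : S // P s}) := by
      refine FPI_transitive ⟨r 0, 1, one_smul G _⟩ ?_ ?_
      · rintro ⟨t, g, hg⟩
        exact ⟨g, Subtype.ext hg⟩
      · rw [hst1]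
        exact h _
    have h2 : FPI (GA G) (PM G {s : S // ¬ P s}) := by
      by_cases hne : Nonempty {s : S // ¬ P s}
      · obtain ⟨s0⟩ := hne
        refine ih (fun i => if hi : P (r i.succ) then s0 else ⟨r i.succ, hi⟩) ?_ ?_
        · rintro ⟨s, hs⟩
          obtain ⟨i, g, hg⟩ := hr s
          rcases Fin.eq_zero_or_eq_succ i with h0 | ⟨j, hj⟩
          · subst h0
            exact absurd ⟨g, hg⟩ hs
          · subst hj
            have hi : ¬ P (r j.succ) := by
              intro hi
              refine hs ?_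
              rw [← hg]
              exact hP g _ hi
            refine ⟨j, g, ?_⟩
            rw [dif_neg hi]
            exact Subtype.ext hg
        · intro x
          rw [hst2]
          exact h _
      · exact orb_empty (not_nonempty_iff.1 hne)
    obtain ⟨e⟩ := PM.congr (Equiv.sumCompl P) (fun (g : G) x => by
      rcases x with x | x
      · rfl
      · rfl)
    exact FPI.iso (FPI_sum h1 h2) e

/-- permutation module with finitely many orbits (given by a finite set of representatives) and
stabilisers of type FP_infinity -/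
theorem FPI_PM {S : Type} [MulAction G S] (F : Set S) (hF : F.Finite)
    (hr : ∀ s : S, ∃ t ∈ F, ∃ g : G, g • t = s)
    (h : ∀ s : S, GFP (MulAction.stabilizer G s)) : FPI (GA G) (PM G S) := by
  obtain ⟨N, r, _, hrF⟩ := hF.fin_param
  refine FPI_of_reps N r (fun s => ?_) h
  obtain ⟨t, ht, g, hg⟩ := hr s
  rw [← hrF] at ht
  obtain ⟨i, hi⟩ := ht
  exact ⟨i, g, by rw [hi, hg]⟩

end Tor
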