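import Mathlib
import Pool.Agent.Lib.MP_05cdf2_gt.B.Orb

/-! MP_05cdf2_gt, B-Sp, job Grad: an exact graded complex of permutation modules shows that a group is of
type FP_infinity.

`𝒢` is a `G`-set with an invariant length function, `e` the only element of length `0`; `d` an equivariant
differential on `𝒢 →₀ ℤ` which lowers the length by one, with `ker d = im d`; in each length finitely many
orbits (a finite set `F n` of representatives); the stabilisers of all elements other than `e` are of type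
FP_infinity. Then `G` is.

Proof. Let `S n = {s // len s = n}` with the induced action (define the `MulAction` of the subtype by
`⟨g • s.1, _⟩`), `D n = PM G (S (n + 1))` and `M = PM G (S 0) ≅ PM G PUnit` (`PM.congr`; `S 0 = {e}`, `e` is
fixed by `G`). The restriction of `d` to length `n + 1`: `(S (n+1) →₀ ℤ) → (𝒢 →₀ ℤ) → (𝒢 →₀ ℤ) → (S n →₀ ℤ)`, first map
`Finsupp.mapDomain Subtype.val` (injective), last map `Finsupp.subtypeDomain`/`comapDomain`; by `hdeg` nothing
is lost, so that `mapDomain val (d_n x) = d (mapDomain val x)`. Exactness: if `x` of length `n` has `d x = 0` then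
`x = d y`; let `y'` be the part of `y` of length `n + 1` (`Finsupp.filter`), then `d y' = x` because `d` is
homogeneous (compare the parts of length `n` of `d y`). In length `0`: `d (single e 1)` has empty support by
`hdeg`, so every element of length `0` is a boundary. Then apply `FPI.of_exact` with `FPI_PM` for `D n`.
-/

set_option autoImplicit false

namespace Tor
open Finsupp

/-- the elements of length `n` -/
def gradS {𝒢 : Type} (len : 𝒢 → ℕ) (n : ℕ) : Type := {s : 𝒢 // len s = n}

/-- the action on the elements of length `n` -/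
@[reducible] def gradAct {G 𝒢 : Type} [Group G] [MulAction G 𝒢] (len : 𝒢 → ℕ)
    (hlen : ∀ (g : G) (s : 𝒢), len (g • s) = len s) (n : ℕ) : MulAction G (gradS len n) where
  smul g s := ⟨g • s.1, (hlen g s.1).trans s.2⟩
  one_smul s := Subtype.ext (one_smul G s.1)
  mul_smul g h s := Subtype.ext (mul_smul g h s.1)

/-- inclusion of the part of length `n` -/
noncomputable def gradι {𝒢 : Type} (len : 𝒢 → ℕ) (n : ℕ) : (gradS len n →₀ ℤ) →+ (𝒢 →₀ ℤ) :=
  Finsupp.mapDomain.addMonoidHom (Subtype.val : gradS len n → 𝒢)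

/-- projection to the part of length `n` -/
noncomputable def gradπ {𝒢 : Type} (len : 𝒢 → ℕ) (n : ℕ) : (𝒢 →₀ ℤ) →+ (gradS len n →₀ ℤ) :=
  Finsupp.subtypeDomainAddMonoidHom

theorem grad_π_apply {𝒢 : Type} (len : 𝒢 → ℕ) (n : ℕ) (x : 𝒢 →₀ ℤ) (s : gradS len n) :
    gradπ len n x s = x s.1 := rfl

theorem grad_ι_apply {𝒢 : Type} (len : 𝒢 → ℕ) (n : ℕ) (x : gradS len n →₀ ℤ) (s : gradS len n) :
    gradι len n x s.1 = x s :=
  mapDomain_apply Subtype.val_injective x s

theorem grad_ι_out {𝒢 : Type} (len : 𝒢 → ℕ) (n : ℕ) (x : gradS len n →₀ ℤ) {t : 𝒢}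
    (ht : len t ≠ n) : gradι len n x t = 0 := by
  refine mapDomain_of_notMem_range x t ?_
  rintro ⟨s, rfl⟩
  exact ht s.2

theorem grad_πι {𝒢 : Type} (len : 𝒢 → ℕ) (n : ℕ) (x : gradS len n →₀ ℤ) :
    gradπ len n (gradι len n x) = x := by
  ext s
  rw [grad_π_apply, grad_ι_apply]

theorem grad_ιπ {𝒢 : Type} (len : 𝒢 → ℕ) (n : ℕ) (y : 𝒢 →₀ ℤ)
    (hy : ∀ t ∈ y.support, len t = n) : gradι len n (gradπ len n y) = y := by
  ext t
  by_cases ht : len t = n
  · exact grad_ι_apply len n (gradπ len n y) ⟨t, ht⟩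
  · rw [grad_ι_out len n _ ht]
    by_contra hne
    exact ht (hy t (Finsupp.mem_support_iff.2 (Ne.symm hne)))

theorem grad_supp {𝒢 : Type} (len : 𝒢 → ℕ) (n : ℕ) (x : gradS len n →₀ ℤ) :
    ∀ t ∈ (gradι len n x).support, len t = n := by
  intro t ht
  by_contra hne
  exact (Finsupp.mem_support_iff.1 ht) (grad_ι_out len n x hne)

theorem grad_single {𝒢 : Type} (d : (𝒢 →₀ ℤ) →+ (𝒢 →₀ ℤ)) (s : 𝒢) (a : ℤ) :
    d (single s a) = a • d (single s 1) := by
  rw [← map_zsmul, Finsupp.smul_single, smul_eq_mul, mul_one]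

theorem grad_deg {𝒢 : Type} (len : 𝒢 → ℕ) (d : (𝒢 →₀ ℤ) →+ (𝒢 →₀ ℤ))
    (hdeg : ∀ s : 𝒢, ∀ t ∈ (d (single s 1)).support, len t + 1 = len s) (n : ℕ) (z : 𝒢 →₀ ℤ)
    (hz : ∀ s ∈ z.support, len s = n) : ∀ t ∈ (d z).support, len t + 1 = n := by
  intro t ht
  rw [Finsupp.mem_support_iff] at ht
  by_contra hne
  apply ht
  have h1 : d z = ∑ s ∈ z.support, z s • d (single s 1) := by
    conv_lhs => rw [← Finsupp.sum_single z]
    rw [Finsupp.sum, map_sum]
    exact Finset.sum_congr rfl fun s _ => grad_single d s (z s)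
  rw [h1, Finsupp.finsetSum_apply]
  refine Finset.sum_eq_zero fun s hs => ?_
  rw [Finsupp.smul_apply]
  have h2 : (d (single s 1)) t = 0 := by
    by_contra h3
    have h4 := hdeg s t (Finsupp.mem_support_iff.2 h3)
    rw [hz s hs] at h4
    exact hne h4
  rw [h2, smul_zero]

theorem grad_part {𝒢 : Type} (len : 𝒢 → ℕ) (d : (𝒢 →₀ ℤ) →+ (𝒢 →₀ ℤ))
    (hdeg : ∀ s : 𝒢, ∀ t ∈ (d (single s 1)).support, len t + 1 = len s) (n : ℕ) (y : 𝒢 →₀ ℤ) :
    gradπ len n (d (gradι len (n + 1) (gradπ len (n + 1) y))) = gradπ len n (d y) := by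
  classical
  have key : (gradπ len n).comp (d.comp ((gradι len (n + 1)).comp (gradπ len (n + 1)))) =
      (gradπ len n).comp d := by
    refine Finsupp.addHom_ext fun s a => ?_
    show gradπ len n (d (gradι len (n + 1) (gradπ len (n + 1) (single s a)))) =
      gradπ len n (d (single s a))
    by_cases hs : len s = n + 1
    · rw [grad_ιπ len (n + 1) (single s a) ?_]
      intro t ht
      have h1 := Finsupp.support_single_subset ht
      rw [Finset.mem_singleton] at h1
      rw [h1, hs]
    · have h1 : gradπ len (n + 1) (single s a) = 0 := by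
        ext t
        rw [grad_π_apply, Finsupp.single_apply, if_neg]
        · rfl
        · intro h
          exact hs (h ▸ t.2)
      rw [h1, map_zero, map_zero, map_zero]
      ext t
      rw [grad_π_apply, grad_single, Finsupp.smul_apply]
      have h2 : (d (single s 1)) t.1 = 0 := by
        by_contra h3
        have h4 := hdeg s t.1 (Finsupp.mem_support_iff.2 h3)
        have h5 : len t.1 = n := t.2
        rw [h5] at h4
        exact hs h4.symm
      rw [h2, smul_zero]
      rfl
  exact DFunLike.congr_fun key y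

theorem GFP_of_graded {G 𝒢 : Type} [Group G] [MulAction G 𝒢] (len : 𝒢 → ℕ)
    (hlen : ∀ (g : G) (s : 𝒢), len (g • s) = len s)
    (d : (𝒢 →₀ ℤ) →+ (𝒢 →₀ ℤ))
    (hd : ∀ (g : G) (x : 𝒢 →₀ ℤ), d (mapDomain (g • ·) x) = mapDomain (g • ·) (d x))
    (hdeg : ∀ s : 𝒢, ∀ t ∈ (d (single s 1)).support, len t + 1 = len s)
    (hdd : ∀ x, d (d x) = 0) (hex : ∀ x, d x = 0 → ∃ y, d y = x)
    (e : 𝒢) (he : ∀ s, len s = 0 ↔ s = e)
    (F : ℕ → Set 𝒢) (hF : ∀ n, (F n).Finite) (horb : ∀ s, ∃ t ∈ F (len s), ∃ g : G, g • t = s)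
    (hst : ∀ s, s ≠ e → GFP (MulAction.stabilizer G s)) : GFP G := by
  let act : ∀ n, MulAction G (gradS len n) := fun n => gradAct len hlen n
  have hι : ∀ n, Function.Injective (gradι len n) := fun n =>
    mapDomain_injective Subtype.val_injective
  have hπι : ∀ n x, gradπ len n (gradι len n x) = x := grad_πι len
  have hιπ := grad_ιπ len
  have hsupp := grad_supp len
  have hdegz := grad_deg len d hdeg
  -- the differential in length n + 1
  let dn : ∀ n, (gradS len (n + 1) →₀ ℤ) →+ (gradS len n →₀ ℤ) := fun n =>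
    (gradπ len n).comp (d.comp (gradι len (n + 1)))
  have hdn : ∀ n x, gradι len n (dn n x) = d (gradι len (n + 1) x) := by
    intro n x
    refine hιπ n _ ?_
    intro t ht
    have := hdegz (n + 1) (gradι len (n + 1) x) (hsupp (n + 1) x) t ht
    omega
  have hιg : ∀ n (g : G) (x : gradS len n →₀ ℤ),
      gradι len n (mapDomain (g • ·) x) = mapDomain (g • ·) (gradι len n x) := by
    intro n g x
    show mapDomain (Subtype.val : gradS len n → 𝒢)
      (mapDomain (fun s : gradS len n => g • s) x) =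
      mapDomain (fun s : 𝒢 => g • s) (mapDomain (Subtype.val : gradS len n → 𝒢) x)
    rw [← mapDomain_comp, ← mapDomain_comp]
    rfl
  have hdng : ∀ n (g : G) (x : gradS len (n + 1) →₀ ℤ),
      dn n (mapDomain (g • ·) x) = mapDomain (g • ·) (dn n x) := by
    intro n g x
    apply hι n
    rw [hdn, hιg, hd, hιg, hdn]
  have hpart : ∀ n (y : 𝒢 →₀ ℤ), dn n (gradπ len (n + 1) y) = gradπ len n (d y) :=
    grad_part len d hdeg
  have hlift : ∀ n (x : gradS len n →₀ ℤ), d (gradι len n x) = 0 → ∃ y, dn n y = x := by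
    intro n x hx
    obtain ⟨y, hy⟩ := hex _ hx
    refine ⟨gradπ len (n + 1) y, ?_⟩
    rw [hpart, hy, hπι]
  have hexact : ∀ n (x : gradS len (n + 1) →₀ ℤ), dn n x = 0 ↔ ∃ y, dn (n + 1) y = x := by
    intro n x
    constructor
    · intro hx
      apply hlift
      rw [← hdn, hx, map_zero]
    · rintro ⟨y, rfl⟩
      apply hι n
      rw [hdn, hdn, hdd, map_zero]
  have hD : ∀ n, FPI (GA G) (PM G (gradS len (n + 1))) := by
    intro n
    refine FPI_PM {s | s.1 ∈ F (n + 1)} ((hF (n + 1)).preimage Subtype.val_injective.injOn) ?_ ?_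
    · intro s
      obtain ⟨t, ht, g, hg⟩ := horb s.1
      have hs : len s.1 = n + 1 := s.2
      rw [hs] at ht
      have h2 : len t = n + 1 := by rw [← hlen g t, hg, hs]
      exact ⟨⟨t, h2⟩, ht, g, Subtype.ext hg⟩
    · intro s
      have h1 : MulAction.stabilizer G s = MulAction.stabilizer G s.1 := by
        ext g
        rw [MulAction.mem_stabilizer_iff, MulAction.mem_stabilizer_iff]
        exact Subtype.ext_iff
      rw [h1]
      refine hst s.1 fun h => ?_
      have h2 := (he s.1).2 h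
      have h3 : len s.1 = n + 1 := s.2
      omega
  have hM : FPI (GA G) (PM G (gradS len 0)) := by
    refine FPI.of_exact (fun i => PM G (gradS len (i + 1))) hD (PM G (gradS len 0))
      (fun i => PM.map (dn (i + 1)) (hdng (i + 1))) (PM.map (dn 0) (hdng 0)) ?_ ?_ ?_
    · intro x
      obtain ⟨y, hy⟩ := hlift 0 (PM.eq G _ x) (by
        have h1 : ∀ t ∈ (d (gradι len 0 (PM.eq G _ x))).support, False := by
          intro t ht
          have := hdegz 0 _ (hsupp 0 (PM.eq G _ x)) t ht
          omega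
        rw [← Finsupp.support_eq_empty]
        exact Finset.eq_empty_of_forall_notMem h1)
      exact ⟨(PM.eq G _).symm y, hy⟩
    · intro x
      exact hexact 0 x
    · intro i x
      exact hexact (i + 1) x
  have hlen0 : len e = 0 := (he e).2 rfl
  have hu : ∀ s : gradS len 0, s = ⟨e, hlen0⟩ := fun s => Subtype.ext ((he s.1).1 s.2)
  obtain ⟨E⟩ := PM.congr (G := G) (S := gradS len 0) (T := PUnit.{1})
    { toFun := fun _ => PUnit.unit
      invFun := fun _ => ⟨e, hlen0⟩
      left_inv := fun s => (hu s).symm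
      right_inv := fun _ => rfl } (fun g s => Subsingleton.elim _ _)
  exact FPI.iso hM E

end Tor
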