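import Mathlib
import Pool.Agent.Lib.MP_05cdf2_gt.B.Brown
import Pool.Agent.Lib.MP_05cdf2_gt.B.EssP
import Pool.Agent.Lib.MP_05cdf2_gt.B.Grad
import Pool.Agent.Lib.MP_05cdf2_gt.B.LDef

/-! MP_05cdf2_gt, B-Sp, job EssG: an essentially acyclic filtration of the complex of a free graded `G`-set shows
that `G` is of type FP_infinity.

`GFP_of_ess`: same setting as `GFP_of_graded` (file Grad, reuse its internals `gradS gradAct gradι gradπ grad_ιπ grad_part ...`): apply
`FPI_of_ess` with `R = GA G`, `B k = PM G (gradS len k)`, `d k` = `PM.map` of the restriction of `d` (as `dn` in the proof of `GFP_of_graded`),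
`C n k = PMsub {s | s.1 ∈ N n}`. `hproj`: `PM_projective` (an element of positive length is not `e`). `hfg`: `PMsub_fg` with
`F n (k+1)`. `hC0`: `e ∈ N 0`, all elements of length `0` are `e`. `hess`: for `z ∈ C n k` a cycle: `ι z` is supported in `N n`, `d (ι z) = 0`
(if `k = 0` automatically, because `d (single e 1)` has empty support by `hdeg`), so `ι z = d w` with `w` supported in `N m`; take the part
of `w` of length `k + 1` (`gradπ`, `grad_part`); it is supported in `N m`. The trivial module: `PM G (gradS len 0) ≅ PM G PUnit` as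
at the end of `GFP_of_graded`.

`GFP_of_lists`: apply it to `𝒢 = List G`, `g • l = l.map (g * ·)` (local instance), `len = List.length`, `e = []`, `d = bd`
(`bd_map`, `bdL_support`), `F n (k+1)` = lists `1 :: l'` in `N n` with `l'.length = k` and entries in the finite set `{g | [1, g] ∈ N n}`
(`List.finite_length_eq`-type lemma, or `Set.Finite` of the image of `Fin k → F`); a list `a :: l'` in `N n` is `a • (1 :: l'.map (a⁻¹ * ·))`, and
`1 :: l'.map (a⁻¹ * ·)` is in `N n` by invariance, its sublists `[1, a⁻¹ b]` are in `N n`. For `k = 0` the list is `[1]`.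
-/

set_option autoImplicit false

namespace Tor
open Finsupp

theorem GFP_of_ess {G 𝒢 : Type} [Group G] [MulAction G 𝒢] (len : 𝒢 → ℕ)
    (hlen : ∀ (g : G) (s : 𝒢), len (g • s) = len s)
    (d : (𝒢 →₀ ℤ) →+ (𝒢 →₀ ℤ))
    (hd : ∀ (g : G) (x : 𝒢 →₀ ℤ), d (mapDomain (g • ·) x) = mapDomain (g • ·) (d x))
    (hdeg : ∀ s : 𝒢, ∀ t ∈ (d (single s 1)).support, len t + 1 = len s)
    (hdd : ∀ x, d (d x) = 0)
    (e : 𝒢) (he : ∀ s, len s = 0 ↔ s = e)
    (hfree : ∀ s, s ≠ e → ∀ g : G, g • s = s → g = 1)
    (N : ℕ → Set 𝒢) (hN : ∀ n, ∀ (g : G), ∀ s ∈ N n, g • s ∈ N n) (heN : e ∈ N 0)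
    (F : ℕ → ℕ → Set 𝒢) (hF : ∀ n k, (F n k).Finite) (hFN : ∀ n k, F n k ⊆ N n)
    (horb : ∀ n, ∀ s ∈ N n, ∃ t ∈ F n (len s), ∃ g : G, g • t = s)
    (hess : ∀ n, ∃ m, ∀ z ∈ Finsupp.supported ℤ ℤ (N n), d z = 0 →
      ∃ w ∈ Finsupp.supported ℤ ℤ (N m), d w = z) : GFP G := by
  let act : ∀ n, MulAction G (gradS len n) := fun n => gradAct len hlen n
  have hι : ∀ n, Function.Injective (gradι len n) := fun n =>
    mapDomain_injective Subtype.val_injective
  have hπι : ∀ n x, gradπ len n (gradι len n x) = x := grad_πι len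
  have hιπ := grad_ιπ len
  have hsupp := grad_supp len
  have hdegz := grad_deg len d hdeg
  let dn : ∀ n, (gradS len (n + 1) →₀ ℤ) →+ (gradS len n →₀ ℤ) := fun n =>
    (gradπ len n).comp (d.comp (gradι len (n + 1)))
  have hdn : ∀ n x, gradι len n (dn n x) = d (gradι len (n + 1) x) := by
    intro n x
    refine hιπ n _ ?_
    intro t ht
    have := hdegz (n + 1) (gradι len (n + 1) x) (hsupp (n + 1) x) t ht
    omega
  have hιg : ∀ n (g : G) (x : gradS len n →₀ ℤ),
      gradι len n (mapDomain (g • ·) x) = mapDomain (g • ·) (gradι len n x) := by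
    intro n g x
    have e1 := mapDomain_comp (f := fun s : gradS len n => g • s)
      (g := fun s : gradS len n => s.1) (v := x)
    have e2 := mapDomain_comp (f := fun s : gradS len n => s.1)
      (g := fun s : 𝒢 => g • s) (v := x)
    exact e1.symm.trans e2
  have hdng : ∀ n (g : G) (x : gradS len (n + 1) →₀ ℤ),
      dn n (mapDomain (g • ·) x) = mapDomain (g • ·) (dn n x) := by
    intro n g x
    apply hι n
    rw [hdn, hιg, hd, hιg, hdn]
  have hpart : ∀ n (y : 𝒢 →₀ ℤ), dn n (gradπ len (n + 1) y) = gradπ len n (d y) :=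
    grad_part len d hdeg
  have hVinv : ∀ n k, ∀ (g : G), ∀ s ∈ {s : gradS len k | s.1 ∈ N n},
      g • s ∈ {s : gradS len k | s.1 ∈ N n} := fun n k g s hs => hN n g s.1 hs
  have hM : FPI (GA G) (PM G (gradS len 0)) := by
    refine FPI_of_ess (R := GA G) (fun k => PM G (gradS len k)) (fun k => PM.map (dn k) (hdng k))
      ?_ ?_ (fun n k => PMsub {s : gradS len k | s.1 ∈ N n} (hVinv n k)) ?_ ⟨0, ?_⟩ ?_
    · intro k x
      apply (PM.eq G (gradS len k)).injective
      show dn k (dn (k + 1) (PM.eq G (gradS len (k + 1 + 1)) x)) = 0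
      apply hι k
      rw [hdn, hdn, hdd, map_zero]
    · intro k
      refine PM_projective fun g s hs => ?_
      have h1 : len s.1 = k + 1 := s.2
      have h2 : s.1 ≠ e := by
        intro h
        rw [(he s.1).2 h] at h1
        omega
      exact hfree s.1 h2 g (congrArg Subtype.val hs)
    · intro n k
      refine PMsub_fg _ _ {s : gradS len (k + 1) | s.1 ∈ F n (k + 1)}
        ((hF n (k + 1)).preimage Subtype.val_injective.injOn) (fun s hs => hFN n (k + 1) hs) ?_
      intro s hs
      obtain ⟨t, ht, g, hg⟩ := horb n s.1 hs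
      have hs2 : len s.1 = k + 1 := s.2
      rw [hs2] at ht
      have h2 : len t = k + 1 := by rw [← hlen g t, hg, hs2]
      exact ⟨⟨t, h2⟩, ht, g, Subtype.ext hg⟩
    · rw [eq_top_iff]
      intro x _
      rw [mem_PMsub, Finsupp.mem_supported]
      intro s _
      show s.1 ∈ N 0
      rw [(he s.1).1 s.2]
      exact heN
    · intro k n
      obtain ⟨m, hm⟩ := hess n
      refine ⟨m, fun z hz hzZ => ?_⟩
      rw [mem_PMsub, Finsupp.mem_supported] at hz
      have h1 : gradι len k (PM.eq G (gradS len k) z) ∈ Finsupp.supported ℤ ℤ (N n) := by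
        rw [Finsupp.mem_supported]
        intro t ht
        have h2 := hsupp k _ t ht
        have h3 : gradι len k (PM.eq G (gradS len k) z) t ≠ 0 := Finsupp.mem_support_iff.1 ht
        have h4 : gradι len k (PM.eq G (gradS len k) z) t
            = PM.eq G (gradS len k) z (⟨t, h2⟩ : gradS len k) :=
          grad_ι_apply len k _ ⟨t, h2⟩
        rw [h4] at h3
        exact hz (Finsupp.mem_support_iff.2 h3)
      have h2 : d (gradι len k (PM.eq G (gradS len k) z)) = 0 := by
        cases k with
        | zero =>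
          have h1 : ∀ t ∈ (d (gradι len 0 (PM.eq G _ z))).support, False := by
            intro t ht
            have := hdegz 0 _ (hsupp 0 (PM.eq G _ z)) t ht
            omega
          rw [← Finsupp.support_eq_empty]
          exact Finset.eq_empty_of_forall_notMem h1
        | succ k =>
          have h3 : dn k (PM.eq G (gradS len (k + 1)) z) = 0 := by
            have h4 : PM.map (dn k) (hdng k) z = 0 := hzZ
            have h5 := congrArg (PM.eq G (gradS len k)) h4
            rw [PM.eq_map, map_zero] at h5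
            exact h5
          rw [← hdn, h3, map_zero]
      obtain ⟨w, hw1, hw2⟩ := hm _ h1 h2
      refine ⟨(PM.eq G (gradS len (k + 1))).symm (gradπ len (k + 1) w), ?_, ?_⟩
      · rw [mem_PMsub, Finsupp.mem_supported]
        intro s hs
        have h3 : gradπ len (k + 1) w s ≠ 0 := Finsupp.mem_support_iff.1 hs
        rw [grad_π_apply] at h3
        exact (Finsupp.mem_supported ℤ w).1 hw1 (Finsupp.mem_support_iff.2 h3)
      · apply (PM.eq G (gradS len k)).injective
        show dn k (gradπ len (k + 1) w) = PM.eq G (gradS len k) z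
        rw [hpart, hw2, hπι]
  have hlen0 : len e = 0 := (he e).2 rfl
  have hu : ∀ s : gradS len 0, s = ⟨e, hlen0⟩ := fun s => Subtype.ext ((he s.1).1 s.2)
  obtain ⟨E⟩ := PM.congr (G := G) (S := gradS len 0) (T := PUnit.{1})
    { toFun := fun _ => PUnit.unit
      invFun := fun _ => ⟨e, hlen0⟩
      left_inv := fun s => (hu s).symm
      right_inv := fun _ => rfl } (fun g s => Subsingleton.elim _ _)
  exact FPI.iso hM E

/-- the diagonal action on lists -/
@[reducible] def essgAct (G : Type) [Group G] : MulAction G (List G) where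
  smul g l := l.map (g * ·)
  one_smul l := by
    show l.map ((1 : G) * ·) = l
    simp
  mul_smul g h l := by
    show l.map ((g * h) * ·) = (l.map (h * ·)).map (g * ·)
    rw [List.map_map]
    congr 1
    funext x
    simp [mul_assoc]

theorem essg_fin {G : Type} (A : Set G) (hA : A.Finite) (k : ℕ) :
    {l : List G | l.length = k ∧ ∀ a ∈ l, a ∈ A}.Finite := by
  have : Finite A := hA
  refine Set.Finite.subset ((List.finite_length_eq A k).image (List.map Subtype.val)) ?_
  rintro l ⟨h1, h2⟩
  refine ⟨l.attachWith (· ∈ A) h2, ?_, ?_⟩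
  · show (l.attachWith (· ∈ A) h2).length = k
    rw [List.length_attachWith]
    exact h1
  · exact List.attachWith_map_subtype_val h2

theorem GFP_of_lists {G : Type} [Group G] (N : ℕ → Set (List G)) (hcl : ∀ n, Closed (N n))
    (hinv : ∀ n (g : G), ∀ l ∈ N n, l.map (g * ·) ∈ N n) (hnil : [] ∈ N 0)
    (hfin : ∀ n, {g : G | [1, g] ∈ N n}.Finite)
    (hess : ∀ n, ∃ m, ∀ z ∈ Sup (N n), bd z = 0 → ∃ w ∈ Sup (N m), bd w = z) : GFP G := by
  have key := @GFP_of_ess G (List G) _ (essgAct G) List.length
    (fun g s => List.length_map (g * ·)) (bd : Ch G →ₗ[ℤ] Ch G).toAddMonoidHom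
    (fun g x => bd_map (g * ·) x)
    (fun s t ht => by
      have h1 : (bd : Ch G →ₗ[ℤ] Ch G) (single s 1) = bdL s := by
        rw [bd_single, one_smul]
      have h2 : t ∈ (bdL s).support := by
        rw [← h1]
        exact ht
      exact (bdL_support s t h2).2)
    (fun x => bd_bd x) [] (fun s => List.length_eq_zero_iff)
    (fun s hs g hg => by
      cases s with
      | nil => exact absurd rfl hs
      | cons a l =>
        have h1 : (a :: l).map (g * ·) = a :: l := hg
        rw [List.map_cons, List.cons.injEq] at h1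
        exact mul_eq_right.1 h1.1)
    N (fun n g s hs => hinv n g s hs) hnil
    (fun n k => {l | l ∈ N n ∧ (l.length = k ∧ ∀ a ∈ l, a ∈ {g : G | [1, g] ∈ N n} ∪ {1})})
    (fun n k => (essg_fin _ ((hfin n).union (Set.finite_singleton 1)) k).subset
      (fun l hl => hl.2))
    (fun n k l hl => hl.1)
    (fun n s hs => by
      cases s with
      | nil =>
        refine ⟨[], ⟨hs, rfl, ?_⟩, 1, ?_⟩
        · intro a ha
          exact absurd ha (by simp)
        · rfl
      | cons a l =>
        have h1 : (a :: l).map (a⁻¹ * ·) ∈ N n := hinv n a⁻¹ _ hs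
        have h2 : (a :: l).map (a⁻¹ * ·) = 1 :: l.map (a⁻¹ * ·) := by
          rw [List.map_cons, inv_mul_cancel]
        refine ⟨(a :: l).map (a⁻¹ * ·), ⟨h1, ?_, ?_⟩, a, ?_⟩
        · rw [List.length_map]
        · intro b hb
          rw [h2, List.mem_cons] at hb
          rcases hb with hb | hb
          · exact Or.inr hb
          · left
            show [1, b] ∈ N n
            apply hcl n _ h1
            rw [h2]
            exact (List.singleton_sublist.2 hb).cons_cons 1
        · show ((a :: l).map (a⁻¹ * ·)).map (a * ·) = a :: l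
          rw [List.map_map]
          have h3 : ((a * ·) ∘ (a⁻¹ * ·) : G → G) = id := by
            funext x
            simp
          rw [h3, List.map_id])
    (fun n => hess n)
  exact key

end Tor
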