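import Mathlib
import Pool.Agent.Lib.MP_05cdf2_gt.B.Orb

/-! MP_05cdf2_gt, B-Sp, job GrpA: groups of type FP_infinity: extensions and elementary closure properties.

`GFP.ext`: `f : G →* Q` surjective, `f.ker` and `Q` of type FP_infinity, then `G` is. Let `φ : ℤ[G] → ℤ[Q]`
be `MonoidAlgebra.mapDomainRingHom ℤ f`. Apply `FP.restrict` with `R = ℤ[G]`, `S = ℤ[Q]` (with the module
structure `Module.compHom _ φ` as a local instance) and `M = PM Q PUnit` with the restricted module
structure, which is isomorphic to `PM G PUnit` (identity of the underlying groups; all group elements act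
trivially, use `linOf`/`smul_of_of`). The hypothesis `FPI ℤ[G] ℤ[Q]`: `ℤ[Q] ≅ PM G Q` where `G` acts on `Q`
by `g • q = f g * q` (local instance `MulAction.compHom`), this is transitive with stabiliser of `1` equal
to `f.ker`; use `FPI_transitive` (the stabiliser of `1` as a subgroup of `G` EQUALS `f.ker`, rewrite).

`GFP.iso`: from `GFP.ext` with trivial kernel, or directly. `GFP.trivial`: for a subsingleton group `ℤ[G] ≅
PM G PUnit`. Order: first `GFP.trivial`, then `GFP.ext`, then `GFP.iso` from both (`(e : G ≃* Q)`, the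
kernel is subsingleton), then `GFP.prod` (kernel of `G × Q → Q` is isomorphic to `G`).
-/

set_option autoImplicit false

namespace Tor
open Finsupp

private theorem grpa_one {G : Type} [Group G] [Subsingleton G] (x : GA G) :
    x = MonoidAlgebra.single 1 (x.coeff 1) := by
  refine MonoidAlgebra.ext ?_
  rw [MonoidAlgebra.coeff_single]
  ext g
  rw [Subsingleton.elim g 1]
  simp

theorem GFP.trivial (G : Type) [Group G] [Subsingleton G] : GFP G := by
  have hPM : ∀ x : PM G PUnit.{1}, x = (PM.eq G PUnit.{1}).symm (Finsupp.single PUnit.unit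
      ((PM.eq G PUnit.{1} x) PUnit.unit)) := by
    intro x
    apply (PM.eq G PUnit.{1}).injective
    rw [AddEquiv.apply_symm_apply]
    ext
    simp
  refine FPI.iso (R := GA G) (M := GA G) (fun n => FP.self n)
    (LinearEquiv.ofBijective (LinearMap.toSpanSingleton (GA G) (PM G PUnit.{1})
      ((PM.eq G PUnit.{1}).symm (Finsupp.single PUnit.unit 1))) ⟨?_, ?_⟩)
  · rw [injective_iff_map_eq_zero]
    intro x hx
    rw [LinearMap.toSpanSingleton_apply, grpa_one x] at hx
    have h2 := congrArg (PM.eq G PUnit.{1}) hx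
    rw [PM.eq_single_smul, AddEquiv.apply_symm_apply, Finsupp.mapDomain_single, map_zero] at h2
    have h3 := DFunLike.congr_fun h2 PUnit.unit
    simp at h3
    rw [grpa_one x, h3]
    exact MonoidAlgebra.single_zero _
  · intro y
    refine ⟨MonoidAlgebra.single 1 ((PM.eq G PUnit.{1} y) PUnit.unit), ?_⟩
    rw [LinearMap.toSpanSingleton_apply]
    apply (PM.eq G PUnit.{1}).injective
    rw [PM.eq_single_smul, AddEquiv.apply_symm_apply, Finsupp.mapDomain_single]
    ext
    simp

theorem GFP.ext {G Q : Type} [Group G] [Group Q] (f : G →* Q) (hf : Function.Surjective f)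
    (hK : GFP f.ker) (hQ : GFP Q) : GFP G := by
  let φ : GA G →+* GA Q := MonoidAlgebra.mapDomainRingHom ℤ f
  have hφ : ∀ g : G, φ (MonoidAlgebra.of ℤ G g) = MonoidAlgebra.of ℤ Q (f g) := by
    intro g
    simp [φ, MonoidAlgebra.of_apply]
  let i1 : Module (GA G) (GA Q) := Module.compHom _ φ
  let i2 : Module (GA G) (PM Q PUnit.{1}) := Module.compHom _ φ
  let i3 : MulAction G Q := MulAction.compHom Q f
  have hRS : FPI (GA G) (GA Q) := by
    have hst : MulAction.stabilizer G (1 : Q) = f.ker := by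
      ext g
      rw [MulAction.mem_stabilizer_iff, MonoidHom.mem_ker]
      show f g * 1 = 1 ↔ f g = 1
      rw [mul_one]
    have h1 : FPI (GA G) (PM G Q) := by
      refine FPI_transitive (1 : Q) ?_ ?_
      · intro t
        obtain ⟨g, rfl⟩ := hf t
        exact ⟨g, mul_one (f g)⟩
      · rw [hst]
        exact hK
    refine FPI.iso h1 (LinearEquiv.ofBijective (PM.lift
      (MonoidAlgebra.coeffAddEquiv (R := ℤ) (M := Q)).symm.toAddMonoidHom ?_)
      (MonoidAlgebra.coeffAddEquiv (R := ℤ) (M := Q)).symm.bijective)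
    intro g x
    show MonoidAlgebra.ofCoeff (mapDomain (fun q : Q => f g * q) x) =
      φ (MonoidAlgebra.of ℤ G g) * MonoidAlgebra.ofCoeff x
    rw [hφ]
    induction x using Finsupp.induction_linear with
    | zero => simp
    | add a b ha hb =>
      rw [mapDomain_add, MonoidAlgebra.ofCoeff_add, ha, hb, MonoidAlgebra.ofCoeff_add, mul_add]
    | single q n =>
      rw [mapDomain_single, MonoidAlgebra.ofCoeff_single, MonoidAlgebra.ofCoeff_single,
        MonoidAlgebra.of_apply, MonoidAlgebra.single_mul_single, one_mul]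
  have hiso : ∀ n, FP (GA G) n (PM Q PUnit.{1}) := fun n =>
    FP.restrict φ (fun r s => rfl) hRS (fun r m => rfl) (hQ n)
  refine FPI.iso hiso (LinearEquiv.ofBijective (linOf
    ((PM.eq Q PUnit.{1}).trans (PM.eq G PUnit.{1}).symm).toAddMonoidHom ?_)
    ((PM.eq Q PUnit.{1}).trans (PM.eq G PUnit.{1}).symm).bijective)
  intro g x
  apply (PM.eq G PUnit.{1}).injective
  rw [PM.eq_of_smul]
  show PM.eq Q PUnit.{1} (φ (MonoidAlgebra.of ℤ G g) • x) =
    mapDomain (g • ·) (PM.eq Q PUnit.{1} x)
  rw [hφ, PM.eq_of_smul]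

theorem GFP.iso {G Q : Type} [Group G] [Group Q] (e : G ≃* Q) (h : GFP G) : GFP Q := by
  have : Subsingleton (e.symm.toMonoidHom.ker) := by
    refine ⟨fun a b => Subtype.ext ?_⟩
    have ha := a.2
    have hb := b.2
    rw [MonoidHom.mem_ker] at ha hb
    exact e.symm.injective (ha.trans hb.symm)
  exact GFP.ext e.symm.toMonoidHom e.symm.surjective (GFP.trivial _) h

theorem GFP.prod {G Q : Type} [Group G] [Group Q] (hG : GFP G) (hQ : GFP Q) : GFP (G × Q) := by
  refine GFP.ext (MonoidHom.snd G Q) (fun q => ⟨(1, q), rfl⟩) ?_ hQ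
  refine GFP.iso (G := G) (MulEquiv.ofBijective
    ((MonoidHom.inl G Q).codRestrict (MonoidHom.snd G Q).ker (fun g => ?_)) ⟨?_, ?_⟩) hG
  · rw [MonoidHom.mem_ker]
    rfl
  · intro a b hab
    exact congrArg (fun z : (MonoidHom.snd G Q).ker => z.1.1) hab
  · rintro ⟨⟨a, b⟩, hb⟩
    rw [MonoidHom.mem_ker] at hb
    refine ⟨a, Subtype.ext ?_⟩
    exact Prod.ext rfl (show (1 : Q) = b from hb.symm)

/-- version with an explicit kernel -/
theorem GFP.ext' {N G Q : Type} [Group N] [Group G] [Group Q] (i : N →* G) (f : G →* Q)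
    (hi : Function.Injective i) (hf : Function.Surjective f) (hex : ∀ g, f g = 1 ↔ ∃ n, i n = g)
    (hN : GFP N) (hQ : GFP Q) : GFP G := by
  refine GFP.ext f hf ?_ hQ
  refine GFP.iso (G := N) (MulEquiv.ofBijective
    (i.codRestrict f.ker (fun n => ?_)) ⟨?_, ?_⟩) hN
  · rw [MonoidHom.mem_ker]
    exact (hex _).2 ⟨n, rfl⟩
  · intro a b hab
    exact hi (congrArg (fun z : f.ker => z.1) hab)
  · rintro ⟨g, hg⟩
    rw [MonoidHom.mem_ker] at hg
    obtain ⟨n, hn⟩ := (hex g).1 hg
    exact ⟨n, Subtype.ext hn⟩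

end Tor
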