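import Mathlib
import Pool.Agent.Lib.MP_05cdf2_gt.B.GrpA

/-! MP_05cdf2_gt, B-Sp, job GrpB: finitely generated abelian groups and finite groups.

`GFP.of_comm`: `A` commutative and finitely generated: `ℤ[A]` is a commutative `ℤ`-algebra of finite type
(`MonoidAlgebra` finite type instance for `Monoid.FG`), so noetherian (`Algebra.FiniteType.isNoetherianRing ℤ _`),
and `PM A PUnit` is generated by one element; `FPI.of_noetherian`.

`GFP.of_hom_comm`: `θ : N →* A` a homomorphism to a finitely generated commutative group, kernel of type
FP_infinity; then `N` is of type FP_infinity: apply `GFP.ext` to `θ.rangeRestrict : N →* θ.range`, the range is a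
finitely generated commutative group (subgroups of finitely generated abelian groups are finitely
generated: `ℤ` is noetherian, pass to `Additive A`), and the kernel of `θ.rangeRestrict` is `θ.ker`.

`GFP.of_hom_add`: the same with an additive target: `θ : N →* Multiplicative B`, `B` a finitely generated
additive commutative group (`Module.Finite ℤ B`).
-/

set_option autoImplicit false

namespace Tor
open Finsupp

private theorem grpb_fg {A : Type} [CommGroup A] [Group.FG A] (H : Subgroup A) : Group.FG H := by
  rw [Group.fg_iff_subgroup_fg, Subgroup.fg_iff_add_fg]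
  have h1 : Module.Finite ℤ (Additive A) := Module.Finite.iff_addGroup_fg.2 inferInstance
  have h2 : IsNoetherian ℤ (Additive A) := inferInstance
  have h3 := h2.noetherian (AddSubgroup.toIntSubmodule (Subgroup.toAddSubgroup H))
  rw [Submodule.fg_iff_addSubgroup_fg, AddSubgroup.toIntSubmodule_toAddSubgroup] at h3
  exact h3

theorem GFP.of_comm (A : Type) [CommGroup A] [Group.FG A] : GFP A := by
  have hN : IsNoetherianRing (GA A) := by
    have h1 : Algebra.FiniteType ℤ (MonoidAlgebra ℤ A) := inferInstance
    exact Algebra.FiniteType.isNoetherianRing ℤ (MonoidAlgebra ℤ A)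
  have hfin : Module.Finite (GA A) (PM A PUnit.{1}) := by
    refine Module.Finite.of_surjective (LinearMap.toSpanSingleton (GA A) (PM A PUnit.{1})
      ((PM.eq A PUnit.{1}).symm (Finsupp.single PUnit.unit 1))) ?_
    intro y
    refine ⟨MonoidAlgebra.single 1 ((PM.eq A PUnit.{1} y) PUnit.unit), ?_⟩
    rw [LinearMap.toSpanSingleton_apply]
    apply (PM.eq A PUnit.{1}).injective
    rw [PM.eq_single_smul, AddEquiv.apply_symm_apply, Finsupp.mapDomain_single]
    ext
    simp
  exact FPI.of_noetherian

theorem GFP.of_hom_comm {N A : Type} [Group N] [CommGroup A] [Group.FG A] (θ : N →* A)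
    (h : GFP θ.ker) : GFP N := by
  have hfg : Group.FG θ.range := grpb_fg θ.range
  refine GFP.ext θ.rangeRestrict θ.rangeRestrict_surjective ?_ (GFP.of_comm θ.range)
  rw [MonoidHom.ker_rangeRestrict]
  exact h

theorem GFP.of_hom_add {N B : Type} [Group N] [AddCommGroup B] [Module.Finite ℤ B]
    (θ : N →* Multiplicative B) (h : GFP θ.ker) : GFP N := by
  have hfg : AddGroup.FG B := Module.Finite.iff_addGroup_fg.1 inferInstance
  exact GFP.of_hom_comm θ h

/-- an injective homomorphism to a finitely generated abelian group -/
theorem GFP.of_inj_add {N B : Type} [Group N] [AddCommGroup B] [Module.Finite ℤ B]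
    (θ : N →* Multiplicative B) (h : Function.Injective θ) : GFP N := by
  refine GFP.of_hom_add θ ?_
  have : Subsingleton θ.ker := by
    refine ⟨fun a b => Subtype.ext ?_⟩
    have ha := a.2
    have hb := b.2
    rw [MonoidHom.mem_ker] at ha hb
    exact h (ha.trans hb.symm)
  exact GFP.trivial _

end Tor
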