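import Mathlib
import Pool.Agent.Lib.MP_05cdf2_gt.B.LDef

/-! MP_05cdf2_gt, B-Sp, job LFlag: replacing lists of vectors by decreasing chains of subspaces.

`γ` = group entries, `β` = vectors, `τ` = subspaces (a poset), `P v w` : the vector `v` is in `w`.
`N0` = lists of vectors `l` with `l.map inr ∈ 𝒩`; for nonempty `l ∈ N0` the subspace `W l` is the smallest one
containing the entries of `l`. Chains = lists of elements of `τ` which are decreasing.

`fl` is defined below: `fl [] = []`, `fl l = cone (W l) (fl (bdL l))`. Facts: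
(1) `bd (fl c) = fl (bd c)` for ALL chains `c` (`bd_cone`, `bd_bd`, induction on the length).
(2) for `l ∈ N0`: `fl l` is supported on decreasing chains all of whose entries are `≤ W l` (for `l ≠ []`);
    induction on the length, the faces `l'` of `l` are in `N0`, `W l' ≤ W l` by minimality (if `l' ≠ []`).
`g : Ch τ → Ch β`, `g = mapDomain (List.map v)` with `v : τ → β` chosen such that `P (v w) w`. For a decreasing chain
`(w₀ ≥ ... ≥ w_q)` all `v w_i` are in `w₀`, so `g` maps `Sup chains` to `Sup N0` (`hT2`, `hT4`).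
Homotopy `s` on `Sup N0`: `s [] = 0`, `s l = cone (v (W l)) (l - g (fl l) - s (bdL l))`;
`bd (s c) + s (bd c) = c - g (fl c)`; `s l` is supported on lists of vectors of `W l`, so in `N0` by `hT2`.
Homotopy `t` on chains: `t [] = 0`, `t (w₀ :: c) = cone w₀ ((w₀ :: c) - fl (g (w₀ :: c)) - t (bdL (w₀ :: c)))`;
`bd (t c) + t (bd c) = c - fl (g c)`; for a decreasing chain with head `w₀`, `t` of it is supported on
decreasing chains with entries `≤ w₀` (`fl (g (w₀ :: c))`: entries are `W (sublist of the v w_i) ≤ w₀` by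
minimality).

EXACTNESS `flag_exact`. Let `F z = (fl (pr0 z), pr1 z)` for `z ∈ Sup 𝒩` and `d (c, y) = (bd c + fl (pr0 (bd y)), pr1 (bd y))`.
`d (F z) = F (bd z)`. Let `(c, y)` be a cycle: `pr1 (bd y) = 0`, `bd c + fl (pr0 (bd y)) = 0`. Let `u = pr0 (bd y) ∈ Sup N0`
(so `bd y = u.map inr`), `bd u = 0`, `fl u = - bd c`. `u = g (fl u) + bd (s u) = bd (s u - g c)`. So
`y - (s u - g c).map inr` is a cycle in `Sup 𝒩`, `= bd w`. `d (F w) = F (bd w) = (- fl (s u) + fl (g c), y)`. So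
`(c, y) - d (F w) = (c', 0)` with `c' = c + fl (s u) - fl (g c)`, a cycle (`bd c' = 0`: both `(c,y)` and `d F w` are
cycles, or direct). Finally `c' = bd (t c') + fl (g c')`, `g c'` is a cycle of `Sup N0`, so its image in `Sup 𝒩` is `bd w'` and
`(fl (g c'), 0) = F (bd w') = d (F w')`. Hence `(c, y) = d (F w + (t c', 0) + F w')`.
Here `pr1 y = y`, `pr0 y = 0` for `y ∈ Sup 𝒩₊`, and `z = (pr0 z).map inr + pr1 z`.
-/

set_option autoImplicit false

namespace Tor
open Finsupp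

section
variable {γ β τ : Type}

/-- `fl` on lists of length `n` -/
noncomputable def flN (W : List β → τ) : ℕ → List β → Ch τ
  | 0, _ => single [] 1
  | n + 1, l => cone (W l) (Finsupp.linearCombination ℤ (flN W n) (bdL l))

/-- `fl [] = []`, `fl l = cone (W l) (fl (bdL l))` -/
noncomputable def fl (W : List β → τ) : Ch β →ₗ[ℤ] Ch τ :=
  Finsupp.linearCombination ℤ (fun l => flN W l.length l)

/-- the part supported on lists of vectors -/
noncomputable def pr0 : Ch (γ ⊕ β) →ₗ[ℤ] Ch β :=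
  Finsupp.lcomapDomain (List.map Sum.inr) (List.map_injective_iff.2 Sum.inr_injective)

open Classical in
/-- the part supported on lists with at least one group entry -/
noncomputable def pr1 : Ch (γ ⊕ β) →ₗ[ℤ] Ch (γ ⊕ β) :=
  Finsupp.linearCombination ℤ
    (fun l => if ∃ a : γ, Sum.inl a ∈ l then single l 1 else 0)

theorem lflag_bdL_mem {α : Type} (l : List α) :
    bdL l ∈ Sup {l' : List α | l'.Sublist l ∧ l'.length + 1 = l.length} :=
  (Finsupp.mem_supported ℤ _).2 fun l' h => bdL_support l l' h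

theorem lflag_ind {α : Type} {p : List α → Prop} (h0 : p [])
    (h1 : ∀ a l, (∀ l' : List α, l'.Sublist (a :: l) → l'.length + 1 = (a :: l).length → p l') →
      p (a :: l)) : ∀ l, p l := by
  have key : ∀ n : ℕ, ∀ l : List α, l.length = n → p l := by
    intro n
    induction n using Nat.strong_induction_on with
    | _ n ih =>
      intro l hl
      cases l with
      | nil => exact h0
      | cons a l =>
        refine h1 a l fun l' _ h3 => ih l'.length ?_ l' rfl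
        omega
  exact fun l => key l.length l rfl

/-- recursion over the length, on lists of length `n` -/
noncomputable def lflagN {α M : Type} [AddCommGroup M] (m0 : M) (K : List α → M → M) :
    ℕ → List α → M
  | 0, _ => m0
  | n + 1, l => K l (Finsupp.linearCombination ℤ (lflagN m0 K n) (bdL l))

/-- recursion over the length -/
noncomputable def lflagL {α M : Type} [AddCommGroup M] (m0 : M) (K : List α → M → M) :
    Ch α →ₗ[ℤ] M :=
  Finsupp.linearCombination ℤ (fun l => lflagN m0 K l.length l)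

theorem lflagL_nil {α M : Type} [AddCommGroup M] (m0 : M) (K : List α → M → M) :
    lflagL m0 K (single [] 1) = m0 := by
  unfold lflagL
  rw [Finsupp.linearCombination_single, one_smul]
  rfl

theorem lflagL_cons {α M : Type} [AddCommGroup M] (m0 : M) (K : List α → M → M) (a : α)
    (l : List α) :
    lflagL m0 K (single (a :: l) 1) = K (a :: l) (lflagL m0 K (bdL (a :: l))) := by
  have h1 : lflagL m0 K (single (a :: l) 1) =
      K (a :: l) (Finsupp.linearCombination ℤ (lflagN m0 K l.length) (bdL (a :: l))) := by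
    unfold lflagL
    rw [Finsupp.linearCombination_single, one_smul]
    rfl
  rw [h1]
  congr 1
  unfold lflagL
  rw [Finsupp.linearCombination_apply, Finsupp.linearCombination_apply]
  refine Finsupp.sum_congr fun l' hl' => ?_
  have h2 := (bdL_support (a :: l) l' hl').2
  have h3 : l'.length = l.length := by simpa using h2
  rw [h3]

theorem lflag_fl (W : List β → τ) (c : Ch β) :
    fl W c = lflagL (single [] 1) (fun l x => cone (W l) x) c := by
  have h1 : ∀ (n : ℕ) (l : List β), flN W n l =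
      lflagN (single [] 1) (fun l x => cone (W l) x) n l := by
    intro n
    induction n with
    | zero => intro l; rfl
    | succ n ih =>
      intro l
      have h2 : flN W n = lflagN (single [] 1) (fun l x => cone (W l) x) n := funext ih
      change cone (W l) (Finsupp.linearCombination ℤ (flN W n) (bdL l)) = _
      rw [h2]
      rfl
  unfold fl lflagL
  have h3 : (fun l : List β => flN W l.length l) =
      fun l => lflagN (single [] 1) (fun l x => cone (W l) x) l.length l :=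
    funext fun l => h1 _ _
  rw [h3]

theorem fl_single (W : List β → τ) (a : β) (l : List β) :
    fl W (single (a :: l) 1) = cone (W (a :: l)) (fl W (bdL (a :: l))) := by
  rw [lflag_fl, lflag_fl, lflagL_cons]

theorem fl_nil (W : List β → τ) : fl W (single [] 1) = single [] 1 := by
  rw [lflag_fl, lflagL_nil]

/-- to check an identity of linear maps on the boundary of a list -/
theorem lflag_eq {α M : Type} [AddCommGroup M] (f g : Ch α →ₗ[ℤ] M) (l : List α)
    (h : ∀ l' : List α, l'.Sublist l → l'.length + 1 = l.length →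
      f (single l' 1) = g (single l' 1)) : f (bdL l) = g (bdL l) := by
  have h1 : (f - g) (bdL l) ∈ (⊥ : Submodule ℤ M) := by
    refine map_Sup (f - g) ⊥ (fun l' hl' => ?_) (lflag_bdL_mem l)
    rw [Submodule.mem_bot, LinearMap.sub_apply, h l' hl'.1 hl'.2, sub_self]
  rw [Submodule.mem_bot, LinearMap.sub_apply] at h1
  exact sub_eq_zero.1 h1

theorem bd_fl (W : List β → τ) (c : Ch β) : bd (fl W c) = fl W (bd c) := by
  have key : (bd ∘ₗ fl W : Ch β →ₗ[ℤ] Ch τ) = fl W ∘ₗ bd := by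
    apply Ch.ext_lin
    refine lflag_ind ?_ ?_
    · rw [LinearMap.comp_apply, LinearMap.comp_apply, fl_nil, bd_single, bd_single, bdL_nil,
        bdL_nil, smul_zero, smul_zero, map_zero]
    · intro a l ih
      have h1 : bd (fl W (bdL (a :: l))) = fl W (bd (bdL (a :: l))) :=
        lflag_eq (bd ∘ₗ fl W) (fl W ∘ₗ bd) (a :: l) ih
      rw [LinearMap.comp_apply, LinearMap.comp_apply, fl_single, bd_cone, h1, bd_bdL, map_zero,
        map_zero, sub_zero, bd_single, one_smul]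
  exact LinearMap.congr_fun key c

/-- the homotopy given by cone points -/
noncomputable def lflagH {α : Type} (k : List α → α) (Ψ : Ch α →ₗ[ℤ] Ch α) : Ch α →ₗ[ℤ] Ch α :=
  lflagL 0 (fun l x => cone (k l) (single l 1 - Ψ (single l 1) - x))

theorem lflagH_nil {α : Type} (k : List α → α) (Ψ : Ch α →ₗ[ℤ] Ch α) :
    lflagH k Ψ (single [] 1) = 0 := lflagL_nil _ _

theorem lflagH_cons {α : Type} (k : List α → α) (Ψ : Ch α →ₗ[ℤ] Ch α) (a : α) (l : List α) :
    lflagH k Ψ (single (a :: l) 1) =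
      cone (k (a :: l)) (single (a :: l) 1 - Ψ (single (a :: l) 1) - lflagH k Ψ (bdL (a :: l))) :=
  lflagL_cons _ _ a l

theorem lflagH_id {α : Type} (k : List α → α) (Ψ : Ch α →ₗ[ℤ] Ch α)
    (hΨ : ∀ c, bd (Ψ c) = Ψ (bd c)) (h0 : Ψ (single [] 1) = single [] 1) (c : Ch α) :
    bd (lflagH k Ψ c) + lflagH k Ψ (bd c) = c - Ψ c := by
  have key : (bd ∘ₗ lflagH k Ψ + lflagH k Ψ ∘ₗ bd : Ch α →ₗ[ℤ] Ch α) = LinearMap.id - Ψ := by
    apply Ch.ext_lin
    refine lflag_ind ?_ ?_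
    · rw [LinearMap.add_apply, LinearMap.comp_apply, LinearMap.comp_apply, LinearMap.sub_apply,
        LinearMap.id_apply, lflagH_nil, map_zero, bd_single, bdL_nil, smul_zero, map_zero, h0,
        sub_self, add_zero]
    · intro a l ih
      have h1 : bd (lflagH k Ψ (bdL (a :: l))) + lflagH k Ψ (bd (bdL (a :: l))) =
          bdL (a :: l) - Ψ (bdL (a :: l)) :=
        lflag_eq (bd ∘ₗ lflagH k Ψ + lflagH k Ψ ∘ₗ bd) (LinearMap.id - Ψ) (a :: l) ih
      rw [bd_bdL, map_zero, add_zero] at h1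
      have h2 : bd (single (a :: l) 1 - Ψ (single (a :: l) 1) - lflagH k Ψ (bdL (a :: l))) = 0 := by
        rw [map_sub, map_sub, hΨ, bd_single, one_smul, h1, sub_self]
      rw [LinearMap.add_apply, LinearMap.comp_apply, LinearMap.comp_apply, LinearMap.sub_apply,
        LinearMap.id_apply, lflagH_cons, bd_cone, h2, map_zero, sub_zero, bd_single, one_smul,
        sub_add_cancel]
  exact LinearMap.congr_fun key c

theorem lflag_inr {l : List (γ ⊕ β)} (h : ¬ ∃ a : γ, Sum.inl a ∈ l) :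
    ∃ l' : List β, l = l'.map Sum.inr := by
  induction l with
  | nil => exact ⟨[], rfl⟩
  | cons x l ih =>
    cases x with
    | inl a => exact absurd ⟨a, List.mem_cons_self⟩ h
    | inr b =>
      obtain ⟨l', hl'⟩ := ih fun ⟨a, ha⟩ => h ⟨a, List.mem_cons_of_mem _ ha⟩
      exact ⟨b :: l', by rw [hl', List.map_cons]⟩

theorem lflag_not_inl (l' : List β) : ¬ ∃ a : γ, (Sum.inl a : γ ⊕ β) ∈ l'.map Sum.inr := by
  rintro ⟨a, ha⟩
  obtain ⟨b, _, hb⟩ := List.mem_map.1 ha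
  exact Sum.inr_ne_inl hb

/-- lists of vectors as lists -/
noncomputable def lflagI : Ch β →ₗ[ℤ] Ch (γ ⊕ β) := Finsupp.lmapDomain ℤ ℤ (List.map Sum.inr)

theorem lflagI_single (l : List β) :
    lflagI (γ := γ) (single l 1) = single (l.map Sum.inr) 1 := by
  simp [lflagI]

theorem lflagI_bd (c : Ch β) : bd (lflagI (γ := γ) c) = lflagI (bd c) :=
  bd_map (Sum.inr : β → γ ⊕ β) c

theorem lflag_pr0_inr (l : List β) :
    (pr0 (single (l.map Sum.inr) 1 : Ch (γ ⊕ β)) : Ch β) = single l 1 := by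
  ext l'
  change (single (l.map Sum.inr) 1 : Ch (γ ⊕ β)) (l'.map Sum.inr) = (single l 1 : Ch β) l'
  classical
  rw [Finsupp.single_apply, Finsupp.single_apply]
  have h1 : (List.map (Sum.inr : β → γ ⊕ β) l = List.map Sum.inr l') ↔ l = l' :=
    (List.map_injective_iff.2 Sum.inr_injective).eq_iff
  by_cases h : l = l'
  · rw [if_pos h, if_pos (h1.2 h)]
  · rw [if_neg h, if_neg (fun h2 => h (h1.1 h2))]

theorem lflag_pr0_inl {l : List (γ ⊕ β)} (h : ∃ a : γ, Sum.inl a ∈ l) :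
    (pr0 (single l 1 : Ch (γ ⊕ β)) : Ch β) = 0 := by
  ext l'
  change (single l 1 : Ch (γ ⊕ β)) (l'.map Sum.inr) = 0
  classical
  rw [Finsupp.single_apply, if_neg]
  rintro rfl
  exact lflag_not_inl l' h

theorem lflag_pr1_inl {l : List (γ ⊕ β)} (h : ∃ a : γ, Sum.inl a ∈ l) :
    pr1 (single l 1 : Ch (γ ⊕ β)) = single l 1 := by
  unfold pr1
  rw [Finsupp.linearCombination_single, one_smul, if_pos h]

theorem lflag_pr1_inr (l : List β) : pr1 (single (l.map Sum.inr) 1 : Ch (γ ⊕ β)) = 0 := by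
  unfold pr1
  rw [Finsupp.linearCombination_single, one_smul, if_neg (lflag_not_inl l)]

theorem lflag_pr0_I (c : Ch β) : (pr0 (lflagI (γ := γ) c) : Ch β) = c := by
  have key : (pr0 ∘ₗ lflagI (γ := γ) : Ch β →ₗ[ℤ] Ch β) = LinearMap.id := by
    apply Ch.ext_lin
    intro l
    rw [LinearMap.comp_apply, lflagI_single, lflag_pr0_inr, LinearMap.id_apply]
  exact LinearMap.congr_fun key c

theorem lflag_pr1_I (c : Ch β) : pr1 (lflagI (γ := γ) c) = 0 := by
  have key : (pr1 ∘ₗ lflagI (γ := γ) : Ch β →ₗ[ℤ] Ch (γ ⊕ β)) = 0 := by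
    apply Ch.ext_lin
    intro l
    rw [LinearMap.comp_apply, lflagI_single, lflag_pr1_inr, LinearMap.zero_apply]
  exact LinearMap.congr_fun key c

theorem lflag_split (z : Ch (γ ⊕ β)) : z = lflagI (pr0 z) + pr1 z := by
  have key : (LinearMap.id : Ch (γ ⊕ β) →ₗ[ℤ] Ch (γ ⊕ β)) = lflagI ∘ₗ pr0 + pr1 := by
    apply Ch.ext_lin
    intro l
    rw [LinearMap.id_apply, LinearMap.add_apply, LinearMap.comp_apply]
    by_cases h : ∃ a : γ, Sum.inl a ∈ l
    · rw [lflag_pr0_inl h, lflag_pr1_inl h, map_zero, zero_add]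
    · obtain ⟨l', rfl⟩ := lflag_inr h
      rw [lflag_pr0_inr, lflag_pr1_inr, lflagI_single, add_zero]
  exact LinearMap.congr_fun key z

end

/-- the data -/
structure FlagData (γ β τ : Type) [PartialOrder τ] where
  /-- incidence -/
  P : β → τ → Prop
  /-- span of a list -/
  W : List β → τ
  /-- the big set of lists -/
  N : Set (List (γ ⊕ β))
  hcl : Closed N
  hacy : Acy N
  hW1 : ∀ l : List β, l ≠ [] → l.map Sum.inr ∈ N → ∀ v ∈ l, P v (W l)
  hW2 : ∀ l : List β, l ≠ [] → l.map Sum.inr ∈ N → ∀ w, (∀ v ∈ l, P v w) → W l ≤ w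
  hT2 : ∀ (w : τ) (l : List β), (∀ v ∈ l, P v w) → l.map Sum.inr ∈ N
  hT3 : ∀ w : τ, ∃ v, P v w
  hT4 : ∀ v w w', P v w → w ≤ w' → P v w'

section
variable {γ β τ : Type} [PartialOrder τ]

/-- lists of vectors in `N` -/
def FlagData.N0 (Φ : FlagData γ β τ) : Set (List β) := {l | l.map Sum.inr ∈ Φ.N}

/-- lists in `N` with at least one group entry -/
def FlagData.Np (Φ : FlagData γ β τ) : Set (List (γ ⊕ β)) := {l | l ∈ Φ.N ∧ ∃ a : γ, Sum.inl a ∈ l}

/-- decreasing chains -/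
def DC (τ : Type) [PartialOrder τ] : Set (List τ) := {l | l.Pairwise (· ≥ ·)}

theorem FlagData.lflag_nil_mem (Φ : FlagData γ β τ) : ([] : List β) ∈ Φ.N0 :=
  Φ.hT2 (Φ.W []) [] (by simp)

theorem FlagData.lflag_closed (Φ : FlagData γ β τ) : Closed Φ.N0 := by
  intro l hl l' h
  exact Φ.hcl _ hl _ (h.map Sum.inr)

/-- decreasing chains with entries at most `w` -/
def lflagD (w : τ) : Set (List τ) := {l | l.Pairwise (· ≥ ·) ∧ ∀ x ∈ l, x ≤ w}

theorem lflagD_mono {w w' : τ} (h : w ≤ w') : lflagD w ⊆ lflagD w' :=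
  fun _ hl => ⟨hl.1, fun x hx => (hl.2 x hx).trans h⟩

theorem lflagD_sub {w : τ} {l l' : List τ} (h : l'.Sublist l) (hl : l ∈ lflagD w) :
    l' ∈ lflagD w :=
  ⟨hl.1.sublist h, fun x hx => hl.2 x (h.subset hx)⟩

theorem lflagD_cone {w : τ} {c : Ch τ} (hc : c ∈ Sup (lflagD w)) :
    cone w c ∈ Sup (lflagD w) := by
  have h1 : ∀ l ∈ lflagD w, w :: l ∈ lflagD w := by
    intro l hl
    refine ⟨List.pairwise_cons.2 ⟨fun x hx => hl.2 x hx, hl.1⟩, fun x hx => ?_⟩
    rcases List.mem_cons.1 hx with h | h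
    · exact h.le
    · exact hl.2 x h
  exact cone_mem_Sup w h1 hc

theorem lflagD_DC (w : τ) : lflagD w ⊆ DC τ := fun _ hl => hl.1

theorem lflagDC_D {w : τ} {l : List τ} (h : w :: l ∈ DC τ) : w :: l ∈ lflagD w := by
  refine ⟨h, fun x hx => ?_⟩
  rcases List.mem_cons.1 hx with h1 | h1
  · exact h1.le
  · exact (List.pairwise_cons.1 h).1 x h1

/-- lists of vectors of `w` -/
def FlagData.lflagV (Φ : FlagData γ β τ) (w : τ) : Set (List β) := {l | ∀ v ∈ l, Φ.P v w}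

theorem FlagData.lflagV_N0 (Φ : FlagData γ β τ) (w : τ) : Φ.lflagV w ⊆ Φ.N0 :=
  fun l hl => Φ.hT2 w l hl

theorem FlagData.lflagV_mono (Φ : FlagData γ β τ) {w w' : τ} (h : w ≤ w') :
    Φ.lflagV w ⊆ Φ.lflagV w' :=
  fun _ hl v hv => Φ.hT4 v w w' (hl v hv) h

theorem FlagData.lflagV_sub (Φ : FlagData γ β τ) {w : τ} {l l' : List β} (h : l'.Sublist l)
    (hl : l ∈ Φ.lflagV w) : l' ∈ Φ.lflagV w :=
  fun v hv => hl v (h.subset hv)

theorem FlagData.lflag_flV (Φ : FlagData γ β τ) : ∀ l : List β, ∀ w, l ∈ Φ.lflagV w →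
    fl Φ.W (single l 1) ∈ Sup (lflagD w) := by
  refine lflag_ind ?_ ?_
  · intro w _
    rw [fl_nil]
    exact single_mem_Sup (S := lflagD w) ⟨List.Pairwise.nil, by simp⟩ 1
  · intro a l ih w hw
    have hN : (a :: l) ∈ Φ.N0 := Φ.lflagV_N0 w hw
    have h1 : Φ.W (a :: l) ≤ w := Φ.hW2 _ (by simp) hN w hw
    have h2 : (a :: l) ∈ Φ.lflagV (Φ.W (a :: l)) := Φ.hW1 _ (by simp) hN
    rw [fl_single]
    refine Sup_mono (lflagD_mono h1) (lflagD_cone ?_)
    exact map_Sup (fl Φ.W) _ (fun l' hl' => ih l' hl'.1 hl'.2 _ (Φ.lflagV_sub hl'.1 h2))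
      (lflag_bdL_mem (a :: l))

theorem FlagData.fl_mem (Φ : FlagData γ β τ) {c : Ch β} (hc : c ∈ Sup Φ.N0) :
    fl Φ.W c ∈ Sup (DC τ) := by
  refine map_Sup (fl Φ.W) _ (fun l hl => ?_) hc
  cases l with
  | nil =>
    rw [fl_nil]
    exact single_mem_Sup (S := DC τ) List.Pairwise.nil 1
  | cons a l =>
    exact Sup_mono (lflagD_DC _) (Φ.lflag_flV _ _ (Φ.hW1 _ (by simp) hl))

/-- a vector in the subspace -/
noncomputable def FlagData.lflagv (Φ : FlagData γ β τ) (w : τ) : β := (Φ.hT3 w).choose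

theorem FlagData.lflagv_spec (Φ : FlagData γ β τ) (w : τ) : Φ.P (Φ.lflagv w) w :=
  (Φ.hT3 w).choose_spec

/-- the map from chains to lists of vectors -/
noncomputable def FlagData.lflagG (Φ : FlagData γ β τ) : Ch τ →ₗ[ℤ] Ch β :=
  Finsupp.lmapDomain ℤ ℤ (List.map Φ.lflagv)

theorem FlagData.lflagG_single (Φ : FlagData γ β τ) (l : List τ) :
    Φ.lflagG (single l 1) = single (l.map Φ.lflagv) 1 := by
  simp [FlagData.lflagG]

theorem FlagData.lflagG_bd (Φ : FlagData γ β τ) (c : Ch τ) :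
    bd (Φ.lflagG c) = Φ.lflagG (bd c) := bd_map Φ.lflagv c

theorem FlagData.lflagG_D (Φ : FlagData γ β τ) {w : τ} {l : List τ} (hl : l ∈ lflagD w) :
    l.map Φ.lflagv ∈ Φ.lflagV w := by
  intro u hu
  obtain ⟨x, hx, rfl⟩ := List.mem_map.1 hu
  exact Φ.hT4 _ x w (Φ.lflagv_spec x) (hl.2 x hx)

theorem FlagData.lflagG_V (Φ : FlagData γ β τ) {w : τ} {c : Ch τ} (hc : c ∈ Sup (lflagD w)) :
    Φ.lflagG c ∈ Sup (Φ.lflagV w) := by
  refine map_Sup Φ.lflagG _ (fun l hl => ?_) hc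
  rw [Φ.lflagG_single]
  exact single_mem_Sup (Φ.lflagG_D hl) 1

theorem FlagData.lflagG_N0 (Φ : FlagData γ β τ) {c : Ch τ} (hc : c ∈ Sup (DC τ)) :
    Φ.lflagG c ∈ Sup Φ.N0 := by
  refine map_Sup Φ.lflagG _ (fun l hl => ?_) hc
  rw [Φ.lflagG_single]
  refine single_mem_Sup ?_ 1
  cases l with
  | nil => exact Φ.lflag_nil_mem
  | cons w l => exact Φ.lflagV_N0 w (Φ.lflagG_D (lflagDC_D hl))

/-- the homotopy on lists of vectors -/
noncomputable def FlagData.lflagS (Φ : FlagData γ β τ) : Ch β →ₗ[ℤ] Ch β :=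
  lflagH (fun l => Φ.lflagv (Φ.W l)) (Φ.lflagG ∘ₗ fl Φ.W)

theorem FlagData.lflagS_id (Φ : FlagData γ β τ) (c : Ch β) :
    bd (Φ.lflagS c) + Φ.lflagS (bd c) = c - Φ.lflagG (fl Φ.W c) := by
  refine lflagH_id _ _ (fun c => ?_) ?_ c
  · rw [LinearMap.comp_apply, LinearMap.comp_apply, Φ.lflagG_bd, bd_fl]
  · rw [LinearMap.comp_apply, fl_nil, Φ.lflagG_single, List.map_nil]

theorem FlagData.lflagS_V (Φ : FlagData γ β τ) : ∀ l : List β, ∀ w, l ∈ Φ.lflagV w →
    Φ.lflagS (single l 1) ∈ Sup (Φ.lflagV w) := by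
  refine lflag_ind ?_ ?_
  · intro w _
    have h1 : Φ.lflagS (single [] 1) = 0 := lflagH_nil _ _
    rw [h1]
    exact Submodule.zero_mem _
  · intro a l ih w hw
    have hN : (a :: l) ∈ Φ.N0 := Φ.lflagV_N0 w hw
    have h1 : Φ.W (a :: l) ≤ w := Φ.hW2 _ (by simp) hN w hw
    have h2 : (a :: l) ∈ Φ.lflagV (Φ.W (a :: l)) := Φ.hW1 _ (by simp) hN
    have h3 : Φ.lflagS (single (a :: l) 1) = cone (Φ.lflagv (Φ.W (a :: l)))
        (single (a :: l) 1 - Φ.lflagG (fl Φ.W (single (a :: l) 1)) -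
          Φ.lflagS (bdL (a :: l))) := lflagH_cons _ _ a l
    rw [h3]
    refine Sup_mono (Φ.lflagV_mono h1) (cone_mem_Sup (S := Φ.lflagV (Φ.W (a :: l))) _ ?_ ?_)
    · intro l' hl' v hv
      rcases List.mem_cons.1 hv with h | h
      · rw [h]
        exact Φ.lflagv_spec _
      · exact hl' v h
    · refine Submodule.sub_mem _ (Submodule.sub_mem _ (single_mem_Sup h2 1) ?_) ?_
      · exact Φ.lflagG_V (Φ.lflag_flV _ _ h2)
      · exact map_Sup Φ.lflagS _ (fun l' hl' => ih l' hl'.1 hl'.2 _ (Φ.lflagV_sub hl'.1 h2))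
          (lflag_bdL_mem (a :: l))

theorem FlagData.lflagS_N0 (Φ : FlagData γ β τ) {c : Ch β} (hc : c ∈ Sup Φ.N0) :
    Φ.lflagS c ∈ Sup Φ.N0 := by
  refine map_Sup Φ.lflagS _ (fun l hl => ?_) hc
  cases l with
  | nil =>
    have h1 : Φ.lflagS (single [] 1) = 0 := lflagH_nil _ _
    rw [h1]
    exact Submodule.zero_mem _
  | cons a l =>
    exact Sup_mono (Φ.lflagV_N0 _) (Φ.lflagS_V _ _ (Φ.hW1 _ (by simp) hl))

/-- the homotopy on chains -/
noncomputable def FlagData.lflagT (Φ : FlagData γ β τ) : Ch τ →ₗ[ℤ] Ch τ :=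
  lflagH (fun l => l.headD (Φ.W [])) (fl Φ.W ∘ₗ Φ.lflagG)

theorem FlagData.lflagT_id (Φ : FlagData γ β τ) (c : Ch τ) :
    bd (Φ.lflagT c) + Φ.lflagT (bd c) = c - fl Φ.W (Φ.lflagG c) := by
  refine lflagH_id _ _ (fun c => ?_) ?_ c
  · rw [LinearMap.comp_apply, LinearMap.comp_apply, bd_fl, Φ.lflagG_bd]
  · rw [LinearMap.comp_apply, Φ.lflagG_single, List.map_nil, fl_nil]

theorem FlagData.lflagT_D (Φ : FlagData γ β τ) : ∀ l : List τ, ∀ w, l ∈ lflagD w →
    Φ.lflagT (single l 1) ∈ Sup (lflagD w) := by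
  refine lflag_ind ?_ ?_
  · intro w _
    have h1 : Φ.lflagT (single [] 1) = 0 := lflagH_nil _ _
    rw [h1]
    exact Submodule.zero_mem _
  · intro a l ih w hw
    have h1 : a ≤ w := hw.2 a (by simp)
    have h2 : (a :: l) ∈ lflagD a := lflagDC_D hw.1
    have h3 : Φ.lflagT (single (a :: l) 1) = cone a
        (single (a :: l) 1 - fl Φ.W (Φ.lflagG (single (a :: l) 1)) -
          Φ.lflagT (bdL (a :: l))) := lflagH_cons _ _ a l
    rw [h3]
    refine Sup_mono (lflagD_mono h1) (lflagD_cone ?_)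
    refine Submodule.sub_mem _ (Submodule.sub_mem _ (single_mem_Sup h2 1) ?_) ?_
    · rw [Φ.lflagG_single]
      exact Φ.lflag_flV _ _ (Φ.lflagG_D h2)
    · exact map_Sup Φ.lflagT _ (fun l' hl' => ih l' hl'.1 hl'.2 _ (lflagD_sub hl'.1 h2))
        (lflag_bdL_mem (a :: l))

theorem FlagData.lflagT_DC (Φ : FlagData γ β τ) {c : Ch τ} (hc : c ∈ Sup (DC τ)) :
    Φ.lflagT c ∈ Sup (DC τ) := by
  refine map_Sup Φ.lflagT _ (fun l hl => ?_) hc
  cases l with
  | nil =>
    have h1 : Φ.lflagT (single [] 1) = 0 := lflagH_nil _ _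
    rw [h1]
    exact Submodule.zero_mem _
  | cons a l =>
    exact Sup_mono (lflagD_DC a) (Φ.lflagT_D _ _ (lflagDC_D hl))

theorem FlagData.lflag_pr0_N0 (Φ : FlagData γ β τ) {z : Ch (γ ⊕ β)} (hz : z ∈ Sup Φ.N) :
    pr0 z ∈ Sup Φ.N0 := by
  refine map_Sup pr0 _ (fun l hl => ?_) hz
  by_cases h : ∃ a : γ, Sum.inl a ∈ l
  · rw [lflag_pr0_inl h]
    exact Submodule.zero_mem _
  · obtain ⟨l', rfl⟩ := lflag_inr h
    rw [lflag_pr0_inr]
    exact single_mem_Sup (S := Φ.N0) hl 1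

theorem FlagData.lflag_pr1_Np (Φ : FlagData γ β τ) {z : Ch (γ ⊕ β)} (hz : z ∈ Sup Φ.N) :
    pr1 z ∈ Sup Φ.Np := by
  refine map_Sup pr1 _ (fun l hl => ?_) hz
  by_cases h : ∃ a : γ, Sum.inl a ∈ l
  · rw [lflag_pr1_inl h]
    exact single_mem_Sup (S := Φ.Np) ⟨hl, h⟩ 1
  · obtain ⟨l', rfl⟩ := lflag_inr h
    rw [lflag_pr1_inr]
    exact Submodule.zero_mem _

theorem FlagData.lflagI_N (Φ : FlagData γ β τ) {c : Ch β} (hc : c ∈ Sup Φ.N0) :
    lflagI (γ := γ) c ∈ Sup Φ.N := by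
  refine map_Sup lflagI _ (fun l hl => ?_) hc
  rw [lflagI_single]
  exact single_mem_Sup (S := Φ.N) hl 1

theorem FlagData.lflag_pr0_zero (Φ : FlagData γ β τ) {y : Ch (γ ⊕ β)} (hy : y ∈ Sup Φ.Np) :
    (pr0 y : Ch β) = 0 := by
  have h1 : (pr0 y : Ch β) ∈ (⊥ : Submodule ℤ (Ch β)) := by
    refine map_Sup pr0 ⊥ (fun l hl => ?_) hy
    rw [lflag_pr0_inl hl.2]
    exact Submodule.zero_mem _
  exact (Submodule.mem_bot ℤ).1 h1

theorem FlagData.lflag_pr1_self (Φ : FlagData γ β τ) {y : Ch (γ ⊕ β)} (hy : y ∈ Sup Φ.Np) :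
    pr1 y = y := by
  have h1 := lflag_split y
  rw [Φ.lflag_pr0_zero hy, map_zero, zero_add] at h1
  exact h1.symm

/-- the boundary of `F w` -/
theorem FlagData.lflag_dF (Φ : FlagData γ β τ) (w : Ch (γ ⊕ β)) :
    bd (fl Φ.W (pr0 w)) + fl Φ.W (pr0 (bd (pr1 w))) = fl Φ.W (pr0 (bd w)) ∧
      pr1 (bd (pr1 w)) = pr1 (bd w) := by
  have h1 : bd (pr1 w) = bd w - lflagI (bd (pr0 w)) := by
    rw [← lflagI_bd, ← map_sub]
    congr 1
    have h2 := lflag_split w
    exact eq_sub_of_add_eq' h2.symm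
  constructor
  · rw [h1, map_sub, lflag_pr0_I, map_sub, bd_fl]
    exact add_sub_cancel _ _
  · rw [h1, map_sub, lflag_pr1_I, sub_zero]

theorem FlagData.exact (Φ : FlagData γ β τ) (c : Ch τ) (hc : c ∈ Sup (DC τ)) (y : Ch (γ ⊕ β))
    (hy : y ∈ Sup Φ.Np) (h1 : bd c + fl Φ.W (pr0 (bd y)) = 0) (h2 : pr1 (bd y) = 0) :
    ∃ c' ∈ Sup (DC τ), ∃ y' ∈ Sup Φ.Np, bd c' + fl Φ.W (pr0 (bd y')) = c ∧ pr1 (bd y') = y := by
  have hyN : y ∈ Sup Φ.N := Sup_mono (fun l hl => hl.1) hy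
  have hbyN : bd y ∈ Sup Φ.N := bd_mem_Sup Φ.hcl hyN
  obtain ⟨u, hu⟩ : ∃ u : Ch β, u = pr0 (bd y) := ⟨_, rfl⟩
  rw [← hu] at h1
  have huN : u ∈ Sup Φ.N0 := by
    rw [hu]
    exact Φ.lflag_pr0_N0 hbyN
  have hby : bd y = lflagI u := by
    have h3 := lflag_split (bd y)
    rw [h2, add_zero, ← hu] at h3
    exact h3
  have hbu : bd u = 0 := by
    have h3 : lflagI (γ := γ) (bd u) = 0 := by rw [← lflagI_bd, ← hby, bd_bd]
    rw [← lflag_pr0_I (γ := γ) (bd u), h3, map_zero]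
  have hflu : fl Φ.W u = - bd c := eq_neg_of_add_eq_zero_right h1
  have hsu := Φ.lflagS_id u
  rw [hbu, map_zero, add_zero, hflu, map_neg, sub_neg_eq_add] at hsu
  obtain ⟨e, he⟩ : ∃ e, e = Φ.lflagS u - Φ.lflagG c := ⟨_, rfl⟩
  have hbe : bd e = u := by
    rw [he, map_sub, hsu, Φ.lflagG_bd, add_sub_cancel_right]
  have heN : e ∈ Sup Φ.N0 := by
    rw [he]
    exact Submodule.sub_mem _ (Φ.lflagS_N0 huN) (Φ.lflagG_N0 hc)
  obtain ⟨w, hwN, hw⟩ := Φ.hacy (y - lflagI e) (Submodule.sub_mem _ hyN (Φ.lflagI_N heN)) (by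
    rw [map_sub, lflagI_bd, hbe, hby, sub_self])
  have hdw1 : bd (fl Φ.W (pr0 w)) + fl Φ.W (pr0 (bd (pr1 w))) = - fl Φ.W e := by
    rw [(Φ.lflag_dF w).1, hw, map_sub, lflag_pr0_I, Φ.lflag_pr0_zero hy, zero_sub, map_neg]
  have hdw2 : pr1 (bd (pr1 w)) = y := by
    rw [(Φ.lflag_dF w).2, hw, map_sub, lflag_pr1_I, Φ.lflag_pr1_self hy, sub_zero]
  obtain ⟨x, hx⟩ : ∃ x, x = c + fl Φ.W e := ⟨_, rfl⟩
  have hxD : x ∈ Sup (DC τ) := by
    rw [hx]
    exact Submodule.add_mem _ hc (Φ.fl_mem heN)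
  have hbx : bd x = 0 := by
    rw [hx, map_add, bd_fl, hbe]
    exact h1
  have htx := Φ.lflagT_id x
  rw [hbx, map_zero, add_zero] at htx
  have hgx : bd (Φ.lflagG x) = 0 := by rw [Φ.lflagG_bd, hbx, map_zero]
  obtain ⟨w', hwN', hw'⟩ := Φ.hacy (lflagI (Φ.lflagG x)) (Φ.lflagI_N (Φ.lflagG_N0 hxD)) (by
    rw [lflagI_bd, hgx, map_zero])
  have hdw1' : bd (fl Φ.W (pr0 w')) + fl Φ.W (pr0 (bd (pr1 w'))) = fl Φ.W (Φ.lflagG x) := by
    rw [(Φ.lflag_dF w').1, hw', lflag_pr0_I]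
  have hdw2' : pr1 (bd (pr1 w')) = 0 := by
    rw [(Φ.lflag_dF w').2, hw', lflag_pr1_I]
  refine ⟨fl Φ.W (pr0 w) + Φ.lflagT x + fl Φ.W (pr0 w'), ?_, pr1 w + pr1 w', ?_, ?_, ?_⟩
  · exact Submodule.add_mem _ (Submodule.add_mem _ (Φ.fl_mem (Φ.lflag_pr0_N0 hwN))
      (Φ.lflagT_DC hxD)) (Φ.fl_mem (Φ.lflag_pr0_N0 hwN'))
  · exact Submodule.add_mem _ (Φ.lflag_pr1_Np hwN) (Φ.lflag_pr1_Np hwN')
  · have h3 : bd (fl Φ.W (pr0 w) + Φ.lflagT x + fl Φ.W (pr0 w')) +
        fl Φ.W (pr0 (bd (pr1 w + pr1 w'))) =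
        (bd (fl Φ.W (pr0 w)) + fl Φ.W (pr0 (bd (pr1 w)))) + bd (Φ.lflagT x) +
        (bd (fl Φ.W (pr0 w')) + fl Φ.W (pr0 (bd (pr1 w')))) := by
      simp only [map_add]
      abel
    rw [h3, hdw1, hdw1', htx, hx]
    abel
  · rw [map_add, map_add, hdw2, hdw2', add_zero]

end

end Tor
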