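import Mathlib
import Pool.Agent.Lib.MP_05cdf2_gt.B.LFlag
import Pool.Agent.Lib.MP_05cdf2_gt.B.Grad
import Pool.Agent.Lib.MP_05cdf2_gt.B.GrpA

/-! MP_05cdf2_gt, B-Sp, job LAbs: the abstract criterion. A group `G` acts on vectors `β` and on a poset `τ` of
subspaces; `N` = a `G`-invariant acyclic set of lists over `G ⊕ β` (`G` acts on `G` by left multiplication), depending
only on the set of entries; finitely many `a` with `[inl 1, a] ∈ N`; decreasing chains of subspaces: finitely many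
orbits in each length, stabilisers of type FP_infinity. Then `G` is of type FP_infinity.

Proof: `GFP_of_graded` with `𝒢 = {c : List τ // c ∈ DC τ} ⊕ {y : List (G ⊕ β) // y ∈ Φ.Np}` (the action and the length
are defined below), `e = inl []`,
`d (inl c) = inl-part of bdL c`, `d (inr y) = (fl W (pr0 (bdL y)), pr1 (bdL y))`.
Translate between `𝒢 →₀ ℤ` and pairs `(c, y) ∈ Sup (DC τ) × Sup Np`: e.g. `Ψ : (𝒢 →₀ ℤ) →ₗ Ch τ × Ch (G ⊕ β)`,
`Ψ (single (inl c) 1) = (single c 1, 0)`, `Ψ (single (inr y) 1) = (0, single y 1)`; it is injective with image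
`Sup (DC τ) × Sup Np` and define `d` by `Ψ (d x) = δ (Ψ x)`, `δ (c, y) = (bd c + fl W (pr0 (bd y)), pr1 (bd y))`. (There are
`Finsupp.supportedEquivFinsupp`, `Finsupp.sumFinsuppLEquivProdFinsupp`.) Exactness is `FlagData.exact`; `d ∘ d = 0`: `bd_bd`,
`bd_fl` and `z = (pr0 z).map inr + pr1 z` (so `pr0 (bd (pr1 (bd y))) = - bd (pr0 (bd y))`, `pr1 (bd (pr1 (bd y))) = 0`).
Homogeneity: `bdL_support`; `flN W n l` for `l` of length `n` is supported on lists of length `n`.
Equivariance of `d`: `bd_map`; for `fl`: `W (l.map (g • ·)) = g • W l` for nonempty `l ∈ N0` by minimality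
(`hW1, hW2, hP, hmono`, `N` invariant), so `fl (l.map (g • ·)) = (fl l).map (g • ·)` for `l ∈ N0` by induction.
Orbits of `inr y`, `y` of length `n`: `y` contains some `inl g`; translate by `g⁻¹`: all entries are in the finite set
`K = {a | [inl 1, a] ∈ N}` (by `hset`), and there are finitely many lists of length `n` with entries in a finite set
(`List.finite_length_eq` or `Set.Finite` of vectors). Stabiliser of `inr y`: trivial, because `g * h = h`
forces `g = 1`: `GFP.trivial` (subsingleton). Stabiliser of `inl c`, `c ≠ []`: `{g | ∀ w ∈ c, g • w = w}`.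
-/

set_option autoImplicit false

namespace Tor
open Finsupp

/-- action of `g` on `G ⊕ β` -/
def sact {G β : Type} [Group G] [MulAction G β] (g : G) : G ⊕ β → G ⊕ β :=
  Sum.map (g * ·) (g • ·)

/-- pointwise stabiliser of a list -/
def stabL {G τ : Type} [Group G] [MulAction G τ] (c : List τ) : Subgroup G where
  carrier := {g | ∀ w ∈ c, g • w = w}
  one_mem' := fun w _ => one_smul G w
  mul_mem' := fun {a b} ha hb w hw => by rw [mul_smul, hb w hw, ha w hw]
  inv_mem' := fun {a} ha w hw => by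
    have := ha w hw
    rw [inv_smul_eq_iff, this]

section aux
variable {α γ β τ : Type}

theorem labs_eq_on {M : Type} [AddCommGroup M] {S : Set (List α)} (f g : Ch α →ₗ[ℤ] M)
    (h : ∀ l ∈ S, f (single l 1) = g (single l 1)) {c : Ch α} (hc : c ∈ Sup S) : f c = g c := by
  have h1 := map_Sup (f - g) ⊥ (fun l hl => by
    rw [LinearMap.sub_apply, h l hl, sub_self]; exact Submodule.zero_mem _) hc
  rw [Submodule.mem_bot, LinearMap.sub_apply, sub_eq_zero] at h1
  exact h1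

theorem labs_cases (l : List (γ ⊕ β)) : (∃ l0 : List β, l = l0.map Sum.inr) ∨ ∃ a : γ, Sum.inl a ∈ l := by
  induction l with
  | nil => exact Or.inl ⟨[], rfl⟩
  | cons b l ih =>
    rcases b with b | b
    · exact Or.inr ⟨b, List.mem_cons_self⟩
    · rcases ih with ⟨l0, rfl⟩ | ⟨a, ha⟩
      · exact Or.inl ⟨b :: l0, rfl⟩
      · exact Or.inr ⟨a, List.mem_cons_of_mem _ ha⟩

theorem labs_not_inl (l : List β) : ¬ ∃ a : γ, (Sum.inl a : γ ⊕ β) ∈ l.map Sum.inr := by
  rintro ⟨a, ha⟩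
  rw [List.mem_map] at ha
  obtain ⟨b, _, hb⟩ := ha
  cases hb

theorem labs_pr0_apply (z : Ch (γ ⊕ β)) (l : List β) : pr0 z l = z (l.map Sum.inr) := rfl

theorem labs_pr0_map (l : List β) (n : ℤ) :
    pr0 (single (l.map (Sum.inr : β → γ ⊕ β)) n) = single l n := by
  ext m
  rw [labs_pr0_apply]
  classical
  rw [Finsupp.single_apply, Finsupp.single_apply]
  have hinj : Function.Injective (List.map (Sum.inr : β → γ ⊕ β)) :=
    List.map_injective_iff.2 Sum.inr_injective
  by_cases h : l = m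
  · subst h; simp
  · rw [if_neg h, if_neg (fun h2 => h (hinj h2))]

theorem labs_pr0_inl (l : List (γ ⊕ β)) (h : ∃ a : γ, Sum.inl a ∈ l) (n : ℤ) :
    pr0 (single l n) = 0 := by
  ext m
  rw [labs_pr0_apply]
  classical
  rw [Finsupp.single_apply, if_neg]
  · rfl
  · rintro rfl
    exact labs_not_inl m h

theorem labs_pr1_inl (l : List (γ ⊕ β)) (h : ∃ a : γ, Sum.inl a ∈ l) :
    pr1 (single l 1) = single l 1 := by
  unfold pr1
  rw [Finsupp.linearCombination_single, one_smul, if_pos h]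

theorem labs_pr1_map (l : List β) :
    pr1 (single (l.map (Sum.inr : β → γ ⊕ β)) 1) = 0 := by
  unfold pr1
  rw [Finsupp.linearCombination_single, one_smul, if_neg (labs_not_inl l)]

theorem labs_dec (z : Ch (γ ⊕ β)) :
    mapDomain (List.map Sum.inr) (pr0 z) + pr1 z = z := by
  have h : (Finsupp.lmapDomain ℤ ℤ (List.map (Sum.inr : β → γ ⊕ β))) ∘ₗ pr0 + pr1 =
      (LinearMap.id : Ch (γ ⊕ β) →ₗ[ℤ] Ch (γ ⊕ β)) := by
    apply Ch.ext_lin
    intro l
    rw [LinearMap.add_apply, LinearMap.comp_apply, LinearMap.id_apply]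
    rcases labs_cases l with ⟨l0, rfl⟩ | h
    · rw [labs_pr0_map, labs_pr1_map, lmapDomain_apply, mapDomain_single, add_zero]
    · rw [labs_pr0_inl l h, labs_pr1_inl l h, map_zero, zero_add]
  exact LinearMap.congr_fun h z

theorem labs_pr0_mapDomain (u : Ch β) :
    pr0 (mapDomain (List.map (Sum.inr : β → γ ⊕ β)) u) = u := by
  have h : pr0 ∘ₗ (Finsupp.lmapDomain ℤ ℤ (List.map (Sum.inr : β → γ ⊕ β))) =
      (LinearMap.id : Ch β →ₗ[ℤ] Ch β) := by
    apply Ch.ext_lin
    intro l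
    rw [LinearMap.comp_apply, lmapDomain_apply, mapDomain_single, labs_pr0_map, LinearMap.id_apply]
  exact LinearMap.congr_fun h u

theorem labs_pr1_mapDomain (u : Ch β) :
    pr1 (mapDomain (List.map (Sum.inr : β → γ ⊕ β)) u) = 0 := by
  have h : pr1 ∘ₗ (Finsupp.lmapDomain ℤ ℤ (List.map (Sum.inr : β → γ ⊕ β))) =
      (0 : Ch β →ₗ[ℤ] Ch (γ ⊕ β)) := by
    apply Ch.ext_lin
    intro l
    rw [LinearMap.comp_apply, lmapDomain_apply, mapDomain_single, labs_pr1_map, LinearMap.zero_apply]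
  exact LinearMap.congr_fun h u

/-- the boundary of the two parts of a boundary -/
theorem labs_bd_parts (y : Ch (γ ⊕ β)) :
    pr0 (bd (pr1 (bd y))) = - bd (pr0 (bd y)) ∧ pr1 (bd (pr1 (bd y))) = 0 := by
  have h1 := labs_dec (bd y)
  have h2 : bd (mapDomain (List.map Sum.inr) (pr0 (bd y))) + bd (pr1 (bd y)) = 0 := by
    rw [← map_add, h1, bd_bd]
  rw [bd_map] at h2
  have h3 : bd (pr1 (bd y)) = - mapDomain (List.map Sum.inr) (bd (pr0 (bd y))) :=
    eq_neg_of_add_eq_zero_right h2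
  constructor
  · rw [h3, map_neg, labs_pr0_mapDomain]
  · rw [h3, map_neg, labs_pr1_mapDomain, neg_zero]

/-- chains of length `n` -/
theorem labs_flN_len (W : List β → τ) (n : ℕ) :
    ∀ l : List β, flN W n l ∈ Sup {c : List τ | c.length = n} := by
  induction n with
  | zero =>
    intro l
    exact single_mem_Sup (by simp) 1
  | succ n ih =>
    intro l
    have h1 : Finsupp.linearCombination ℤ (flN W n) (bdL l) ∈ Sup {c : List τ | c.length = n} := by
      rw [Finsupp.linearCombination_apply, Finsupp.sum]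
      exact Submodule.sum_mem _ fun m _ => Submodule.smul_mem _ _ (ih m)
    exact cone_mem_Sup (W l) (fun c hc => by simpa using hc) h1

theorem labs_fl_len (W : List β → τ) (n : ℕ) {u : Ch β} (hu : u ∈ Sup {l : List β | l.length = n}) :
    fl W u ∈ Sup {c : List τ | c.length = n} := by
  refine map_Sup (fl W) _ ?_ hu
  intro l hl
  unfold fl
  rw [Finsupp.linearCombination_single, one_smul]
  have h := labs_flN_len W l.length l
  have hl' : l.length = n := hl
  rw [hl'] at h ⊢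
  exact h

theorem labs_bdL_len (l : List α) (n : ℕ) (hl : l.length = n + 1) :
    bdL l ∈ Sup {c : List α | c.length = n} := by
  rw [Finsupp.mem_supported]
  intro l' hl'
  have h := (bdL_support l l' hl').2
  show l'.length = n
  omega

theorem labs_pr0_len (n : ℕ) {z : Ch (γ ⊕ β)} (hz : z ∈ Sup {l : List (γ ⊕ β) | l.length = n}) :
    pr0 z ∈ Sup {l : List β | l.length = n} := by
  refine map_Sup pr0 _ ?_ hz
  intro l hl
  rcases labs_cases l with ⟨l0, rfl⟩ | h
  · rw [labs_pr0_map]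
    exact single_mem_Sup (by simpa using hl) 1
  · rw [labs_pr0_inl l h]
    exact Submodule.zero_mem _

theorem labs_pr1_len (n : ℕ) {z : Ch (γ ⊕ β)} (hz : z ∈ Sup {l : List (γ ⊕ β) | l.length = n}) :
    pr1 z ∈ Sup {l : List (γ ⊕ β) | l.length = n} := by
  refine map_Sup pr1 _ ?_ hz
  intro l hl
  rcases labs_cases l with ⟨l0, rfl⟩ | h
  · rw [labs_pr1_map]
    exact Submodule.zero_mem _
  · rw [labs_pr1_inl l h]
    exact single_mem_Sup hl 1

end aux

section cells
variable {γ β τ : Type} [PartialOrder τ]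

/-- the cells -/
abbrev labs_Cell (Φ : FlagData γ β τ) : Type :=
  {c : List τ // c ∈ DC τ} ⊕ {y : List (γ ⊕ β) // y ∈ Φ.Np}

/-- the length of a cell -/
def labs_len (Φ : FlagData γ β τ) : labs_Cell Φ → ℕ :=
  Sum.elim (fun c => c.1.length) (fun y => y.1.length)

/-- the chain part -/
noncomputable def labs_P1 (Φ : FlagData γ β τ) : (labs_Cell Φ →₀ ℤ) →ₗ[ℤ] Ch τ :=
  Finsupp.linearCombination ℤ (Sum.elim (fun c => single c.1 1) (fun _ => 0))

/-- the list part -/
noncomputable def labs_P2 (Φ : FlagData γ β τ) : (labs_Cell Φ →₀ ℤ) →ₗ[ℤ] Ch (γ ⊕ β) :=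
  Finsupp.linearCombination ℤ (Sum.elim (fun _ => 0) (fun y => single y.1 1))

open Classical in
/-- from chains to cells -/
noncomputable def labs_B1 (Φ : FlagData γ β τ) : Ch τ →ₗ[ℤ] (labs_Cell Φ →₀ ℤ) :=
  Finsupp.linearCombination ℤ (fun c => if h : c ∈ DC τ then single (Sum.inl ⟨c, h⟩) 1 else 0)

open Classical in
/-- from lists to cells -/
noncomputable def labs_B2 (Φ : FlagData γ β τ) : Ch (γ ⊕ β) →ₗ[ℤ] (labs_Cell Φ →₀ ℤ) :=
  Finsupp.linearCombination ℤ (fun y => if h : y ∈ Φ.Np then single (Sum.inr ⟨y, h⟩) 1 else 0)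

theorem labs_P1_inl (Φ : FlagData γ β τ) (c : {c : List τ // c ∈ DC τ}) (n : ℤ) :
    labs_P1 Φ (single (Sum.inl c) n) = single c.1 n := by
  unfold labs_P1
  rw [Finsupp.linearCombination_single, Sum.elim_inl, Finsupp.smul_single, smul_eq_mul, mul_one]

theorem labs_P1_inr (Φ : FlagData γ β τ) (y : {y : List (γ ⊕ β) // y ∈ Φ.Np}) (n : ℤ) :
    labs_P1 Φ (single (Sum.inr y) n) = 0 := by
  unfold labs_P1
  rw [Finsupp.linearCombination_single, Sum.elim_inr, smul_zero]

theorem labs_P2_inl (Φ : FlagData γ β τ) (c : {c : List τ // c ∈ DC τ}) (n : ℤ) :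
    labs_P2 Φ (single (Sum.inl c) n) = 0 := by
  unfold labs_P2
  rw [Finsupp.linearCombination_single, Sum.elim_inl, smul_zero]

theorem labs_P2_inr (Φ : FlagData γ β τ) (y : {y : List (γ ⊕ β) // y ∈ Φ.Np}) (n : ℤ) :
    labs_P2 Φ (single (Sum.inr y) n) = single y.1 n := by
  unfold labs_P2
  rw [Finsupp.linearCombination_single, Sum.elim_inr, Finsupp.smul_single, smul_eq_mul, mul_one]

theorem labs_B1_single (Φ : FlagData γ β τ) (c : List τ) (h : c ∈ DC τ) (n : ℤ) :
    labs_B1 Φ (single c n) = single (Sum.inl ⟨c, h⟩) n := by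
  unfold labs_B1
  rw [Finsupp.linearCombination_single, dif_pos h, Finsupp.smul_single, smul_eq_mul, mul_one]

theorem labs_B2_single (Φ : FlagData γ β τ) (y : List (γ ⊕ β)) (h : y ∈ Φ.Np) (n : ℤ) :
    labs_B2 Φ (single y n) = single (Sum.inr ⟨y, h⟩) n := by
  unfold labs_B2
  rw [Finsupp.linearCombination_single, dif_pos h, Finsupp.smul_single, smul_eq_mul, mul_one]

theorem labs_BP (Φ : FlagData γ β τ) (x : labs_Cell Φ →₀ ℤ) :
    labs_B1 Φ (labs_P1 Φ x) + labs_B2 Φ (labs_P2 Φ x) = x := by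
  induction x using Finsupp.induction_linear with
  | zero => simp
  | add f g hf hg =>
    rw [map_add, map_add, map_add, map_add]
    nth_rw 3 [← hf]
    nth_rw 3 [← hg]
    abel
  | single s n =>
    rcases s with c | y
    · rw [labs_P1_inl, labs_P2_inl, map_zero, add_zero, labs_B1_single Φ c.1 c.2]
    · rw [labs_P1_inr, labs_P2_inr, map_zero, zero_add, labs_B2_single Φ y.1 y.2]

theorem labs_P1_mem (Φ : FlagData γ β τ) (x : labs_Cell Φ →₀ ℤ) : labs_P1 Φ x ∈ Sup (DC τ) := by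
  induction x using Finsupp.induction_linear with
  | zero => rw [map_zero]; exact Submodule.zero_mem _
  | add f g hf hg => rw [map_add]; exact Submodule.add_mem _ hf hg
  | single s n =>
    rcases s with c | y
    · rw [labs_P1_inl]; exact single_mem_Sup c.2 n
    · rw [labs_P1_inr]; exact Submodule.zero_mem _

theorem labs_P2_mem (Φ : FlagData γ β τ) (x : labs_Cell Φ →₀ ℤ) : labs_P2 Φ x ∈ Sup Φ.Np := by
  induction x using Finsupp.induction_linear with
  | zero => rw [map_zero]; exact Submodule.zero_mem _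
  | add f g hf hg => rw [map_add]; exact Submodule.add_mem _ hf hg
  | single s n =>
    rcases s with c | y
    · rw [labs_P2_inl]; exact Submodule.zero_mem _
    · rw [labs_P2_inr]; exact single_mem_Sup y.2 n

theorem labs_P1_B1 (Φ : FlagData γ β τ) {c : Ch τ} (hc : c ∈ Sup (DC τ)) :
    labs_P1 Φ (labs_B1 Φ c) = c := by
  refine labs_eq_on (labs_P1 Φ ∘ₗ labs_B1 Φ) LinearMap.id (fun l hl => ?_) hc
  rw [LinearMap.comp_apply, labs_B1_single Φ l hl, labs_P1_inl, LinearMap.id_apply]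

theorem labs_P2_B1 (Φ : FlagData γ β τ) {c : Ch τ} (hc : c ∈ Sup (DC τ)) :
    labs_P2 Φ (labs_B1 Φ c) = 0 := by
  refine labs_eq_on (labs_P2 Φ ∘ₗ labs_B1 Φ) 0 (fun l hl => ?_) hc
  rw [LinearMap.comp_apply, labs_B1_single Φ l hl, labs_P2_inl, LinearMap.zero_apply]

theorem labs_P1_B2 (Φ : FlagData γ β τ) {y : Ch (γ ⊕ β)} (hy : y ∈ Sup Φ.Np) :
    labs_P1 Φ (labs_B2 Φ y) = 0 := by
  refine labs_eq_on (labs_P1 Φ ∘ₗ labs_B2 Φ) 0 (fun l hl => ?_) hy
  rw [LinearMap.comp_apply, labs_B2_single Φ l hl, labs_P1_inr, LinearMap.zero_apply]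

theorem labs_P2_B2 (Φ : FlagData γ β τ) {y : Ch (γ ⊕ β)} (hy : y ∈ Sup Φ.Np) :
    labs_P2 Φ (labs_B2 Φ y) = y := by
  refine labs_eq_on (labs_P2 Φ ∘ₗ labs_B2 Φ) LinearMap.id (fun l hl => ?_) hy
  rw [LinearMap.comp_apply, labs_B2_single Φ l hl, labs_P2_inr, LinearMap.id_apply]

theorem labs_Np_sub (Φ : FlagData γ β τ) : Φ.Np ⊆ Φ.N := fun _ h => h.1

theorem labs_bd_N (Φ : FlagData γ β τ) {y : Ch (γ ⊕ β)} (hy : y ∈ Sup Φ.Np) : bd y ∈ Sup Φ.N :=
  bd_mem_Sup Φ.hcl (Sup_mono (labs_Np_sub Φ) hy)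

theorem labs_pr0_mem (Φ : FlagData γ β τ) {z : Ch (γ ⊕ β)} (hz : z ∈ Sup Φ.N) :
    pr0 z ∈ Sup Φ.N0 := by
  refine map_Sup pr0 _ ?_ hz
  intro l hl
  rcases labs_cases l with ⟨l0, rfl⟩ | h
  · rw [labs_pr0_map]
    have h0 : l0 ∈ Φ.N0 := hl
    exact single_mem_Sup h0 1
  · rw [labs_pr0_inl l h]
    exact Submodule.zero_mem _

theorem labs_pr1_mem (Φ : FlagData γ β τ) {z : Ch (γ ⊕ β)} (hz : z ∈ Sup Φ.N) :
    pr1 z ∈ Sup Φ.Np := by
  refine map_Sup pr1 _ ?_ hz
  intro l hl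
  rcases labs_cases l with ⟨l0, rfl⟩ | h
  · rw [labs_pr1_map]
    exact Submodule.zero_mem _
  · rw [labs_pr1_inl l h]
    have h0 : l ∈ Φ.Np := ⟨hl, h⟩
    exact single_mem_Sup h0 1

theorem labs_DC_closed : Closed (DC τ) := fun l hl l' hl' => List.Pairwise.sublist hl' hl

/-- the chain part of the differential -/
noncomputable def labs_d1 (Φ : FlagData γ β τ) (c : Ch τ) (y : Ch (γ ⊕ β)) : Ch τ :=
  bd c + fl Φ.W (pr0 (bd y))

theorem labs_d1_mem (Φ : FlagData γ β τ) {c : Ch τ} (hc : c ∈ Sup (DC τ)) {y : Ch (γ ⊕ β)}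
    (hy : y ∈ Sup Φ.Np) : labs_d1 Φ c y ∈ Sup (DC τ) :=
  Submodule.add_mem _ (bd_mem_Sup labs_DC_closed hc) (Φ.fl_mem (labs_pr0_mem Φ (labs_bd_N Φ hy)))

/-- the differential -/
noncomputable def labs_d (Φ : FlagData γ β τ) : (labs_Cell Φ →₀ ℤ) →ₗ[ℤ] (labs_Cell Φ →₀ ℤ) :=
  labs_B1 Φ ∘ₗ (bd ∘ₗ labs_P1 Φ + fl Φ.W ∘ₗ pr0 ∘ₗ bd ∘ₗ labs_P2 Φ) +
    labs_B2 Φ ∘ₗ pr1 ∘ₗ bd ∘ₗ labs_P2 Φ

theorem labs_d_apply (Φ : FlagData γ β τ) (x : labs_Cell Φ →₀ ℤ) :
    labs_d Φ x = labs_B1 Φ (labs_d1 Φ (labs_P1 Φ x) (labs_P2 Φ x)) +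
      labs_B2 Φ (pr1 (bd (labs_P2 Φ x))) := rfl

theorem labs_P1_d (Φ : FlagData γ β τ) (x : labs_Cell Φ →₀ ℤ) :
    labs_P1 Φ (labs_d Φ x) = labs_d1 Φ (labs_P1 Φ x) (labs_P2 Φ x) := by
  rw [labs_d_apply, map_add, labs_P1_B1 Φ (labs_d1_mem Φ (labs_P1_mem Φ x) (labs_P2_mem Φ x)),
    labs_P1_B2 Φ (labs_pr1_mem Φ (labs_bd_N Φ (labs_P2_mem Φ x))), add_zero]

theorem labs_P2_d (Φ : FlagData γ β τ) (x : labs_Cell Φ →₀ ℤ) :
    labs_P2 Φ (labs_d Φ x) = pr1 (bd (labs_P2 Φ x)) := by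
  rw [labs_d_apply, map_add, labs_P2_B1 Φ (labs_d1_mem Φ (labs_P1_mem Φ x) (labs_P2_mem Φ x)),
    labs_P2_B2 Φ (labs_pr1_mem Φ (labs_bd_N Φ (labs_P2_mem Φ x))), zero_add]

theorem labs_dd (Φ : FlagData γ β τ) (x : labs_Cell Φ →₀ ℤ) : labs_d Φ (labs_d Φ x) = 0 := by
  obtain ⟨h1, h2⟩ := labs_bd_parts (labs_P2 Φ x)
  rw [labs_d_apply Φ (labs_d Φ x), labs_P1_d, labs_P2_d, h2, map_zero, add_zero]
  have h3 : labs_d1 Φ (labs_d1 Φ (labs_P1 Φ x) (labs_P2 Φ x)) (pr1 (bd (labs_P2 Φ x))) = 0 := by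
    unfold labs_d1
    rw [map_add, bd_bd, zero_add, h1, map_neg, bd_fl, add_neg_cancel]
  rw [h3, map_zero]

theorem labs_ex (Φ : FlagData γ β τ) (x : labs_Cell Φ →₀ ℤ) (hx : labs_d Φ x = 0) :
    ∃ y, labs_d Φ y = x := by
  have h1 : labs_d1 Φ (labs_P1 Φ x) (labs_P2 Φ x) = 0 := by
    rw [← labs_P1_d, hx, map_zero]
  have h2 : pr1 (bd (labs_P2 Φ x)) = 0 := by
    rw [← labs_P2_d, hx, map_zero]
  obtain ⟨c', hc', y', hy', h3, h4⟩ := Φ.exact (labs_P1 Φ x) (labs_P1_mem Φ x) (labs_P2 Φ x)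
    (labs_P2_mem Φ x) h1 h2
  refine ⟨labs_B1 Φ c' + labs_B2 Φ y', ?_⟩
  rw [labs_d_apply, map_add, map_add, labs_P1_B1 Φ hc', labs_P1_B2 Φ hy', labs_P2_B1 Φ hc',
    labs_P2_B2 Φ hy', add_zero, zero_add, h4]
  have h5 : labs_d1 Φ c' y' = labs_P1 Φ x := h3
  rw [h5, labs_BP]

/-- cells of given length -/
theorem labs_B1_len (Φ : FlagData γ β τ) (n : ℕ) {c : Ch τ} (hc : c ∈ Sup {l : List τ | l.length = n}) :
    labs_B1 Φ c ∈ Finsupp.supported ℤ ℤ {s : labs_Cell Φ | labs_len Φ s = n} := by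
  refine map_Sup (labs_B1 Φ) _ ?_ hc
  intro l hl
  by_cases h : l ∈ DC τ
  · rw [labs_B1_single Φ l h]
    exact Finsupp.single_mem_supported ℤ 1 hl
  · have : labs_B1 Φ (single l 1) = 0 := by
      unfold labs_B1
      rw [Finsupp.linearCombination_single, dif_neg h, smul_zero]
    rw [this]
    exact Submodule.zero_mem _

theorem labs_B2_len (Φ : FlagData γ β τ) (n : ℕ) {y : Ch (γ ⊕ β)}
    (hy : y ∈ Sup {l : List (γ ⊕ β) | l.length = n}) :
    labs_B2 Φ y ∈ Finsupp.supported ℤ ℤ {s : labs_Cell Φ | labs_len Φ s = n} := by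
  refine map_Sup (labs_B2 Φ) _ ?_ hy
  intro l hl
  by_cases h : l ∈ Φ.Np
  · rw [labs_B2_single Φ l h]
    exact Finsupp.single_mem_supported ℤ 1 hl
  · have : labs_B2 Φ (single l 1) = 0 := by
      unfold labs_B2
      rw [Finsupp.linearCombination_single, dif_neg h, smul_zero]
    rw [this]
    exact Submodule.zero_mem _

theorem labs_deg (Φ : FlagData γ β τ) (s : labs_Cell Φ) :
    ∀ t ∈ (labs_d Φ (single s 1)).support, labs_len Φ t + 1 = labs_len Φ s := by
  intro t ht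
  rcases s with c | y
  · rw [labs_d_apply, labs_P1_inl, labs_P2_inl, map_zero, map_zero, map_zero, add_zero] at ht
    unfold labs_d1 at ht
    rw [map_zero, map_zero, map_zero, add_zero, bd_single, one_smul] at ht
    obtain ⟨l, hl⟩ := c
    show labs_len Φ t + 1 = l.length
    rcases l with _ | ⟨a, l⟩
    · have : labs_B1 Φ (bdL ([] : List τ)) = 0 := by rw [bdL_nil, map_zero]
      change t ∈ (labs_B1 Φ (bdL ([] : List τ))).support at ht
      rw [this] at ht
      simp at ht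
    · have h1 := labs_B1_len Φ l.length (labs_bdL_len (a :: l) l.length (by simp))
      rw [Finsupp.mem_supported] at h1
      have h2 : labs_len Φ t = l.length := h1 ht
      simp [h2]
  · rw [labs_d_apply, labs_P1_inr, labs_P2_inr] at ht
    unfold labs_d1 at ht
    rw [map_zero, zero_add, bd_single, one_smul] at ht
    obtain ⟨l, hl⟩ := y
    show labs_len Φ t + 1 = l.length
    rcases l with _ | ⟨a, l⟩
    · exfalso
      obtain ⟨b, hb⟩ := hl.2
      simp at hb
    · have h0 := labs_bdL_len (a :: l) l.length (by simp)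
      have h1 := labs_B1_len Φ l.length (labs_fl_len Φ.W l.length (labs_pr0_len l.length h0))
      have h2 := labs_B2_len Φ l.length (labs_pr1_len l.length h0)
      have h3 := Submodule.add_mem _ h1 h2
      rw [Finsupp.mem_supported] at h3
      have h4 : labs_len Φ t = l.length := h3 ht
      simp [h4]

end cells

section action
variable {G β τ : Type} [Group G] [MulAction G β] [MulAction G τ] [PartialOrder τ]

theorem labs_sact_one (a : G ⊕ β) : sact (1 : G) a = a := by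
  rcases a with a | a
  · exact congrArg Sum.inl (one_mul a)
  · exact congrArg Sum.inr (one_smul G a)

theorem labs_sact_mul (g h : G) (a : G ⊕ β) : sact (g * h) a = sact g (sact h a) := by
  rcases a with a | a
  · exact congrArg Sum.inl (mul_assoc g h a)
  · exact congrArg Sum.inr (mul_smul g h a)

theorem labs_DC_smul (hmono : ∀ (g : G) (w w' : τ), w ≤ w' → g • w ≤ g • w') (g : G) {c : List τ}
    (hc : c ∈ DC τ) : c.map (g • ·) ∈ DC τ := by
  show List.Pairwise (· ≥ ·) (c.map (g • ·))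
  rw [List.pairwise_map]
  exact List.Pairwise.imp (fun h => hmono g _ _ h) hc

theorem labs_Np_smul (Φ : FlagData G β τ) (hinv : ∀ (g : G), ∀ l ∈ Φ.N, l.map (sact g) ∈ Φ.N)
    (g : G) {y : List (G ⊕ β)} (hy : y ∈ Φ.Np) : y.map (sact g) ∈ Φ.Np := by
  obtain ⟨h1, a, ha⟩ := hy
  exact ⟨hinv g y h1, g * a, List.mem_map.2 ⟨Sum.inl a, ha, rfl⟩⟩

/-- the action on the cells -/
def labs_act (hmono : ∀ (g : G) (w w' : τ), w ≤ w' → g • w ≤ g • w') (Φ : FlagData G β τ)
    (hinv : ∀ (g : G), ∀ l ∈ Φ.N, l.map (sact g) ∈ Φ.N) : MulAction G (labs_Cell Φ) where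
  smul g s := Sum.map (fun c => ⟨c.1.map (g • ·), labs_DC_smul hmono g c.2⟩)
    (fun y => ⟨y.1.map (sact g), labs_Np_smul Φ hinv g y.2⟩) s
  one_smul s := by
    rcases s with ⟨c, hc⟩ | ⟨y, hy⟩
    · refine congrArg Sum.inl (Subtype.ext ?_)
      show c.map (fun w => (1 : G) • w) = c
      simp only [one_smul, List.map_id']
    · refine congrArg Sum.inr (Subtype.ext ?_)
      show y.map (fun a => sact (1 : G) a) = y
      simp only [labs_sact_one, List.map_id']
  mul_smul g h s := by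
    rcases s with ⟨c, hc⟩ | ⟨y, hy⟩
    · refine congrArg Sum.inl (Subtype.ext ?_)
      show c.map (fun w => (g * h) • w) = (c.map (h • ·)).map (g • ·)
      rw [List.map_map]
      exact List.map_congr_left fun w _ => mul_smul g h w
    · refine congrArg Sum.inr (Subtype.ext ?_)
      show y.map (fun a => sact (g * h) a) = (y.map (sact h)).map (sact g)
      rw [List.map_map]
      exact List.map_congr_left fun a _ => labs_sact_mul g h a

theorem labs_map_inr (g : G) (l : List β) :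
    (l.map (g • ·)).map (Sum.inr : β → G ⊕ β) = (l.map Sum.inr).map (sact g) := by
  rw [List.map_map, List.map_map]
  rfl

theorem labs_N0_smul (Φ : FlagData G β τ) (hinv : ∀ (g : G), ∀ l ∈ Φ.N, l.map (sact g) ∈ Φ.N)
    (g : G) {l : List β} (hl : l ∈ Φ.N0) : l.map (g • ·) ∈ Φ.N0 := by
  show (l.map (g • ·)).map Sum.inr ∈ Φ.N
  rw [labs_map_inr]
  exact hinv g _ hl

theorem labs_W (hmono : ∀ (g : G) (w w' : τ), w ≤ w' → g • w ≤ g • w')
    (Φ : FlagData G β τ) (hP : ∀ (g : G) (v : β) (w : τ), Φ.P v w → Φ.P (g • v) (g • w))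
    (hinv : ∀ (g : G), ∀ l ∈ Φ.N, l.map (sact g) ∈ Φ.N) (g : G) (l : List β) (hne : l ≠ [])
    (hl : l ∈ Φ.N0) : Φ.W (l.map (g • ·)) = g • Φ.W l := by
  have hne2 : l.map (g • ·) ≠ [] := by
    intro h
    exact hne (List.map_eq_nil_iff.1 h)
  have hl2 := labs_N0_smul Φ hinv g hl
  apply le_antisymm
  · refine Φ.hW2 _ hne2 hl2 _ ?_
    intro v hv
    obtain ⟨u, hu, rfl⟩ := List.mem_map.1 hv
    exact hP g u _ (Φ.hW1 l hne hl u hu)
  · have h1 : Φ.W l ≤ g⁻¹ • Φ.W (l.map (g • ·)) := by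
      refine Φ.hW2 l hne hl _ ?_
      intro v hv
      have h2 := Φ.hW1 _ hne2 hl2 (g • v) (List.mem_map.2 ⟨v, hv, rfl⟩)
      have h3 := hP g⁻¹ _ _ h2
      rwa [inv_smul_smul] at h3
    have h4 := hmono g _ _ h1
    rwa [smul_inv_smul] at h4

theorem labs_bdL_map {α α' : Type} (f : α → α') (l : List α) :
    bdL (l.map f) = mapDomain (List.map f) (bdL l) := by
  have h := bd_map f (single l 1)
  rwa [mapDomain_single, bd_single, bd_single, one_smul, one_smul] at h

theorem labs_cone_map {α α' : Type} (f : α → α') (a : α) (c : Ch α) :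
    cone (f a) (mapDomain (List.map f) c) = mapDomain (List.map f) (cone a c) := by
  have h : cone (f a) ∘ₗ (Finsupp.lmapDomain ℤ ℤ (List.map f)) =
      (Finsupp.lmapDomain ℤ ℤ (List.map f)) ∘ₗ (cone a : Ch α →ₗ[ℤ] Ch α) := by
    apply Ch.ext_lin
    intro l
    simp
  exact LinearMap.congr_fun h c

theorem labs_flN (hmono : ∀ (g : G) (w w' : τ), w ≤ w' → g • w ≤ g • w')
    (Φ : FlagData G β τ) (hP : ∀ (g : G) (v : β) (w : τ), Φ.P v w → Φ.P (g • v) (g • w))
    (hinv : ∀ (g : G), ∀ l ∈ Φ.N, l.map (sact g) ∈ Φ.N) (g : G) (n : ℕ) :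
    ∀ l : List β, l.length = n → l ∈ Φ.N0 →
      flN Φ.W n (l.map (g • ·)) = mapDomain (List.map (g • ·)) (flN Φ.W n l) := by
  induction n with
  | zero =>
    intro l _ _
    show (single [] 1 : Ch τ) = mapDomain (List.map (g • ·)) (single [] 1)
    rw [mapDomain_single, List.map_nil]
  | succ n ih =>
    intro l hlen hl
    have hne : l ≠ [] := by
      rintro rfl
      simp at hlen
    show cone (Φ.W (l.map (g • ·))) (Finsupp.linearCombination ℤ (flN Φ.W n) (bdL (l.map (g • ·)))) =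
      mapDomain (List.map (g • ·)) (cone (Φ.W l) (Finsupp.linearCombination ℤ (flN Φ.W n) (bdL l)))
    rw [labs_W hmono Φ hP hinv g l hne hl, ← labs_cone_map (fun w : τ => g • w), labs_bdL_map]
    congr 1
    have hb : bdL l ∈ Sup {m : List β | m.length = n ∧ m ∈ Φ.N0} := by
      rw [Finsupp.mem_supported]
      intro m hm
      obtain ⟨h1, h2⟩ := bdL_support l m hm
      refine ⟨by omega, ?_⟩
      exact Φ.hcl _ hl _ (h1.map Sum.inr)
    refine labs_eq_on (Finsupp.linearCombination ℤ (flN Φ.W n) ∘ₗ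
      Finsupp.lmapDomain ℤ ℤ (List.map (g • ·)))
      (Finsupp.lmapDomain ℤ ℤ (List.map (g • ·)) ∘ₗ Finsupp.linearCombination ℤ (flN Φ.W n))
      (fun m hm => ?_) hb
    rw [LinearMap.comp_apply, LinearMap.comp_apply, lmapDomain_apply, lmapDomain_apply,
      mapDomain_single, Finsupp.linearCombination_single, Finsupp.linearCombination_single,
      one_smul, one_smul]
    exact ih m hm.1 hm.2

theorem labs_fl (hmono : ∀ (g : G) (w w' : τ), w ≤ w' → g • w ≤ g • w')
    (Φ : FlagData G β τ) (hP : ∀ (g : G) (v : β) (w : τ), Φ.P v w → Φ.P (g • v) (g • w))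
    (hinv : ∀ (g : G), ∀ l ∈ Φ.N, l.map (sact g) ∈ Φ.N) (g : G) {u : Ch β} (hu : u ∈ Sup Φ.N0) :
    fl Φ.W (mapDomain (List.map (g • ·)) u) = mapDomain (List.map (g • ·)) (fl Φ.W u) := by
  refine labs_eq_on (fl Φ.W ∘ₗ Finsupp.lmapDomain ℤ ℤ (List.map (g • ·)))
    (Finsupp.lmapDomain ℤ ℤ (List.map (g • ·)) ∘ₗ fl Φ.W) (fun m hm => ?_) hu
  rw [LinearMap.comp_apply, LinearMap.comp_apply, lmapDomain_apply, lmapDomain_apply,
    mapDomain_single]
  unfold fl
  rw [Finsupp.linearCombination_single, Finsupp.linearCombination_single,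
      one_smul, one_smul, List.length_map]
  exact labs_flN hmono Φ hP hinv g m.length m rfl hm

theorem labs_pr0_equiv (g : G) (z : Ch (G ⊕ β)) :
    pr0 (mapDomain (List.map (sact g)) z) = mapDomain (List.map (g • ·)) (pr0 z) := by
  have h : pr0 ∘ₗ (Finsupp.lmapDomain ℤ ℤ (List.map (sact g))) =
      (Finsupp.lmapDomain ℤ ℤ (List.map (g • ·))) ∘ₗ (pr0 : Ch (G ⊕ β) →ₗ[ℤ] Ch β) := by
    apply Ch.ext_lin
    intro l
    rw [LinearMap.comp_apply, LinearMap.comp_apply, lmapDomain_apply, lmapDomain_apply,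
      mapDomain_single]
    rcases labs_cases l with ⟨l0, rfl⟩ | h
    · rw [← labs_map_inr, labs_pr0_map, labs_pr0_map, mapDomain_single]
    · obtain ⟨a, ha⟩ := h
      rw [labs_pr0_inl l ⟨a, ha⟩, labs_pr0_inl _ ⟨g * a, List.mem_map.2 ⟨Sum.inl a, ha, rfl⟩⟩,
        mapDomain_zero]
  exact LinearMap.congr_fun h z

theorem labs_pr1_equiv (g : G) (z : Ch (G ⊕ β)) :
    pr1 (mapDomain (List.map (sact g)) z) = mapDomain (List.map (sact g)) (pr1 z) := by
  have h : pr1 ∘ₗ (Finsupp.lmapDomain ℤ ℤ (List.map (sact g))) =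
      (Finsupp.lmapDomain ℤ ℤ (List.map (sact g))) ∘ₗ (pr1 : Ch (G ⊕ β) →ₗ[ℤ] Ch (G ⊕ β)) := by
    apply Ch.ext_lin
    intro l
    rw [LinearMap.comp_apply, LinearMap.comp_apply, lmapDomain_apply, lmapDomain_apply,
      mapDomain_single]
    rcases labs_cases l with ⟨l0, rfl⟩ | h
    · rw [← labs_map_inr, labs_pr1_map, labs_pr1_map, mapDomain_zero]
    · obtain ⟨a, ha⟩ := h
      rw [labs_pr1_inl l ⟨a, ha⟩, labs_pr1_inl _ ⟨g * a, List.mem_map.2 ⟨Sum.inl a, ha, rfl⟩⟩,
        mapDomain_single]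
  exact LinearMap.congr_fun h z

end action

theorem GFP_of_flags {G β τ : Type} [Group G] [MulAction G β] [MulAction G τ] [PartialOrder τ]
    (hmono : ∀ (g : G) (w w' : τ), w ≤ w' → g • w ≤ g • w')
    (Φ : FlagData G β τ) (hP : ∀ (g : G) (v : β) (w : τ), Φ.P v w → Φ.P (g • v) (g • w))
    (hnil : [] ∈ Φ.N)
    (hset : ∀ l ∈ Φ.N, ∀ l' : List (G ⊕ β), (∀ a ∈ l', a ∈ l) → l' ∈ Φ.N)
    (hinv : ∀ (g : G), ∀ l ∈ Φ.N, l.map (sact g) ∈ Φ.N)
    (hfin : {a : G ⊕ β | [Sum.inl 1, a] ∈ Φ.N}.Finite)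
    (F : ℕ → Set (List τ)) (hF : ∀ n, (F n).Finite) (hFdc : ∀ n, ∀ c ∈ F n, c ∈ DC τ)
    (horb : ∀ c ∈ DC τ, ∃ c' ∈ F c.length, ∃ g : G, c'.map (g • ·) = c)
    (hst : ∀ c ∈ DC τ, c ≠ [] → GFP (stabL (G := G) c)) : GFP G := by
  letI act : MulAction G (labs_Cell Φ) := labs_act hmono Φ hinv
  have act_inl : ∀ (g : G) (c : List τ) (hc : c ∈ DC τ),
      g • (Sum.inl ⟨c, hc⟩ : labs_Cell Φ) = Sum.inl ⟨c.map (g • ·), labs_DC_smul hmono g hc⟩ :=
    fun _ _ _ => rfl
  have act_inr : ∀ (g : G) (y : List (G ⊕ β)) (hy : y ∈ Φ.Np),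
      g • (Sum.inr ⟨y, hy⟩ : labs_Cell Φ) = Sum.inr ⟨y.map (sact g), labs_Np_smul Φ hinv g hy⟩ :=
    fun _ _ _ => rfl
  -- equivariance of the translations
  have hP1 : ∀ (g : G) (x : labs_Cell Φ →₀ ℤ), labs_P1 Φ (mapDomain (g • ·) x) =
      mapDomain (List.map (g • ·)) (labs_P1 Φ x) := by
    intro g x
    induction x using Finsupp.induction_linear with
    | zero => simp
    | add f h hf hh => rw [mapDomain_add, map_add, map_add, hf, hh, mapDomain_add]
    | single s n =>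
      rcases s with ⟨c, hc⟩ | ⟨y, hy⟩
      · rw [mapDomain_single, act_inl, labs_P1_inl, labs_P1_inl, mapDomain_single]
      · rw [mapDomain_single, act_inr, labs_P1_inr, labs_P1_inr, mapDomain_zero]
  have hP2 : ∀ (g : G) (x : labs_Cell Φ →₀ ℤ), labs_P2 Φ (mapDomain (g • ·) x) =
      mapDomain (List.map (sact g)) (labs_P2 Φ x) := by
    intro g x
    induction x using Finsupp.induction_linear with
    | zero => simp
    | add f h hf hh => rw [mapDomain_add, map_add, map_add, hf, hh, mapDomain_add]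
    | single s n =>
      rcases s with ⟨c, hc⟩ | ⟨y, hy⟩
      · rw [mapDomain_single, act_inl, labs_P2_inl, labs_P2_inl, mapDomain_zero]
      · rw [mapDomain_single, act_inr, labs_P2_inr, labs_P2_inr, mapDomain_single]
  have hB1 : ∀ (g : G) (c : Ch τ), c ∈ Sup (DC τ) →
      labs_B1 Φ (mapDomain (List.map (g • ·)) c) = mapDomain (g • ·) (labs_B1 Φ c) := by
    intro g c hc
    refine labs_eq_on (labs_B1 Φ ∘ₗ Finsupp.lmapDomain ℤ ℤ (List.map (g • ·)))
      (Finsupp.lmapDomain ℤ ℤ (fun s : labs_Cell Φ => g • s) ∘ₗ labs_B1 Φ) (fun m hm => ?_) hc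
    rw [LinearMap.comp_apply, LinearMap.comp_apply, lmapDomain_apply, lmapDomain_apply,
      mapDomain_single, labs_B1_single Φ m hm, labs_B1_single Φ _ (labs_DC_smul hmono g hm),
      mapDomain_single, act_inl]
  have hB2 : ∀ (g : G) (y : Ch (G ⊕ β)), y ∈ Sup Φ.Np →
      labs_B2 Φ (mapDomain (List.map (sact g)) y) = mapDomain (g • ·) (labs_B2 Φ y) := by
    intro g y hy
    refine labs_eq_on (labs_B2 Φ ∘ₗ Finsupp.lmapDomain ℤ ℤ (List.map (sact g)))
      (Finsupp.lmapDomain ℤ ℤ (fun s : labs_Cell Φ => g • s) ∘ₗ labs_B2 Φ) (fun m hm => ?_) hy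
    rw [LinearMap.comp_apply, LinearMap.comp_apply, lmapDomain_apply, lmapDomain_apply,
      mapDomain_single, labs_B2_single Φ m hm, labs_B2_single Φ _ (labs_Np_smul Φ hinv g hm),
      mapDomain_single, act_inr]
  have hd : ∀ (g : G) (x : labs_Cell Φ →₀ ℤ),
      labs_d Φ (mapDomain (g • ·) x) = mapDomain (g • ·) (labs_d Φ x) := by
    intro g x
    have hx1 := labs_P1_mem Φ x
    have hx2 := labs_P2_mem Φ x
    have h1 : labs_d1 Φ (labs_P1 Φ (mapDomain (g • ·) x)) (labs_P2 Φ (mapDomain (g • ·) x)) =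
        mapDomain (List.map (g • ·)) (labs_d1 Φ (labs_P1 Φ x) (labs_P2 Φ x)) := by
      unfold labs_d1
      rw [hP1, hP2, bd_map, bd_map, labs_pr0_equiv,
        labs_fl hmono Φ hP hinv g (labs_pr0_mem Φ (labs_bd_N Φ hx2)), mapDomain_add]
    have h2 : pr1 (bd (labs_P2 Φ (mapDomain (g • ·) x))) =
        mapDomain (List.map (sact g)) (pr1 (bd (labs_P2 Φ x))) := by
      rw [hP2, bd_map, labs_pr1_equiv]
    rw [labs_d_apply, labs_d_apply, h1, h2, hB1 g _ (labs_d1_mem Φ hx1 hx2),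
      hB2 g _ (labs_pr1_mem Φ (labs_bd_N Φ hx2)), mapDomain_add]
  -- the finite sets of representatives
  let K : Set (G ⊕ β) := {a : G ⊕ β | [Sum.inl 1, a] ∈ Φ.N}
  have hKfin : K.Finite := hfin
  have hlists : ∀ n : ℕ, {y : List (G ⊕ β) | y.length = n ∧ ∀ a ∈ y, a ∈ K}.Finite := by
    intro n
    have : Finite K := hKfin
    have h1 : {l : List K | l.length = n}.Finite := List.finite_length_eq K n
    refine (h1.image (List.map Subtype.val)).subset ?_
    rintro y ⟨h2, h3⟩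
    refine ⟨y.attach.map (fun a => ⟨a.1, h3 a.1 a.2⟩), ?_, ?_⟩
    · simpa using h2
    · rw [List.map_map]
      exact List.attach_map_subtype_val y
  let F' : ℕ → Set (labs_Cell Φ) := fun n =>
    {s | (∃ c : {c : List τ // c ∈ DC τ}, c.1 ∈ F n ∧ s = Sum.inl c) ∨
      ∃ y : {y : List (G ⊕ β) // y ∈ Φ.Np}, (y.1.length = n ∧ ∀ a ∈ y.1, a ∈ K) ∧ s = Sum.inr y}
  have hF' : ∀ n, (F' n).Finite := by
    intro n
    have h1 : {c : {c : List τ // c ∈ DC τ} | c.1 ∈ F n}.Finite :=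
      (hF n).preimage (Subtype.val_injective.injOn)
    have h2 : {y : {y : List (G ⊕ β) // y ∈ Φ.Np} | y.1.length = n ∧ ∀ a ∈ y.1, a ∈ K}.Finite :=
      (hlists n).preimage (Subtype.val_injective.injOn)
    refine ((h1.image (Sum.inl : _ → labs_Cell Φ)).union
      (h2.image (Sum.inr : _ → labs_Cell Φ))).subset ?_
    rintro s (⟨c, hc, rfl⟩ | ⟨y, hy, rfl⟩)
    · exact Or.inl ⟨c, hc, rfl⟩
    · exact Or.inr ⟨y, hy, rfl⟩
  refine GFP_of_graded (labs_len Φ) ?_ (labs_d Φ).toAddMonoidHom hd (labs_deg Φ) (labs_dd Φ)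
    (labs_ex Φ) (Sum.inl ⟨[], List.Pairwise.nil⟩) ?_ F' hF' ?_ ?_
  · -- lengths are invariant
    intro g s
    rcases s with ⟨c, hc⟩ | ⟨y, hy⟩
    · rw [act_inl]
      show (c.map (g • ·)).length = c.length
      rw [List.length_map]
    · rw [act_inr]
      show (y.map (sact g)).length = y.length
      rw [List.length_map]
  · -- the only cell of length zero
    intro s
    constructor
    · intro hs
      rcases s with ⟨c, hc⟩ | ⟨y, hy⟩
      · have h1 : c.length = 0 := hs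
        have h2 := List.length_eq_zero_iff.1 h1
        subst h2
        rfl
      · exfalso
        have h1 : y.length = 0 := hs
        have h2 := List.length_eq_zero_iff.1 h1
        obtain ⟨a, ha⟩ := hy.2
        rw [h2] at ha
        simp at ha
    · rintro rfl
      rfl
  · -- orbits
    intro s
    rcases s with ⟨c, hc⟩ | ⟨y, hy⟩
    · obtain ⟨c', hc', g, hg⟩ := horb c hc
      refine ⟨Sum.inl ⟨c', hFdc _ c' hc'⟩, Or.inl ⟨⟨c', hFdc _ c' hc'⟩, hc', rfl⟩, g, ?_⟩
      rw [act_inl]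
      exact congrArg Sum.inl (Subtype.ext hg)
    · obtain ⟨hy1, a, ha⟩ := hy
      have hy' := labs_Np_smul Φ hinv a⁻¹ (⟨hy1, a, ha⟩ : y ∈ Φ.Np)
      refine ⟨Sum.inr ⟨y.map (sact a⁻¹), hy'⟩, Or.inr ⟨⟨y.map (sact a⁻¹), hy'⟩, ⟨?_, ?_⟩, rfl⟩, a, ?_⟩
      · show (y.map (sact a⁻¹)).length = y.length
        rw [List.length_map]
      · intro b hb
        have h1 : (Sum.inl 1 : G ⊕ β) ∈ y.map (sact a⁻¹) :=
          List.mem_map.2 ⟨Sum.inl a, ha, congrArg Sum.inl (inv_mul_cancel a)⟩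
        refine hset _ hy'.1 [Sum.inl 1, b] ?_
        intro b' hb'
        rcases List.mem_cons.1 hb' with h | h
        · rw [h]; exact h1
        · rcases List.mem_cons.1 h with h | h
          · rw [h]; exact hb
          · simp at h
      · rw [act_inr]
        refine congrArg Sum.inr (Subtype.ext ?_)
        show (y.map (sact a⁻¹)).map (sact a) = y
        rw [List.map_map]
        have h2 : ∀ b ∈ y, (sact a ∘ sact a⁻¹) b = b := by
          intro b _
          show sact a (sact a⁻¹ b) = b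
          rw [← labs_sact_mul, mul_inv_cancel, labs_sact_one]
        rw [List.map_congr_left h2]
        exact List.map_id' y
  · -- stabilisers
    intro s hs
    rcases s with ⟨c, hc⟩ | ⟨y, hy⟩
    · have h1 : MulAction.stabilizer G (Sum.inl ⟨c, hc⟩ : labs_Cell Φ) = stabL c := by
        ext g
        rw [MulAction.mem_stabilizer_iff, act_inl]
        constructor
        · intro h
          have h2 : c.map (g • ·) = c := congrArg Subtype.val (Sum.inl.inj h)
          have h3 : c.map (g • ·) = c.map id := by rw [h2, List.map_id]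
          exact fun w hw => (List.map_inj_left.1 h3) w hw
        · intro h
          refine congrArg Sum.inl (Subtype.ext ?_)
          have h3 : c.map (g • ·) = c.map id := List.map_inj_left.2 (fun w hw => h w hw)
          rw [List.map_id] at h3
          exact h3
      rw [h1]
      refine hst c hc ?_
      rintro rfl
      exact hs rfl
    · have h1 : Subsingleton (MulAction.stabilizer G (Sum.inr ⟨y, hy⟩ : labs_Cell Φ)) := by
        have h2 : ∀ g : G, g ∈ MulAction.stabilizer G (Sum.inr ⟨y, hy⟩ : labs_Cell Φ) → g = 1 := by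
          intro g hg
          rw [MulAction.mem_stabilizer_iff, act_inr] at hg
          have h2 : y.map (sact g) = y := congrArg Subtype.val (Sum.inr.inj hg)
          have h3 : y.map (sact g) = y.map id := by rw [h2, List.map_id]
          obtain ⟨a, ha⟩ := hy.2
          have h4 := (List.map_inj_left.1 h3) (Sum.inl a) ha
          have h5 : g * a = a := Sum.inl.inj h4
          exact mul_eq_right.1 h5
        refine ⟨fun g h => Subtype.ext ?_⟩
        rw [h2 g.1 g.2, h2 h.1 h.2]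
      exact GFP.trivial _

end Tor
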