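import Mathlib
import Pool.Agent.Lib.MP_05cdf2_gt.B.LDef

/-! MP_05cdf2_gt, B-Sp, job LDow: Dowker duality for lists.

PUSH LEMMA `push`. `J` a set of lists closed under sublists, `bad` a predicate on entries, `B l = l.filter bad` (the list
of bad entries, classical). `c : List α → α` with: for `l ∈ J` with `B l ≠ []`: `c (B l) :: l ∈ J` and `c (B l)`
is not bad. If `z ∈ Sup J` and `bd z` is supported on lists without bad entries then there is `y ∈ Sup J` with
`z - bd y` supported on lists of `J` without bad entries.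
Proof: let `h l = single (c (B l) :: l) 1` if `B l ≠ []`, `h l = 0` otherwise, extended linearly. For `B l ≠ []`:
`bd (h l) = l - cone (c (B l)) (bdL l)` and `h (bdL l)`: the terms of `bdL l` obtained by removing a good entry have the
same `B`, so cancel with the corresponding terms of the cone. Hence `bd (h l) + h (bdL l) = l - ν l` with `ν l`
supported on lists of `J` with fewer bad entries (`ν l` = combination of `c (B l) :: l'` and `c (B l') :: l'` with `l'`
obtained from `l` by removing a bad entry; `c(..)` is good). For `B l = []` both terms are `0`.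
(To prove this it is convenient to show by induction on `l`: for the linear map
`E_c,B : l' ↦ if B l' = B then 0 else (single (c B :: l') - single (c (B l') :: l') or single (c B :: l') if B l' = [])`
... or simply: the support of `bdL l` consists of sublists `l'` of length one less, each either with `B l' = B l`
or with `(B l').length < (B l).length`; write `bdL l` as the sum of its two parts by `Finsupp.filter`.)
Now `z₁ = z - bd (h z)`: `h (bd z) = 0` because `bd z` has no bad entries; so `z₁ = ν z + (part of z without bad entries)`: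
the maximal number of bad entries in the support drops (as long as it is positive), `bd z₁ = bd z`. Iterate
(induction on a bound `N` for the number of bad entries of the lists in the support of `z`).

DOWKER. `J` = lists over `X ⊕ I` (in any order) such that all pairs (point in the list, index in the list) are
related, the points of the list have a common index and the indices of the list have a common point.
Claim A: `Acy J`. Push with `bad = isRight` (indices), `c (B) = inl (a point related to all of B)`: a cycle `z` becomes a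
cycle supported on lists of points, which bounds by hypothesis (transport along `List.map Sum.inl`, `bd_map`;
`Finsupp.mapDomain` is injective there).
Claim B: if `z` is a cycle on lists of indices with a common point, then `z = bd w` with `w ∈ Sup J`; push `w` with
`bad = isLeft`, `c (B) = inr (an index related to all of B)`: `w - bd y` is supported on lists of indices and has
boundary `z`. Transport back along `List.map Sum.inr`.
-/

set_option autoImplicit false

namespace Tor
open Finsupp

section Push
variable {α : Type}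

/-- the cone construction of the push lemma on lists -/
noncomputable def ldowH (bad : α → Prop) [DecidablePred bad] (c : List α → α) (l : List α) : Ch α :=
  if l.filter (fun a => decide (bad a)) = [] then 0
  else single (c (l.filter (fun a => decide (bad a))) :: l) 1

/-- the cone construction of the push lemma -/
noncomputable def ldowHL (bad : α → Prop) [DecidablePred bad] (c : List α → α) : Ch α →ₗ[ℤ] Ch α :=
  Finsupp.linearCombination ℤ (ldowH bad c)

theorem ldowHL_single (bad : α → Prop) [DecidablePred bad] (c : List α → α) (l : List α) :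
    ldowHL bad c (single l 1) = ldowH bad c l := by
  simp [ldowHL]

/-- lists of `J` with at most `m` bad entries -/
def ldowS (J : Set (List α)) (bad : α → Prop) [DecidablePred bad] (m : ℕ) : Set (List α) :=
  {l | l ∈ J ∧ (l.filter (fun a => decide (bad a))).length ≤ m}

theorem ldow_filter_cons (bad : α → Prop) [DecidablePred bad] (a : α) (ha : ¬ bad a) (l : List α) :
    (a :: l).filter (fun a => decide (bad a)) = l.filter (fun a => decide (bad a)) := by
  rw [List.filter_cons_of_neg]
  simpa using ha

theorem ldow_nu (J : Set (List α)) (hJ : Closed J) (bad : α → Prop) [DecidablePred bad]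
    (c : List α → α)
    (hc : ∀ l ∈ J, l.filter (fun a => decide (bad a)) ≠ [] →
      c (l.filter (fun a => decide (bad a))) :: l ∈ J ∧
      ¬ bad (c (l.filter (fun a => decide (bad a)))))
    (m : ℕ) (l : List α) (hl : l ∈ ldowS J bad (m + 1)) :
    single l 1 - bd (ldowHL bad c (single l 1)) - ldowHL bad c (bd (single l 1)) ∈
      Sup (ldowS J bad m) := by
  obtain ⟨hlJ, hlm⟩ := hl
  rw [ldowHL_single, bd_single, one_smul]
  by_cases hB : l.filter (fun a => decide (bad a)) = []
  · have h1 : ldowH bad c l = 0 := if_pos hB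
    have h2 : ldowHL bad c (bdL l) ∈ (⊥ : Submodule ℤ (Ch α)) := by
      have h3 : bdL l ∈ Sup {l' : List α | l'.Sublist l} := by
        rw [Finsupp.mem_supported]
        intro l' hl'
        exact (bdL_support l l' hl').1
      refine map_Sup (ldowHL bad c) ⊥ ?_ h3
      intro l' hl'
      rw [ldowHL_single, Submodule.mem_bot]
      refine if_pos ?_
      have h4 : (l'.filter (fun a => decide (bad a))).Sublist [] := by
        rw [← hB]
        exact List.Sublist.filter _ hl'
      exact List.sublist_nil.mp h4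
    rw [Submodule.mem_bot] at h2
    rw [h1, h2, map_zero, sub_zero, sub_zero]
    refine single_mem_Sup (S := ldowS J bad m) ⟨hlJ, ?_⟩ 1
    rw [hB]
    exact Nat.zero_le _
  · obtain ⟨hcJ, hcb⟩ := hc l hlJ hB
    have h1 : ldowH bad c l = single (c (l.filter (fun a => decide (bad a))) :: l) 1 := if_neg hB
    have h2 : single l 1 - bd (ldowH bad c l) - ldowHL bad c (bdL l) =
        (cone (c (l.filter (fun a => decide (bad a)))) - ldowHL bad c) (bdL l) := by
      rw [h1, bd_single, one_smul, bdL_cons, LinearMap.sub_apply]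
      abel
    rw [h2]
    have h3 : bdL l ∈ Sup {l' : List α | l'.Sublist l} := by
      rw [Finsupp.mem_supported]
      intro l' hl'
      exact (bdL_support l l' hl').1
    refine map_Sup _ _ ?_ h3
    intro l' hl'
    have hl'' : l'.Sublist l := hl'
    rw [LinearMap.sub_apply, cone_single, ldowHL_single]
    by_cases hE : l'.filter (fun a => decide (bad a)) = l.filter (fun a => decide (bad a))
    · have h4 : ldowH bad c l' = single (c (l.filter (fun a => decide (bad a))) :: l') 1 := by
        unfold ldowH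
        rw [if_neg (by rw [hE]; exact hB), hE]
      rw [h4, sub_self]
      exact Submodule.zero_mem _
    · have h5 : (l'.filter (fun a => decide (bad a))).length <
          (l.filter (fun a => decide (bad a))).length := by
        have h6 : (l'.filter (fun a => decide (bad a))).Sublist
            (l.filter (fun a => decide (bad a))) := List.Sublist.filter _ hl''
        rcases Nat.lt_or_ge (l'.filter (fun a => decide (bad a))).length
          (l.filter (fun a => decide (bad a))).length with h7 | h7
        · exact h7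
        · exact absurd (h6.eq_of_length_le h7) hE
      have h8 : (l'.filter (fun a => decide (bad a))).length ≤ m := by omega
      have hl'J : l' ∈ J := hJ l hlJ l' hl''
      refine Submodule.sub_mem _ (single_mem_Sup (S := ldowS J bad m) ⟨?_, ?_⟩ 1) ?_
      · exact hJ _ hcJ _ (hl''.cons_cons _)
      · rw [ldow_filter_cons bad _ hcb]
        exact h8
      · unfold ldowH
        by_cases hB' : l'.filter (fun a => decide (bad a)) = []
        · rw [if_pos hB']
          exact Submodule.zero_mem _
        · rw [if_neg hB']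
          obtain ⟨h9, h10⟩ := hc l' hl'J hB'
          refine single_mem_Sup (S := ldowS J bad m) ⟨h9, ?_⟩ 1
          rw [ldow_filter_cons bad _ h10]
          exact h8

theorem ldow_hmem (J : Set (List α)) (bad : α → Prop) [DecidablePred bad]
    (c : List α → α)
    (hc : ∀ l ∈ J, l.filter (fun a => decide (bad a)) ≠ [] →
      c (l.filter (fun a => decide (bad a))) :: l ∈ J ∧
      ¬ bad (c (l.filter (fun a => decide (bad a)))))
    (z : Ch α) (hz : z ∈ Sup J) : ldowHL bad c z ∈ Sup J := by
  refine map_Sup _ _ ?_ hz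
  intro l hl
  rw [ldowHL_single]
  unfold ldowH
  by_cases hB : l.filter (fun a => decide (bad a)) = []
  · rw [if_pos hB]
    exact Submodule.zero_mem _
  · rw [if_neg hB]
    exact single_mem_Sup (hc l hl hB).1 1

theorem ldow_good (bad : α → Prop) [DecidablePred bad] (c : List α → α) (z : Ch α)
    (hz : z ∈ Sup {l : List α | ∀ a ∈ l, ¬ bad a}) : ldowHL bad c z = 0 := by
  have h1 : ldowHL bad c z ∈ (⊥ : Submodule ℤ (Ch α)) := by
    refine map_Sup _ _ ?_ hz
    intro l hl
    rw [ldowHL_single, Submodule.mem_bot]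
    refine if_pos ?_
    rw [List.filter_eq_nil_iff]
    intro a ha
    simpa using hl a ha
  exact (Submodule.mem_bot ℤ).mp h1

theorem ldow_step (J : Set (List α)) (hJ : Closed J) (bad : α → Prop) [DecidablePred bad]
    (c : List α → α)
    (hc : ∀ l ∈ J, l.filter (fun a => decide (bad a)) ≠ [] →
      c (l.filter (fun a => decide (bad a))) :: l ∈ J ∧
      ¬ bad (c (l.filter (fun a => decide (bad a)))))
    (m : ℕ) : ∀ z : Ch α, z ∈ Sup (ldowS J bad m) →
      bd z ∈ Sup {l : List α | ∀ a ∈ l, ¬ bad a} →
      ∃ y ∈ Sup J, z - bd y ∈ Sup (ldowS J bad 0) := by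
  induction m with
  | zero =>
    intro z hz _
    refine ⟨0, Submodule.zero_mem _, ?_⟩
    rw [map_zero, sub_zero]
    exact hz
  | succ m ih =>
    intro z hz hbz
    have hzJ : z ∈ Sup J := Sup_mono (fun l hl => hl.1) hz
    have h1 : z - bd (ldowHL bad c z) ∈ Sup (ldowS J bad m) := by
      have h2 : ((LinearMap.id : Ch α →ₗ[ℤ] Ch α) - bd ∘ₗ ldowHL bad c - ldowHL bad c ∘ₗ bd) z ∈
          Sup (ldowS J bad m) := by
        refine map_Sup _ _ ?_ hz
        intro l hl
        exact ldow_nu J hJ bad c hc m l hl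
      have h3 : ((LinearMap.id : Ch α →ₗ[ℤ] Ch α) - bd ∘ₗ ldowHL bad c - ldowHL bad c ∘ₗ bd) z =
          z - bd (ldowHL bad c z) - ldowHL bad c (bd z) := rfl
      rw [h3, ldow_good bad c _ hbz, sub_zero] at h2
      exact h2
    have h4 : bd (z - bd (ldowHL bad c z)) = bd z := by
      rw [map_sub, bd_bd, sub_zero]
    obtain ⟨y, hy, hzy⟩ := ih (z - bd (ldowHL bad c z)) h1 (by rw [h4]; exact hbz)
    refine ⟨ldowHL bad c z + y, Submodule.add_mem _ (ldow_hmem J bad c hc z hzJ) hy, ?_⟩
    have h5 : z - bd (ldowHL bad c z + y) = z - bd (ldowHL bad c z) - bd y := by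
      rw [map_add, sub_add_eq_sub_sub]
    rw [h5]
    exact hzy

end Push

theorem push {α : Type} (J : Set (List α)) (hJ : Closed J) (bad : α → Prop) [DecidablePred bad]
    (c : List α → α)
    (hc : ∀ l ∈ J, l.filter (fun a => decide (bad a)) ≠ [] →
      c (l.filter (fun a => decide (bad a))) :: l ∈ J ∧
      ¬ bad (c (l.filter (fun a => decide (bad a)))))
    (z : Ch α) (hz : z ∈ Sup J) (hbz : bd z ∈ Sup {l : List α | ∀ a ∈ l, ¬ bad a}) :
    ∃ y ∈ Sup J, z - bd y ∈ Sup {l : List α | l ∈ J ∧ ∀ a ∈ l, ¬ bad a} := by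
  have h1 : z ∈ Sup (ldowS J bad (z.support.sup fun l => (l.filter (fun a => decide (bad a))).length)) := by
    rw [Finsupp.mem_supported]
    intro l hl
    refine ⟨(Finsupp.mem_supported ℤ z).1 hz hl, ?_⟩
    exact Finset.le_sup (f := fun l : List α => (l.filter (fun a => decide (bad a))).length) hl
  obtain ⟨y, hy, h2⟩ := ldow_step J hJ bad c hc _ z h1 hbz
  refine ⟨y, hy, Sup_mono ?_ h2⟩
  rintro l ⟨hl1, hl2⟩
  refine ⟨hl1, ?_⟩
  have h3 : l.filter (fun a => decide (bad a)) = [] := List.length_eq_zero_iff.mp (Nat.le_zero.mp hl2)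
  intro a ha hb
  have h4 := List.filter_eq_nil_iff.mp h3 a ha
  exact h4 (by simpa using hb)

section Dowker
variable {X I : Type}

/-- the joint set of lists -/
def ldowJ (R : X → I → Prop) : Set (List (X ⊕ I)) :=
  {l | (∀ x, Sum.inl x ∈ l → ∀ i, Sum.inr i ∈ l → R x i) ∧
    (∃ i, ∀ x, Sum.inl x ∈ l → R x i) ∧ (∃ x, ∀ i, Sum.inr i ∈ l → R x i)}

theorem ldowJ_closed (R : X → I → Prop) : Closed (ldowJ R) := by
  rintro l ⟨h1, ⟨i, h2⟩, ⟨x, h3⟩⟩ l' hl'
  exact ⟨fun x hx i hi => h1 x (hl'.subset hx) i (hl'.subset hi),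
    ⟨i, fun x hx => h2 x (hl'.subset hx)⟩, ⟨x, fun i hi => h3 i (hl'.subset hi)⟩⟩

theorem ldow_acyJ [Nonempty X] [Nonempty I] (R : X → I → Prop)
    (h : Acy {l : List X | ∃ i, ∀ x ∈ l, R x i}) : Acy (ldowJ R) := by
  classical
  intro z hz hbz
  let bad : X ⊕ I → Prop := fun a => ∃ i, a = Sum.inr i
  let c : List (X ⊕ I) → X ⊕ I := fun B =>
    if hB : ∃ x, ∀ i, Sum.inr i ∈ B → R x i then Sum.inl hB.choose
    else Sum.inl (Classical.arbitrary X)
  have hc : ∀ l ∈ ldowJ R, l.filter (fun a => decide (bad a)) ≠ [] →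
      c (l.filter (fun a => decide (bad a))) :: l ∈ ldowJ R ∧
      ¬ bad (c (l.filter (fun a => decide (bad a)))) := by
    rintro l ⟨h1, ⟨i, h2⟩, ⟨x, h3⟩⟩ hB
    have hm : ∀ i, Sum.inr i ∈ l.filter (fun a => decide (bad a)) ↔ Sum.inr i ∈ l := by
      intro i
      rw [List.mem_filter]
      constructor
      · exact fun h => h.1
      · intro h
        refine ⟨h, ?_⟩
        rw [decide_eq_true_iff]
        exact ⟨i, rfl⟩
    have hex : ∃ x, ∀ i, Sum.inr i ∈ l.filter (fun a => decide (bad a)) → R x i :=
      ⟨x, fun i hi => h3 i ((hm i).mp hi)⟩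
    have hcB : c (l.filter (fun a => decide (bad a))) = Sum.inl hex.choose := dif_pos hex
    have hspec : ∀ i, Sum.inr i ∈ l → R hex.choose i := fun i hi => hex.choose_spec i ((hm i).mpr hi)
    obtain ⟨i0, hi0⟩ : ∃ i0, Sum.inr i0 ∈ l := by
      obtain ⟨a, ha⟩ := List.exists_mem_of_ne_nil _ hB
      rw [List.mem_filter, decide_eq_true_iff] at ha
      obtain ⟨ha, i0, rfl⟩ := ha
      exact ⟨i0, ha⟩
    rw [hcB]
    refine ⟨⟨?_, ⟨i0, ?_⟩, ⟨hex.choose, ?_⟩⟩, ?_⟩
    · intro x hx i hi
      rw [List.mem_cons] at hx hi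
      have hi' : Sum.inr i ∈ l := by
        rcases hi with hi | hi
        · cases hi
        · exact hi
      rcases hx with hx | hx
      · have hx' : x = hex.choose := Sum.inl.inj hx
        rw [hx']
        exact hspec i hi'
      · exact h1 x hx i hi'
    · intro x hx
      rw [List.mem_cons] at hx
      rcases hx with hx | hx
      · have hx' : x = hex.choose := Sum.inl.inj hx
        rw [hx']
        exact hspec i0 hi0
      · exact h1 x hx i0 hi0
    · intro i hi
      rw [List.mem_cons] at hi
      rcases hi with hi | hi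
      · cases hi
      · exact hspec i hi
    · rintro ⟨i, hi⟩
      cases hi
  obtain ⟨y, hy, hzy⟩ := push (ldowJ R) (ldowJ_closed R) bad c hc z hz (by
    rw [hbz]; exact Submodule.zero_mem _)
  -- transport
  let r : X ⊕ I → X := Sum.elim id (fun _ => Classical.arbitrary X)
  have hz1 : mapDomain (List.map Sum.inl) (mapDomain (List.map r) (z - bd y)) = z - bd y := by
    rw [← mapDomain_comp]
    conv_rhs => rw [← mapDomain_id (v := z - bd y)]
    refine Finsupp.mapDomain_congr fun l hl => ?_
    obtain ⟨-, h2⟩ := (Finsupp.mem_supported ℤ _).1 hzy hl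
    rw [Function.comp_apply, List.map_map, id_eq]
    conv_rhs => rw [← List.map_id l]
    refine List.map_congr_left fun a ha => ?_
    cases a with
    | inl x => rfl
    | inr i => exact absurd ⟨i, rfl⟩ (h2 _ ha)
  have hz2 : mapDomain (List.map r) (z - bd y) ∈ Sup {l : List X | ∃ i, ∀ x ∈ l, R x i} := by
    refine map_Sup (Finsupp.lmapDomain ℤ ℤ (List.map r)) _ ?_ hzy
    rintro l ⟨⟨-, ⟨i, h2⟩, -⟩, h3⟩
    rw [Finsupp.lmapDomain_apply, mapDomain_single]
    refine single_mem_Sup ?_ 1
    refine ⟨i, ?_⟩
    intro x hx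
    rw [List.mem_map] at hx
    obtain ⟨a, ha, rfl⟩ := hx
    cases a with
    | inl x => exact h2 x ha
    | inr j => exact absurd ⟨j, rfl⟩ (h3 _ ha)
  have hz3 : bd (mapDomain (List.map r) (z - bd y)) = 0 := by
    rw [bd_map, map_sub, hbz, bd_bd, sub_zero, mapDomain_zero]
  obtain ⟨w, hw, hbw⟩ := h _ hz2 hz3
  refine ⟨y + mapDomain (List.map Sum.inl) w, Submodule.add_mem _ hy ?_, ?_⟩
  · refine map_Sup (Finsupp.lmapDomain ℤ ℤ (List.map Sum.inl)) _ ?_ hw
    rintro l ⟨i, h2⟩
    rw [Finsupp.lmapDomain_apply, mapDomain_single]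
    have h3 : ∀ x, (Sum.inl x : X ⊕ I) ∈ l.map Sum.inl → x ∈ l := by
      intro x hx
      rw [List.mem_map] at hx
      obtain ⟨a, ha, hax⟩ := hx
      rw [← Sum.inl.inj hax]
      exact ha
    have h4 : ∀ i, (Sum.inr i : X ⊕ I) ∉ l.map Sum.inl := by
      intro i hi
      rw [List.mem_map] at hi
      obtain ⟨a, -, hai⟩ := hi
      cases hai
    refine single_mem_Sup ?_ 1
    exact ⟨fun x _ i hi => absurd hi (h4 i), ⟨i, fun x hx => h2 x (h3 x hx)⟩,
      ⟨Classical.arbitrary X, fun i hi => absurd hi (h4 i)⟩⟩
  · rw [map_add, bd_map, hbw, hz1]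
    abel

end Dowker

theorem dowker {X I : Type} [Nonempty X] [Nonempty I] (R : X → I → Prop)
    (h : Acy {l : List X | ∃ i, ∀ x ∈ l, R x i}) :
    Acy {l : List I | ∃ x, ∀ i ∈ l, R x i} := by
  classical
  intro z hz hbz
  have h3 : ∀ (l : List I) (i : I), (Sum.inr i : X ⊕ I) ∈ l.map Sum.inr → i ∈ l := by
    intro l i hi
    rw [List.mem_map] at hi
    obtain ⟨a, ha, hax⟩ := hi
    rw [← Sum.inr.inj hax]
    exact ha
  have h4 : ∀ (l : List I) (x : X), (Sum.inl x : X ⊕ I) ∉ l.map Sum.inr := by
    intro l x hx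
    rw [List.mem_map] at hx
    obtain ⟨a, -, hai⟩ := hx
    cases hai
  have hz1 : mapDomain (List.map (Sum.inr : I → X ⊕ I)) z ∈ Sup (ldowJ R) := by
    refine map_Sup (Finsupp.lmapDomain ℤ ℤ (List.map Sum.inr)) _ ?_ hz
    rintro l ⟨x, h2⟩
    rw [Finsupp.lmapDomain_apply, mapDomain_single]
    refine single_mem_Sup ?_ 1
    exact ⟨fun x hx i _ => absurd hx (h4 l x),
      ⟨Classical.arbitrary I, fun x hx => absurd hx (h4 l x)⟩, ⟨x, fun i hi => h2 i (h3 l i hi)⟩⟩
  obtain ⟨w, hw, hbw⟩ := ldow_acyJ R h _ hz1 (by rw [bd_map, hbz, mapDomain_zero])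
  let bad : X ⊕ I → Prop := fun a => ∃ x, a = Sum.inl x
  let c : List (X ⊕ I) → X ⊕ I := fun B =>
    if hB : ∃ i, ∀ x, Sum.inl x ∈ B → R x i then Sum.inr hB.choose
    else Sum.inr (Classical.arbitrary I)
  have hc : ∀ l ∈ ldowJ R, l.filter (fun a => decide (bad a)) ≠ [] →
      c (l.filter (fun a => decide (bad a))) :: l ∈ ldowJ R ∧
      ¬ bad (c (l.filter (fun a => decide (bad a)))) := by
    rintro l ⟨h1, ⟨i, h2⟩, ⟨x, h3⟩⟩ hB
    have hm : ∀ x, Sum.inl x ∈ l.filter (fun a => decide (bad a)) ↔ Sum.inl x ∈ l := by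
      intro x
      rw [List.mem_filter]
      constructor
      · exact fun h => h.1
      · intro h
        refine ⟨h, ?_⟩
        rw [decide_eq_true_iff]
        exact ⟨x, rfl⟩
    have hex : ∃ i, ∀ x, Sum.inl x ∈ l.filter (fun a => decide (bad a)) → R x i :=
      ⟨i, fun x hx => h2 x ((hm x).mp hx)⟩
    have hcB : c (l.filter (fun a => decide (bad a))) = Sum.inr hex.choose := dif_pos hex
    have hspec : ∀ x, Sum.inl x ∈ l → R x hex.choose := fun x hx => hex.choose_spec x ((hm x).mpr hx)
    obtain ⟨x0, hx0⟩ : ∃ x0, Sum.inl x0 ∈ l := by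
      obtain ⟨a, ha⟩ := List.exists_mem_of_ne_nil _ hB
      rw [List.mem_filter, decide_eq_true_iff] at ha
      obtain ⟨ha, x0, rfl⟩ := ha
      exact ⟨x0, ha⟩
    rw [hcB]
    refine ⟨⟨?_, ⟨hex.choose, ?_⟩, ⟨x0, ?_⟩⟩, ?_⟩
    · intro x hx i hi
      rw [List.mem_cons] at hx hi
      have hx' : Sum.inl x ∈ l := by
        rcases hx with hx | hx
        · cases hx
        · exact hx
      rcases hi with hi | hi
      · have hi' : i = hex.choose := Sum.inr.inj hi
        rw [hi']
        exact hspec x hx'
      · exact h1 x hx' i hi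
    · intro x hx
      rw [List.mem_cons] at hx
      rcases hx with hx | hx
      · cases hx
      · exact hspec x hx
    · intro i hi
      rw [List.mem_cons] at hi
      rcases hi with hi | hi
      · have hi' : i = hex.choose := Sum.inr.inj hi
        rw [hi']
        exact hspec x0 hx0
      · exact h1 x0 hx0 i hi
    · rintro ⟨x, hx⟩
      cases hx
  have hbw' : bd w ∈ Sup {l : List (X ⊕ I) | ∀ a ∈ l, ¬ bad a} := by
    rw [hbw]
    refine map_Sup (Finsupp.lmapDomain ℤ ℤ (List.map Sum.inr)) _ ?_ hz
    intro l _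
    rw [Finsupp.lmapDomain_apply, mapDomain_single]
    refine single_mem_Sup ?_ 1
    rintro a ha ⟨x, rfl⟩
    exact h4 l x ha
  obtain ⟨y, hy, hwy⟩ := push (ldowJ R) (ldowJ_closed R) bad c hc w hw hbw'
  let r : X ⊕ I → I := Sum.elim (fun _ => Classical.arbitrary I) id
  refine ⟨mapDomain (List.map r) (w - bd y), ?_, ?_⟩
  · refine map_Sup (Finsupp.lmapDomain ℤ ℤ (List.map r)) _ ?_ hwy
    rintro l ⟨⟨-, -, ⟨x, h2⟩⟩, h5⟩
    rw [Finsupp.lmapDomain_apply, mapDomain_single]
    refine single_mem_Sup ?_ 1
    refine ⟨x, ?_⟩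
    intro i hi
    rw [List.mem_map] at hi
    obtain ⟨a, ha, rfl⟩ := hi
    cases a with
    | inl x => exact absurd ⟨x, rfl⟩ (h5 _ ha)
    | inr j => exact h2 j ha
  · rw [bd_map, map_sub, bd_bd, sub_zero, hbw, ← mapDomain_comp]
    have h6 : List.map r ∘ List.map (Sum.inr : I → X ⊕ I) = id := by
      funext l
      rw [Function.comp_apply, List.map_map, id_eq]
      have h7 : r ∘ (Sum.inr : I → X ⊕ I) = id := rfl
      rw [h7, List.map_id]
    rw [h6, mapDomain_id]

end Tor
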