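import Mathlib
import Pool.Agent.Lib.MP_05cdf2_gt.B.LDow

/-! MP_05cdf2_gt, B-Sp: Dowker duality for lists, essential version (two relations `R ≤ R'`).
-/

set_option autoImplicit false

namespace Tor
open Finsupp

section EssDowker
variable {X I : Type}

theorem less_mono {R R' : X → I → Prop} (hRR : ∀ x i, R x i → R' x i) : ldowJ R ⊆ ldowJ R' := by
  rintro l ⟨h1, ⟨i, h2⟩, ⟨x, h3⟩⟩
  exact ⟨fun x hx i hi => hRR _ _ (h1 x hx i hi), ⟨i, fun x hx => hRR _ _ (h2 x hx)⟩,
    ⟨x, fun i hi => hRR _ _ (h3 i hi)⟩⟩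

theorem less_acyJ [Nonempty X] [Nonempty I] (R R' : X → I → Prop)
    (hRR : ∀ x i, R x i → R' x i)
    (h : ∀ z ∈ Sup {l : List X | ∃ i, ∀ x ∈ l, R x i}, bd z = 0 →
      ∃ w ∈ Sup {l : List X | ∃ i, ∀ x ∈ l, R' x i}, bd w = z) :
    ∀ z ∈ Sup (ldowJ R), bd z = 0 → ∃ w ∈ Sup (ldowJ R'), bd w = z := by
  classical
  intro z hz hbz
  let bad : X ⊕ I → Prop := fun a => ∃ i, a = Sum.inr i
  let c : List (X ⊕ I) → X ⊕ I := fun B =>
    if hB : ∃ x, ∀ i, Sum.inr i ∈ B → R x i then Sum.inl hB.choose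
    else Sum.inl (Classical.arbitrary X)
  have hc : ∀ l ∈ ldowJ R, l.filter (fun a => decide (bad a)) ≠ [] →
      c (l.filter (fun a => decide (bad a))) :: l ∈ ldowJ R ∧
      ¬ bad (c (l.filter (fun a => decide (bad a)))) := by
    rintro l ⟨h1, ⟨i, h2⟩, ⟨x, h3⟩⟩ hB
    have hm : ∀ i, Sum.inr i ∈ l.filter (fun a => decide (bad a)) ↔ Sum.inr i ∈ l := by
      intro i
      rw [List.mem_filter]
      constructor
      · exact fun h => h.1
      · intro h
        refine ⟨h, ?_⟩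
        rw [decide_eq_true_iff]
        exact ⟨i, rfl⟩
    have hex : ∃ x, ∀ i, Sum.inr i ∈ l.filter (fun a => decide (bad a)) → R x i :=
      ⟨x, fun i hi => h3 i ((hm i).mp hi)⟩
    have hcB : c (l.filter (fun a => decide (bad a))) = Sum.inl hex.choose := dif_pos hex
    have hspec : ∀ i, Sum.inr i ∈ l → R hex.choose i := fun i hi => hex.choose_spec i ((hm i).mpr hi)
    obtain ⟨i0, hi0⟩ : ∃ i0, Sum.inr i0 ∈ l := by
      obtain ⟨a, ha⟩ := List.exists_mem_of_ne_nil _ hB
      rw [List.mem_filter, decide_eq_true_iff] at ha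
      obtain ⟨ha, i0, rfl⟩ := ha
      exact ⟨i0, ha⟩
    rw [hcB]
    refine ⟨⟨?_, ⟨i0, ?_⟩, ⟨hex.choose, ?_⟩⟩, ?_⟩
    · intro x hx i hi
      rw [List.mem_cons] at hx hi
      have hi' : Sum.inr i ∈ l := by
        rcases hi with hi | hi
        · cases hi
        · exact hi
      rcases hx with hx | hx
      · have hx' : x = hex.choose := Sum.inl.inj hx
        rw [hx']
        exact hspec i hi'
      · exact h1 x hx i hi'
    · intro x hx
      rw [List.mem_cons] at hx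
      rcases hx with hx | hx
      · have hx' : x = hex.choose := Sum.inl.inj hx
        rw [hx']
        exact hspec i0 hi0
      · exact h1 x hx i0 hi0
    · intro i hi
      rw [List.mem_cons] at hi
      rcases hi with hi | hi
      · cases hi
      · exact hspec i hi
    · rintro ⟨i, hi⟩
      cases hi
  obtain ⟨y, hy, hzy⟩ := push (ldowJ R) (ldowJ_closed R) bad c hc z hz (by
    rw [hbz]; exact Submodule.zero_mem _)
  -- transport
  let r : X ⊕ I → X := Sum.elim id (fun _ => Classical.arbitrary X)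
  have hz1 : mapDomain (List.map Sum.inl) (mapDomain (List.map r) (z - bd y)) = z - bd y := by
    rw [← mapDomain_comp]
    conv_rhs => rw [← mapDomain_id (v := z - bd y)]
    refine Finsupp.mapDomain_congr fun l hl => ?_
    obtain ⟨-, h2⟩ := (Finsupp.mem_supported ℤ _).1 hzy hl
    rw [Function.comp_apply, List.map_map, id_eq]
    conv_rhs => rw [← List.map_id l]
    refine List.map_congr_left fun a ha => ?_
    cases a with
    | inl x => rfl
    | inr i => exact absurd ⟨i, rfl⟩ (h2 _ ha)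
  have hz2 : mapDomain (List.map r) (z - bd y) ∈ Sup {l : List X | ∃ i, ∀ x ∈ l, R x i} := by
    refine map_Sup (Finsupp.lmapDomain ℤ ℤ (List.map r)) _ ?_ hzy
    rintro l ⟨⟨-, ⟨i, h2⟩, -⟩, h3⟩
    rw [Finsupp.lmapDomain_apply, mapDomain_single]
    refine single_mem_Sup ?_ 1
    refine ⟨i, ?_⟩
    intro x hx
    rw [List.mem_map] at hx
    obtain ⟨a, ha, rfl⟩ := hx
    cases a with
    | inl x => exact h2 x ha
    | inr j => exact absurd ⟨j, rfl⟩ (h3 _ ha)
  have hz3 : bd (mapDomain (List.map r) (z - bd y)) = 0 := by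
    rw [bd_map, map_sub, hbz, bd_bd, sub_zero, mapDomain_zero]
  obtain ⟨w, hw, hbw⟩ := h _ hz2 hz3
  refine ⟨y + mapDomain (List.map Sum.inl) w,
    Submodule.add_mem _ (Sup_mono (less_mono hRR) hy) ?_, ?_⟩
  · refine map_Sup (Finsupp.lmapDomain ℤ ℤ (List.map Sum.inl)) _ ?_ hw
    rintro l ⟨i, h2⟩
    rw [Finsupp.lmapDomain_apply, mapDomain_single]
    have h3 : ∀ x, (Sum.inl x : X ⊕ I) ∈ l.map Sum.inl → x ∈ l := by
      intro x hx
      rw [List.mem_map] at hx
      obtain ⟨a, ha, hax⟩ := hx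
      rw [← Sum.inl.inj hax]
      exact ha
    have h4 : ∀ i, (Sum.inr i : X ⊕ I) ∉ l.map Sum.inl := by
      intro i hi
      rw [List.mem_map] at hi
      obtain ⟨a, -, hai⟩ := hi
      cases hai
    refine single_mem_Sup ?_ 1
    exact ⟨fun x _ i hi => absurd hi (h4 i), ⟨i, fun x hx => h2 x (h3 x hx)⟩,
      ⟨Classical.arbitrary X, fun i hi => absurd hi (h4 i)⟩⟩
  · rw [map_add, bd_map, hbw, hz1]
    abel

end EssDowker

theorem ess_dowker {X I : Type} [Nonempty X] [Nonempty I] (R R' : X → I → Prop)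
    (hRR : ∀ x i, R x i → R' x i)
    (h : ∀ z ∈ Sup {l : List X | ∃ i, ∀ x ∈ l, R x i}, bd z = 0 →
      ∃ w ∈ Sup {l : List X | ∃ i, ∀ x ∈ l, R' x i}, bd w = z) :
    ∀ z ∈ Sup {l : List I | ∃ x, ∀ i ∈ l, R x i}, bd z = 0 →
      ∃ w ∈ Sup {l : List I | ∃ x, ∀ i ∈ l, R' x i}, bd w = z := by
  classical
  intro z hz hbz
  have h3 : ∀ (l : List I) (i : I), (Sum.inr i : X ⊕ I) ∈ l.map Sum.inr → i ∈ l := by
    intro l i hi
    rw [List.mem_map] at hi
    obtain ⟨a, ha, hax⟩ := hi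
    rw [← Sum.inr.inj hax]
    exact ha
  have h4 : ∀ (l : List I) (x : X), (Sum.inl x : X ⊕ I) ∉ l.map Sum.inr := by
    intro l x hx
    rw [List.mem_map] at hx
    obtain ⟨a, -, hai⟩ := hx
    cases hai
  have hz1 : mapDomain (List.map (Sum.inr : I → X ⊕ I)) z ∈ Sup (ldowJ R) := by
    refine map_Sup (Finsupp.lmapDomain ℤ ℤ (List.map Sum.inr)) _ ?_ hz
    rintro l ⟨x, h2⟩
    rw [Finsupp.lmapDomain_apply, mapDomain_single]
    refine single_mem_Sup ?_ 1
    exact ⟨fun x hx i _ => absurd hx (h4 l x),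
      ⟨Classical.arbitrary I, fun x hx => absurd hx (h4 l x)⟩, ⟨x, fun i hi => h2 i (h3 l i hi)⟩⟩
  obtain ⟨w, hw, hbw⟩ := less_acyJ R R' hRR h _ hz1 (by rw [bd_map, hbz, mapDomain_zero])
  let bad : X ⊕ I → Prop := fun a => ∃ x, a = Sum.inl x
  let c : List (X ⊕ I) → X ⊕ I := fun B =>
    if hB : ∃ i, ∀ x, Sum.inl x ∈ B → R' x i then Sum.inr hB.choose
    else Sum.inr (Classical.arbitrary I)
  have hc : ∀ l ∈ ldowJ R', l.filter (fun a => decide (bad a)) ≠ [] →
      c (l.filter (fun a => decide (bad a))) :: l ∈ ldowJ R' ∧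
      ¬ bad (c (l.filter (fun a => decide (bad a)))) := by
    rintro l ⟨h1, ⟨i, h2⟩, ⟨x, h3⟩⟩ hB
    have hm : ∀ x, Sum.inl x ∈ l.filter (fun a => decide (bad a)) ↔ Sum.inl x ∈ l := by
      intro x
      rw [List.mem_filter]
      constructor
      · exact fun h => h.1
      · intro h
        refine ⟨h, ?_⟩
        rw [decide_eq_true_iff]
        exact ⟨x, rfl⟩
    have hex : ∃ i, ∀ x, Sum.inl x ∈ l.filter (fun a => decide (bad a)) → R' x i :=
      ⟨i, fun x hx => h2 x ((hm x).mp hx)⟩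
    have hcB : c (l.filter (fun a => decide (bad a))) = Sum.inr hex.choose := dif_pos hex
    have hspec : ∀ x, Sum.inl x ∈ l → R' x hex.choose := fun x hx => hex.choose_spec x ((hm x).mpr hx)
    obtain ⟨x0, hx0⟩ : ∃ x0, Sum.inl x0 ∈ l := by
      obtain ⟨a, ha⟩ := List.exists_mem_of_ne_nil _ hB
      rw [List.mem_filter, decide_eq_true_iff] at ha
      obtain ⟨ha, x0, rfl⟩ := ha
      exact ⟨x0, ha⟩
    rw [hcB]
    refine ⟨⟨?_, ⟨hex.choose, ?_⟩, ⟨x0, ?_⟩⟩, ?_⟩
    · intro x hx i hi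
      rw [List.mem_cons] at hx hi
      have hx' : Sum.inl x ∈ l := by
        rcases hx with hx | hx
        · cases hx
        · exact hx
      rcases hi with hi | hi
      · have hi' : i = hex.choose := Sum.inr.inj hi
        rw [hi']
        exact hspec x hx'
      · exact h1 x hx' i hi
    · intro x hx
      rw [List.mem_cons] at hx
      rcases hx with hx | hx
      · cases hx
      · exact hspec x hx
    · intro i hi
      rw [List.mem_cons] at hi
      rcases hi with hi | hi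
      · have hi' : i = hex.choose := Sum.inr.inj hi
        rw [hi']
        exact hspec x0 hx0
      · exact h1 x0 hx0 i hi
    · rintro ⟨x, hx⟩
      cases hx
  have hbw' : bd w ∈ Sup {l : List (X ⊕ I) | ∀ a ∈ l, ¬ bad a} := by
    rw [hbw]
    refine map_Sup (Finsupp.lmapDomain ℤ ℤ (List.map Sum.inr)) _ ?_ hz
    intro l _
    rw [Finsupp.lmapDomain_apply, mapDomain_single]
    refine single_mem_Sup ?_ 1
    rintro a ha ⟨x, rfl⟩
    exact h4 l x ha
  obtain ⟨y, hy, hwy⟩ := push (ldowJ R') (ldowJ_closed R') bad c hc w hw hbw'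
  let r : X ⊕ I → I := Sum.elim (fun _ => Classical.arbitrary I) id
  refine ⟨mapDomain (List.map r) (w - bd y), ?_, ?_⟩
  · refine map_Sup (Finsupp.lmapDomain ℤ ℤ (List.map r)) _ ?_ hwy
    rintro l ⟨⟨-, -, ⟨x, h2⟩⟩, h5⟩
    rw [Finsupp.lmapDomain_apply, mapDomain_single]
    refine single_mem_Sup ?_ 1
    refine ⟨x, ?_⟩
    intro i hi
    rw [List.mem_map] at hi
    obtain ⟨a, ha, rfl⟩ := hi
    cases a with
    | inl x => exact absurd ⟨x, rfl⟩ (h5 _ ha)
    | inr j => exact h2 j ha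
  · rw [bd_map, map_sub, bd_bd, sub_zero, hbw, ← mapDomain_comp]
    have h6 : List.map r ∘ List.map (Sum.inr : I → X ⊕ I) = id := by
      funext l
      rw [Function.comp_apply, List.map_map, id_eq]
      have h7 : r ∘ (Sum.inr : I → X ⊕ I) = id := rfl
      rw [h7, List.map_id]
    rw [h6, mapDomain_id]

end Tor
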