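import Mathlib
import Pool.Agent.Lib.MP_05cdf2_gt.B.LDef

/-! MP_05cdf2_gt, B-Sp, job LSub: lists of points contained in one member of a cover by mean-convex sets
are acyclic (barycentric subdivision).

Notation. Center `b : List X → X`: `b [x] = x`, `b (x :: l) = m x (b l)` for `l ≠ []`, arbitrary on `[]`.
HULL. `Hull l` = smallest set containing the entries of `l` and closed under `m` (inductive predicate). If
`l' ⊆ l` then `Hull l' ⊆ Hull l`; `b l ∈ Hull l` for `l ≠ []`; if all entries of `l` are in `U i` then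
`Hull l ⊆ U i`. If all entries `y` of `l` satisfy `near D y x` (or `near D x y`) then all `y ∈ Hull l` do: since
`near ((D+D)/2) (m y y') (m x x)` and `m x x = x`.
CENTER. If all pairs of entries of `l` are `near D` (`D ≥ 0`), `l` has `n + 1` elements, then for every entry `y`
of `l`: `near ((1 - 2⁻¹ ^ n) * D) (b l) y`; so for every `y ∈ Hull l` too. Induction on `l = x :: l'` (`l' ≠ []`):
for `y = x`: `near ((0 + D)/2) (m x b') (m x x)` (`b' ∈ Hull l'` is `near D` to `x`), for `y ∈ l'`:
`near ((D + (1 - 2⁻¹^(n-1)) D)/2) (m x b') (m y y)`, and `(1 + 1 - 2^{-(n-1)})/2 = 1 - 2^{-n}`.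
SUBDIVISION. `Sd [] = []`, `Sd l = cone (b l) (Sd (bdL l))`, extended linearly (recursion on the length:
`SdN 0 l = single [] 1`, `SdN (n+1) l = cone (b l) (linearCombination ℤ (SdN n) (bdL l))`, `Sd l = SdN l.length l`).
Then `bd (Sd c) = Sd (bd c)` (by `bd_cone` and `bd_bd`, induction on the length).
`Sd l` is supported on lists with entries in `Hull l` and of length `l.length`; if all pairs of entries of `l` are
`near D` then all pairs of entries of each list in the support of `Sd l` are `near ((1 - 2⁻¹^n) D)`,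
`n + 1 = l.length` (pairs of entries of a list of `Sd (face)`: induction and `near_mono`; pairs with `b l`: CENTER,
`near_symm`; the pair `(b l, b l)`: `near_refl`).
HOMOTOPY. `T [] = 0`, `T l = cone (b l) (l - T (bdL l))`; `bd (T c) + T (bd c) = c - Sd c`; `T l` is supported on
lists with entries in `Hull l`. [`bd T l = l - T ∂l - cone b (∂l - ∂T∂l)`, `∂T∂l = ∂l - Sd ∂l`.]
END. Let `z` be a cycle supported in `S = {l | ∃ i, ∀ x ∈ l, x ∈ U i}`. Choose `p : X`, `w = cone p z`, `bd w = z`.
`Sd^k w` has boundary `Sd^k z`; for `k` large all lists in its support have all pairs `near δ` (finitely many lists in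
`w`, `near_exists` gives `D`, lengths are at most `N`, `(1 - 2⁻¹^N)^k D → 0`), so it is supported in `S` by `hcov`.
`z - Sd^k z = bd (∑_{j<k} T (Sd^j z))`, and `T (Sd^j z)` is supported in `S` (`S` is preserved by `Sd` and `T`).
-/

set_option autoImplicit false

namespace Tor
open Finsupp

/-- a set with a mean and a closeness relation -/
structure MeanSp (X : Type) where
  m : X → X → X
  near : ℝ → X → X → Prop
  near_refl : ∀ x, near 0 x x
  near_symm : ∀ r x y, near r x y → near r y x
  near_mono : ∀ r s x y, r ≤ s → near r x y → near s x y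
  near_mean : ∀ r s x x' y y', near r x x' → near s y y' → near ((r + s) / 2) (m x y) (m x' y')
  mean_self : ∀ x, m x x = x
  near_exists : ∀ x y, ∃ r, near r x y

section
variable {X : Type}

/-- center -/
def lsubB (P : MeanSp X) (p : X) : List X → X
  | [] => p
  | [x] => x
  | x :: y :: l => P.m x (lsubB P p (y :: l))

/-- mean-convex hull of the entries of a list -/
inductive LsubHull (P : MeanSp X) (l : List X) : X → Prop
  | mem (x : X) : x ∈ l → LsubHull P l x
  | mean (x y : X) : LsubHull P l x → LsubHull P l y → LsubHull P l (P.m x y)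

theorem lsub_hull_mono (P : MeanSp X) {l l' : List X} (h : ∀ x ∈ l', LsubHull P l x) {x : X}
    (hx : LsubHull P l' x) : LsubHull P l x := by
  induction hx with
  | mem x hx => exact h x hx
  | mean x y _ _ ihx ihy => exact LsubHull.mean x y ihx ihy

theorem lsub_b_mem (P : MeanSp X) (p : X) (l : List X) (hl : l ≠ []) :
    LsubHull P l (lsubB P p l) := by
  induction l with
  | nil => exact absurd rfl hl
  | cons x l ih =>
    cases l with
    | nil => exact LsubHull.mem x (by simp)
    | cons y l =>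
      refine LsubHull.mean x _ (LsubHull.mem x (by simp)) ?_
      refine lsub_hull_mono P (l' := y :: l) ?_ (ih (by simp))
      intro z hz
      exact LsubHull.mem z (List.mem_cons_of_mem x hz)

theorem lsub_hull_near (P : MeanSp X) {l : List X} {D : ℝ} {x : X}
    (h : ∀ y ∈ l, P.near D y x) {y : X} (hy : LsubHull P l y) : P.near D y x := by
  induction hy with
  | mem y hy => exact h y hy
  | mean y z _ _ ihy ihz =>
    have h1 := P.near_mean D D y x z x ihy ihz
    rw [P.mean_self x, add_self_div_two] at h1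
    exact h1

theorem lsub_hull_sub (P : MeanSp X) {V : Set X} (hV : ∀ x y, x ∈ V → y ∈ V → P.m x y ∈ V)
    {l : List X} (h : ∀ y ∈ l, y ∈ V) {y : X} (hy : LsubHull P l y) : y ∈ V := by
  induction hy with
  | mem y hy => exact h y hy
  | mean y z _ _ ihy ihz => exact hV y z ihy ihz

theorem lsub_center (P : MeanSp X) (p : X) {D : ℝ} (hD : 0 ≤ D) (l : List X) :
    ∀ n : ℕ, l.length = n + 1 → (∀ x ∈ l, ∀ y ∈ l, P.near D x y) →
      ∀ y ∈ l, P.near ((1 - 2⁻¹ ^ n) * D) (lsubB P p l) y := by
  induction l with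
  | nil => intro n hn; simp at hn
  | cons x l ih =>
    cases l with
    | nil =>
      intro n hn _ y hy
      have hn0 : n = 0 := by simpa using hn.symm
      subst hn0
      have hyx : y = x := by simpa using hy
      subst hyx
      show P.near ((1 - 2⁻¹ ^ 0) * D) y y
      rw [pow_zero, sub_self, zero_mul]
      exact P.near_refl y
    | cons z l =>
      intro n hn hnear y hy
      obtain ⟨k, rfl⟩ : ∃ k, n = k + 1 := ⟨l.length, by simpa using hn.symm⟩
      have hk : (z :: l).length = k + 1 := by simpa using hn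
      have hnear' : ∀ a ∈ z :: l, ∀ b ∈ z :: l, P.near D a b := fun a ha b hb =>
        hnear a (List.mem_cons_of_mem x ha) b (List.mem_cons_of_mem x hb)
      have hpow : ((2 : ℝ)⁻¹) ^ k ≤ 1 := pow_le_one₀ (by norm_num) (by norm_num)
      have hb : P.near D (lsubB P p (z :: l)) x := by
        refine lsub_hull_near P (l := z :: l) ?_ (lsub_b_mem P p (z :: l) (by simp))
        intro a ha
        exact hnear a (List.mem_cons_of_mem x ha) x (by simp)
      show P.near ((1 - 2⁻¹ ^ (k + 1)) * D) (P.m x (lsubB P p (z :: l))) y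
      rcases List.mem_cons.1 hy with hyx | hy'
      · subst hyx
        have h1 := P.near_mean 0 D y y _ _ (P.near_refl y) hb
        rw [P.mean_self y] at h1
        refine P.near_mono _ _ _ _ ?_ h1
        rw [pow_succ]
        nlinarith
      · have h0 : P.near D x y := hnear x (by simp) y hy
        have h1 := P.near_mean _ _ _ _ _ _ h0 (ih k hk hnear' y hy')
        rw [P.mean_self y] at h1
        refine P.near_mono _ _ _ _ (le_of_eq ?_) h1
        rw [pow_succ]
        ring

/-- subdivision of lists with `n` elements -/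
noncomputable def lsubSdN (P : MeanSp X) (p : X) : ℕ → List X → Ch X
  | 0, l => single l 1
  | n + 1, l => cone (lsubB P p l) (linearCombination ℤ (lsubSdN P p n) (bdL l))

/-- subdivision of a list -/
noncomputable def lsubSd (P : MeanSp X) (p : X) (l : List X) : Ch X := lsubSdN P p l.length l

/-- subdivision -/
noncomputable def lsubS (P : MeanSp X) (p : X) : Ch X →ₗ[ℤ] Ch X :=
  linearCombination ℤ (lsubSd P p)

/-- homotopy on lists with `n` elements -/
noncomputable def lsubTN (P : MeanSp X) (p : X) : ℕ → List X → Ch X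
  | 0, _ => 0
  | n + 1, l => cone (lsubB P p l) (single l 1 - linearCombination ℤ (lsubTN P p n) (bdL l))

/-- homotopy on a list -/
noncomputable def lsubTl (P : MeanSp X) (p : X) (l : List X) : Ch X := lsubTN P p l.length l

/-- homotopy -/
noncomputable def lsubT (P : MeanSp X) (p : X) : Ch X →ₗ[ℤ] Ch X :=
  linearCombination ℤ (lsubTl P p)

theorem lsub_lc_congr (f g : List X → Ch X) (c : Ch X) (h : ∀ l ∈ c.support, f l = g l) :
    linearCombination ℤ f c = linearCombination ℤ g c := by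
  rw [linearCombination_apply, linearCombination_apply]
  exact Finsupp.sum_congr fun l hl => by rw [h l hl]

theorem lsubS_single (P : MeanSp X) (p : X) (l : List X) :
    lsubS P p (single l 1) = lsubSd P p l := by
  rw [lsubS, linearCombination_single, one_smul]

theorem lsubT_single (P : MeanSp X) (p : X) (l : List X) :
    lsubT P p (single l 1) = lsubTl P p l := by
  rw [lsubT, linearCombination_single, one_smul]

theorem lsubSd_ne (P : MeanSp X) (p : X) (l : List X) (hl : l ≠ []) :
    lsubSd P p l = cone (lsubB P p l) (lsubS P p (bdL l)) := by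
  obtain ⟨n, hn⟩ : ∃ n, l.length = n + 1 :=
    ⟨l.length - 1, (Nat.succ_pred_eq_of_pos (List.length_pos_iff.2 hl)).symm⟩
  rw [lsubSd, hn]
  show cone (lsubB P p l) (linearCombination ℤ (lsubSdN P p n) (bdL l)) = _
  congr 1
  refine lsub_lc_congr _ _ _ fun l' hl' => ?_
  have h1 := (bdL_support l l' hl').2
  have h2 : l'.length = n := by omega
  rw [lsubSd, h2]

theorem lsubTl_ne (P : MeanSp X) (p : X) (l : List X) (hl : l ≠ []) :
    lsubTl P p l = cone (lsubB P p l) (single l 1 - lsubT P p (bdL l)) := by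
  obtain ⟨n, hn⟩ : ∃ n, l.length = n + 1 :=
    ⟨l.length - 1, (Nat.succ_pred_eq_of_pos (List.length_pos_iff.2 hl)).symm⟩
  rw [lsubTl, hn]
  show cone (lsubB P p l) (single l 1 - linearCombination ℤ (lsubTN P p n) (bdL l)) = _
  congr 2
  refine lsub_lc_congr _ _ _ fun l' hl' => ?_
  have h1 := (bdL_support l l' hl').2
  have h2 : l'.length = n := by omega
  rw [lsubTl, h2]

theorem lsubSd_nil (P : MeanSp X) (p : X) : lsubSd P p [] = single [] 1 := rfl

theorem lsubTl_nil (P : MeanSp X) (p : X) : lsubTl P p [] = 0 := rfl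

/-- two linear maps agree on a chain if they agree on its lists -/
theorem lsub_lin_congr {M : Type} [AddCommGroup M] (f g : Ch X →ₗ[ℤ] M) (c : Ch X)
    (h : ∀ l ∈ c.support, f (single l 1) = g (single l 1)) : f c = g c := by
  have hc : c ∈ Sup (c.support : Set (List X)) := by
    rw [Finsupp.mem_supported]
  have h1 := map_Sup (f - g) ⊥ (S := (c.support : Set (List X))) (fun l hl => by
    rw [Submodule.mem_bot, LinearMap.sub_apply, h l hl, sub_self]) hc
  rw [Submodule.mem_bot, LinearMap.sub_apply] at h1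
  exact sub_eq_zero.1 h1

theorem lsub_bd_Sd (P : MeanSp X) (p : X) : ∀ (n : ℕ) (l : List X), l.length ≤ n →
    bd (lsubSd P p l) = lsubS P p (bdL l) := by
  intro n
  induction n with
  | zero =>
    intro l hl
    have : l = [] := List.length_eq_zero_iff.1 (Nat.le_zero.1 hl)
    subst this
    rw [lsubSd_nil, bd_single, bdL_nil, smul_zero, map_zero]
  | succ n ih =>
    intro l hl
    by_cases hne : l = []
    · subst hne
      rw [lsubSd_nil, bd_single, bdL_nil, smul_zero, map_zero]
    · rw [lsubSd_ne P p l hne, bd_cone]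
      have h1 : bd (lsubS P p (bdL l)) = lsubS P p (bd (bdL l)) := by
        refine lsub_lin_congr (bd ∘ₗ lsubS P p) (lsubS P p ∘ₗ bd) (bdL l) fun l' hl' => ?_
        have h2 := (bdL_support l l' hl').2
        rw [LinearMap.comp_apply, LinearMap.comp_apply, lsubS_single, bd_single, one_smul]
        exact ih l' (by omega)
      rw [h1, bd_bdL, map_zero, map_zero, sub_zero]

theorem lsub_bd_S (P : MeanSp X) (p : X) (c : Ch X) :
    bd (lsubS P p c) = lsubS P p (bd c) := by
  refine lsub_lin_congr (bd ∘ₗ lsubS P p) (lsubS P p ∘ₗ bd) c fun l _ => ?_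
  rw [LinearMap.comp_apply, LinearMap.comp_apply, lsubS_single, bd_single, one_smul]
  exact lsub_bd_Sd P p l.length l le_rfl

theorem lsub_bd_Tl (P : MeanSp X) (p : X) : ∀ (n : ℕ) (l : List X), l.length ≤ n →
    bd (lsubTl P p l) = single l 1 - lsubSd P p l - lsubT P p (bdL l) := by
  intro n
  induction n with
  | zero =>
    intro l hl
    have : l = [] := List.length_eq_zero_iff.1 (Nat.le_zero.1 hl)
    subst this
    rw [lsubSd_nil, lsubTl_nil, bdL_nil, map_zero, map_zero, sub_self, sub_zero]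
  | succ n ih =>
    intro l hl
    by_cases hne : l = []
    · subst hne
      rw [lsubSd_nil, lsubTl_nil, bdL_nil, map_zero, map_zero, sub_self, sub_zero]
    · rw [lsubTl_ne P p l hne, bd_cone, map_sub bd, bd_single, one_smul]
      have h1 : bd (lsubT P p (bdL l)) =
          bdL l - lsubS P p (bdL l) - lsubT P p (bd (bdL l)) := by
        refine lsub_lin_congr (bd ∘ₗ lsubT P p)
          (LinearMap.id - lsubS P p - lsubT P p ∘ₗ bd) (bdL l) fun l' hl' => ?_
        have h2 := (bdL_support l l' hl').2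
        rw [LinearMap.comp_apply, LinearMap.sub_apply, LinearMap.sub_apply,
          LinearMap.comp_apply, LinearMap.id_apply, lsubS_single, lsubT_single, bd_single,
          one_smul]
        exact ih l' (by omega)
      rw [h1, bd_bdL, map_zero, sub_zero, sub_sub_cancel, ← lsubSd_ne P p l hne]
      abel

theorem lsub_bd_T (P : MeanSp X) (p : X) (c : Ch X) :
    bd (lsubT P p c) = c - lsubS P p c - lsubT P p (bd c) := by
  refine lsub_lin_congr (bd ∘ₗ lsubT P p)
    (LinearMap.id - lsubS P p - lsubT P p ∘ₗ bd) c fun l _ => ?_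
  rw [LinearMap.comp_apply, LinearMap.sub_apply, LinearMap.sub_apply,
    LinearMap.comp_apply, LinearMap.id_apply, lsubS_single, lsubT_single, bd_single,
    one_smul]
  exact lsub_bd_Tl P p l.length l le_rfl

theorem lsub_Sd_hull (P : MeanSp X) (p : X) : ∀ (n : ℕ) (l : List X), l.length ≤ n →
    lsubSd P p l ∈ Sup {l' | l'.length = l.length ∧ ∀ x ∈ l', LsubHull P l x} := by
  intro n
  induction n with
  | zero =>
    intro l hl
    have : l = [] := List.length_eq_zero_iff.1 (Nat.le_zero.1 hl)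
    subst this
    rw [lsubSd_nil]
    refine single_mem_Sup ?_ 1
    exact ⟨rfl, fun x hx => by simp at hx⟩
  | succ n ih =>
    intro l hl
    by_cases hne : l = []
    · subst hne
      rw [lsubSd_nil]
      refine single_mem_Sup ?_ 1
      exact ⟨rfl, fun x hx => by simp at hx⟩
    · rw [lsubSd_ne P p l hne]
      refine cone_mem_Sup (S := {l' | l'.length + 1 = l.length ∧ ∀ x ∈ l', LsubHull P l x})
        (lsubB P p l) ?_ ?_
      · rintro l' ⟨h1, h2⟩
        refine ⟨by simpa using h1, fun x hx => ?_⟩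
        rcases List.mem_cons.1 hx with rfl | hx
        · exact lsub_b_mem P p l hne
        · exact h2 x hx
      · refine map_Sup (S := ((bdL l).support : Set (List X))) (lsubS P p) _ ?_
          (by rw [Finsupp.mem_supported])
        intro l' hl'
        have h2 := bdL_support l l' hl'
        rw [lsubS_single]
        refine Sup_mono ?_ (ih l' (by omega))
        rintro l'' ⟨h3, h4⟩
        refine ⟨by omega, fun x hx => ?_⟩
        refine lsub_hull_mono P ?_ (h4 x hx)
        intro y hy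
        exact LsubHull.mem y (h2.1.subset hy)

theorem lsub_Tl_hull (P : MeanSp X) (p : X) : ∀ (n : ℕ) (l : List X), l.length ≤ n →
    lsubTl P p l ∈ Sup {l' | ∀ x ∈ l', LsubHull P l x} := by
  intro n
  induction n with
  | zero =>
    intro l hl
    have : l = [] := List.length_eq_zero_iff.1 (Nat.le_zero.1 hl)
    subst this
    rw [lsubTl_nil]
    exact Submodule.zero_mem _
  | succ n ih =>
    intro l hl
    by_cases hne : l = []
    · subst hne
      rw [lsubTl_nil]
      exact Submodule.zero_mem _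
    · rw [lsubTl_ne P p l hne]
      refine cone_mem_Sup (S := {l' | ∀ x ∈ l', LsubHull P l x}) (lsubB P p l) ?_ ?_
      · intro l' h2 x hx
        rcases List.mem_cons.1 hx with rfl | hx
        · exact lsub_b_mem P p l hne
        · exact h2 x hx
      · refine Submodule.sub_mem _ (single_mem_Sup (l := l)
          (show l ∈ {l' : List X | ∀ x ∈ l', LsubHull P l x} from fun x hx =>
            LsubHull.mem x hx) 1) ?_
        refine map_Sup (S := ((bdL l).support : Set (List X))) (lsubT P p) _ ?_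
          (by rw [Finsupp.mem_supported])
        intro l' hl'
        have h2 := bdL_support l l' hl'
        rw [lsubT_single]
        refine Sup_mono ?_ (ih l' (by omega))
        intro l'' h4 x hx
        refine lsub_hull_mono P ?_ (h4 x hx)
        intro y hy
        exact LsubHull.mem y (h2.1.subset hy)

/-- the factor -/
theorem lsub_pow_le {n N : ℕ} (h : n ≤ N) {D : ℝ} (hD : 0 ≤ D) :
    (1 - (2 : ℝ)⁻¹ ^ n) * D ≤ (1 - (2 : ℝ)⁻¹ ^ N) * D := by
  have h1 : ((2 : ℝ)⁻¹) ^ N ≤ (2⁻¹) ^ n := pow_le_pow_of_le_one (by norm_num) (by norm_num) h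
  exact mul_le_mul_of_nonneg_right (by linarith) hD

theorem lsub_Sd_near (P : MeanSp X) (p : X) {D : ℝ} (hD : 0 ≤ D) (N : ℕ) :
    ∀ (n : ℕ) (l : List X), l.length ≤ n → l.length ≤ N + 1 →
      (∀ x ∈ l, ∀ y ∈ l, P.near D x y) →
      lsubSd P p l ∈ Sup {l' | (l'.length ≤ N + 1 ∧
        ∀ x ∈ l', ∀ y ∈ l', P.near ((1 - 2⁻¹ ^ N) * D) x y) ∧ ∀ x ∈ l', LsubHull P l x} := by
  intro n
  have hr : 0 ≤ (1 - (2 : ℝ)⁻¹ ^ N) * D := by
    have h1 : ((2 : ℝ)⁻¹) ^ N ≤ 1 := pow_le_one₀ (by norm_num) (by norm_num)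
    exact mul_nonneg (by linarith) hD
  induction n with
  | zero =>
    intro l hl _ _
    have : l = [] := List.length_eq_zero_iff.1 (Nat.le_zero.1 hl)
    subst this
    rw [lsubSd_nil]
    refine single_mem_Sup ?_ 1
    exact ⟨⟨by simp, fun x hx => by simp at hx⟩, fun x hx => by simp at hx⟩
  | succ n ih =>
    intro l hl hlN hnear
    by_cases hne : l = []
    · subst hne
      rw [lsubSd_nil]
      refine single_mem_Sup ?_ 1
      exact ⟨⟨by simp, fun x hx => by simp at hx⟩, fun x hx => by simp at hx⟩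
    · obtain ⟨k, hk⟩ : ∃ k, l.length = k + 1 :=
        ⟨l.length - 1, (Nat.succ_pred_eq_of_pos (List.length_pos_iff.2 hne)).symm⟩
      have hcen : ∀ y, LsubHull P l y → P.near ((1 - 2⁻¹ ^ N) * D) y (lsubB P p l) := by
        intro y hy
        refine lsub_hull_near P (l := l) ?_ hy
        intro a ha
        refine P.near_symm _ _ _ ?_
        refine P.near_mono _ _ _ _ (lsub_pow_le (n := k) (N := N) (by omega) hD) ?_
        exact lsub_center P p hD l k hk hnear a ha
      rw [lsubSd_ne P p l hne]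
      refine cone_mem_Sup (S := {l' | (l'.length + 1 ≤ N + 1 ∧
        ∀ x ∈ l', ∀ y ∈ l', P.near ((1 - 2⁻¹ ^ N) * D) x y) ∧ ∀ x ∈ l', LsubHull P l x})
        (lsubB P p l) ?_ ?_
      · rintro l' ⟨⟨h1, h2⟩, h3⟩
        refine ⟨⟨by simpa using h1, fun x hx y hy => ?_⟩, fun x hx => ?_⟩
        · rcases List.mem_cons.1 hx with rfl | hx
          · rcases List.mem_cons.1 hy with rfl | hy
            · exact P.near_mono _ _ _ _ hr (P.near_refl _)
            · exact P.near_symm _ _ _ (hcen y (h3 y hy))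
          · rcases List.mem_cons.1 hy with rfl | hy
            · exact hcen x (h3 x hx)
            · exact h2 x hx y hy
        · rcases List.mem_cons.1 hx with rfl | hx
          · exact lsub_b_mem P p l hne
          · exact h3 x hx
      · refine map_Sup (S := ((bdL l).support : Set (List X))) (lsubS P p) _ ?_
          (by rw [Finsupp.mem_supported])
        intro l' hl'
        have h2 := bdL_support l l' hl'
        rw [lsubS_single]
        have h5 := ih l' (by omega) (by omega) (fun x hx y hy =>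
          hnear x (h2.1.subset hx) y (h2.1.subset hy))
        have h6 := lsub_Sd_hull P p l'.length l' le_rfl
        have h7 := (Finsupp.mem_supported ℤ _).1 h5
        have h8 := (Finsupp.mem_supported ℤ _).1 h6
        rw [Finsupp.mem_supported]
        intro l'' hl''
        obtain ⟨⟨_, h10⟩, h11⟩ := h7 hl''
        obtain ⟨h12, _⟩ := h8 hl''
        refine ⟨⟨by omega, h10⟩, fun x hx => ?_⟩
        refine lsub_hull_mono P ?_ (h11 x hx)
        intro y hy
        exact LsubHull.mem y (h2.1.subset hy)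

end

theorem ess_of_mean {X I I' : Type} (P : MeanSp X) [Nonempty X] (U : I → Set X) (U' : I' → Set X)
    (hU : ∀ i x y, x ∈ U i → y ∈ U i → P.m x y ∈ U i)
    (hUU : ∀ l : List X, (∃ i, ∀ x ∈ l, x ∈ U i) → ∃ i, ∀ x ∈ l, x ∈ U' i)
    (r : X → X) (hr : ∀ i, ∀ x ∈ U i, r x = x)
    (hcov : ∀ (p : X) (D : ℝ), ∃ (n : ℕ) (δ : ℝ), 0 < δ ∧ ∀ l : List X,
      (∀ x ∈ l, ∀ y ∈ l, P.near δ x y) → (∀ x ∈ l, P.near D p x) →
      ∃ i, ∀ x ∈ l, r^[n] x ∈ U' i) :
    ∀ z ∈ Sup {l : List X | ∃ i, ∀ x ∈ l, x ∈ U i}, bd z = 0 →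
      ∃ w ∈ Sup {l : List X | ∃ i, ∀ x ∈ l, x ∈ U' i}, bd w = z := by
  classical
  intro z hz hbz
  obtain ⟨p⟩ := (inferInstance : Nonempty X)
  -- the subdivision and the homotopy preserve the set
  have hS1 : ∀ c ∈ Sup {l : List X | ∃ i, ∀ x ∈ l, x ∈ U i},
      lsubS P p c ∈ Sup {l : List X | ∃ i, ∀ x ∈ l, x ∈ U i} := by
    intro c hc
    refine map_Sup (lsubS P p) _ ?_ hc
    rintro l ⟨i, hi⟩
    rw [lsubS_single]
    refine Sup_mono ?_ (lsub_Sd_hull P p l.length l le_rfl)
    rintro l' ⟨_, h2⟩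
    exact ⟨i, fun x hx => lsub_hull_sub P (hU i) hi (h2 x hx)⟩
  have hT1 : ∀ c ∈ Sup {l : List X | ∃ i, ∀ x ∈ l, x ∈ U i},
      lsubT P p c ∈ Sup {l : List X | ∃ i, ∀ x ∈ l, x ∈ U i} := by
    intro c hc
    refine map_Sup (lsubT P p) _ ?_ hc
    rintro l ⟨i, hi⟩
    rw [lsubT_single]
    refine Sup_mono ?_ (lsub_Tl_hull P p l.length l le_rfl)
    intro l' h2
    exact ⟨i, fun x hx => lsub_hull_sub P (hU i) hi (h2 x hx)⟩
  -- the cone
  have hw : bd (cone p z) = z := by rw [bd_cone, hbz, map_zero, sub_zero]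
  -- size of the cone
  obtain ⟨N, hN⟩ : ∃ N : ℕ, ∀ l ∈ (cone p z).support, l.length ≤ N + 1 := by
    refine ⟨(cone p z).support.sup List.length, fun l hl => ?_⟩
    exact (Finset.le_sup (f := List.length) hl).trans (Nat.le_succ _)
  obtain ⟨D, hD0, hD, hDp⟩ : ∃ D : ℝ, 0 ≤ D ∧ (∀ l ∈ (cone p z).support, ∀ x ∈ l, ∀ y ∈ l,
      P.near D x y) ∧ ∀ l ∈ (cone p z).support, ∀ x ∈ l, P.near D x p := by
    choose ρ hρ using P.near_exists
    let F : Finset X := insert p ((cone p z).support.biUnion fun l => l.toFinset)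
    have hF0 : 0 ≤ ∑ x ∈ F, ∑ y ∈ F, max 0 (ρ x y) :=
      Finset.sum_nonneg fun x _ => Finset.sum_nonneg fun y _ => le_max_left _ _
    have hF : ∀ x ∈ F, ∀ y ∈ F, P.near (∑ x ∈ F, ∑ y ∈ F, max 0 (ρ x y)) x y := by
      intro x hxF y hyF
      refine P.near_mono _ _ _ _ ?_ (hρ x y)
      calc ρ x y ≤ max 0 (ρ x y) := le_max_right _ _
        _ ≤ ∑ y ∈ F, max 0 (ρ x y) :=
          Finset.single_le_sum (f := fun y => max 0 (ρ x y)) (fun y _ => le_max_left _ _) hyF
        _ ≤ ∑ x ∈ F, ∑ y ∈ F, max 0 (ρ x y) :=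
          Finset.single_le_sum (f := fun x => ∑ y ∈ F, max 0 (ρ x y))
            (fun x _ => Finset.sum_nonneg fun y _ => le_max_left _ _) hxF
    have hmemF : ∀ l ∈ (cone p z).support, ∀ x ∈ l, x ∈ F := fun l hl x hx =>
      Finset.mem_insert_of_mem (Finset.mem_biUnion.2 ⟨l, hl, List.mem_toFinset.2 hx⟩)
    exact ⟨_, hF0, fun l hl x hx y hy => hF x (hmemF l hl x hx) y (hmemF l hl y hy),
      fun l hl x hx => hF x (hmemF l hl x hx) p (Finset.mem_insert_self _ _)⟩
  -- iterate
  have hq0 : 0 ≤ 1 - (2 : ℝ)⁻¹ ^ N := by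
    have h1 : ((2 : ℝ)⁻¹) ^ N ≤ 1 := pow_le_one₀ (by norm_num) (by norm_num)
    linarith
  have hq1 : 1 - (2 : ℝ)⁻¹ ^ N < 1 := by
    have h1 : 0 < ((2 : ℝ)⁻¹) ^ N := pow_pos (by norm_num) N
    linarith
  have hit : ∀ k : ℕ, ∃ W : Ch X, W ∈ Sup {l | (l.length ≤ N + 1 ∧
      ∀ x ∈ l, ∀ y ∈ l, P.near ((1 - 2⁻¹ ^ N) ^ k * D) x y) ∧ ∀ x ∈ l, P.near D x p} ∧
      ∃ z' ∈ Sup {l : List X | ∃ i, ∀ x ∈ l, x ∈ U i}, bd z' = 0 ∧ bd W = z' ∧
      ∃ v ∈ Sup {l : List X | ∃ i, ∀ x ∈ l, x ∈ U i}, bd v = z - z' := by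
    intro k
    induction k with
    | zero =>
      refine ⟨cone p z, ?_, z, hz, hbz, hw, 0, Submodule.zero_mem _, by simp⟩
      rw [Finsupp.mem_supported]
      intro l hl
      refine ⟨⟨hN l hl, fun x hx y hy => ?_⟩, hDp l hl⟩
      rw [pow_zero, one_mul]
      exact hD l hl x hx y hy
    | succ k ih =>
      obtain ⟨W, hW, z', hz', hbz', hWz', v, hv, hbv⟩ := ih
      refine ⟨lsubS P p W, ?_, lsubS P p z', hS1 z' hz', ?_, ?_, v + lsubT P p z', ?_, ?_⟩
      · refine map_Sup (lsubS P p) _ ?_ hW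
        rintro l ⟨⟨h1, h2⟩, hlp⟩
        rw [lsubS_single]
        have h3 : 0 ≤ (1 - (2 : ℝ)⁻¹ ^ N) ^ k * D := mul_nonneg (pow_nonneg hq0 k) hD0
        refine Sup_mono ?_ (lsub_Sd_near P p h3 N l.length l le_rfl h1 h2)
        rintro l' ⟨⟨h4, h5⟩, h6⟩
        refine ⟨⟨h4, fun x hx y hy => ?_⟩, fun x hx => lsub_hull_near P hlp (h6 x hx)⟩
        refine P.near_mono _ _ _ _ (le_of_eq ?_) (h5 x hx y hy)
        ring
      · rw [lsub_bd_S, hbz', map_zero]
      · rw [lsub_bd_S, hWz']
      · exact Submodule.add_mem _ hv (hT1 z' hz')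
      · rw [map_add, hbv, lsub_bd_T, hbz', map_zero, sub_zero]
        abel
  -- choose `k`
  obtain ⟨n, δ, hδ, hnδ⟩ := hcov p D
  obtain ⟨k, hk⟩ : ∃ k : ℕ, (1 - (2 : ℝ)⁻¹ ^ N) ^ k * D ≤ δ := by
    have h1 := tendsto_pow_atTop_nhds_zero_of_lt_one hq0 hq1
    have h2 := h1.mul_const D
    rw [zero_mul] at h2
    obtain ⟨k, hk⟩ := (h2.eventually (gt_mem_nhds hδ)).exists
    exact ⟨k, hk.le⟩
  obtain ⟨W, hW, z', hz', _, hWz', v, hv, hbv⟩ := hit k
  have hrn : ∀ i, ∀ x ∈ U i, r^[n] x = x := fun i x hx =>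
    Function.iterate_fixed (hr i x hx) n
  -- push the last chain
  have hW' : mapDomain (List.map r^[n]) W ∈ Sup {l : List X | ∃ i, ∀ x ∈ l, x ∈ U' i} := by
    refine map_Sup (Finsupp.lmapDomain ℤ ℤ (List.map r^[n])) _ ?_ hW
    rintro l ⟨⟨_, h2⟩, h3⟩
    rw [Finsupp.lmapDomain_apply, mapDomain_single]
    refine single_mem_Sup ?_ 1
    obtain ⟨i, hi⟩ := hnδ l (fun x hx y hy => P.near_mono _ _ _ _ hk (h2 x hx y hy))
      (fun x hx => P.near_symm _ _ _ (h3 x hx))
    refine ⟨i, fun x hx => ?_⟩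
    obtain ⟨y, hy, rfl⟩ := List.mem_map.1 hx
    exact hi y hy
  have hz'' : mapDomain (List.map r^[n]) z' = z' := by
    refine lsub_lin_congr (Finsupp.lmapDomain ℤ ℤ (List.map r^[n])) LinearMap.id z' fun l hl => ?_
    obtain ⟨i, hi⟩ := (Finsupp.mem_supported ℤ _).1 hz' hl
    rw [Finsupp.lmapDomain_apply, mapDomain_single, LinearMap.id_apply]
    have h4 : List.map r^[n] l = l := by
      conv_rhs => rw [← List.map_id l]
      exact List.map_congr_left fun x hx => hrn i x (hi x hx)
    rw [h4]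
  refine ⟨v + mapDomain (List.map r^[n]) W, Submodule.add_mem _ (Sup_mono ?_ hv) hW', ?_⟩
  · intro l hl
    exact hUU l hl
  · rw [map_add, hbv, bd_map, hWz', hz'', sub_add_cancel]

theorem acy_of_mean {X I : Type} (P : MeanSp X) [Nonempty X] (U : I → Set X)
    (hU : ∀ i x y, x ∈ U i → y ∈ U i → P.m x y ∈ U i) (δ : ℝ) (hδ : 0 < δ)
    (hcov : ∀ l : List X, (∀ x ∈ l, ∀ y ∈ l, P.near δ x y) → ∃ i, ∀ x ∈ l, x ∈ U i) :
    Acy {l : List X | ∃ i, ∀ x ∈ l, x ∈ U i} :=
  ess_of_mean P U U hU (fun _ h => h) id (fun _ _ _ => rfl)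
    (fun _ _ => ⟨0, δ, hδ, fun l hl _ => hcov l hl⟩)

end Tor
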