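import Mathlib
import Pool.Agent.Lib.MP_05cdf2_gt.B.LSub

/-! MP_05cdf2_gt, B-Sp: `ess_of_mean` is proved in LSub. -/
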