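import Mathlib
import Pool.Agent.Lib.MP_05cdf2_gt.B.FPc
import Pool.Agent.Lib.MP_05cdf2_gt.B.PM

/-! MP_05cdf2_gt, B-Sp, job LatA: tensoring with a lattice.

`N ⊗[ℤ] M` with the diagonal action of `G`: `TM N M` is a copy of `TensorProduct ℤ N M` with
`g • (n ⊗ m) = (g • n) ⊗ (g • m)`.

`FP_TM`: if `N` is FP_n over `ℤ[G]` and `M` is a `ℤ[G]`-module which is finitely generated and free as abelian
group, then `TM N M` is FP_n. Induction on `n` generalizing `N`.
Step 1: `TM (ℤ[G]) M` is free of rank `r = rank M`: the map `single g a ⊗ m ↦ single g a • (1 ⊗ (g⁻¹ • m))`...: the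
additive automorphism `g ⊗ m ↦ g ⊗ g⁻¹ m` of `ℤ[G] ⊗ M` carries the diagonal action to the action on the first
factor, and `ℤ[G] ⊗ M ≅ ℤ[G]^r` by a basis of `M`. Concretely: for a basis `b : Fin r → M` the map
`Φ : (Fin r → ℤ[G]) → TM ℤ[G] M`, `x ↦ ∑ x i • (1 ⊗ b i)` is linear, and bijective since the elements
`g • (1 ⊗ b i) = g ⊗ g b_i` (`g ∈ G`, `i`) form a `ℤ`-basis of `ℤ[G] ⊗ M` (for fixed `g` the `g b_i` are a basis of `M`).
Step 2: `TM (Fin k → ℤ[G]) M ≅ (Fin k → TM ℤ[G] M)`.
Step 3: from `0 → K → ℤ[G]^k → N → 0` exact get `0 → TM K M → TM ℤ[G]^k M → TM N M → 0` exact (`M` is flat over `ℤ`: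
`Module.Flat.rTensor_preserves_injective_linearMap`; right exactness `rTensor_exact`, `LinearMap.rTensor_surjective`),
and `FP.quot`. Case `n = 0`: quotient of `TM ℤ[G]^k M`.
-/

set_option autoImplicit false

namespace Tor
open Finsupp TensorProduct

/-- a copy of the tensor product over `ℤ`, with diagonal action -/
def TM (G : Type) [Group G] (N M : Type) [AddCommGroup N] [Module (GA G) N] [AddCommGroup M]
    [Module (GA G) M] : Type := TensorProduct ℤ N M

section
variable {G : Type} [Group G] {N M : Type} [AddCommGroup N] [Module (GA G) N] [AddCommGroup M]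
    [Module (GA G) M]

noncomputable instance TM.instAddCommGroup : AddCommGroup (TM G N M) :=
  inferInstanceAs (AddCommGroup (TensorProduct ℤ N M))

/-- the action of a group element on a module over the group ring, as a `ℤ`-linear map -/
noncomputable def gact (G : Type) [Group G] (N : Type) [AddCommGroup N] [Module (GA G) N] :
    G →* Module.End ℤ N where
  toFun g := (AddMonoidHom.toIntLinearMap
    { toFun := fun x => MonoidAlgebra.of ℤ G g • x
      map_zero' := smul_zero _
      map_add' := smul_add _ })
  map_one' := by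
    refine LinearMap.ext fun x => ?_
    show MonoidAlgebra.of ℤ G 1 • x = x
    rw [map_one, one_smul]
  map_mul' g h := by
    refine LinearMap.ext fun x => ?_
    show MonoidAlgebra.of ℤ G (g * h) • x = MonoidAlgebra.of ℤ G g • MonoidAlgebra.of ℤ G h • x
    rw [map_mul, mul_smul]

/-- diagonal action -/
noncomputable def TM.hom (G : Type) [Group G] (N M : Type) [AddCommGroup N] [Module (GA G) N]
    [AddCommGroup M] [Module (GA G) M] : G →* Module.End ℤ (TensorProduct ℤ N M) where
  toFun g := TensorProduct.map (gact G N g) (gact G M g)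
  map_one' := by
    rw [map_one, map_one]; exact TensorProduct.map_id
  map_mul' g h := by
    rw [map_mul, map_mul]; exact TensorProduct.map_comp _ _ _ _

/-- the underlying group -/
noncomputable def TM.eq (G : Type) [Group G] (N M : Type) [AddCommGroup N] [Module (GA G) N]
    [AddCommGroup M] [Module (GA G) M] : TM G N M ≃+ TensorProduct ℤ N M := AddEquiv.refl _

/-- the group ring acts -/
noncomputable def TM.act (G : Type) [Group G] (N M : Type) [AddCommGroup N] [Module (GA G) N]
    [AddCommGroup M] [Module (GA G) M] : GA G →+* Module.End ℤ (TensorProduct ℤ N M) :=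
  (MonoidAlgebra.lift ℤ (Module.End ℤ (TensorProduct ℤ N M)) G (TM.hom G N M)).toRingHom

noncomputable instance TM.instModule : Module (GA G) (TM G N M) where
  smul r x := (TM.eq G N M).symm (TM.act G N M r (TM.eq G N M x))
  one_smul x := by
    show (TM.eq G N M).symm (TM.act G N M 1 (TM.eq G N M x)) = x
    simp
  mul_smul r s x := by
    show (TM.eq G N M).symm (TM.act G N M (r * s) (TM.eq G N M x)) =
      (TM.eq G N M).symm (TM.act G N M r (TM.eq G N M ((TM.eq G N M).symm
        (TM.act G N M s (TM.eq G N M x)))))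
    simp
  smul_zero r := by
    show (TM.eq G N M).symm (TM.act G N M r (TM.eq G N M 0)) = 0
    simp
  smul_add r x y := by
    show (TM.eq G N M).symm (TM.act G N M r (TM.eq G N M (x + y))) =
      (TM.eq G N M).symm (TM.act G N M r (TM.eq G N M x)) +
      (TM.eq G N M).symm (TM.act G N M r (TM.eq G N M y))
    simp
  add_smul r s x := by
    show (TM.eq G N M).symm (TM.act G N M (r + s) (TM.eq G N M x)) =
      (TM.eq G N M).symm (TM.act G N M r (TM.eq G N M x)) +
      (TM.eq G N M).symm (TM.act G N M s (TM.eq G N M x))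
    simp
  zero_smul x := by
    show (TM.eq G N M).symm (TM.act G N M 0 (TM.eq G N M x)) = 0
    simp

end

theorem TM.of_smul {G : Type} [Group G] {N M : Type} [AddCommGroup N] [Module (GA G) N]
    [AddCommGroup M] [Module (GA G) M] (g : G) (n : N) (m : M) :
    MonoidAlgebra.of ℤ G g • ((TM.eq G N M).symm (n ⊗ₜ m)) =
      (TM.eq G N M).symm ((MonoidAlgebra.of ℤ G g • n) ⊗ₜ (MonoidAlgebra.of ℤ G g • m)) := by
  show (TM.eq G N M).symm (TM.act G N M (MonoidAlgebra.of ℤ G g) (TM.eq G N M ((TM.eq G N M).symm (n ⊗ₜ m)))) = _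
  have h : TM.act G N M (MonoidAlgebra.of ℤ G g) = TM.hom G N M g := MonoidAlgebra.lift_of (TM.hom G N M) g
  rw [h, AddEquiv.apply_symm_apply]
  rfl

private theorem lata_ind {G : Type} [Group G] {N M : Type} [AddCommGroup N] [Module (GA G) N]
    [AddCommGroup M] [Module (GA G) M] {P : TM G N M → Prop} (x : TM G N M) (h0 : P 0)
    (ht : ∀ (n : N) (m : M), P ((TM.eq G N M).symm (n ⊗ₜ m))) (ha : ∀ x y, P x → P y → P (x + y)) : P x := by
  have key : ∀ t : TensorProduct ℤ N M, P ((TM.eq G N M).symm t) := by
    intro t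
    induction t using TensorProduct.induction_on with
    | zero =>
      rw [map_zero]
      exact h0
    | tmul n m => exact ht n m
    | add a b iha ihb =>
      rw [map_add]
      exact ha _ _ iha ihb
  have h1 := key (TM.eq G N M x)
  rwa [AddEquiv.symm_apply_apply] at h1

/-- the linear map of a module map in the first variable -/
private noncomputable def lataMap {G : Type} [Group G] {N N' : Type} (M : Type) [AddCommGroup N] [Module (GA G) N]
    [AddCommGroup N'] [Module (GA G) N'] [AddCommGroup M] [Module (GA G) M] (f : N →ₗ[GA G] N') :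
    TM G N M →ₗ[GA G] TM G N' M :=
  linOf ((TM.eq G N' M).symm.toAddMonoidHom.comp
    ((LinearMap.rTensor M f.toAddMonoidHom.toIntLinearMap).toAddMonoidHom.comp (TM.eq G N M).toAddMonoidHom)) (by
    intro g x
    induction x using lata_ind with
    | h0 => rw [smul_zero, map_zero, smul_zero]
    | ht n m =>
      rw [TM.of_smul]
      show (TM.eq G N' M).symm (f (MonoidAlgebra.of ℤ G g • n) ⊗ₜ (MonoidAlgebra.of ℤ G g • m)) =
        MonoidAlgebra.of ℤ G g • (TM.eq G N' M).symm (f n ⊗ₜ m)
      rw [TM.of_smul, map_smul]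
    | ha x y hx hy => rw [smul_add, map_add, map_add, smul_add, hx, hy])

private theorem lataMap_apply {G : Type} [Group G] {N N' : Type} (M : Type) [AddCommGroup N] [Module (GA G) N]
    [AddCommGroup N'] [Module (GA G) N'] [AddCommGroup M] [Module (GA G) M] (f : N →ₗ[GA G] N') (x : TM G N M) :
    lataMap M f x = (TM.eq G N' M).symm (LinearMap.rTensor M f.toAddMonoidHom.toIntLinearMap (TM.eq G N M x)) := rfl

/-- functoriality in the first variable -/
theorem TM.exists_map {G : Type} [Group G] {N N' M : Type} [AddCommGroup N] [Module (GA G) N]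
    [AddCommGroup N'] [Module (GA G) N'] [AddCommGroup M] [Module (GA G) M] (f : N →ₗ[GA G] N') :
    ∃ F : TM G N M →ₗ[GA G] TM G N' M, ∀ (n : N) (m : M),
      F ((TM.eq G N M).symm (n ⊗ₜ m)) = (TM.eq G N' M).symm (f n ⊗ₜ m) :=
  ⟨lataMap M f, fun _ _ => rfl⟩

/-- the coefficient at `g` -/
private noncomputable def lataCo {G : Type} [Group G] (g : G) : GA G →ₗ[ℤ] ℤ :=
  AddMonoidHom.toIntLinearMap
    { toFun := fun y => y.coeff g
      map_zero' := rfl
      map_add' := fun _ _ => rfl }

/-- the component at `g` -/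
private noncomputable def lataPi {G : Type} [Group G] (M : Type) [AddCommGroup M] (g : G) :
    TensorProduct ℤ (GA G) M →ₗ[ℤ] M :=
  TensorProduct.lift ((LinearMap.lsmul ℤ M).comp (lataCo g))

private theorem lataPi_tmul {G : Type} [Group G] (M : Type) [AddCommGroup M] (g : G) (y : GA G) (m : M) :
    lataPi M g (y ⊗ₜ m) = y.coeff g • m := rfl

private theorem lataPi_smul {G : Type} [Group G] (M : Type) [AddCommGroup M] [Module (GA G) M] (g : G)
    (y : GA G) (m : M) : lataPi M g (TM.eq G (GA G) M (y • (TM.eq G (GA G) M).symm ((1 : GA G) ⊗ₜ m))) =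
      y.coeff g • (MonoidAlgebra.of ℤ G g • m) := by
  classical
  induction y using MonoidAlgebra.induction_on with
  | of h =>
    rw [TM.of_smul, AddEquiv.apply_symm_apply, lataPi_tmul, smul_eq_mul, mul_one]
    have h1 : (MonoidAlgebra.of ℤ G h).coeff g = if h = g then 1 else 0 := by
      rw [MonoidAlgebra.of_apply, MonoidAlgebra.coeff_single, Finsupp.single_apply]
    rw [h1]
    split_ifs with h2
    · rw [h2]
    · rw [zero_smul, zero_smul]
  | add a b ha hb =>
    rw [add_smul, map_add, map_add, ha, hb, MonoidAlgebra.coeff_add, Finsupp.add_apply, add_smul]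
  | smul n a ha =>
    rw [smul_assoc, map_zsmul, map_zsmul, ha, MonoidAlgebra.coeff_smul, Finsupp.smul_apply, smul_assoc]

theorem TM.self_free {G : Type} [Group G] (M : Type) [AddCommGroup M] [Module (GA G) M]
    [Module.Finite ℤ M] [Module.Free ℤ M] :
    ∃ r : ℕ, Nonempty ((Fin r → GA G) ≃ₗ[GA G] TM G (GA G) M) := by
  classical
  let b : Module.Basis (Fin (Module.finrank ℤ M)) ℤ M := Module.finBasis ℤ M
  let e : Fin (Module.finrank ℤ M) → TM G (GA G) M := fun i => (TM.eq G (GA G) M).symm ((1 : GA G) ⊗ₜ b i)
  let Φ : (Fin (Module.finrank ℤ M) → GA G) →ₗ[GA G] TM G (GA G) M := Fintype.linearCombination (GA G) e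
  have hΦ : ∀ x, Φ x = ∑ i, x i • e i := fun x => rfl
  refine ⟨Module.finrank ℤ M, ⟨LinearEquiv.ofBijective Φ ⟨?_, ?_⟩⟩⟩
  · rw [← LinearMap.ker_eq_bot, LinearMap.ker_eq_bot']
    intro x hx
    funext i
    refine MonoidAlgebra.ext (Finsupp.ext fun g => ?_)
    rw [hΦ] at hx
    have h1 : lataPi M g (TM.eq G (GA G) M (∑ i, x i • e i)) = 0 := by
      rw [hx, map_zero, map_zero]
    rw [map_sum, map_sum] at h1
    have h2 : ∑ j, (x j).coeff g • (MonoidAlgebra.of ℤ G g • b j) = 0 := by
      rw [← h1]
      refine Finset.sum_congr rfl fun j _ => ?_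
      exact (lataPi_smul M g (x j) (b j)).symm
    have h3 : MonoidAlgebra.of ℤ G g • (∑ j, (x j).coeff g • b j) = 0 := by
      rw [Finset.smul_sum, ← h2]
      refine Finset.sum_congr rfl fun j _ => ?_
      exact smul_comm _ _ _
    have h4 : ∑ j, (x j).coeff g • b j = 0 := by
      have h5 : MonoidAlgebra.of ℤ G g⁻¹ • (MonoidAlgebra.of ℤ G g • (∑ j, (x j).coeff g • b j)) = 0 := by
        rw [h3, smul_zero]
      rw [← mul_smul, ← map_mul, inv_mul_cancel, map_one, one_smul] at h5
      exact h5
    exact Fintype.linearIndependent_iff.1 b.linearIndependent (fun j => (x j).coeff g) h4 i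
  · intro t
    have hr : ∀ t : TM G (GA G) M, t ∈ LinearMap.range Φ := by
      intro t
      refine lata_ind t (Submodule.zero_mem _) ?_ (fun x y hx hy => Submodule.add_mem _ hx hy)
      intro y m
      have h1 : ∀ m : M, (TM.eq G (GA G) M).symm ((1 : GA G) ⊗ₜ m) ∈ LinearMap.range Φ := by
        intro m
        rw [← b.sum_repr m, TensorProduct.tmul_sum, map_sum]
        refine Submodule.sum_mem _ fun i _ => ?_
        rw [TensorProduct.tmul_smul, map_zsmul]
        have h2 : e i ∈ LinearMap.range Φ := by
          refine ⟨Pi.single i 1, ?_⟩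
          rw [hΦ, Finset.sum_eq_single i]
          · rw [Pi.single_eq_same, one_smul]
          · intro j _ hj
            rw [Pi.single_eq_of_ne hj, zero_smul]
          · intro h
            exact absurd (Finset.mem_univ i) h
        exact zsmul_mem h2 _
      induction y using MonoidAlgebra.induction_on with
      | of g =>
        have h2 := Submodule.smul_mem _ (MonoidAlgebra.of ℤ G g) (h1 (MonoidAlgebra.of ℤ G g⁻¹ • m))
        rw [TM.of_smul, smul_eq_mul, mul_one, ← mul_smul, ← map_mul, mul_inv_cancel, map_one, one_smul] at h2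
        exact h2
      | add a b ha hb =>
        rw [TensorProduct.add_tmul, map_add]
        exact Submodule.add_mem _ ha hb
      | smul n a ha =>
        rw [← TensorProduct.smul_tmul', map_zsmul]
        exact zsmul_mem ha _
    exact hr t

private theorem lata_exact {G : Type} [Group G] (M : Type) [AddCommGroup M] [Module (GA G) M]
    [Module.Finite ℤ M] [Module.Free ℤ M] {A B C : Type} [AddCommGroup A] [Module (GA G) A] [AddCommGroup B]
    [Module (GA G) B] [AddCommGroup C] [Module (GA G) C] (i : A →ₗ[GA G] B) (g : B →ₗ[GA G] C)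
    (hi : Function.Injective i) (hg : Function.Surjective g) (hex : ∀ b, g b = 0 ↔ ∃ a, i a = b) :
    Function.Injective (lataMap M i) ∧ Function.Surjective (lataMap M g) ∧
      ∀ b, lataMap M g b = 0 ↔ ∃ a, lataMap M i a = b := by
  have h1 : Function.Injective (LinearMap.rTensor M i.toAddMonoidHom.toIntLinearMap) :=
    Module.Flat.rTensor_preserves_injective_linearMap _ hi
  have h2 : Function.Surjective (LinearMap.rTensor M g.toAddMonoidHom.toIntLinearMap) :=
    LinearMap.rTensor_surjective M hg
  have h3 : Function.Exact (i.toAddMonoidHom.toIntLinearMap) (g.toAddMonoidHom.toIntLinearMap) := by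
    intro b
    exact hex b
  have h4 : Function.Exact (LinearMap.rTensor M i.toAddMonoidHom.toIntLinearMap)
      (LinearMap.rTensor M g.toAddMonoidHom.toIntLinearMap) := rTensor_exact M h3 hg
  exact ⟨h1, h2, fun b => h4 b⟩

private theorem lata_free {G : Type} [Group G] (M : Type) [AddCommGroup M] [Module (GA G) M]
    [Module.Finite ℤ M] [Module.Free ℤ M] (n k : ℕ) : FP (GA G) n (TM G (Fin k → GA G) M) := by
  induction k with
  | zero =>
    have h1 : ∀ x : TM G (Fin 0 → GA G) M, x = 0 := by
      intro x
      induction x using lata_ind with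
      | h0 => rfl
      | ht y m =>
        have h2 : y = 0 := Subsingleton.elim _ _
        rw [h2, TensorProduct.zero_tmul, map_zero]
      | ha x y hx hy => rw [hx, hy, add_zero]
    have : Subsingleton (TM G (Fin 0 → GA G) M) := ⟨fun a b => by rw [h1 a, h1 b]⟩
    exact FP.of_subsingleton n
  | succ k ih =>
    have hself : FP (GA G) n (TM G (GA G) M) := by
      obtain ⟨r, ⟨e⟩⟩ := TM.self_free (G := G) M
      exact FP.iso (FP.free n r) e
    let i : GA G →ₗ[GA G] (Fin (k + 1) → GA G) := LinearMap.single (GA G) (fun _ : Fin (k + 1) => GA G) 0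
    let g : (Fin (k + 1) → GA G) →ₗ[GA G] (Fin k → GA G) :=
      LinearMap.funLeft (GA G) (GA G) Fin.succ
    have hex := lata_exact M i g ?_ ?_ ?_
    · exact FP.ext (lataMap M i) (lataMap M g) hex.1 hex.2.1 hex.2.2 hself ih
    · exact Pi.single_injective (M := fun _ : Fin (k + 1) => GA G) 0
    · intro y
      exact ⟨Fin.cons 0 y, rfl⟩
    · intro x
      constructor
      · intro hx
        refine ⟨x 0, ?_⟩
        funext j
        refine Fin.cases ?_ (fun j => ?_) j
        · exact Pi.single_eq_same (M := fun _ : Fin (k + 1) => GA G) 0 (x 0)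
        · have h1 : (Pi.single (0 : Fin (k + 1)) (x 0) : Fin (k + 1) → GA G) j.succ = 0 :=
            Pi.single_eq_of_ne (Fin.succ_ne_zero j) _
          exact h1.trans (congrFun hx j).symm
      · rintro ⟨a, rfl⟩
        funext j
        exact Pi.single_eq_of_ne (M := fun _ : Fin (k + 1) => GA G) (Fin.succ_ne_zero j) a

theorem FP_TM {G : Type} [Group G] (M : Type) [AddCommGroup M] [Module (GA G) M]
    [Module.Finite ℤ M] [Module.Free ℤ M] (n : ℕ) (N : Type) [AddCommGroup N] [Module (GA G) N]
    (h : FP (GA G) n N) : FP (GA G) n (TM G N M) := by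
  induction n generalizing N with
  | zero =>
    have : Module.Finite (GA G) N := h
    obtain ⟨k, f, hf⟩ := Module.Finite.exists_fin' (GA G) N
    have h1 : Module.Finite (GA G) (TM G (Fin k → GA G) M) := lata_free M 0 k
    have h2 : Function.Surjective (lataMap M f) := by
      have h3 : Function.Surjective (LinearMap.rTensor M f.toAddMonoidHom.toIntLinearMap) :=
        LinearMap.rTensor_surjective M hf
      exact h3
    exact Module.Finite.of_surjective (lataMap M f) h2
  | succ n ih =>
    obtain ⟨k, f, hf, hk⟩ := h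
    have hex := lata_exact M (LinearMap.ker f).subtype f (LinearMap.ker f).subtype_injective hf (by
      intro b
      constructor
      · intro hb
        exact ⟨⟨b, hb⟩, rfl⟩
      · rintro ⟨a, rfl⟩
        exact a.2)
    exact FP.quot (lataMap M (LinearMap.ker f).subtype) (lataMap M f) hex.1 hex.2.1 hex.2.2
      (ih _ hk) (lata_free M (n + 1) k)

end Tor
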