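import Mathlib
import Pool.Agent.Lib.MP_05cdf2_gt.B.LatA

/-! MP_05cdf2_gt, B-Sp, job LatB: over a group of type FP_infinity every module which is finitely generated
as an abelian group is FPI.

`FPI_free`: `M` finitely generated and free over `ℤ`: `TM (PM G PUnit) M ≅ M` (`single * a ⊗ m ↦ a • m`, inverse
`m ↦ single * 1 ⊗ m`; `G` acts trivially on the first factor), apply `FP_TM`.

`FPI_finite`: `M` finite: let `E = M →₀ ℤ = PM G M` with `G` acting on `M` by `g • m = of g • m`
(define the `MulAction` locally); `E → M`, `single m 1 ↦ m` is surjective and linear (`PM.lift`); `E` and the kernel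
(a subgroup of the free abelian group `E` of finite rank) are finitely generated and free over `ℤ`, so FPI
by `FPI_free`; `FPI.quot`.

`FPI_lattice`: general `M`: the torsion submodule `t = {m | ∃ n ≠ 0, n • m = 0}` is a `ℤ[G]`-submodule, finite (finitely
generated torsion abelian group), `M ⧸ t` is finitely generated and torsion free so free over `ℤ`; `FPI.ext`.
-/

set_option autoImplicit false

namespace Tor
open Finsupp TensorProduct

/-- the map `m ↦ * ⊗ m` is an isomorphism of modules -/
theorem latB_equiv (G : Type) [Group G] (M : Type) [AddCommGroup M] [Module (GA G) M] :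
    Nonempty (M ≃ₗ[GA G] TM G (PM G PUnit.{1}) M) := by
  let u : PM G PUnit.{1} := (PM.eq G PUnit.{1}).symm (single PUnit.unit 1)
  have hu : ∀ g : G, MonoidAlgebra.of ℤ G g • u = u := by
    intro g
    apply (PM.eq G PUnit.{1}).injective
    rw [PM.eq_of_smul]
    show mapDomain (g • ·) (single PUnit.unit (1 : ℤ)) = single PUnit.unit 1
    rw [mapDomain_single]
  let e0 : PM G PUnit.{1} ≃+ ℤ :=
    (PM.eq G PUnit.{1}).trans (Finsupp.uniqueLinearEquiv ℤ ℤ PUnit.unit.{1}).toAddEquiv
  have he0 : e0 u = 1 := by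
    show (Finsupp.uniqueLinearEquiv ℤ ℤ PUnit.unit.{1}) (single PUnit.unit (1 : ℤ)) = 1
    rw [Finsupp.uniqueLinearEquiv_apply, single_eq_same]
  let E1 : PM G PUnit.{1} ≃ₗ[ℤ] ℤ := e0.toIntLinearEquiv
  let E : TensorProduct ℤ (PM G PUnit.{1}) M ≃ₗ[ℤ] M :=
    (TensorProduct.congr E1 (LinearEquiv.refl ℤ M)).trans (TensorProduct.lid ℤ M)
  have hE : ∀ m : M, E (u ⊗ₜ m) = m := by
    intro m
    show (TensorProduct.lid ℤ M) ((TensorProduct.congr E1 (LinearEquiv.refl ℤ M)) (u ⊗ₜ m)) = m
    rw [TensorProduct.congr_tmul, TensorProduct.lid_tmul]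
    show (e0 u) • m = m
    rw [he0, one_smul]
  have hE' : ∀ m : M, E.symm m = u ⊗ₜ m := by
    intro m
    rw [LinearEquiv.symm_apply_eq, hE]
  let f : M →+ TM G (PM G PUnit.{1}) M :=
    (TM.eq G (PM G PUnit.{1}) M).symm.toAddMonoidHom.comp E.symm.toAddEquiv.toAddMonoidHom
  have hf : ∀ m : M, f m = (TM.eq G (PM G PUnit.{1}) M).symm (u ⊗ₜ m) := by
    intro m
    show (TM.eq G (PM G PUnit.{1}) M).symm (E.symm m) = _
    rw [hE']
  refine ⟨LinearEquiv.ofBijective (linOf f ?_) ?_⟩
  · intro g x
    rw [hf, hf, TM.of_smul, hu]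
  · have h1 : Function.Bijective f :=
      (TM.eq G (PM G PUnit.{1}) M).symm.bijective.comp E.symm.bijective
    exact h1

theorem FPI_free {G : Type} [Group G] (hG : GFP G) (M : Type) [AddCommGroup M] [Module (GA G) M]
    [Module.Finite ℤ M] [Module.Free ℤ M] : FPI (GA G) M := by
  obtain ⟨e⟩ := latB_equiv G M
  refine FPI.iso (M := TM G (PM G PUnit.{1}) M) (fun n => ?_) e.symm
  exact FP_TM M n (PM G PUnit.{1}) (hG n)

/-- submodules of modules which are finitely generated over `ℤ` -/
theorem latB_sub_finite {G : Type} [Group G] (M : Type) [AddCommGroup M] [Module (GA G) M]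
    [Module.Finite ℤ M] (K : Submodule (GA G) M) : Module.Finite ℤ K := by
  let j : K →ₗ[ℤ] M := K.subtype.toAddMonoidHom.toIntLinearMap
  have hj : Function.Injective j := fun x y h => Subtype.ext h
  exact Module.Finite.of_injective j hj

theorem latB_sub_torsionFree {G : Type} [Group G] (M : Type) [AddCommGroup M] [Module (GA G) M]
    [Module.IsTorsionFree ℤ M] (K : Submodule (GA G) M) : Module.IsTorsionFree ℤ K := by
  let j : K →ₗ[ℤ] M := K.subtype.toAddMonoidHom.toIntLinearMap
  have hj : Function.Injective j := fun x y h => Subtype.ext h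
  exact Function.Injective.moduleIsTorsionFree j hj (fun r x => map_smul j r x)

theorem latB_finite_PM (G M : Type) [Group G] [MulAction G M] [Finite M] :
    Module.Finite ℤ (PM G M) :=
  Module.Finite.equiv ((PM.eq G M).symm.toIntLinearEquiv : (M →₀ ℤ) ≃ₗ[ℤ] PM G M)

theorem latB_free_PM (G M : Type) [Group G] [MulAction G M] :
    Module.Free ℤ (PM G M) :=
  Module.Free.of_equiv ((PM.eq G M).symm.toIntLinearEquiv : (M →₀ ℤ) ≃ₗ[ℤ] PM G M)

/-- the tautological map `ℤ[M] → M` -/
noncomputable def latB_ev (M : Type) [AddCommGroup M] : (M →₀ ℤ) →+ M :=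
  Finsupp.liftAddHom (fun m => zmultiplesHom M m)

theorem latB_ev_single (M : Type) [AddCommGroup M] (m : M) (n : ℤ) :
    latB_ev M (single m n) = n • m := by
  simp [latB_ev]

/-- the underlying `G`-set of a module -/
@[reducible] noncomputable def latB_action (G : Type) [Group G] (M : Type) [AddCommGroup M]
    [Module (GA G) M] : MulAction G M where
  smul g m := MonoidAlgebra.of ℤ G g • m
  one_smul m := by
    show MonoidAlgebra.of ℤ G 1 • m = m
    rw [map_one, one_smul]
  mul_smul g h m := by
    show MonoidAlgebra.of ℤ G (g * h) • m = MonoidAlgebra.of ℤ G g • MonoidAlgebra.of ℤ G h • m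
    rw [map_mul, mul_smul]

theorem FPI_finite {G : Type} [Group G] (hG : GFP G) (M : Type) [AddCommGroup M] [Module (GA G) M]
    [Finite M] : FPI (GA G) M := by
  let act : MulAction G M := latB_action G M
  have hfin : Module.Finite ℤ (PM G M) := latB_finite_PM G M
  have hfree : Module.Free ℤ (PM G M) := latB_free_PM G M
  have hlift : ∀ (g : G) (x : M →₀ ℤ),
      latB_ev M (mapDomain (g • ·) x) = MonoidAlgebra.of ℤ G g • latB_ev M x := by
    intro g x
    induction x using Finsupp.induction_linear with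
    | zero => simp
    | add a b ha hb => rw [mapDomain_add, map_add, map_add, smul_add, ha, hb]
    | single m n =>
      rw [mapDomain_single, latB_ev_single, latB_ev_single]
      show n • (MonoidAlgebra.of ℤ G g • m) = MonoidAlgebra.of ℤ G g • (n • m)
      rw [smul_comm]
  let q : PM G M →ₗ[GA G] M := PM.lift (latB_ev M) hlift
  have hq : Function.Surjective q := by
    intro m
    refine ⟨(PM.eq G M).symm (single m 1), ?_⟩
    show latB_ev M (single m 1) = m
    rw [latB_ev_single, one_smul]
  have hE : FPI (GA G) (PM G M) := FPI_free hG (PM G M)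
  have hK1 : Module.Finite ℤ (LinearMap.ker q) := latB_sub_finite (PM G M) _
  have hK2 : Module.IsTorsionFree ℤ (LinearMap.ker q) := latB_sub_torsionFree (PM G M) _
  have hK3 : Module.Free ℤ (LinearMap.ker q) := inferInstance
  have hK : FPI (GA G) (LinearMap.ker q) := FPI_free hG (LinearMap.ker q)
  refine FPI.quot (LinearMap.ker q).subtype q (Submodule.injective_subtype _) hq ?_ hK hE
  intro b
  constructor
  · intro hb
    exact ⟨⟨b, hb⟩, rfl⟩
  · rintro ⟨a, rfl⟩
    exact a.2

/-- the torsion submodule -/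
def latB_tors (G : Type) [Group G] (M : Type) [AddCommGroup M] [Module (GA G) M] :
    Submodule (GA G) M where
  carrier := {m | ∃ n : ℤ, n ≠ 0 ∧ n • m = 0}
  zero_mem' := ⟨1, one_ne_zero, smul_zero _⟩
  add_mem' := by
    rintro a b ⟨n, hn, ha⟩ ⟨k, hk, hb⟩
    refine ⟨n * k, mul_ne_zero hn hk, ?_⟩
    rw [smul_add, mul_comm n k, mul_smul, ha, smul_zero, mul_comm k n, mul_smul, hb, smul_zero,
      add_zero]
  smul_mem' := by
    rintro r x ⟨n, hn, hx⟩
    refine ⟨n, hn, ?_⟩
    rw [smul_comm, hx, smul_zero]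

/-- every `G`-module which is finitely generated as an abelian group is FPI -/
theorem FPI_lattice {G : Type} [Group G] (hG : GFP G) (M : Type) [AddCommGroup M]
    [Module (GA G) M] [Module.Finite ℤ M] : FPI (GA G) M := by
  let t : Submodule (GA G) M := latB_tors G M
  have ht1 : Module.Finite ℤ t := latB_sub_finite M t
  have ht2 : Finite t := by
    refine Module.finite_of_fg_torsion t ?_
    rintro ⟨x, n, hn, hx⟩
    exact ⟨⟨n, mem_nonZeroDivisors_of_ne_zero hn⟩, Subtype.ext hx⟩
  let p : M →ₗ[ℤ] (M ⧸ t) := t.mkQ.toAddMonoidHom.toIntLinearMap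
  have hp : Function.Surjective p := Submodule.mkQ_surjective t
  have hq1 : Module.Finite ℤ (M ⧸ t) := Module.Finite.of_surjective p hp
  have hq2 : Module.IsTorsionFree ℤ (M ⧸ t) := by
    rw [Module.isTorsionFree_iff_smul_eq_zero]
    intro n y hny
    by_cases hn : n = 0
    · exact Or.inl hn
    · right
      obtain ⟨x, rfl⟩ := hp y
      have h1 : p (n • x) = 0 := by
        rw [map_smul]
        exact hny
      have h2 : n • x ∈ t := (Submodule.Quotient.mk_eq_zero t).1 h1
      obtain ⟨k, hk, hkx⟩ := h2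
      have h3 : x ∈ t := ⟨k * n, mul_ne_zero hk hn, by rw [mul_smul]; exact hkx⟩
      exact (Submodule.Quotient.mk_eq_zero t).2 h3
  have hq3 : Module.Free ℤ (M ⧸ t) := inferInstance
  refine FPI.ext t.subtype t.mkQ (Submodule.injective_subtype _) (Submodule.mkQ_surjective t) ?_
    (FPI_finite hG t) (FPI_free hG (M ⧸ t))
  intro b
  constructor
  · intro hb
    exact ⟨⟨b, (Submodule.Quotient.mk_eq_zero t).1 hb⟩, rfl⟩
  · rintro ⟨a, rfl⟩
    exact (Submodule.Quotient.mk_eq_zero t).2 a.2

end Tor
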