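import Mathlib
import Pool.Agent.Lib.MP_05cdf2_gt.B.LSub

/-! MP_05cdf2_gt, B-Sp: positive definite real symmetric matrices, symplectic ones, definitions. -/

set_option autoImplicit false

namespace Tor
open Matrix

section
variable {ι : Type} [Fintype ι]

/-- the quadratic form of a matrix -/
def qf (A : Matrix ι ι ℝ) (v : ι → ℝ) : ℝ := v ⬝ᵥ (A *ᵥ v)

/-- an integral vector as a real vector -/
def iv (v : ι → ℤ) : ι → ℝ := fun i => (v i : ℝ)

/-- an integral matrix as a real matrix -/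
def im (g : Matrix ι ι ℤ) : Matrix ι ι ℝ := g.map (Int.cast : ℤ → ℝ)

/-- positive definite symmetric -/
structure PD (A : Matrix ι ι ℝ) : Prop where
  symm : Aᵀ = A
  pos : ∀ v : ι → ℝ, v ≠ 0 → 0 < qf A v

/-- closeness (Thompson metric) -/
def SNear (r : ℝ) (A B : Matrix ι ι ℝ) : Prop :=
  ∀ v : ι → ℝ, qf B v ≤ Real.exp r * qf A v ∧ qf A v ≤ Real.exp r * qf B v

end

/-- index type -/
abbrev Ix (g : ℕ) : Type := Fin g ⊕ Fin g

/-- the real symplectic form -/
noncomputable abbrev JR (g : ℕ) : Matrix (Ix g) (Ix g) ℝ := Matrix.J (Fin g) ℝ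

/-- positive definite symplectic matrices -/
def SpF (g : ℕ) : Type := {A : Matrix (Ix g) (Ix g) ℝ // PD A ∧ A * JR g * A = JR g}

/-- the identity matrix -/
noncomputable instance (g : ℕ) : Nonempty (SpF g) := by
  refine ⟨⟨1, ⟨Matrix.transpose_one, ?_⟩, by simp⟩⟩
  intro v hv
  simp only [qf, Matrix.one_mulVec]
  have h1 : 0 ≤ v ⬝ᵥ v := by
    simp only [dotProduct]
    exact Finset.sum_nonneg fun i _ => mul_self_nonneg (v i)
  have h2 : v ⬝ᵥ v ≠ 0 := by
    intro h
    exact hv (dotProduct_self_eq_zero.1 h)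
  exact lt_of_le_of_ne h1 (Ne.symm h2)

end Tor
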