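import Mathlib
import Pool.Agent.Lib.MP_05cdf2_gt.B.MDef

/-! MP_05cdf2_gt, B-Sp, job MBasic: elementary facts on positive definite matrices and on `SpF g`.

`PD.iff`: `PD A ↔ A.PosDef` (`Matrix.posDef_iff_dotProduct_mulVec`, star is trivial on `ℝ`).
`PD.isUnit`: `(PD.iff.1 h).isUnit`. `PD.inv`: `Matrix.PosDef.inv`. `PD.conj`: `Bᵀ A B` for invertible `B`
(`qf (Bᵀ A B) v = qf A (B v)`).
`PD.cauchy`: `(v ⬝ᵥ A *ᵥ w)^2 ≤ qf A v * qf A w` (discriminant of `t ↦ qf A (v + t w)`, `discrim_le_zero`, or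
`PD.inner` ...). `PD.cauchy'`: `(v ⬝ᵥ w)^2 ≤ qf A v * qf A⁻¹ w`: apply `cauchy` to `v` and `A⁻¹ w`.
`SpF` facts: `A⁻¹ = J A Jᵀ = - J A J` (from `A J A = J`), hence `qf A⁻¹ w = qf A (Jᵀ w)`; `sp_cauchy`:
`(v ⬝ᵥ J w)^2 ≤ qf A v * qf A w`.
`sp_isotropic`: integral `v, w` with `qf A v < 1`, `qf A w < 1`: the integer `v ⬝ᵥ J w` has square `< 1`.
`sp_coord`: `(v i)^2 ≤ qf A v * qf A⁻¹ e_i = qf A v * qf A (Jᵀ e_i)`, and `Jᵀ e_i = ± e_{i'}` (`i' = Sum.swap i`).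
`sp_pull`: for `γ` in the symplectic group over `ℤ` put `A' = (im γ)ᵀ A (im γ)`.
`near` facts: `SNear` is transitive etc.; `near_exists`: for `PD A, PD B`: by `cauchy'` with `e_i`:
`(v i)^2 ≤ qf A v * qf A⁻¹ e_i`, and `qf B v ≤ C * ∑ (v i)^2`, so `qf B v ≤ K qf A v`, `K ≤ exp r`.
-/

set_option autoImplicit false

namespace Tor
open Matrix

section
variable {ι : Type} [Fintype ι] [DecidableEq ι]

theorem PD.iff {A : Matrix ι ι ℝ} : PD A ↔ A.PosDef := by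
  rw [posDef_iff_dotProduct_mulVec]
  constructor
  · rintro ⟨h1, h2⟩
    refine ⟨?_, fun x hx => ?_⟩
    · rw [Matrix.IsHermitian, conjTranspose_eq_transpose_of_trivial]
      exact h1
    · have := h2 x hx
      simpa [qf] using this
  · rintro ⟨h1, h2⟩
    refine ⟨?_, fun x hx => ?_⟩
    · rw [Matrix.IsHermitian, conjTranspose_eq_transpose_of_trivial] at h1
      exact h1
    · have := h2 hx
      simpa [qf] using this

theorem qf_nonneg {A : Matrix ι ι ℝ} (h : PD A) (v : ι → ℝ) : 0 ≤ qf A v := by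
  by_cases hv : v = 0
  · subst hv
    simp [qf]
  · exact (h.pos v hv).le

theorem qf_smul (A : Matrix ι ι ℝ) (t : ℝ) (v : ι → ℝ) : qf A (t • v) = t ^ 2 * qf A v := by
  simp only [qf, mulVec_smul, dotProduct_smul, smul_dotProduct, smul_eq_mul]
  ring

theorem mbasic_move (B : Matrix ι ι ℝ) (v u : ι → ℝ) : v ⬝ᵥ (Bᵀ *ᵥ u) = (B *ᵥ v) ⬝ᵥ u := by
  rw [dotProduct_mulVec, vecMul_transpose]

theorem qf_conj (A B : Matrix ι ι ℝ) (v : ι → ℝ) : qf (Bᵀ * A * B) v = qf A (B *ᵥ v) := by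
  unfold qf
  rw [← mulVec_mulVec, ← mulVec_mulVec, mbasic_move]

theorem mbasic_comm {A : Matrix ι ι ℝ} (hA : Aᵀ = A) (v w : ι → ℝ) :
    w ⬝ᵥ (A *ᵥ v) = v ⬝ᵥ (A *ᵥ w) := by
  conv_lhs => rw [← hA]
  rw [mbasic_move, dotProduct_comm]

theorem mbasic_add {A : Matrix ι ι ℝ} (hA : Aᵀ = A) (v w : ι → ℝ) :
    qf A (v + w) = qf A v + 2 * (v ⬝ᵥ (A *ᵥ w)) + qf A w := by
  unfold qf
  rw [mulVec_add, dotProduct_add, add_dotProduct, add_dotProduct, mbasic_comm hA v w]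
  ring

theorem mbasic_entry (A : Matrix ι ι ℝ) (i j : ι) :
    Pi.single i 1 ⬝ᵥ (A *ᵥ Pi.single j 1) = A i j := by
  simp

/-- a symmetric matrix is determined by its quadratic form -/
theorem eq_of_qf {A B : Matrix ι ι ℝ} (hA : Aᵀ = A) (hB : Bᵀ = B) (h : ∀ v, qf A v = qf B v) :
    A = B := by
  ext i j
  have h1 := mbasic_add hA (Pi.single i 1) (Pi.single j 1)
  have h2 := mbasic_add hB (Pi.single i 1) (Pi.single j 1)
  rw [h, h, h, h2, mbasic_entry, mbasic_entry] at h1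
  linarith

theorem PD.isUnit {A : Matrix ι ι ℝ} (h : PD A) : IsUnit A := (PD.iff.1 h).isUnit

theorem PD.inv {A : Matrix ι ι ℝ} (h : PD A) : PD A⁻¹ := PD.iff.2 (PD.iff.1 h).inv

theorem PD.conj {A B : Matrix ι ι ℝ} (h : PD A) (hB : IsUnit B) : PD (Bᵀ * A * B) := by
  refine ⟨?_, fun v hv => ?_⟩
  · rw [transpose_mul, transpose_mul, transpose_transpose, h.symm, mul_assoc]
  · rw [qf_conj]
    apply h.pos
    intro h0
    apply hv
    apply mulVec_injective_of_isUnit hB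
    rw [h0, mulVec_zero]

theorem mbasic_qf_add (A B : Matrix ι ι ℝ) (v : ι → ℝ) : qf (A + B) v = qf A v + qf B v := by
  unfold qf
  rw [add_mulVec, dotProduct_add]

theorem PD.add {A B : Matrix ι ι ℝ} (hA : PD A) (hB : Bᵀ = B) (hB' : ∀ v, 0 ≤ qf B v) :
    PD (A + B) := by
  refine ⟨?_, fun v hv => ?_⟩
  · rw [transpose_add, hA.symm, hB]
  · rw [mbasic_qf_add]
    have := hA.pos v hv
    have := hB' v
    linarith

theorem PD.cauchy {A : Matrix ι ι ℝ} (h : PD A) (v w : ι → ℝ) :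
    (v ⬝ᵥ (A *ᵥ w)) ^ 2 ≤ qf A v * qf A w := by
  have h1 : ∀ t : ℝ, 0 ≤ qf A v * (t * t) + (2 * (v ⬝ᵥ (A *ᵥ w))) * t + qf A w := by
    intro t
    have h2 := qf_nonneg h (t • v + w)
    rw [mbasic_add h.symm, qf_smul, smul_dotProduct, smul_eq_mul] at h2
    linarith
  have h3 := discrim_le_zero h1
  unfold discrim at h3
  linarith

theorem mbasic_qf_inv {A : Matrix ι ι ℝ} (h : PD A) (w : ι → ℝ) :
    qf A (A⁻¹ *ᵥ w) = qf A⁻¹ w := by
  have hu : IsUnit A.det := (Matrix.isUnit_iff_isUnit_det A).1 h.isUnit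
  unfold qf
  rw [mulVec_mulVec, mul_nonsing_inv A hu, one_mulVec, dotProduct_comm]

theorem PD.cauchy' {A : Matrix ι ι ℝ} (h : PD A) (v w : ι → ℝ) :
    (v ⬝ᵥ w) ^ 2 ≤ qf A v * qf A⁻¹ w := by
  have hu : IsUnit A.det := (Matrix.isUnit_iff_isUnit_det A).1 h.isUnit
  have h1 := h.cauchy v (A⁻¹ *ᵥ w)
  rw [mbasic_qf_inv h, mulVec_mulVec, mul_nonsing_inv A hu, one_mulVec] at h1
  exact h1

theorem near_refl (A : Matrix ι ι ℝ) : SNear 0 A A := by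
  intro v
  simp

theorem near_symm {r : ℝ} {A B : Matrix ι ι ℝ} (h : SNear r A B) : SNear r B A :=
  fun v => ⟨(h v).2, (h v).1⟩

theorem near_mono {r s : ℝ} {A B : Matrix ι ι ℝ} (hA : PD A) (hB : PD B) (hrs : r ≤ s)
    (h : SNear r A B) : SNear s A B := by
  intro v
  have h1 : Real.exp r ≤ Real.exp s := Real.exp_le_exp.2 hrs
  exact ⟨(h v).1.trans (mul_le_mul_of_nonneg_right h1 (qf_nonneg hA v)),
    (h v).2.trans (mul_le_mul_of_nonneg_right h1 (qf_nonneg hB v))⟩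

theorem near_trans {r s : ℝ} {A B C : Matrix ι ι ℝ} (h : SNear r A B) (h' : SNear s B C) :
    SNear (r + s) A C := by
  intro v
  rw [Real.exp_add]
  constructor
  · calc qf C v ≤ Real.exp s * qf B v := (h' v).1
      _ ≤ Real.exp s * (Real.exp r * qf A v) :=
        mul_le_mul_of_nonneg_left (h v).1 (Real.exp_pos s).le
      _ = Real.exp r * Real.exp s * qf A v := by ring
  · calc qf A v ≤ Real.exp r * qf B v := (h v).2
      _ ≤ Real.exp r * (Real.exp s * qf C v) :=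
        mul_le_mul_of_nonneg_left (h' v).2 (Real.exp_pos r).le
      _ = Real.exp r * Real.exp s * qf C v := by ring

theorem mbasic_sq_le {A : Matrix ι ι ℝ} (h : PD A) (v : ι → ℝ) (i : ι) :
    (v i) ^ 2 ≤ qf A v * qf A⁻¹ (Pi.single i 1) := by
  have h1 := h.cauchy' v (Pi.single i 1)
  simpa using h1

theorem mbasic_qf_sum (B : Matrix ι ι ℝ) (v : ι → ℝ) :
    qf B v = ∑ i, ∑ j, v i * (B i j * v j) := by
  simp only [qf, dotProduct, mulVec, Finset.mul_sum]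

theorem mbasic_one {A : Matrix ι ι ℝ} (B : Matrix ι ι ℝ) (hA : PD A) :
    ∃ K : ℝ, ∀ v, qf B v ≤ K * qf A v := by
  refine ⟨∑ i, ∑ j, |B i j| * ((qf A⁻¹ (Pi.single i 1) + qf A⁻¹ (Pi.single j 1)) / 2),
    fun v => ?_⟩
  rw [mbasic_qf_sum, Finset.sum_mul]
  apply Finset.sum_le_sum
  intro i _
  rw [Finset.sum_mul]
  apply Finset.sum_le_sum
  intro j _
  have h1 := mbasic_sq_le hA v i
  have h2 := mbasic_sq_le hA v j
  have h3 : v i * (B i j * v j) ≤ |B i j| * (((v i) ^ 2 + (v j) ^ 2) / 2) := by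
    have h4 : v i * (B i j * v j) ≤ |B i j| * |v i * v j| := by
      rw [← abs_mul]
      have : v i * (B i j * v j) = B i j * (v i * v j) := by ring
      rw [this]
      exact le_abs_self _
    have h5 : |v i * v j| ≤ ((v i) ^ 2 + (v j) ^ 2) / 2 := by
      rw [abs_le]
      constructor
      · nlinarith [sq_nonneg (v i + v j)]
      · nlinarith [sq_nonneg (v i - v j)]
    exact h4.trans (mul_le_mul_of_nonneg_left h5 (abs_nonneg _))
  calc v i * (B i j * v j) ≤ |B i j| * (((v i) ^ 2 + (v j) ^ 2) / 2) := h3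
    _ ≤ |B i j| * ((qf A v * qf A⁻¹ (Pi.single i 1) + qf A v * qf A⁻¹ (Pi.single j 1)) / 2) := by
      apply mul_le_mul_of_nonneg_left _ (abs_nonneg _)
      linarith
    _ = |B i j| * ((qf A⁻¹ (Pi.single i 1) + qf A⁻¹ (Pi.single j 1)) / 2) * qf A v := by ring

theorem near_exists {A B : Matrix ι ι ℝ} (hA : PD A) (hB : PD B) : ∃ r : ℝ, SNear r A B := by
  obtain ⟨K₁, h1⟩ := mbasic_one B hA
  obtain ⟨K₂, h2⟩ := mbasic_one A hB
  have hK : 0 < max (max K₁ K₂) 1 := lt_of_lt_of_le one_pos (le_max_right _ _)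
  refine ⟨Real.log (max (max K₁ K₂) 1), fun v => ?_⟩
  rw [Real.exp_log hK]
  constructor
  · refine (h1 v).trans (mul_le_mul_of_nonneg_right ?_ (qf_nonneg hA v))
    exact (le_max_left _ _).trans (le_max_left _ _)
  · refine (h2 v).trans (mul_le_mul_of_nonneg_right ?_ (qf_nonneg hB v))
    exact (le_max_right _ _).trans (le_max_left _ _)

end

section
variable {g : ℕ}

theorem mbasic_JJ : JR g * JR g = -1 := J_squared (Fin g) ℝ

theorem mbasic_Jt : (JR g)ᵀ = -JR g := J_transpose (Fin g) ℝ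

theorem mbasic_JtJ : (JR g)ᵀ * JR g = 1 := by
  rw [mbasic_Jt, neg_mul, mbasic_JJ, neg_neg]

theorem sp_inv (A : SpF g) : (A.1)⁻¹ = JR g * A.1 * (JR g)ᵀ := by
  apply Matrix.inv_eq_left_inv
  rw [mbasic_Jt]
  have h := A.2.2
  calc JR g * A.1 * -JR g * A.1 = -(JR g * (A.1 * JR g * A.1)) := by
        simp only [mul_neg, neg_mul, mul_assoc]
    _ = 1 := by rw [h, mbasic_JJ, neg_neg]

theorem sp_inv_qf (A : SpF g) (w : Ix g → ℝ) : qf (A.1)⁻¹ w = qf A.1 ((JR g)ᵀ *ᵥ w) := by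
  rw [sp_inv, ← qf_conj, transpose_transpose]

theorem sp_cauchy (A : SpF g) (v w : Ix g → ℝ) :
    (v ⬝ᵥ (JR g *ᵥ w)) ^ 2 ≤ qf A.1 v * qf A.1 w := by
  have h := A.2.1.cauchy' v (JR g *ᵥ w)
  rw [sp_inv_qf, mulVec_mulVec, mbasic_JtJ, one_mulVec] at h
  exact h

theorem im_mulVec (γ : Matrix (Ix g) (Ix g) ℤ) (v : Ix g → ℤ) : im γ *ᵥ iv v = iv (γ *ᵥ v) := by
  ext i
  simp [im, iv, mulVec, dotProduct]

theorem mbasic_imJ : im (J (Fin g) ℤ) = JR g := by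
  ext i j
  rcases i with i | i <;> rcases j with j | j <;> simp [im, J, Matrix.one_apply]

theorem sp_isotropic (A : SpF g) (v w : Ix g → ℤ) (hv : qf A.1 (iv v) < 1)
    (hw : qf A.1 (iv w) < 1) : iv v ⬝ᵥ (JR g *ᵥ iv w) = 0 := by
  have h1 := sp_cauchy A (iv v) (iv w)
  have h2 : iv v ⬝ᵥ (JR g *ᵥ iv w) = ((v ⬝ᵥ (J (Fin g) ℤ *ᵥ w) : ℤ) : ℝ) := by
    rw [← mbasic_imJ, im_mulVec]
    simp [iv, dotProduct]
  rw [h2] at h1 ⊢
  have h3 := qf_nonneg A.2.1 (iv v)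
  have h4 := qf_nonneg A.2.1 (iv w)
  have h5 : (((v ⬝ᵥ (J (Fin g) ℤ *ᵥ w)) ^ 2 : ℤ) : ℝ) < ((1 : ℤ) : ℝ) := by
    push_cast
    have h6 : qf A.1 (iv v) * qf A.1 (iv w) < 1 := by nlinarith
    linarith
  have h7 : (v ⬝ᵥ (J (Fin g) ℤ *ᵥ w)) ^ 2 < 1 := by exact_mod_cast h5
  have h8 : v ⬝ᵥ (J (Fin g) ℤ *ᵥ w) = 0 := by
    have h9 : (v ⬝ᵥ (J (Fin g) ℤ *ᵥ w)) ^ 2 = 0 := by
      have := sq_nonneg (v ⬝ᵥ (J (Fin g) ℤ *ᵥ w))
      omega
    exact pow_eq_zero_iff two_ne_zero |>.1 h9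
  rw [h8]
  simp

theorem mbasic_Jsingle (A : Matrix (Ix g) (Ix g) ℝ) (i : Ix g) :
    ∃ j, qf A ((JR g)ᵀ *ᵥ Pi.single i 1) = qf A (Pi.single j 1) := by
  have hneg : ∀ v : Ix g → ℝ, qf A (-v) = qf A v := by
    intro v
    have := qf_smul A (-1) v
    simpa using this
  rcases i with i | i
  · refine ⟨Sum.inr i, ?_⟩
    have : (JR g)ᵀ *ᵥ Pi.single (Sum.inl i) 1 = -Pi.single (Sum.inr i) 1 := by
      ext j
      rcases j with j | j <;> simp [J, Matrix.one_apply, Pi.single_apply, eq_comm]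
    rw [this, hneg]
  · refine ⟨Sum.inl i, ?_⟩
    have : (JR g)ᵀ *ᵥ Pi.single (Sum.inr i) 1 = Pi.single (Sum.inl i) 1 := by
      ext j
      rcases j with j | j <;> simp [J, Matrix.one_apply, Pi.single_apply, eq_comm]
    rw [this]

theorem sp_coord (A : SpF g) (c : ℝ) (hc : ∀ i, qf A.1 (Pi.single i 1) < c) (v : Ix g → ℝ)
    (i : Ix g) : (v i) ^ 2 ≤ c * qf A.1 v := by
  have h1 := mbasic_sq_le A.2.1 v i
  rw [sp_inv_qf] at h1
  obtain ⟨j, hj⟩ := mbasic_Jsingle A.1 i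
  rw [hj] at h1
  have h2 := hc j
  have h3 := qf_nonneg A.2.1 v
  calc (v i) ^ 2 ≤ qf A.1 v * qf A.1 (Pi.single j 1) := h1
    _ ≤ qf A.1 v * c := mul_le_mul_of_nonneg_left h2.le h3
    _ = c * qf A.1 v := mul_comm _ _

/-- nonzero integral vectors are not short if the basis vectors are not long -/
theorem sp_not_short (A : SpF g) (c : ℝ) (hc : ∀ i, qf A.1 (Pi.single i 1) < c) (v : Ix g → ℤ)
    (hv : v ≠ 0) : 1 ≤ c * qf A.1 (iv v) := by
  obtain ⟨i, hi⟩ : ∃ i, v i ≠ 0 := by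
    by_contra h
    push Not at h
    exact hv (funext h)
  have h1 := sp_coord A c hc (iv v) i
  have h2 : (1 : ℝ) ≤ (iv v i) ^ 2 := by
    have h3 : (1 : ℤ) ≤ (v i) ^ 2 := by
      have := sq_nonneg (v i)
      have h4 : (v i) ^ 2 ≠ 0 := pow_ne_zero 2 hi
      omega
    have h5 : ((1 : ℤ) : ℝ) ≤ (((v i) ^ 2 : ℤ) : ℝ) := by exact_mod_cast h3
    simpa [iv] using h5
  linarith

theorem mbasic_im_mul (γ δ : Matrix (Ix g) (Ix g) ℤ) : im (γ * δ) = im γ * im δ := by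
  ext i j
  simp [im, Matrix.mul_apply]

theorem mbasic_im_one : im (1 : Matrix (Ix g) (Ix g) ℤ) = 1 := by
  ext i j
  simp [im, Matrix.one_apply]

theorem mbasic_im_transpose (γ : Matrix (Ix g) (Ix g) ℤ) : im γᵀ = (im γ)ᵀ := by
  ext i j
  simp [im]

theorem mbasic_im_unit (γ : symplecticGroup (Fin g) ℤ) : IsUnit (im γ.1) := by
  have h1 : γ.1 * (γ⁻¹).1 = 1 := congrArg Subtype.val (mul_inv_cancel γ)
  have h2 : (γ⁻¹).1 * γ.1 = 1 := congrArg Subtype.val (inv_mul_cancel γ)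
  refine ⟨⟨im γ.1, im (γ⁻¹).1, ?_, ?_⟩, rfl⟩
  · rw [← mbasic_im_mul, h1, mbasic_im_one]
  · rw [← mbasic_im_mul, h2, mbasic_im_one]

/-- pull back by a symplectic matrix -/
theorem sp_pull (A : SpF g) (γ : symplecticGroup (Fin g) ℤ) :
    ∃ A' : SpF g, ∀ v, qf A'.1 v = qf A.1 (im γ.1 *ᵥ v) := by
  have h1 : im γ.1 * JR g * (im γ.1)ᵀ = JR g := by
    have h := SymplecticGroup.mem_iff.1 γ.2
    rw [← mbasic_imJ, ← mbasic_im_transpose, ← mbasic_im_mul, ← mbasic_im_mul, h]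
  have h2 : (im γ.1)ᵀ * JR g * im γ.1 = JR g := by
    have h := SymplecticGroup.mem_iff'.1 γ.2
    rw [← mbasic_imJ, ← mbasic_im_transpose, ← mbasic_im_mul, ← mbasic_im_mul, h]
  refine ⟨⟨(im γ.1)ᵀ * A.1 * im γ.1, A.2.1.conj (mbasic_im_unit γ), ?_⟩, fun v => qf_conj _ _ _⟩
  calc (im γ.1)ᵀ * A.1 * im γ.1 * JR g * ((im γ.1)ᵀ * A.1 * im γ.1)
      = (im γ.1)ᵀ * (A.1 * (im γ.1 * JR g * (im γ.1)ᵀ) * A.1) * im γ.1 := by
        simp only [mul_assoc]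
    _ = JR g := by rw [h1, A.2.2, h2]

end

end Tor
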