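import Mathlib

/-! MP_05cdf2_gt, B-Sp, job MPrim: a primitive integral vector is the first column of a unimodular matrix.

Proof: strong induction on `∑ |v i|` (natural number `∑ (v i).natAbs`). If two entries `v i`, `v j` are nonzero, say
`|v i| ≥ |v j| > 0`, let `v' = v - (v i / v j) e_i v j` (Euclidean division, `v' i = v i % v j`), which has smaller sum
and is again primitive; `v = E v'` with `E` a transvection (`Matrix.transvection i j c`, determinant one,
`Matrix.det_transvection_of_ne`), so the columns of `E * b'` work. If exactly one entry `v i` is nonzero then it is `± 1` by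
primitivity: take a permutation matrix (swap `0` and `i`, `Equiv.Perm.permMatrix`/`Matrix.det_permutation`) times a
diagonal sign matrix. `v = 0` is not primitive (`d = 0` or `d = 2`). Alternatively: `ℤ^(n+1) ⧸ ℤ v` is finitely generated and torsion
free, hence free, and a basis of it together with `v` is a basis.
-/

set_option autoImplicit false

namespace Tor
open Matrix

theorem mprim_single {n : ℕ} (v : Fin (n + 1) → ℤ) (i : Fin (n + 1)) (hi : IsUnit (v i))
    (h0 : ∀ j, j ≠ i → v j = 0) :
    ∃ b : Matrix (Fin (n + 1)) (Fin (n + 1)) ℤ, IsUnit b.det ∧ ∀ i, b i 0 = v i := by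
  refine ⟨Matrix.diagonal (fun k => if k = i then v i else 1) *
    (Equiv.swap (0 : Fin (n + 1)) i).permMatrix ℤ, ?_, ?_⟩
  · rw [Matrix.det_mul, Matrix.det_diagonal, Finset.prod_ite_eq']
    simp only [Finset.mem_univ, if_true]
    refine hi.mul ?_
    rw [Matrix.det_permutation]
    exact (Units.isUnit _)
  · intro k
    rw [Matrix.diagonal_mul]
    by_cases hk : k = i
    · subst hk
      simp [Equiv.Perm.permMatrix, PEquiv.toMatrix_apply]
    · rw [h0 k hk, if_neg hk, one_mul]
      simp only [Equiv.Perm.permMatrix, PEquiv.toMatrix_apply, Equiv.toPEquiv_apply, Option.mem_def,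
        Option.some.injEq]
      rw [if_neg]
      intro h
      apply hk
      have : Equiv.swap 0 i (Equiv.swap 0 i k) = Equiv.swap 0 i 0 := by rw [h]
      simpa using this

theorem mprim_aux {n : ℕ} : ∀ (N : ℕ) (v : Fin (n + 1) → ℤ), (∑ i, (v i).natAbs) = N →
    (∀ d : ℤ, (∀ i, d ∣ v i) → IsUnit d) →
    ∃ b : Matrix (Fin (n + 1)) (Fin (n + 1)) ℤ, IsUnit b.det ∧ ∀ i, b i 0 = v i := by
  intro N
  induction N using Nat.strong_induction_on with
  | _ N ih =>
    intro v hN hv
    by_cases hex : ∃ i j, i ≠ j ∧ v j ≠ 0 ∧ (v j).natAbs ≤ (v i).natAbs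
    · obtain ⟨i, j, hij, hj, hle⟩ := hex
      set v' : Fin (n + 1) → ℤ := Function.update v i (v i % v j) with hv'
      have hlt : (v i % v j).natAbs < (v i).natAbs := by
        have h1 : 0 ≤ v i % v j := Int.emod_nonneg _ hj
        have h2 : v i % v j < |v j| := Int.emod_lt_abs _ hj
        have h3 : |v j| = ((v j).natAbs : ℤ) := Int.abs_eq_natAbs _
        omega
      have hsum : (∑ k, (v' k).natAbs) < N := by
        rw [← hN]
        apply Finset.sum_lt_sum
        · intro k _
          by_cases hk : k = i
          · subst hk; simp only [hv', Function.update_self]; exact hlt.le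
          · simp only [hv', Function.update_of_ne hk]; exact le_rfl
        · exact ⟨i, Finset.mem_univ _, by simp only [hv', Function.update_self]; exact hlt⟩
      have hvj : v' j = v j := by simp only [hv', Function.update_of_ne hij.symm]
      have hprim : ∀ d : ℤ, (∀ i, d ∣ v' i) → IsUnit d := by
        intro d hd
        apply hv
        intro k
        by_cases hk : k = i
        · subst hk
          have h1 := hd k
          simp only [hv', Function.update_self] at h1
          have h2 := hd j
          rw [hvj] at h2
          have h3 : v k = v k % v j + v j * (v k / v j) := (Int.emod_add_mul_ediv _ _).symm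
          rw [h3]
          exact dvd_add h1 (h2.mul_right _)
        · have h1 := hd k
          simpa only [hv', Function.update_of_ne hk] using h1
      obtain ⟨b, hb, hb0⟩ := ih _ hsum v' rfl hprim
      refine ⟨Matrix.transvection i j (v i / v j) * b, ?_, ?_⟩
      · rw [Matrix.det_mul, Matrix.det_transvection_of_ne i j hij, one_mul]
        exact hb
      · intro k
        by_cases hk : k = i
        · subst hk
          rw [Matrix.transvection_mul_apply_same, hb0, hb0, hvj]
          simp only [hv', Function.update_self]
          have h3 : v k = v k % v j + v j * (v k / v j) := (Int.emod_add_mul_ediv _ _).symm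
          rw [mul_comm (v k / v j)]
          exact h3.symm
        · rw [Matrix.transvection_mul_apply_of_ne _ _ _ _ hk, hb0]
          simp only [hv', Function.update_of_ne hk]
    · push Not at hex
      have hne : ∃ i, v i ≠ 0 := by
        by_contra hcon
        push Not at hcon
        have := hv 2 (fun i => by rw [hcon i]; exact dvd_zero _)
        rw [Int.isUnit_iff] at this
        omega
      obtain ⟨i, hi⟩ := hne
      have h0 : ∀ j, j ≠ i → v j = 0 := by
        intro j hj
        by_contra hj0
        have h1 := hex i j hj.symm hj0
        have h2 := hex j i hj hi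
        omega
      refine mprim_single v i (hv _ ?_) h0
      intro k
      by_cases hk : k = i
      · rw [hk]
      · rw [h0 k hk]; exact dvd_zero _

theorem prim_ext {n : ℕ} (v : Fin (n + 1) → ℤ) (hv : ∀ d : ℤ, (∀ i, d ∣ v i) → IsUnit d) :
    ∃ b : Matrix (Fin (n + 1)) (Fin (n + 1)) ℤ, IsUnit b.det ∧ ∀ i, b i 0 = v i :=
  mprim_aux _ v rfl hv

end Tor
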