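import Mathlib
import Pool.Agent.Lib.MP_05cdf2_gt.B.MBasic
import Pool.Agent.Lib.MP_05cdf2_gt.B.MPrim

/-! MP_05cdf2_gt, B-Sp, job MBas: reduction theory: a lattice without short vectors and without short dual
vectors has a bounded basis.

`DualB μ A`: for every integral `φ ≠ 0` there is a real `x` with `φ·x ≠ 0` and `μ qf A x ≤ (φ·x)²` (this says
`qf A⁻¹ φ ≥ μ`).

Proof of `bounded_basis`, induction on `n` (`n = 0` trivial). Let `A` of size `n + 1`.
1. There is an integral `v₀ ≠ 0` with `qf A v₀ = a` minimal: the set `{v | qf A (iv v) ≤ K}` is finite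
   (`PD.cauchy'` with `w = e_i` bounds the coordinates). `v₀` is primitive: if `v₀ = d w` with `d` not a unit, `d ≠ 0`,
   `qf A w = a / d² < a`, `w ≠ 0`.
2. `prim_ext`: `b₀` with first column `v₀`. Replace `A` by `A₁ = (im b₀)ᵀ A (im b₀)`: again PD, same hypotheses
   (`qf_conj`, `b₀ v ≠ 0` for `v ≠ 0`; for `DualB`: apply it to `(b₀ᵀ)⁻¹ φ` and take `(im b₀)⁻¹ x`); a basis `b` for `A₁` gives the
   basis `b₀ b` for `A`. So suppose `A 0 0 = a ≤ qf A (iv v)` for all integral `v ≠ 0`; `a ≥ μ`.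
3. Schur complement `S i j = A i.succ j.succ - A i.succ 0 * A 0 j.succ / a`, `β y = ∑ j, A 0 j.succ * y j`:
   `qf A (Fin.cons t y) = a (t + β y / a)² + qf S y`. So `S` is PD (`t = - β y / a`) and `qf S y ≤ qf A (Fin.cons t y)`.
4. integral `y ≠ 0`: with `t = round (- β y / a)`: `a ≤ a/4 + qf S y`, `qf S y ≥ (3/4) a ≥ (3/4) μ`.
5. `DualB (3μ/4) S`: for `φ ≠ 0` apply `DualB μ A` to `Fin.cons 0 φ`.
6. induction hypothesis for `3μ/4`: `b'` with `qf S (columns) ≤ C'`.
7. `b` = matrix with first column `e_0` and columns `(t_i, b'_i)`, `t_i = round (- β b'_i / a)`: determinant `det b'`, and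
   `qf A ≤ a/4 + C'`.
8. bound for `a`: if `n ≥ 1`, `a ≤ (4/3) qf S (b'_0) ≤ (4/3) C'` (`b'_0 ≠ 0` as the determinant is a unit). If `n = 0`: `DualB` with
   `φ = 1`: `μ a x² ≤ x²`, `x ≠ 0`, so `a ≤ 1/μ`. So `C = (4/3) |C'| + 1/μ + |C'|` works.
-/

set_option autoImplicit false

namespace Tor
open Matrix

/-- no short dual vectors -/
def DualB {ι : Type} [Fintype ι] (μ : ℝ) (A : Matrix ι ι ℝ) : Prop :=
  ∀ φ : ι → ℤ, φ ≠ 0 → ∃ x : ι → ℝ, iv φ ⬝ᵥ x ≠ 0 ∧ μ * qf A x ≤ (iv φ ⬝ᵥ x) ^ 2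

/-- finitely many short integral vectors -/
theorem short_finite {ι : Type} [Fintype ι] [DecidableEq ι] {A : Matrix ι ι ℝ} (hA : PD A) (K : ℝ) :
    {v : ι → ℤ | qf A (iv v) ≤ K}.Finite := by
  set M : ℝ := |K| * ∑ i, qf A⁻¹ (Pi.single i 1) with hM
  refine Set.Finite.subset (Set.finite_Icc (fun _ : ι => -⌈M⌉) (fun _ : ι => ⌈M⌉)) ?_
  intro v hv
  have hv : qf A (iv v) ≤ K := hv
  have h1 : ∀ i, |v i| ≤ ⌈M⌉ := by
    intro i
    have h2 := hA.cauchy' (iv v) (Pi.single i 1)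
    have h3 : iv v ⬝ᵥ Pi.single i (1 : ℝ) = (v i : ℝ) := by simp [iv]
    rw [h3] at h2
    have h4 : qf A⁻¹ (Pi.single i 1) ≤ ∑ i, qf A⁻¹ (Pi.single i 1) :=
      Finset.single_le_sum (f := fun i => qf A⁻¹ (Pi.single i 1))
        (fun i _ => qf_nonneg hA.inv _) (Finset.mem_univ i)
    have h5 : (v i : ℝ) ^ 2 ≤ M := by
      refine h2.trans ?_
      exact mul_le_mul (hv.trans (le_abs_self K)) h4 (qf_nonneg hA.inv _) (abs_nonneg K)
    have h6 : |v i| ≤ (v i) ^ 2 := by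
      rcases eq_or_ne (v i) 0 with h | h
      · rw [h]; simp
      · have h7 : 1 ≤ |v i| := Int.one_le_abs h
        rw [← sq_abs]
        nlinarith
    have h7 : (|v i| : ℝ) ≤ M := by
      refine le_trans ?_ h5
      exact_mod_cast h6
    have h8 : ((|v i| : ℤ) : ℝ) ≤ (⌈M⌉ : ℝ) := by
      push_cast
      exact h7.trans (Int.le_ceil M)
    exact_mod_cast h8
  exact ⟨fun i => (abs_le.1 (h1 i)).1, fun i => (abs_le.1 (h1 i)).2⟩

theorem mbas_qf_succ {n : ℕ} {A : Matrix (Fin (n + 1)) (Fin (n + 1)) ℝ} (hs : Aᵀ = A) (t : ℝ)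
    (y : Fin n → ℝ) : qf A (Fin.cons t y : Fin (n + 1) → ℝ) = A 0 0 * t ^ 2 +
      2 * t * (∑ j, A 0 j.succ * y j) + ∑ i : Fin n, ∑ j : Fin n, y i * (A i.succ j.succ * y j) := by
  have h1 : ∀ i : Fin n, A i.succ 0 = A 0 i.succ := fun i => congrFun (congrFun hs 0) i.succ
  simp only [qf, dotProduct, Matrix.mulVec, Fin.sum_univ_succ, Fin.cons_zero, Fin.cons_succ, h1]
  have h2 : ∑ i : Fin n, y i * (A 0 i.succ * t + ∑ j : Fin n, A i.succ j.succ * y j)
      = t * (∑ j, A 0 j.succ * y j) + ∑ i : Fin n, ∑ j : Fin n, y i * (A i.succ j.succ * y j) := by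
    rw [Finset.mul_sum, ← Finset.sum_add_distrib]
    refine Finset.sum_congr rfl fun i _ => ?_
    rw [mul_add, Finset.mul_sum]
    ring
  rw [h2]
  ring

theorem schur {n : ℕ} {A : Matrix (Fin (n + 1)) (Fin (n + 1)) ℝ} (hA : PD A) :
    ∃ (S : Matrix (Fin n) (Fin n) ℝ) (β : (Fin n → ℝ) → ℝ), PD S ∧
      ∀ (t : ℝ) (y : Fin n → ℝ), qf A (Fin.cons t y : Fin (n + 1) → ℝ) =
        A 0 0 * (t + β y / A 0 0) ^ 2 + qf S y := by
  have hs := hA.symm
  have h1 : ∀ i : Fin n, A i.succ 0 = A 0 i.succ := fun i => congrFun (congrFun hs 0) i.succ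
  have ha : 0 < A 0 0 := by
    have h := hA.pos (Pi.single 0 1) (by
      intro h
      have := congrFun h 0
      simp at this)
    simpa [qf] using h
  have hne : A 0 0 ≠ 0 := ha.ne'
  have key : ∀ (t : ℝ) (y : Fin n → ℝ), qf A (Fin.cons t y : Fin (n + 1) → ℝ) =
        A 0 0 * (t + (∑ j, A 0 j.succ * y j) / A 0 0) ^ 2 +
        qf (Matrix.of fun i j : Fin n => A i.succ j.succ - A 0 i.succ * A 0 j.succ / A 0 0) y := by
    intro t y
    rw [mbas_qf_succ hs]
    have h2 : qf (Matrix.of fun i j : Fin n => A i.succ j.succ - A 0 i.succ * A 0 j.succ / A 0 0) y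
        = (∑ i : Fin n, ∑ j : Fin n, y i * (A i.succ j.succ * y j)) -
          (∑ j, A 0 j.succ * y j) ^ 2 / A 0 0 := by
      rw [sq, Finset.sum_mul_sum, Finset.sum_div, ← Finset.sum_sub_distrib]
      simp only [qf, dotProduct, Matrix.mulVec, Matrix.of_apply]
      refine Finset.sum_congr rfl fun i _ => ?_
      rw [Finset.mul_sum, Finset.sum_div, ← Finset.sum_sub_distrib]
      refine Finset.sum_congr rfl fun j _ => ?_
      ring
    rw [h2]
    field_simp
    ring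
  refine ⟨_, fun y => ∑ j, A 0 j.succ * y j, ⟨?_, ?_⟩, key⟩
  · ext i j
    simp only [Matrix.transpose_apply, Matrix.of_apply]
    have h3 : A j.succ i.succ = A i.succ j.succ := congrFun (congrFun hs i.succ) j.succ
    rw [h3]
    ring
  · intro y hy
    have h4 := key (-((∑ j, A 0 j.succ * y j) / A 0 0)) y
    have h5 : 0 < qf A (Fin.cons (-((∑ j, A 0 j.succ * y j) / A 0 0)) y : Fin (n + 1) → ℝ) := by
      apply hA.pos
      intro h
      apply hy
      funext i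
      have := congrFun h i.succ
      simpa using this
    rw [h4] at h5
    simpa using h5

theorem mbas_iv_cons {n : ℕ} (t : ℤ) (y : Fin n → ℤ) :
    iv (Fin.cons t y : Fin (n + 1) → ℤ) = (Fin.cons (t : ℝ) (iv y) : Fin (n + 1) → ℝ) := by
  funext i
  refine Fin.cases ?_ (fun i => ?_) i
  · simp [iv]
  · simp [iv]

theorem mbas_round (a x : ℝ) (ha : 0 < a) : a * (((round (-x) : ℤ) : ℝ) + x) ^ 2 ≤ a / 4 := by
  have h := abs_sub_round (-x)
  have h2 : (((round (-x) : ℤ) : ℝ) + x) ^ 2 ≤ 1 / 4 := by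
    have h3 : |(((round (-x) : ℤ) : ℝ) + x)| ≤ 1 / 2 := by
      rw [← abs_neg]
      have : -(((round (-x) : ℤ) : ℝ) + x) = -x - (round (-x) : ℤ) := by ring
      rw [this]
      exact h
    rw [← sq_abs]
    have h4 := abs_nonneg (((round (-x) : ℤ) : ℝ) + x)
    nlinarith
  nlinarith

/-- the step: the first basis vector is a minimal vector -/
theorem bounded_step {n : ℕ} (μ C' : ℝ) (hμ : 0 < μ)
    (ih : ∀ S : Matrix (Fin n) (Fin n) ℝ, PD S →
      (∀ v : Fin n → ℤ, v ≠ 0 → 3 * μ / 4 ≤ qf S (iv v)) → DualB (3 * μ / 4) S →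
      ∃ b : Matrix (Fin n) (Fin n) ℤ, IsUnit b.det ∧ ∀ i, qf S (iv (fun j => b j i)) ≤ C')
    (A : Matrix (Fin (n + 1)) (Fin (n + 1)) ℝ) (hA : PD A) (h0 : μ ≤ A 0 0)
    (hmin : ∀ v : Fin (n + 1) → ℤ, v ≠ 0 → A 0 0 ≤ qf A (iv v)) (hd : DualB μ A) :
    ∃ b : Matrix (Fin (n + 1)) (Fin (n + 1)) ℤ, IsUnit b.det ∧
      ∀ i, qf A (iv (fun j => b j i)) ≤ 4 / 3 * |C'| + 1 / μ + |C'| := by
  obtain ⟨S, β, hS, hq⟩ := schur hA
  have ha : 0 < A 0 0 := lt_of_lt_of_le hμ h0
  have h1 : ∀ y : Fin n → ℤ, y ≠ 0 → 3 * A 0 0 / 4 ≤ qf S (iv y) := by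
    intro y hy
    have h2 := hmin (Fin.cons (round (-(β (iv y) / A 0 0))) y) (by
      intro h
      apply hy
      funext i
      have := congrFun h i.succ
      simpa using this)
    rw [mbas_iv_cons, hq] at h2
    have h3 := mbas_round (A 0 0) (β (iv y) / A 0 0) ha
    linarith
  have h2 : DualB (3 * μ / 4) S := by
    intro φ hφ
    obtain ⟨x, hx, hx'⟩ := hd (Fin.cons 0 φ) (by
      intro h
      apply hφ
      funext i
      have := congrFun h i.succ
      simpa using this)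
    have h3 : iv (Fin.cons 0 φ : Fin (n + 1) → ℤ) ⬝ᵥ x = iv φ ⬝ᵥ (fun i => x i.succ) := by
      rw [mbas_iv_cons]
      simp [dotProduct, Fin.sum_univ_succ]
    rw [h3] at hx hx'
    refine ⟨fun i => x i.succ, hx, le_trans ?_ hx'⟩
    have h4 : x = Fin.cons (x 0) (fun i => x i.succ) := by
      funext i
      refine Fin.cases ?_ (fun i => ?_) i
      · simp
      · simp
    have h5 := hq (x 0) (fun i => x i.succ)
    rw [← h4] at h5
    have h6 : 0 ≤ A 0 0 * (x 0 + β (fun i => x i.succ) / A 0 0) ^ 2 :=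
      mul_nonneg ha.le (sq_nonneg _)
    have h7 := qf_nonneg hS (fun i => x i.succ)
    have h8 : qf S (fun i => x i.succ) ≤ qf A x := by linarith
    nlinarith
  obtain ⟨b', hb', hC'⟩ := ih S hS (fun v hv => by
    have := h1 v hv
    linarith) h2
  set t : Fin n → ℤ := fun i => round (-(β (iv (fun j => b' j i)) / A 0 0)) with ht
  set b : Matrix (Fin (n + 1)) (Fin (n + 1)) ℤ := fun j i =>
    (Fin.cases (Fin.cons 1 (fun _ => 0)) (fun i => Fin.cons (t i) (fun j => b' j i)) i :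
      Fin (n + 1) → ℤ) j with hb
  have hcol0 : (fun j => b j 0) = (Fin.cons 1 (fun _ => 0) : Fin (n + 1) → ℤ) := rfl
  have hcols : ∀ i : Fin n, (fun j => b j i.succ) =
      (Fin.cons (t i) (fun j => b' j i) : Fin (n + 1) → ℤ) := fun i => rfl
  have hdet : b.det = b'.det := by
    rw [Matrix.det_succ_column_zero, Fin.sum_univ_succ]
    have h3 : ∀ i : Fin n, b i.succ 0 = 0 := fun i => rfl
    have h4 : b 0 0 = 1 := rfl
    have h5 : b.submatrix Fin.succ Fin.succ = b' := by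
      ext i j
      rfl
    simp [h3, h4, h5]
  have hA0 : A 0 0 ≤ 4 / 3 * |C'| + 1 / μ := by
    rcases Nat.eq_zero_or_pos n with hn | hn
    · subst hn
      obtain ⟨x, hx, hx'⟩ := hd (fun _ => 1) (by
        intro h
        have := congrFun h 0
        simp at this)
      have h3 : iv (fun _ : Fin (0 + 1) => (1 : ℤ)) ⬝ᵥ x = x 0 := by
        simp [iv, dotProduct]
      rw [h3] at hx hx'
      have h4 : qf A x = A 0 0 * (x 0) ^ 2 := by
        simp [qf, dotProduct, Matrix.mulVec]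
        ring
      rw [h4] at hx'
      have h5 : 0 < (x 0) ^ 2 := by positivity
      have h6 : μ * A 0 0 ≤ 1 := by
        by_contra hcon
        push Not at hcon
        nlinarith
      have h7 : A 0 0 ≤ 1 / μ := by
        rw [le_div_iff₀ hμ]
        linarith
      have h8 := abs_nonneg C'
      linarith
    · have h3 : (fun j => b' j ⟨0, hn⟩) ≠ 0 := by
        intro h
        have h4 : b'.det = 0 := Matrix.det_eq_zero_of_column_eq_zero ⟨0, hn⟩
          (fun i => congrFun h i)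
        rw [h4] at hb'
        exact not_isUnit_zero hb'
      have h4 := h1 _ h3
      have h5 := hC' ⟨0, hn⟩
      have h6 := le_abs_self C'
      have h7 : 0 < 1 / μ := by positivity
      linarith
  refine ⟨b, by rw [hdet]; exact hb', ?_⟩
  intro i
  refine Fin.cases ?_ (fun i => ?_) i
  · rw [hcol0]
    have h3 : iv (Fin.cons 1 (fun _ => 0) : Fin (n + 1) → ℤ) = Pi.single 0 1 := by
      funext i
      refine Fin.cases ?_ (fun i => ?_) i
      · simp [iv]
      · simp [iv]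
    rw [h3]
    have h4 : qf A (Pi.single 0 1) = A 0 0 := by simp [qf]
    rw [h4]
    have h8 := abs_nonneg C'
    linarith
  · rw [hcols, mbas_iv_cons, hq]
    have h3 := mbas_round (A 0 0) (β (iv (fun j => b' j i)) / A 0 0) ha
    have h4 := hC' i
    have h6 := le_abs_self C'
    linarith

theorem mbas_im_mulVec {n : ℕ} (γ : Matrix (Fin n) (Fin n) ℤ) (v : Fin n → ℤ) :
    im γ *ᵥ iv v = iv (γ *ᵥ v) := by
  funext i
  simp [im, iv, Matrix.mulVec, dotProduct]

theorem mbas_im_mul {n : ℕ} (γ δ : Matrix (Fin n) (Fin n) ℤ) : im (γ * δ) = im γ * im δ := by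
  have := Matrix.map_mul (L := γ) (M := δ) (f := Int.castRingHom ℝ)
  exact this

theorem mbas_im_one {n : ℕ} : im (1 : Matrix (Fin n) (Fin n) ℤ) = 1 := by
  have := Matrix.map_one (n := Fin n) (Int.castRingHom ℝ) (map_zero _) (map_one _)
  exact this

theorem mbas_im_unit {n : ℕ} {γ : Matrix (Fin n) (Fin n) ℤ} (h : IsUnit γ.det) :
    IsUnit (im γ) := by
  have h1 : im γ * im γ⁻¹ = 1 := by
    rw [← mbas_im_mul, Matrix.mul_nonsing_inv _ h, mbas_im_one]
  have h2 : im γ⁻¹ * im γ = 1 := by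
    rw [← mbas_im_mul, Matrix.nonsing_inv_mul _ h, mbas_im_one]
  exact ⟨⟨im γ, im γ⁻¹, h1, h2⟩, rfl⟩

theorem mbas_qf_smul_int {n : ℕ} (A : Matrix (Fin n) (Fin n) ℝ) (d : ℤ) (w : Fin n → ℤ) :
    qf A (iv (fun i => d * w i)) = (d : ℝ) ^ 2 * qf A (iv w) := by
  have h : iv (fun i => d * w i) = (d : ℝ) • iv w := by
    funext i
    simp [iv]
  rw [h, qf_smul]

theorem bounded_basis (n : ℕ) : ∀ (μ : ℝ), 0 < μ → ∃ C : ℝ, ∀ A : Matrix (Fin n) (Fin n) ℝ, PD A →
    (∀ v : Fin n → ℤ, v ≠ 0 → μ ≤ qf A (iv v)) → DualB μ A →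
    ∃ b : Matrix (Fin n) (Fin n) ℤ, IsUnit b.det ∧ ∀ i, qf A (iv (fun j => b j i)) ≤ C := by
  induction n with
  | zero =>
    intro μ _
    exact ⟨0, fun A _ _ _ => ⟨1, by simp, fun i => i.elim0⟩⟩
  | succ n ihn =>
    intro μ hμ
    obtain ⟨C', hC'⟩ := ihn (3 * μ / 4) (by positivity)
    refine ⟨4 / 3 * |C'| + 1 / μ + |C'|, fun A hA hsh hd => ?_⟩
    -- the minimal vector
    have he0 : (Pi.single 0 1 : Fin (n + 1) → ℤ) ≠ 0 := by
      intro h
      have := congrFun h 0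
      simp at this
    obtain ⟨v₀, ⟨hv₀, hv₀'⟩, hmin'⟩ := Set.exists_min_image
      {v : Fin (n + 1) → ℤ | v ≠ 0 ∧ qf A (iv v) ≤ qf A (iv (Pi.single 0 1))}
      (fun v => qf A (iv v))
      ((short_finite hA (qf A (iv (Pi.single 0 1)))).subset (fun v hv => hv.2))
      ⟨Pi.single 0 1, he0, le_refl _⟩
    have hmin : ∀ v : Fin (n + 1) → ℤ, v ≠ 0 → qf A (iv v₀) ≤ qf A (iv v) := by
      intro v hv
      rcases le_or_gt (qf A (iv v)) (qf A (iv (Pi.single 0 1))) with h | h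
      · exact hmin' v ⟨hv, h⟩
      · exact hv₀'.trans h.le
    have hpos : 0 < qf A (iv v₀) := lt_of_lt_of_le hμ (hsh v₀ hv₀)
    have hprim : ∀ d : ℤ, (∀ i, d ∣ v₀ i) → IsUnit d := by
      intro d hdv
      choose w hw using hdv
      have h1 : v₀ = fun i => d * w i := funext hw
      have hd0 : d ≠ 0 := by
        intro h
        apply hv₀
        rw [h1, h]
        funext i
        simp
      have hw0 : w ≠ 0 := by
        intro h
        apply hv₀
        rw [h1, h]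
        funext i
        simp
      have h2 := hmin w hw0
      have h3 : qf A (iv v₀) = (d : ℝ) ^ 2 * qf A (iv w) := by
        rw [h1, mbas_qf_smul_int]
      have h4 : (d : ℝ) ^ 2 ≤ 1 := by
        by_contra hcon
        push Not at hcon
        nlinarith
      have h5 : d ^ 2 ≤ 1 := by exact_mod_cast h4
      have h6 : d = 1 ∨ d = -1 := by
        have h7 : d ≤ 1 := by nlinarith
        have h8 : -1 ≤ d := by nlinarith
        omega
      rcases h6 with h6 | h6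
      · rw [h6]; exact isUnit_one
      · rw [h6]; exact isUnit_one.neg
    obtain ⟨b₀, hb₀, hb₀'⟩ := prim_ext v₀ hprim
    have hU := mbas_im_unit hb₀
    have hA₁ : PD ((im b₀)ᵀ * A * im b₀) := hA.conj hU
    have hq : ∀ v, qf ((im b₀)ᵀ * A * im b₀) v = qf A (im b₀ *ᵥ v) := fun v => qf_conj _ _ _
    have hA00 : ((im b₀)ᵀ * A * im b₀) 0 0 = qf A (iv v₀) := by
      have h1 : ((im b₀)ᵀ * A * im b₀) 0 0 = qf ((im b₀)ᵀ * A * im b₀) (Pi.single 0 1) := by
        simp [qf]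
      rw [h1, hq]
      congr 1
      funext i
      simp [im, iv, hb₀']
    have hinj : ∀ v : Fin (n + 1) → ℤ, v ≠ 0 → b₀ *ᵥ v ≠ 0 := by
      intro v hv h
      apply hv
      have h1 : b₀⁻¹ *ᵥ (b₀ *ᵥ v) = v := by
        rw [Matrix.mulVec_mulVec, Matrix.nonsing_inv_mul _ hb₀, Matrix.one_mulVec]
      rw [← h1, h, Matrix.mulVec_zero]
    obtain ⟨b, hb, hbC⟩ := bounded_step μ C' hμ (fun S hS h1 h2 => hC' S hS h1 h2)
      ((im b₀)ᵀ * A * im b₀) hA₁ (by rw [hA00]; exact hsh v₀ hv₀)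
      (by
        intro v hv
        rw [hA00, hq, mbas_im_mulVec]
        exact hmin _ (hinj v hv))
      (by
        intro φ hφ
        obtain ⟨x, hx, hx'⟩ := hd ((b₀⁻¹)ᵀ *ᵥ φ) (by
          intro h
          apply hφ
          have h1 : b₀ᵀ *ᵥ ((b₀⁻¹)ᵀ *ᵥ φ) = φ := by
            rw [Matrix.mulVec_mulVec, ← Matrix.transpose_mul, Matrix.nonsing_inv_mul _ hb₀,
              Matrix.transpose_one, Matrix.one_mulVec]
          rw [← h1, h, Matrix.mulVec_zero])
        have h1 : iv ((b₀⁻¹)ᵀ *ᵥ φ) ⬝ᵥ x = iv φ ⬝ᵥ (im b₀⁻¹ *ᵥ x) := by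
          rw [← mbas_im_mulVec, Matrix.dotProduct_mulVec]
          have h2 : im (b₀⁻¹)ᵀ = (im b₀⁻¹)ᵀ := rfl
          rw [h2, Matrix.mulVec_transpose]
        rw [h1] at hx hx'
        refine ⟨im b₀⁻¹ *ᵥ x, hx, ?_⟩
        rw [hq, Matrix.mulVec_mulVec, ← mbas_im_mul, Matrix.mul_nonsing_inv _ hb₀, mbas_im_one,
          Matrix.one_mulVec]
        exact hx')
    refine ⟨b₀ * b, ?_, ?_⟩
    · rw [Matrix.det_mul]
      exact hb₀.mul hb
    · intro i
      have h1 := hbC i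
      rw [hq, mbas_im_mulVec] at h1
      exact h1

end Tor
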