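import Mathlib
import Pool.Agent.Lib.MP_05cdf2_gt.B.MBas

/-! MP_05cdf2_gt, B-Sp, job MHerm: a symplectic form without short integral vectors has a bounded symplectic
basis.

`bounded_basis_ix`: `bounded_basis` for the index type `Ix g` (reindex along `finSumFinEquiv`).
`sp_dual`: if `μ ≤ qf A (iv v)` for all integral `v ≠ 0` then `DualB μ A.1`: for `φ ≠ 0` let `x = A⁻¹ φ`: `φ·x = qf A⁻¹ φ
= qf A (Jᵀ φ)` (`sp_inv_qf`) `≥ μ` because `Jᵀ φ` is integral and nonzero; `qf A x = φ·x`. So `μ qf A x ≤ (φ·x)²`.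
`sp_basis`: let `b` be a basis with `qf A (b_i) ≤ C`. The integral matrix `M = bᵀ J b` has entries
`M i j = b_i · J b_j`, `(M i j)² ≤ C²` by `sp_cauchy`; so `M` is in the finite set `𝓜` of integral matrices with entries `≤ C` in
absolute value. For every `M ∈ 𝓜` for which there is an integral `b` with unit determinant and `bᵀ J b = M` choose one, `b_M`. Then
`γ = b * b_M⁻¹` (inverse over `ℤ`) satisfies `γᵀ J γ = b_M⁻ᵀ M b_M⁻¹ = J`, so it is symplectic (`SymplecticGroup.mem_iff'`). Its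
columns are `∑ k, (b_M⁻¹) k i • b_k`, and `qf A (∑ t_k b_k) ≤ (∑ |t_k|)² C` (`qf A (∑ t_k b_k) = ∑∑ t_k t_l b_k·A b_l`,
`|b_k·A b_l| ≤ C` by `PD.cauchy`). The maximum of `(∑ |t_k|)² C` over the finite set `𝓜` and `i`, plus one, is `c`.
-/

set_option autoImplicit false

namespace Tor
open Matrix

theorem mherm_qf_reindex {ι κ : Type} [Fintype ι] [Fintype κ] (e : ι ≃ κ) (A : Matrix ι ι ℝ)
    (v : κ → ℝ) : qf (A.submatrix e.symm e.symm) v = qf A (v ∘ e) := by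
  unfold qf
  rw [Matrix.submatrix_mulVec_equiv, Equiv.symm_symm]
  rw [← comp_equiv_symm_dotProduct]
  rfl

theorem bounded_basis_ix (g : ℕ) (μ : ℝ) (hμ : 0 < μ) : ∃ C : ℝ, ∀ A : Matrix (Ix g) (Ix g) ℝ,
    PD A → (∀ v : Ix g → ℤ, v ≠ 0 → μ ≤ qf A (iv v)) → DualB μ A →
    ∃ b : Matrix (Ix g) (Ix g) ℤ, IsUnit b.det ∧ ∀ i, qf A (iv (fun j => b j i)) ≤ C := by
  obtain ⟨C, hC⟩ := bounded_basis (g + g) μ hμ
  refine ⟨C, fun A hA hs hd => ?_⟩
  set e : Ix g ≃ Fin (g + g) := finSumFinEquiv with he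
  have hPD : PD (A.submatrix e.symm e.symm) := by
    constructor
    · rw [Matrix.transpose_submatrix, hA.symm]
    · intro v hv
      rw [mherm_qf_reindex]
      refine hA.pos _ fun h => hv ?_
      funext k
      have := congrFun h (e.symm k)
      simpa using this
  obtain ⟨b, hb, hb'⟩ := hC (A.submatrix e.symm e.symm) hPD
    (by
      intro v hv
      rw [mherm_qf_reindex]
      exact hs (v ∘ e) fun h => hv (by
        funext k
        have := congrFun h (e.symm k)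
        simpa using this))
    (by
      intro φ hφ
      obtain ⟨x, hx, hx'⟩ := hd (φ ∘ e) fun h => hφ (by
        funext k
        have := congrFun h (e.symm k)
        simpa using this)
      have e1 : iv φ ⬝ᵥ (x ∘ e.symm) = iv (φ ∘ e) ⬝ᵥ x := by
        rw [← comp_equiv_dotProduct_comp_equiv (iv φ) (x ∘ e.symm) e]
        congr 1
        funext k
        simp
      refine ⟨x ∘ e.symm, ?_, ?_⟩
      · rw [e1]
        exact hx
      · rw [e1, mherm_qf_reindex]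
        have e2 : (x ∘ e.symm) ∘ e = x := by
          funext k
          simp
        rw [e2]
        exact hx')
  refine ⟨b.submatrix e e, ?_, fun i => ?_⟩
  · rw [Matrix.det_submatrix_equiv_self]
    exact hb
  · have := hb' (e i)
    rw [mherm_qf_reindex] at this
    exact this

theorem mherm_im_J (g : ℕ) : im ((Matrix.J (Fin g) ℤ)ᵀ) = (JR g)ᵀ := by
  ext i j
  rcases i with i | i <;> rcases j with j | j <;>
    simp [im, Matrix.J, Matrix.fromBlocks, Matrix.one_apply, eq_comm]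

theorem sp_dual {g : ℕ} (A : SpF g) (μ : ℝ) (h : ∀ v : Ix g → ℤ, v ≠ 0 → μ ≤ qf A.1 (iv v)) :
    DualB μ A.1 := by
  intro φ hφ
  have hA : PD A.1 := A.2.1
  have hφ' : iv φ ≠ 0 := by
    intro h0
    apply hφ
    funext i
    have := congrFun h0 i
    simpa [iv] using this
  have e1 : iv φ ⬝ᵥ ((A.1)⁻¹ *ᵥ iv φ) = qf (A.1)⁻¹ (iv φ) := rfl
  have hpos : 0 < qf (A.1)⁻¹ (iv φ) := hA.inv.pos _ hφ'
  have e2 : qf (A.1)⁻¹ (iv φ) = qf A.1 (iv ((Matrix.J (Fin g) ℤ)ᵀ *ᵥ φ)) := by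
    rw [sp_inv_qf, ← mherm_im_J, im_mulVec]
  have hJ : (Matrix.J (Fin g) ℤ)ᵀ *ᵥ φ ≠ 0 := by
    intro h0
    rw [e2, h0] at hpos
    have : iv (0 : Ix g → ℤ) = 0 := by
      funext i
      simp [iv]
    rw [this] at hpos
    simp [qf] at hpos
  have hμ : μ ≤ qf (A.1)⁻¹ (iv φ) := by
    rw [e2]
    exact h _ hJ
  have e3 : qf A.1 ((A.1)⁻¹ *ᵥ iv φ) = qf (A.1)⁻¹ (iv φ) := by
    unfold qf
    rw [Matrix.mulVec_mulVec, Matrix.mul_nonsing_inv _ ((Matrix.isUnit_iff_isUnit_det _).1 hA.isUnit),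
      Matrix.one_mulVec, dotProduct_comm]
  refine ⟨(A.1)⁻¹ *ᵥ iv φ, ?_, ?_⟩
  · rw [e1]
    exact hpos.ne'
  · rw [e1, e3, sq]
    exact mul_le_mul_of_nonneg_right hμ hpos.le

/-- a combination of vectors of bounded length -/
theorem mherm_comb {g : ℕ} {A : Matrix (Ix g) (Ix g) ℝ} (hA : PD A) {C : ℝ}
    (B : Matrix (Ix g) (Ix g) ℝ) (hB : ∀ i, qf A (fun j => B j i) ≤ C) (t : Ix g → ℝ) :
    qf A (B *ᵥ t) ≤ (∑ k, |t k|) ^ 2 * C := by
  have hG : ∀ k l, |(Bᵀ * A * B) k l| ≤ C := by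
    intro k l
    have e1 : (Bᵀ * A * B) k l = (fun j => B j k) ⬝ᵥ (A *ᵥ (fun j => B j l)) := by
      rw [Matrix.mul_assoc]
      rfl
    have hC : 0 ≤ C := (qf_nonneg hA _).trans (hB k)
    rw [e1]
    apply abs_le_of_sq_le_sq _ hC
    calc _ ≤ qf A (fun j => B j k) * qf A (fun j => B j l) := hA.cauchy _ _
      _ ≤ C * C := mul_le_mul (hB k) (hB l) (qf_nonneg hA _) hC
      _ = C ^ 2 := (sq C).symm
  rw [← qf_conj]
  have e2 : qf (Bᵀ * A * B) t = ∑ k, ∑ l, t k * ((Bᵀ * A * B) k l * t l) := by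
    simp only [qf, dotProduct, Matrix.mulVec, Finset.mul_sum]
  rw [e2]
  have e3 : (∑ k, |t k|) ^ 2 * C = ∑ k, ∑ l, |t k| * (C * |t l|) := by
    rw [sq, Finset.sum_mul_sum, Finset.sum_mul]
    refine Finset.sum_congr rfl fun k _ => ?_
    rw [Finset.sum_mul]
    refine Finset.sum_congr rfl fun l _ => ?_
    ring
  rw [e3]
  refine Finset.sum_le_sum fun k _ => Finset.sum_le_sum fun l _ => ?_
  calc t k * ((Bᵀ * A * B) k l * t l) ≤ |t k * ((Bᵀ * A * B) k l * t l)| := le_abs_self _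
    _ = |t k| * (|(Bᵀ * A * B) k l| * |t l|) := by rw [abs_mul, abs_mul]
    _ ≤ |t k| * (C * |t l|) := by
      refine mul_le_mul_of_nonneg_left ?_ (abs_nonneg _)
      exact mul_le_mul_of_nonneg_right (hG k l) (abs_nonneg _)

theorem mherm_finite (g : ℕ) (K : ℤ) :
    {M : Matrix (Ix g) (Ix g) ℤ | ∀ i j, |M i j| ≤ K}.Finite := by
  have h : (Set.pi Set.univ (fun _ : Ix g => Set.pi Set.univ
      (fun _ : Ix g => Set.Icc (-K) K))).Finite :=
    Set.Finite.pi fun _ => Set.Finite.pi fun _ => Set.finite_Icc _ _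
  refine h.subset fun M hM i _ j _ => ?_
  exact abs_le.1 (hM i j)

theorem sp_basis (g : ℕ) (μ : ℝ) (hμ : 0 < μ) : ∃ c : ℝ, ∀ A : SpF g,
    (∀ v : Ix g → ℤ, v ≠ 0 → μ ≤ qf A.1 (iv v)) →
    ∃ γ : symplecticGroup (Fin g) ℤ, ∀ i, qf A.1 (iv (fun j => γ.1 j i)) < c := by
  classical
  obtain ⟨C, hC⟩ := bounded_basis_ix g μ hμ
  set J : Matrix (Ix g) (Ix g) ℤ := Matrix.J (Fin g) ℤ with hJ
  set bM : Matrix (Ix g) (Ix g) ℤ → Matrix (Ix g) (Ix g) ℤ := fun M =>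
    if h : ∃ b : Matrix (Ix g) (Ix g) ℤ, IsUnit b.det ∧ bᵀ * J * b = M then h.choose else 1 with hbM
  set f : Matrix (Ix g) (Ix g) ℤ → ℝ := fun M =>
    ∑ i, (∑ k, |(((bM M)⁻¹ k i : ℤ) : ℝ)|) ^ 2 * |C| with hf
  obtain ⟨c, hc⟩ := ((mherm_finite g ⌈|C|⌉).image f).bddAbove
  refine ⟨c + 1, fun A hs => ?_⟩
  have hA : PD A.1 := A.2.1
  obtain ⟨b, hb, hb'⟩ := hC A.1 hA hs (sp_dual A μ hs)
  set M := bᵀ * J * b with hM
  have hMmem : M ∈ {M : Matrix (Ix g) (Ix g) ℤ | ∀ i j, |M i j| ≤ ⌈|C|⌉} := by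
    intro i j
    have e1 : ((M i j : ℤ) : ℝ) = iv (fun k => b k i) ⬝ᵥ (JR g *ᵥ iv (fun k => b k j)) := by
      have e2 : JR g = im J := by
        have := mherm_im_J g
        ext k l
        have h2 := congrFun (congrFun this l) k
        simp only [im, Matrix.transpose_apply, Matrix.map_apply] at h2 ⊢
        rw [hJ]
        exact h2.symm
      have e3 : M i j = (fun k => b k i) ⬝ᵥ (J *ᵥ (fun k => b k j)) := by
        rw [hM, Matrix.mul_assoc]
        rfl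
      rw [e3, e2, im_mulVec]
      simp only [dotProduct, iv, Int.cast_sum, Int.cast_mul]
    have h1 : ((M i j : ℤ) : ℝ) ^ 2 ≤ |C| ^ 2 := by
      rw [e1]
      calc _ ≤ qf A.1 (iv fun k => b k i) * qf A.1 (iv fun k => b k j) := sp_cauchy A _ _
        _ ≤ |C| * |C| := mul_le_mul ((hb' i).trans (le_abs_self C)) ((hb' j).trans (le_abs_self C))
            (qf_nonneg hA _) (abs_nonneg _)
        _ = |C| ^ 2 := (sq _).symm
    have h2 := abs_le_of_sq_le_sq h1 (abs_nonneg _)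
    have h3 : ((|M i j| : ℤ) : ℝ) ≤ (⌈|C|⌉ : ℝ) := by
      rw [Int.cast_abs]
      exact h2.trans (Int.le_ceil _)
    exact_mod_cast h3
  have hex : ∃ b : Matrix (Ix g) (Ix g) ℤ, IsUnit b.det ∧ bᵀ * J * b = M := ⟨b, hb, rfl⟩
  have hbMd : bM M = hex.choose := by
    rw [hbM]
    exact dif_pos hex
  have hb1 : IsUnit (bM M).det := by
    rw [hbMd]
    exact hex.choose_spec.1
  have hb2 : (bM M)ᵀ * J * (bM M) = M := by
    rw [hbMd]
    exact hex.choose_spec.2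
  set D := (bM M)⁻¹ with hD
  have hBD : bM M * D = 1 := Matrix.mul_nonsing_inv _ hb1
  have hγ : (b * D)ᵀ * J * (b * D) = J := by
    calc (b * D)ᵀ * J * (b * D) = Dᵀ * (bᵀ * J * b) * D := by
          rw [Matrix.transpose_mul]
          simp only [Matrix.mul_assoc]
      _ = Dᵀ * ((bM M)ᵀ * J * (bM M)) * D := by rw [hb2]
      _ = (bM M * D)ᵀ * J * (bM M * D) := by
          rw [Matrix.transpose_mul]
          simp only [Matrix.mul_assoc]
      _ = J := by rw [hBD, Matrix.transpose_one, Matrix.one_mul, Matrix.mul_one]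
  refine ⟨⟨b * D, SymplecticGroup.mem_iff'.2 hγ⟩, fun i => ?_⟩
  have e4 : iv (fun j => (b * D) j i) = im b *ᵥ iv (fun k => D k i) := by
    rw [im_mulVec]
    rfl
  change qf A.1 (iv (fun j => (b * D) j i)) < c + 1
  rw [e4]
  have h5 : qf A.1 (im b *ᵥ iv (fun k => D k i)) ≤
      (∑ k, |iv (fun k => D k i) k|) ^ 2 * |C| := by
    apply mherm_comb hA
    intro l
    exact (hb' l).trans (le_abs_self C)
  have h6 : (∑ k, |iv (fun k => D k i) k|) ^ 2 * |C| ≤ f M := by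
    rw [hf]
    exact Finset.single_le_sum (f := fun i => (∑ k, |(((bM M)⁻¹ k i : ℤ) : ℝ)|) ^ 2 * |C|)
      (fun j _ => mul_nonneg (sq_nonneg _) (abs_nonneg _)) (Finset.mem_univ i)
  have h7 : f M ≤ c := hc ⟨M, hMmem, rfl⟩
  linarith

end Tor
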