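import Mathlib
import Pool.Agent.Lib.MP_05cdf2_gt.B.MBasic

/-! MP_05cdf2_gt, B-Sp, job MLown: existence of the geometric mean, Loewner's comparison.

`inv_anti`: `A ≤ K A'` as forms implies `A'⁻¹ ≤ K A⁻¹` (here in the shape needed): let `u = A'⁻¹ w`,
`t = qf A'⁻¹ w = w ⬝ᵥ u = qf A' u`; `t² = (u ⬝ᵥ w)² ≤ qf A u * qf A⁻¹ w ≤ K t * qf A⁻¹ w` (`PD.cauchy'`), so
`t ≤ K qf A⁻¹ w` (if `t = 0` trivial).

`lowner`: `A, X` PD, `Y` symmetric, `Y A⁻¹ Y ≤ X A⁻¹ X` as forms, then `Y ≤ X`. Write `A = Mᵀ M`, `M` invertible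
(`Matrix.PosDef` gives `A = Mᴴ M`, `Matrix.posSemidef_iff_eq_conjTranspose_mul_self` or the square root). Put
`X' = M⁻ᵀ X M⁻¹`, `Y' = M⁻ᵀ Y M⁻¹` : symmetric, `X'` PD, `qf (Y'*Y') u ≤ qf (X'*X') u` for all `u` (substitute
`v = M⁻¹ u`). Claim `qf Y' u ≤ qf X' u`. The symmetric matrix `Y' - X'` has an orthonormal eigenbasis
(`Matrix.IsHermitian.eigenvectorBasis`, spectral theorem); if some eigenvalue `λ > 0` with eigenvector `u ≠ 0`: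
`Y' u = X' u + λ u`, `|Y' u|² = |X' u|² + 2 λ qf X' u + λ² |u|² > |X' u|²`, but `|Y' u|² = qf (Y'*Y') u ≤ |X' u|²`. So all
eigenvalues are `≤ 0` and `Y' - X'` is negative semidefinite (apply `Matrix.IsHermitian.posSemidef_iff_eigenvalues_nonneg`
to `X' - Y'`).

`exists_gm`: `A = Mᵀ M`, `B' = M⁻ᵀ B M⁻¹` PD, `S` PD with `S * S = B'` (spectral theorem or square root of
positive matrices in Mathlib, `CFC.sqrt`/`Matrix.PosSemidef.sqrt`), `X = Mᵀ S M`.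
-/

set_option autoImplicit false

namespace Tor
open Matrix

section
variable {ι : Type} [Fintype ι] [DecidableEq ι]

open scoped MatrixOrder in
theorem mlown_sqrt {A : Matrix ι ι ℝ} (hA : PD A) : ∃ S : Matrix ι ι ℝ, PD S ∧ S * S = A := by
  have h1 : A.PosDef := PD.iff.1 hA
  have h2 : (0 : Matrix ι ι ℝ) ≤ A := h1.posSemidef.nonneg
  refine ⟨CFC.sqrt A, ?_, CFC.sqrt_mul_sqrt_self A h2⟩
  have h3 : (CFC.sqrt A).PosSemidef := (CFC.sqrt_nonneg A).posSemidef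
  refine PD.iff.2 (h3.posDef_iff_isUnit.2 ?_)
  have h4 : IsUnit (CFC.sqrt A * CFC.sqrt A) := by
    rw [CFC.sqrt_mul_sqrt_self A h2]; exact hA.isUnit
  exact isUnit_of_mul_isUnit_left h4

theorem mlown_qf_mul_self {Y : Matrix ι ι ℝ} (hY : Yᵀ = Y) (v : ι → ℝ) :
    qf (Y * Y) v = (Y *ᵥ v) ⬝ᵥ (Y *ᵥ v) := by
  unfold qf
  rw [← Matrix.mulVec_mulVec, Matrix.dotProduct_mulVec, ← Matrix.mulVec_transpose, hY]

theorem inv_anti {A A' : Matrix ι ι ℝ} (hA : PD A) (hA' : PD A') (K : ℝ) (hK : 0 < K)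
    (h : ∀ v, qf A v ≤ K * qf A' v) (w : ι → ℝ) : qf A'⁻¹ w ≤ K * qf A⁻¹ w := by
  have hu : A' *ᵥ (A'⁻¹ *ᵥ w) = w := by
    rw [Matrix.mulVec_mulVec, Matrix.mul_nonsing_inv _ ((Matrix.isUnit_iff_isUnit_det _).1 hA'.isUnit),
      Matrix.one_mulVec]
  have h1 : qf A' (A'⁻¹ *ᵥ w) = qf A'⁻¹ w := by
    unfold qf
    rw [hu, dotProduct_comm]
  have h2 : ((A'⁻¹ *ᵥ w) ⬝ᵥ w) = qf A'⁻¹ w := by
    unfold qf
    rw [dotProduct_comm]
  have h3 := hA.cauchy' (A'⁻¹ *ᵥ w) w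
  rw [h2] at h3
  have h4 := h (A'⁻¹ *ᵥ w)
  rw [h1] at h4
  have h5 : 0 ≤ qf A'⁻¹ w := qf_nonneg hA'.inv w
  have h6 : 0 ≤ qf A⁻¹ w := qf_nonneg hA.inv w
  rcases h5.eq_or_lt with h7 | h7
  · rw [← h7]; positivity
  · have h8 : qf A'⁻¹ w ^ 2 ≤ (K * qf A'⁻¹ w) * qf A⁻¹ w := h3.trans (mul_le_mul_of_nonneg_right h4 h6)
    have h9 : qf A'⁻¹ w * qf A'⁻¹ w ≤ qf A'⁻¹ w * (K * qf A⁻¹ w) := by
      nlinarith [h8]
    exact le_of_mul_le_mul_left h9 h7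

theorem exists_factor {A : Matrix ι ι ℝ} (hA : PD A) : ∃ M : Matrix ι ι ℝ, IsUnit M ∧ A = Mᵀ * M := by
  obtain ⟨S, hS, h⟩ := mlown_sqrt hA
  exact ⟨S, hS.isUnit, by rw [hS.symm, h]⟩

theorem lowner_sq {X Y : Matrix ι ι ℝ} (hX : PD X) (hY : Yᵀ = Y)
    (h : ∀ v, qf (Y * Y) v ≤ qf (X * X) v) (v : ι → ℝ) : qf Y v ≤ qf X v := by
  have hD : (X - Y).IsHermitian := by
    unfold Matrix.IsHermitian
    rw [Matrix.conjTranspose_eq_transpose_of_trivial, Matrix.transpose_sub, hX.symm, hY]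
  have hP : (X - Y).PosSemidef := by
    rw [hD.posSemidef_iff_eigenvalues_nonneg]
    intro i
    by_contra hneg
    have hneg' : hD.eigenvalues i < 0 := not_le.1 hneg
    have hu := hD.mulVec_eigenvectorBasis i
    set u : ι → ℝ := ⇑(hD.eigenvectorBasis i) with hudef
    have hu0 : u ≠ 0 := by
      intro h0
      have h1 : hD.eigenvectorBasis i = 0 := by
        ext j
        exact congrFun h0 j
      exact hD.eigenvectorBasis.orthonormal.ne_zero i h1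
    set l : ℝ := hD.eigenvalues i with hl
    have h1 : Y *ᵥ u = X *ᵥ u - l • u := by
      rw [Matrix.sub_mulVec] at hu
      rw [← hu]; abel
    have h2 := h u
    rw [mlown_qf_mul_self hY, mlown_qf_mul_self hX.symm, h1] at h2
    have h3 : (X *ᵥ u - l • u) ⬝ᵥ (X *ᵥ u - l • u) =
        (X *ᵥ u) ⬝ᵥ (X *ᵥ u) - 2 * l * qf X u + l ^ 2 * (u ⬝ᵥ u) := by
      unfold qf
      rw [sub_dotProduct, dotProduct_sub, dotProduct_sub, smul_dotProduct, smul_dotProduct,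
        dotProduct_smul, dotProduct_smul, dotProduct_comm (X *ᵥ u) u]
      simp only [smul_eq_mul]
      ring
    rw [h3] at h2
    have h4 : 0 < qf X u := hX.pos u hu0
    have h5 : 0 ≤ u ⬝ᵥ u := by
      simp only [dotProduct]
      exact Finset.sum_nonneg fun i _ => mul_self_nonneg (u i)
    have h6 : 0 < -l * qf X u := mul_pos (by linarith) h4
    have h7 : 0 ≤ l ^ 2 * (u ⬝ᵥ u) := mul_nonneg (sq_nonneg l) h5
    nlinarith
  have h1 := hP.dotProduct_mulVec_nonneg v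
  have h2 : star v ⬝ᵥ ((X - Y) *ᵥ v) = qf X v - qf Y v := by
    unfold qf
    rw [Matrix.sub_mulVec, dotProduct_sub, star_trivial]
  rw [h2] at h1
  linarith

theorem mlown_inv {A M : Matrix ι ι ℝ} (hA : A = Mᵀ * M) : M⁻¹ * M⁻¹ᵀ = A⁻¹ := by
  rw [hA, Matrix.mul_inv_rev, Matrix.transpose_nonsing_inv]

theorem lowner {A X Y : Matrix ι ι ℝ} (hA : PD A) (hX : PD X) (hY : Yᵀ = Y)
    (h : ∀ v, qf (Y * A⁻¹ * Y) v ≤ qf (X * A⁻¹ * X) v) (v : ι → ℝ) : qf Y v ≤ qf X v := by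
  obtain ⟨M, hM, hAM⟩ := exists_factor hA
  have hMd : IsUnit M.det := (Matrix.isUnit_iff_isUnit_det _).1 hM
  have hNu : IsUnit M⁻¹ := (Matrix.isUnit_nonsing_inv_iff).2 hM
  have hNN := mlown_inv hAM
  have key : ∀ (Z : Matrix ι ι ℝ) (u : ι → ℝ),
      qf ((M⁻¹ᵀ * Z * M⁻¹) * (M⁻¹ᵀ * Z * M⁻¹)) u = qf (Z * A⁻¹ * Z) (M⁻¹ *ᵥ u) := by
    intro Z u
    rw [← qf_conj, ← hNN]
    simp only [Matrix.mul_assoc]
  have h1 : PD (M⁻¹ᵀ * X * M⁻¹) := hX.conj hNu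
  have h2 : (M⁻¹ᵀ * Y * M⁻¹)ᵀ = M⁻¹ᵀ * Y * M⁻¹ := by
    rw [Matrix.transpose_mul, Matrix.transpose_mul, Matrix.transpose_transpose, hY, Matrix.mul_assoc]
  have h3 := lowner_sq h1 h2 (fun u => by rw [key, key]; exact h _) (M *ᵥ v)
  rw [qf_conj, qf_conj, Matrix.mulVec_mulVec, Matrix.nonsing_inv_mul _ hMd, Matrix.one_mulVec] at h3
  exact h3

theorem exists_gm {A B : Matrix ι ι ℝ} (hA : PD A) (hB : PD B) :
    ∃ X : Matrix ι ι ℝ, PD X ∧ X * A⁻¹ * X = B := by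
  obtain ⟨M, hM, hAM⟩ := exists_factor hA
  have hMd : IsUnit M.det := (Matrix.isUnit_iff_isUnit_det _).1 hM
  have hNu : IsUnit M⁻¹ := (Matrix.isUnit_nonsing_inv_iff).2 hM
  have hNN := mlown_inv hAM
  obtain ⟨S, hS, hSS⟩ := mlown_sqrt (hB.conj hNu)
  refine ⟨Mᵀ * S * M, hS.conj hM, ?_⟩
  have h1 : M * M⁻¹ = 1 := Matrix.mul_nonsing_inv _ hMd
  have h2 : M⁻¹ᵀ * Mᵀ = 1 := by rw [← Matrix.transpose_mul, h1, Matrix.transpose_one]
  have h3 : M⁻¹ * M = 1 := Matrix.nonsing_inv_mul _ hMd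
  have h4 : Mᵀ * M⁻¹ᵀ = 1 := by rw [← Matrix.transpose_mul, h3, Matrix.transpose_one]
  calc Mᵀ * S * M * A⁻¹ * (Mᵀ * S * M)
      = Mᵀ * S * ((M * M⁻¹) * (M⁻¹ᵀ * Mᵀ)) * (S * M) := by
        rw [← hNN]; simp only [Matrix.mul_assoc]
    _ = Mᵀ * (S * S) * M := by
        rw [h1, h2, Matrix.one_mul, Matrix.mul_one]; simp only [Matrix.mul_assoc]
    _ = (Mᵀ * M⁻¹ᵀ) * B * (M⁻¹ * M) := by
        rw [hSS]; simp only [Matrix.mul_assoc]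
    _ = B := by rw [h3, h4, Matrix.one_mul, Matrix.mul_one]

end

end Tor
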