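import Mathlib
import Pool.Agent.Lib.MP_05cdf2_gt.B.MLown

/-! MP_05cdf2_gt, B-Sp, job MMean: the mean on symplectic forms.

`gm_unique`: two solutions `X, X'` (PD) of `X A⁻¹ X = B`: `lowner` twice and `eq_of_qf`.
`gm_self`: `A A⁻¹ A = A`.
`gm_arith`: `qf ((X - A) A⁻¹ (X - A)) v = qf A⁻¹ ((X - A) v) ≥ 0` and `(X - A) A⁻¹ (X - A) = X A⁻¹ X - 2 X + A`.
`gm_near`: `X A⁻¹ X = B`, `X' A'⁻¹ X' = B'`, `SNear r A A'`, `SNear s B B'`. Put `κ = exp ((r+s)/2)`, `Y = κ • X`. By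
`inv_anti` (`A' ≤ e^r A`) `A⁻¹ ≤ e^r A'⁻¹` as forms, so `qf (Y A'⁻¹ Y) v = qf A'⁻¹ (Y v) ≥ e^{-r} qf A⁻¹ (Y v)
= e^{-r} κ² qf B v = e^s qf B v ≥ qf B' v = qf (X' A'⁻¹ X') v`; `lowner` with `A'`: `X' ≤ κ X`. By symmetry the other.
`gm_symplectic`: `A, B` symplectic. `X' := Jᵀ X⁻¹ J` is PD and `X' A⁻¹ X' = B`: from `X A⁻¹ X = B` get `X⁻¹ A X⁻¹ = B⁻¹`;
`J A⁻¹ Jᵀ = A` and `Jᵀ B⁻¹ J = B` (from `A J A = J`, `J² = -1`, `Jᵀ = -J`), so
`X' A⁻¹ X' = Jᵀ X⁻¹ (J A⁻¹ Jᵀ) X⁻¹ J = Jᵀ X⁻¹ A X⁻¹ J = Jᵀ B⁻¹ J = B`. Uniqueness: `Jᵀ X⁻¹ J = X`, hence `X J X = J`.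
-/

set_option autoImplicit false

namespace Tor
open Matrix

section
variable {ι : Type} [Fintype ι] [DecidableEq ι]

omit [DecidableEq ι] in
theorem mmean_qf_add (A B : Matrix ι ι ℝ) (v : ι → ℝ) : qf (A + B) v = qf A v + qf B v := by
  simp only [qf, Matrix.add_mulVec, dotProduct_add]

omit [DecidableEq ι] in
theorem mmean_qf_sub (A B : Matrix ι ι ℝ) (v : ι → ℝ) : qf (A - B) v = qf A v - qf B v := by
  simp only [qf, Matrix.sub_mulVec, dotProduct_sub]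

omit [DecidableEq ι] in
theorem mmean_qf_smul (c : ℝ) (A : Matrix ι ι ℝ) (v : ι → ℝ) : qf (c • A) v = c * qf A v := by
  simp only [qf, Matrix.smul_mulVec, dotProduct_smul, smul_eq_mul]

theorem mmean_det {A : Matrix ι ι ℝ} (h : PD A) : IsUnit A.det :=
  (Matrix.isUnit_iff_isUnit_det A).1 h.isUnit

theorem mmean_sym {A X : Matrix ι ι ℝ} (hX : Xᵀ = X) (v : ι → ℝ) :
    qf (X * A * X) v = qf A (X *ᵥ v) := by
  have h := qf_conj A X v
  rw [hX] at h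
  exact h

theorem gm_unique {A B X X' : Matrix ι ι ℝ} (hA : PD A) (hX : PD X) (hX' : PD X')
    (h : X * A⁻¹ * X = B) (h' : X' * A⁻¹ * X' = B) : X = X' := by
  refine eq_of_qf hX.symm hX'.symm fun v => le_antisymm ?_ ?_
  · exact lowner hA hX' hX.symm (fun w => by rw [h, h']) v
  · exact lowner hA hX hX'.symm (fun w => by rw [h, h']) v

theorem gm_arith {A B X : Matrix ι ι ℝ} (hA : PD A) (hX : PD X) (h : X * A⁻¹ * X = B) (v : ι → ℝ) :
    2 * qf X v ≤ qf A v + qf B v := by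
  have hd := mmean_det hA
  have h1 : A * A⁻¹ = 1 := Matrix.mul_nonsing_inv A hd
  have h2 : A⁻¹ * A = 1 := Matrix.nonsing_inv_mul A hd
  have hs : (X - A)ᵀ = X - A := by rw [Matrix.transpose_sub, hX.symm, hA.symm]
  have h3 : (X - A) * A⁻¹ * (X - A) = B - X - X + A := by
    rw [← h]
    simp only [Matrix.sub_mul, Matrix.mul_sub, Matrix.mul_assoc, h2, Matrix.mul_one]
    rw [← Matrix.mul_assoc A A⁻¹ X, h1, Matrix.one_mul]
    abel
  have h4 : 0 ≤ qf ((X - A) * A⁻¹ * (X - A)) v := by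
    rw [mmean_sym hs]
    exact qf_nonneg hA.inv _
  rw [h3, mmean_qf_add, mmean_qf_sub, mmean_qf_sub] at h4
  linarith

theorem mmean_pd_smul {X : Matrix ι ι ℝ} (hX : PD X) {c : ℝ} (hc : 0 < c) : PD (c • X) := by
  refine ⟨by rw [Matrix.transpose_smul, hX.symm], fun v hv => ?_⟩
  rw [mmean_qf_smul]
  exact mul_pos hc (hX.pos v hv)

theorem mmean_near {A B X A' B' X' : Matrix ι ι ℝ} (hA : PD A) (hX : PD X) (hA' : PD A')
    (hX' : PD X') (h : X * A⁻¹ * X = B) (h' : X' * A'⁻¹ * X' = B') (r s : ℝ)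
    (hr : ∀ v, qf A' v ≤ Real.exp r * qf A v) (hs : ∀ v, qf B' v ≤ Real.exp s * qf B v)
    (v : ι → ℝ) : qf X' v ≤ Real.exp ((r + s) / 2) * qf X v := by
  have hk : 0 < Real.exp ((r + s) / 2) := Real.exp_pos _
  rw [← mmean_qf_smul]
  refine lowner hA' (mmean_pd_smul hX hk) hX'.symm (fun w => ?_) v
  have e1 : (Real.exp ((r + s) / 2) • X) * A'⁻¹ * (Real.exp ((r + s) / 2) • X)
      = (Real.exp ((r + s) / 2) * Real.exp ((r + s) / 2)) • (X * A'⁻¹ * X) := by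
    rw [Matrix.smul_mul, Matrix.smul_mul, Matrix.mul_smul, smul_smul]
  rw [h', e1, mmean_qf_smul, mmean_sym hX.symm, ← Real.exp_add]
  have e2 : (r + s) / 2 + (r + s) / 2 = s + r := by ring
  rw [e2, Real.exp_add]
  have h5 := inv_anti hA' hA (Real.exp r) (Real.exp_pos r) hr (X *ᵥ w)
  rw [← mmean_sym hX.symm, h] at h5
  calc qf B' w ≤ Real.exp s * qf B w := hs w
    _ ≤ Real.exp s * (Real.exp r * qf A'⁻¹ (X *ᵥ w)) :=
        mul_le_mul_of_nonneg_left h5 (Real.exp_pos s).le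
    _ = Real.exp s * Real.exp r * qf A'⁻¹ (X *ᵥ w) := by ring

theorem gm_near {A B X A' B' X' : Matrix ι ι ℝ} (hA : PD A) (hX : PD X) (hA' : PD A')
    (hX' : PD X') (h : X * A⁻¹ * X = B) (h' : X' * A'⁻¹ * X' = B') (r s : ℝ)
    (hr : SNear r A A') (hs : SNear s B B') : SNear ((r + s) / 2) X X' := fun v =>
  ⟨mmean_near hA hX hA' hX' h h' r s (fun w => (hr w).1) (fun w => (hs w).1) v,
    mmean_near hA' hX' hA hX h' h r s (fun w => (hr w).2) (fun w => (hs w).2) v⟩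

end

section
variable {g : ℕ}

theorem mmean_JJ : JR g * JR g = -1 := Matrix.J_squared (Fin g) ℝ

theorem mmean_Jt : (JR g)ᵀ = -(JR g) := Matrix.J_transpose (Fin g) ℝ

theorem mmean_JtJ : (JR g)ᵀ * JR g = 1 := by
  rw [mmean_Jt, Matrix.neg_mul, mmean_JJ, neg_neg]

theorem mmean_JtJt : (JR g)ᵀ * (JR g)ᵀ = -1 := by
  rw [mmean_Jt, Matrix.neg_mul, Matrix.mul_neg, neg_neg, mmean_JJ]

theorem mmean_Junit : IsUnit (JR g) :=
  (Matrix.isUnit_iff_isUnit_det _).2 (Matrix.isUnit_det_of_left_inverse (mmean_JtJ (g := g)))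

theorem gm_symplectic (A B : SpF g) {X : Matrix (Ix g) (Ix g) ℝ} (hX : PD X)
    (h : X * (A.1)⁻¹ * X = B.1) : X * JR g * X = JR g := by
  have hdA := mmean_det A.2.1
  have hdX := mmean_det hX
  have e1 : JR g * (A.1)⁻¹ * (JR g)ᵀ = A.1 := by
    rw [sp_inv A]
    calc JR g * (JR g * A.1 * (JR g)ᵀ) * (JR g)ᵀ
        = (JR g * JR g) * A.1 * ((JR g)ᵀ * (JR g)ᵀ) := by simp only [Matrix.mul_assoc]
      _ = A.1 := by rw [mmean_JJ, mmean_JtJt]; simp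
  have e2 : (JR g)ᵀ * (B.1)⁻¹ * JR g = B.1 := by
    rw [sp_inv B]
    calc (JR g)ᵀ * (JR g * B.1 * (JR g)ᵀ) * JR g
        = ((JR g)ᵀ * JR g) * B.1 * ((JR g)ᵀ * JR g) := by simp only [Matrix.mul_assoc]
      _ = B.1 := by rw [mmean_JtJ]; simp
  have e3 : X⁻¹ * A.1 * X⁻¹ = (B.1)⁻¹ := by
    rw [← h, Matrix.mul_inv_rev, Matrix.mul_inv_rev, Matrix.nonsing_inv_nonsing_inv _ hdA,
      Matrix.mul_assoc]
  have hX' : PD ((JR g)ᵀ * X⁻¹ * JR g) := hX.inv.conj mmean_Junit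
  have e4 : ((JR g)ᵀ * X⁻¹ * JR g) * (A.1)⁻¹ * ((JR g)ᵀ * X⁻¹ * JR g) = B.1 := by
    calc ((JR g)ᵀ * X⁻¹ * JR g) * (A.1)⁻¹ * ((JR g)ᵀ * X⁻¹ * JR g)
        = (JR g)ᵀ * (X⁻¹ * (JR g * (A.1)⁻¹ * (JR g)ᵀ) * X⁻¹) * JR g := by
          simp only [Matrix.mul_assoc]
      _ = B.1 := by rw [e1, e3, e2]
  have e5 : X = (JR g)ᵀ * X⁻¹ * JR g := gm_unique A.2.1 hX hX' h e4
  calc X * JR g * X = ((JR g)ᵀ * X⁻¹ * JR g) * JR g * X := by rw [← e5]
    _ = (JR g)ᵀ * (X⁻¹ * ((JR g * JR g) * X)) := by simp only [Matrix.mul_assoc]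
    _ = JR g := by
      rw [mmean_JJ, Matrix.neg_mul, Matrix.one_mul, Matrix.mul_neg, Matrix.nonsing_inv_mul _ hdX,
        Matrix.mul_neg, Matrix.mul_one, mmean_Jt, neg_neg]

/-- the mean of two symplectic forms -/
noncomputable def gm (A B : SpF g) : SpF g :=
  ⟨(exists_gm A.2.1 B.2.1).choose, (exists_gm A.2.1 B.2.1).choose_spec.1,
    gm_symplectic A B (exists_gm A.2.1 B.2.1).choose_spec.1 (exists_gm A.2.1 B.2.1).choose_spec.2⟩

theorem gm_spec (A B : SpF g) : (gm A B).1 * (A.1)⁻¹ * (gm A B).1 = B.1 :=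
  (exists_gm A.2.1 B.2.1).choose_spec.2

/-- the mean structure on symplectic forms -/
noncomputable def spMean (g : ℕ) : MeanSp (SpF g) where
  m := gm
  near r A B := SNear r A.1 B.1
  near_refl := by
    intro x
    exact Tor.near_refl x.1
  near_symm := by
    intro r x y h
    exact Tor.near_symm h
  near_mono := by
    intro r s x y hrs h
    exact Tor.near_mono x.2.1 y.2.1 hrs h
  near_mean := by
    intro r s x x' y y' h h'
    exact gm_near x.2.1 (gm x y).2.1 x'.2.1 (gm x' y').2.1 (gm_spec x y) (gm_spec x' y') r s h h'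
  mean_self := by
    intro x
    apply Subtype.ext
    refine gm_unique x.2.1 (gm x x).2.1 x.2.1 (gm_spec x x) ?_
    rw [Matrix.mul_nonsing_inv _ (mmean_det x.2.1), Matrix.one_mul]
  near_exists := by
    intro x y
    exact Tor.near_exists x.2.1 y.2.1

theorem gm_lt (A B : SpF g) (v : Ix g → ℝ) (c : ℝ) (hA : qf A.1 v < c) (hB : qf B.1 v < c) :
    qf (gm A B).1 v < c := by
  have h := gm_arith A.2.1 (gm A B).2.1 (gm_spec A B) v
  linarith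

end

end Tor
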