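import Mathlib
import Pool.Agent.Lib.MP_05cdf2_gt.B.MBas

/-! MP_05cdf2_gt, B-Sp, job MRDef: the map `r` on symplectic forms which makes short integral vectors longer
(helper61's map).

`kk e s = max 0 (e - s)`; `shF e A` = the finite set of integral `w` with `qf A (iv w) < e` (`short_finite` in MBas);
`ZZ = 1 + ∑ kk (qf A w) * qf A w`, `PP = ∑ (kk (qf A w) / ZZ) • w wᵀ`,
`rr0 = A * PP * A + Jᵀ * (A + A * PP * A)⁻¹ * J`.

`ZZ_eq`, `PP_eq`: the sums may be taken over any finite set `F` which contains all `w` with `qf A w < e` (`kk = 0` for the others).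
`PP_qf`: `qf (vecMulVec w w) ξ = (w ⬝ᵥ ξ)^2`. `PP_le`: `(w ⬝ᵥ ξ)^2 ≤ qf A w * qf A⁻¹ ξ` (`PD.cauchy'`), and `∑ kk * qf A w ≤ ZZ`.
`PP_J`: `PP * J * PP = ∑∑ c c' w (w ⬝ᵥ J w') w'ᵀ = 0` by `sp_isotropic` (`e ≤ 1`). `PP_mulJ`: `PP *ᵥ (J *ᵥ iv v) = 0` for `qf A v < e`, same reason.
`rr0_alg`: put `B = A + A P A`. Using `A J A = J`, `P J P = 0`, `J J = -1`, `Jᵀ = -J`:
`B J A = J + A P J`, `A J B = J + J P A`, `B J B = J + J P A + A P J`, so `B J B - B J A - A J B + J = 0` (*).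
`r J r = A P A J A P A + A P A (J Jᵀ) B⁻¹ J + Jᵀ B⁻¹ (J J) A P A + Jᵀ B⁻¹ (J J Jᵀ) B⁻¹ J = 0 + A P A B⁻¹ J + J B⁻¹ A P A - J B⁻¹ J B⁻¹ J`,
and `A P A = B - A`, so `r J r - J = - (A B⁻¹ J + J B⁻¹ A + J B⁻¹ J B⁻¹ J - J) = - X`; `B J X J B = ` (*)-expression up to sign `= 0`, with
`B`, `J` invertible, so `X = 0`.
`rr0_mem`: symmetric: clear. PD: `qf (A P A) v = qf P (A v) ≥ 0`, `B` is PD (`PD.add`), `Jᵀ B⁻¹ J` is PD (`PD.inv`, `PD.conj`, `J` is a unit).
-/

set_option autoImplicit false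

namespace Tor
open Matrix

section
variable {g : ℕ}

/-- weight function -/
noncomputable def kk (e s : ℝ) : ℝ := max 0 (e - s)

open Classical in
/-- integral vectors shorter than `e` -/
noncomputable def shF (e : ℝ) (A : Matrix (Ix g) (Ix g) ℝ) : Finset (Ix g → ℤ) :=
  if h : {w : Ix g → ℤ | qf A (iv w) < e}.Finite then h.toFinset else ∅

/-- normalisation -/
noncomputable def ZZ (e : ℝ) (A : Matrix (Ix g) (Ix g) ℝ) : ℝ :=
  1 + ∑ w ∈ shF e A, kk e (qf A (iv w)) * qf A (iv w)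

/-- the weighted sum of the short vectors -/
noncomputable def PP (e : ℝ) (A : Matrix (Ix g) (Ix g) ℝ) : Matrix (Ix g) (Ix g) ℝ :=
  ∑ w ∈ shF e A, (kk e (qf A (iv w)) / ZZ e A) • Matrix.vecMulVec (iv w) (iv w)

/-- the map on matrices -/
noncomputable def rr0 (e : ℝ) (A : Matrix (Ix g) (Ix g) ℝ) : Matrix (Ix g) (Ix g) ℝ :=
  A * PP e A * A + (JR g)ᵀ * (A + A * PP e A * A)⁻¹ * JR g

theorem mrdef_kk_nonneg (e s : ℝ) : 0 ≤ kk e s := le_max_left _ _

theorem mrdef_kk_zero {e s : ℝ} (h : ¬ s < e) : kk e s = 0 := by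
  unfold kk
  exact max_eq_left (by linarith [not_lt.1 h])

theorem mrdef_qf_sum {κ : Type} {ι : Type} [Fintype ι] (F : Finset κ) (M : κ → Matrix ι ι ℝ)
    (v : ι → ℝ) : qf (∑ k ∈ F, M k) v = ∑ k ∈ F, qf (M k) v := by
  classical
  unfold qf
  induction F using Finset.induction_on with
  | empty => simp
  | insert a s ha ih =>
    rw [Finset.sum_insert ha, Finset.sum_insert ha, Matrix.add_mulVec, dotProduct_add, ih]

theorem mrdef_qf_smul {ι : Type} [Fintype ι] (c : ℝ) (M : Matrix ι ι ℝ) (v : ι → ℝ) :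
    qf (c • M) v = c * qf M v := by
  unfold qf
  rw [Matrix.smul_mulVec, dotProduct_smul, smul_eq_mul]

theorem mrdef_vmv {ι : Type} [Fintype ι] (w v : ι → ℝ) :
    Matrix.vecMulVec w w *ᵥ v = (w ⬝ᵥ v) • w := by
  rw [Matrix.vecMulVec_mulVec]
  ext i
  simp [mul_comm]

theorem mrdef_qf_vmv {ι : Type} [Fintype ι] (w v : ι → ℝ) :
    qf (Matrix.vecMulVec w w) v = (w ⬝ᵥ v) ^ 2 := by
  unfold qf
  rw [mrdef_vmv, dotProduct_smul, smul_eq_mul, dotProduct_comm v w]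
  ring

theorem mem_shF {e : ℝ} {A : Matrix (Ix g) (Ix g) ℝ} (hA : PD A) (w : Ix g → ℤ) :
    w ∈ shF e A ↔ qf A (iv w) < e := by
  have h : {w : Ix g → ℤ | qf A (iv w) < e}.Finite :=
    (short_finite hA e).subset
      (fun w (hw : qf A (iv w) < e) => (le_of_lt hw : qf A (iv w) ≤ e))
  unfold shF
  rw [dif_pos h, Set.Finite.mem_toFinset]
  rfl

theorem ZZ_pos {e : ℝ} {A : Matrix (Ix g) (Ix g) ℝ} (hA : PD A) : 1 ≤ ZZ e A := by
  unfold ZZ
  have : 0 ≤ ∑ w ∈ shF e A, kk e (qf A (iv w)) * qf A (iv w) :=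
    Finset.sum_nonneg fun w _ => mul_nonneg (mrdef_kk_nonneg _ _) (qf_nonneg hA _)
  linarith

theorem ZZ_eq {e : ℝ} {A : Matrix (Ix g) (Ix g) ℝ} (hA : PD A) (F : Finset (Ix g → ℤ))
    (hF : ∀ w, qf A (iv w) < e → w ∈ F) :
    ZZ e A = 1 + ∑ w ∈ F, kk e (qf A (iv w)) * qf A (iv w) := by
  unfold ZZ
  congr 1
  refine Finset.sum_subset (fun w hw => hF w ((mem_shF hA w).1 hw)) fun w _ hw => ?_
  rw [mem_shF hA] at hw
  rw [mrdef_kk_zero hw, zero_mul]

theorem PP_eq {e : ℝ} {A : Matrix (Ix g) (Ix g) ℝ} (hA : PD A) (F : Finset (Ix g → ℤ))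
    (hF : ∀ w, qf A (iv w) < e → w ∈ F) :
    PP e A = ∑ w ∈ F, (kk e (qf A (iv w)) / ZZ e A) • Matrix.vecMulVec (iv w) (iv w) := by
  unfold PP
  refine Finset.sum_subset (fun w hw => hF w ((mem_shF hA w).1 hw)) fun w _ hw => ?_
  rw [mem_shF hA] at hw
  rw [mrdef_kk_zero hw, zero_div, zero_smul]

theorem PP_symm (e : ℝ) (A : Matrix (Ix g) (Ix g) ℝ) : (PP e A)ᵀ = PP e A := by
  unfold PP
  rw [Matrix.transpose_sum]
  refine Finset.sum_congr rfl fun w _ => ?_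
  rw [Matrix.transpose_smul, Matrix.transpose_vecMulVec]

theorem PP_qf (e : ℝ) (A : Matrix (Ix g) (Ix g) ℝ) (ξ : Ix g → ℝ) :
    qf (PP e A) ξ = ∑ w ∈ shF e A, kk e (qf A (iv w)) / ZZ e A * (iv w ⬝ᵥ ξ) ^ 2 := by
  unfold PP
  rw [mrdef_qf_sum]
  refine Finset.sum_congr rfl fun w _ => ?_
  rw [mrdef_qf_smul, mrdef_qf_vmv]

theorem PP_nonneg {e : ℝ} {A : Matrix (Ix g) (Ix g) ℝ} (hA : PD A) (ξ : Ix g → ℝ) :
    0 ≤ qf (PP e A) ξ := by
  rw [PP_qf]
  refine Finset.sum_nonneg fun w _ => mul_nonneg (div_nonneg (mrdef_kk_nonneg _ _) ?_) (sq_nonneg _)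
  exact le_trans zero_le_one (ZZ_pos hA)

theorem PP_le {e : ℝ} {A : Matrix (Ix g) (Ix g) ℝ} (hA : PD A) (ξ : Ix g → ℝ) :
    qf (PP e A) ξ ≤ qf A⁻¹ ξ := by
  rw [PP_qf]
  have hZ : 1 ≤ ZZ e A := ZZ_pos hA
  have hZ0 : 0 < ZZ e A := lt_of_lt_of_le one_pos hZ
  have hq : 0 ≤ qf A⁻¹ ξ := qf_nonneg hA.inv ξ
  have h1 : ∑ w ∈ shF e A, kk e (qf A (iv w)) / ZZ e A * (iv w ⬝ᵥ ξ) ^ 2
      ≤ ∑ w ∈ shF e A, (kk e (qf A (iv w)) * qf A (iv w)) * (qf A⁻¹ ξ / ZZ e A) := by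
    refine Finset.sum_le_sum fun w _ => ?_
    have h2 := hA.cauchy' (iv w) ξ
    have h3 : 0 ≤ kk e (qf A (iv w)) / ZZ e A := div_nonneg (mrdef_kk_nonneg _ _) hZ0.le
    have h4 := mul_le_mul_of_nonneg_left h2 h3
    have h5 : kk e (qf A (iv w)) / ZZ e A * (qf A (iv w) * qf A⁻¹ ξ)
        = (kk e (qf A (iv w)) * qf A (iv w)) * (qf A⁻¹ ξ / ZZ e A) := by ring
    linarith
  rw [← Finset.sum_mul] at h1
  have h6 : ∑ w ∈ shF e A, kk e (qf A (iv w)) * qf A (iv w) = ZZ e A - 1 := by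
    unfold ZZ
    ring
  rw [h6] at h1
  have h7 : (ZZ e A - 1) * (qf A⁻¹ ξ / ZZ e A) ≤ qf A⁻¹ ξ := by
    have h8 : 0 ≤ qf A⁻¹ ξ / ZZ e A := div_nonneg hq hZ0.le
    have h9 : ZZ e A * (qf A⁻¹ ξ / ZZ e A) = qf A⁻¹ ξ := by
      field_simp
    nlinarith
  linarith

theorem PP_J {e : ℝ} (he : e ≤ 1) (A : SpF g) : PP e A.1 * JR g * PP e A.1 = 0 := by
  unfold PP
  rw [Finset.sum_mul, Finset.sum_mul_sum]
  refine Finset.sum_eq_zero fun w hw => Finset.sum_eq_zero fun w' hw' => ?_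
  rw [mem_shF A.2.1] at hw hw'
  have h1 := sp_isotropic A w w' (by linarith) (by linarith)
  have h2 : Matrix.vecMulVec (iv w) (iv w) * JR g * Matrix.vecMulVec (iv w') (iv w') = 0 := by
    rw [Matrix.mul_assoc, Matrix.mul_vecMulVec, Matrix.vecMulVec_mul_vecMulVec, h1, zero_smul,
      Matrix.vecMulVec_zero]
  rw [Matrix.smul_mul, Matrix.smul_mul, Matrix.mul_smul, h2, smul_zero, smul_zero]

theorem PP_mulJ {e : ℝ} (he : e ≤ 1) (A : SpF g) (v : Ix g → ℤ) (hv : qf A.1 (iv v) < e) :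
    PP e A.1 *ᵥ (JR g *ᵥ iv v) = 0 := by
  unfold PP
  rw [Matrix.sum_mulVec]
  refine Finset.sum_eq_zero fun w hw => ?_
  rw [mem_shF A.2.1] at hw
  rw [Matrix.smul_mulVec, mrdef_vmv, sp_isotropic A w v (by linarith) (by linarith), zero_smul,
    smul_zero]

theorem rr0_alg {ι : Type} [Fintype ι] [DecidableEq ι] {A P J : Matrix ι ι ℝ} (hJ : J * J = -1)
    (hJt : Jᵀ = -J) (hA : A * J * A = J) (hP : P * J * P = 0)
    (hB : IsUnit (A + A * P * A)) :
    (A * P * A + Jᵀ * (A + A * P * A)⁻¹ * J) * J * (A * P * A + Jᵀ * (A + A * P * A)⁻¹ * J) = J := by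
  obtain ⟨B, hBd⟩ : ∃ B, B = A + A * P * A := ⟨_, rfl⟩
  obtain ⟨C, hCd⟩ : ∃ C, C = B⁻¹ := ⟨_, rfl⟩
  have hdet : IsUnit B.det := by
    rw [hBd]
    exact (Matrix.isUnit_iff_isUnit_det _).1 hB
  have hBC : B * C = 1 := by rw [hCd]; exact Matrix.mul_nonsing_inv _ hdet
  have hCB : C * B = 1 := by rw [hCd]; exact Matrix.nonsing_inv_mul _ hdet
  have hAPA : A * P * A = B - A := by rw [hBd]; abel
  rw [← hBd, ← hCd, hJt]
  -- products
  have e1 : A * P * A * J * A = A * P * J := by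
    calc A * P * A * J * A = A * P * (A * J * A) := by simp only [Matrix.mul_assoc]
      _ = A * P * J := by rw [hA]
  have e2 : A * J * (A * P * A) = J * P * A := by
    calc A * J * (A * P * A) = (A * J * A) * P * A := by simp only [Matrix.mul_assoc]
      _ = J * P * A := by rw [hA]
  have e3 : A * P * A * J * (A * P * A) = 0 := by
    calc A * P * A * J * (A * P * A) = A * (P * (A * J * A) * P) * A := by
          simp only [Matrix.mul_assoc]
      _ = 0 := by rw [hA, hP]; simp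
  have f1 : B * J * A = J + A * P * J := by
    rw [hBd, add_mul, add_mul, hA, e1]
  have f2 : A * J * B = J + J * P * A := by
    rw [hBd, mul_add, hA, e2]
  have f3 : B * J * B = J + J * P * A + A * P * J := by
    have : B * J * B = B * J * A + B * J * (A * P * A) := by
      rw [hAPA, mul_sub]
      abel
    rw [this, f1]
    have h2 : B * J * (A * P * A) = J * P * A := by
      rw [hBd, add_mul, add_mul, e2, e3, add_zero]
    rw [h2]
    abel
  have star : B * J * B - B * J * A - A * J * B + J = 0 := by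
    rw [f1, f2, f3]
    abel
  have star2 : J - J * A * C - C * A * J + C * J * C = 0 := by
    have h1 : C * (B * J * B - B * J * A - A * J * B + J) * C = 0 := by rw [star]; simp
    have h2 : C * (B * J * B - B * J * A - A * J * B + J) * C
        = (C * B) * J * (B * C) - (C * B) * J * A * C - C * A * J * (B * C) + C * J * C := by
      noncomm_ring
    rw [h2, hBC, hCB] at h1
    simpa using h1
  have g1 : (A * P * A + -J * C * J) * J * (A * P * A + -J * C * J)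
      = A * P * A * J * (A * P * A) - A * P * A * (J * J) * C * J - J * C * (J * J) * (A * P * A)
        + J * C * (J * J) * J * C * J := by
    noncomm_ring
  rw [g1, e3, hJ, hAPA]
  have g2 : (0 : Matrix ι ι ℝ) - (B - A) * -1 * C * J - J * C * -1 * (B - A) + J * C * -1 * J * C * J
      = (B * C) * J - A * C * J + J * (C * B) - J * C * A - J * C * J * C * J := by
    noncomm_ring
  rw [g2, hBC, hCB]
  have g3 : J * (J - J * A * C - C * A * J + C * J * C) * J = 0 := by rw [star2]; simp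
  have g4 : J * (J - J * A * C - C * A * J + C * J * C) * J
      = (J * J) * J - (J * J) * A * C * J - J * C * A * (J * J) + J * C * J * C * J := by
    noncomm_ring
  rw [g4, hJ] at g3
  have g5 : (-1 : Matrix ι ι ℝ) * J - -1 * A * C * J - J * C * A * -1 + J * C * J * C * J
      = -J + A * C * J + J * C * A + J * C * J * C * J := by
    noncomm_ring
  rw [g5] at g3
  have g6 : (1 : Matrix ι ι ℝ) * J - A * C * J + J * 1 - J * C * A - J * C * J * C * J
      = J - (-J + A * C * J + J * C * A + J * C * J * C * J) := by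
    noncomm_ring
  rw [g6, g3, sub_zero]

theorem rr0_mem {e : ℝ} (he : e ≤ 1) (A : SpF g) :
    PD (rr0 e A.1) ∧ rr0 e A.1 * JR g * rr0 e A.1 = JR g := by
  obtain ⟨hPD, hJ⟩ := A.2
  have hAt : (A.1)ᵀ = A.1 := hPD.symm
  have h1 : (A.1 * PP e A.1 * A.1)ᵀ = A.1 * PP e A.1 * A.1 := by
    rw [Matrix.transpose_mul, Matrix.transpose_mul, PP_symm, hAt, Matrix.mul_assoc]
  have h2 : ∀ v, 0 ≤ qf (A.1 * PP e A.1 * A.1) v := by
    intro v
    have h3 := qf_conj (PP e A.1) A.1 v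
    rw [hAt] at h3
    rw [h3]
    exact PP_nonneg hPD _
  have hB : PD (A.1 + A.1 * PP e A.1 * A.1) := hPD.add h1 h2
  have hJu : IsUnit (JR g) := (Matrix.isUnit_iff_isUnit_det _).2 (Matrix.isUnit_det_J _ _)
  have hC : PD ((JR g)ᵀ * (A.1 + A.1 * PP e A.1 * A.1)⁻¹ * JR g) := hB.inv.conj hJu
  refine ⟨?_, ?_⟩
  · unfold rr0
    rw [add_comm]
    exact hC.add h1 h2
  · unfold rr0
    exact rr0_alg (Matrix.J_squared _ _) (Matrix.J_transpose _ _) hJ (PP_J he A) hB.isUnit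

/-- the map -/
noncomputable def rr (e : ℝ) (he : e ≤ 1) (A : SpF g) : SpF g := ⟨rr0 e A.1, rr0_mem he A⟩

end

end Tor
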