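import Mathlib
import Pool.Agent.Lib.MP_05cdf2_gt.B.MRDef
import Pool.Agent.Lib.MP_05cdf2_gt.B.MLown

/-! MP_05cdf2_gt, B-Sp, job MRa: properties of the map `r = rr e he A`.

Notation `P = PP e A`, `B = A + A P A` (PD, `PD.add`), `qf r v = qf P (A v) + qf B⁻¹ (J v)` (`qf_conj` twice; `rr_qf`).
`rr_short`: `v` integral with `qf A v < e`. `qf P (A v) ≥ c_v (v ⬝ᵥ A v)^2 = c_v (qf A v)^2` (`PP_qf`, one term of a sum of nonnegative terms).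
`B (A⁻¹ J v) = J v + A P J v = J v` (`PP_mulJ`), so `B⁻¹ J v = A⁻¹ J v` and `qf B⁻¹ (J v) = qf A⁻¹ (J v) = qf A (Jᵀ J v) = qf A v` (`sp_inv_qf`).
`rr_half`: `qf (A P A) v = qf P (A v) ≤ qf A⁻¹ (A v) = qf A v` (`PP_le`), so `qf B v ≤ 2 qf A v` and by `inv_anti` `qf A⁻¹ w ≤ 2 qf B⁻¹ w`; so
`qf r v ≥ qf B⁻¹ (J v) ≥ 1/2 qf A⁻¹ (J v) = 1/2 qf A v`.
`rr_two`: `qf A ≤ qf B` so `qf B⁻¹ ≤ qf A⁻¹` (`inv_anti` with `K = 1`), `qf r v ≤ qf A v + qf A⁻¹ (J v) = 2 qf A v`.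
`rr_fix`: only `w = 0` is in `shF`, and `vecMulVec 0 0 = 0`, so `P = 0`, `r = Jᵀ A⁻¹ J = A` by `sp_inv` (`A⁻¹ = J A Jᵀ`, `Jᵀ J = 1`).
-/

set_option autoImplicit false

namespace Tor
open Matrix

section
variable {g : ℕ}

theorem mra_JtJ : (JR g)ᵀ * JR g = 1 := by
  rw [Matrix.J_transpose, neg_mul, Matrix.J_squared, neg_neg]

theorem mra_JJ (v : Ix g → ℝ) : (JR g)ᵀ *ᵥ (JR g *ᵥ v) = v := by
  rw [Matrix.mulVec_mulVec, mra_JtJ, Matrix.one_mulVec]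

theorem mra_add (A B : Matrix (Ix g) (Ix g) ℝ) (v : Ix g → ℝ) :
    qf (A + B) v = qf A v + qf B v := by
  simp only [qf, Matrix.add_mulVec, dotProduct_add]

theorem mra_APA (e : ℝ) (A : SpF g) (v : Ix g → ℝ) :
    qf (A.1 * PP e A.1 * A.1) v = qf (PP e A.1) (A.1 *ᵥ v) := by
  have h := qf_conj (PP e A.1) A.1 v
  rwa [A.2.1.symm] at h

theorem mra_B (e : ℝ) (A : SpF g) : PD (A.1 + A.1 * PP e A.1 * A.1) := by
  refine PD.add A.2.1 ?_ ?_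
  · rw [Matrix.transpose_mul, Matrix.transpose_mul, PP_symm, A.2.1.symm, Matrix.mul_assoc]
  · intro v
    rw [mra_APA]
    exact PP_nonneg A.2.1 _

theorem mra_invJ (A : SpF g) (v : Ix g → ℝ) : qf (A.1)⁻¹ (JR g *ᵥ v) = qf A.1 v := by
  rw [sp_inv_qf, mra_JJ]

theorem mra_invA (A : SpF g) (v : Ix g → ℝ) : qf (A.1)⁻¹ (A.1 *ᵥ v) = qf A.1 v := by
  have hu : IsUnit A.1.det := (Matrix.isUnit_iff_isUnit_det _).1 A.2.1.isUnit
  simp only [qf]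
  rw [Matrix.mulVec_mulVec, Matrix.nonsing_inv_mul _ hu, Matrix.one_mulVec, dotProduct_comm]

theorem mra_le (e : ℝ) (A : SpF g) (v : Ix g → ℝ) :
    qf (PP e A.1) (A.1 *ᵥ v) ≤ qf A.1 v := by
  rw [← mra_invA A v]
  exact PP_le A.2.1 _

theorem rr_qf {e : ℝ} (he : e ≤ 1) (A : SpF g) (v : Ix g → ℝ) :
    qf (rr e he A).1 v = qf (PP e A.1) (A.1 *ᵥ v) +
      qf (A.1 + A.1 * PP e A.1 * A.1)⁻¹ (JR g *ᵥ v) := by
  have h : (rr e he A).1 = A.1 * PP e A.1 * A.1 +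
      (JR g)ᵀ * (A.1 + A.1 * PP e A.1 * A.1)⁻¹ * JR g := rfl
  rw [h, mra_add, mra_APA, qf_conj]

theorem rr_short {e : ℝ} (he : e ≤ 1) (A : SpF g) (v : Ix g → ℤ) (hv : qf A.1 (iv v) < e) :
    qf A.1 (iv v) + kk e (qf A.1 (iv v)) / ZZ e A.1 * (qf A.1 (iv v)) ^ 2 ≤
      qf (rr e he A).1 (iv v) := by
  rw [rr_qf]
  have hZ : 0 < ZZ e A.1 := lt_of_lt_of_le one_pos (ZZ_pos A.2.1)
  have h1 : kk e (qf A.1 (iv v)) / ZZ e A.1 * (qf A.1 (iv v)) ^ 2 ≤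
      qf (PP e A.1) (A.1 *ᵥ iv v) := by
    rw [PP_qf]
    have hmem : v ∈ shF e A.1 := (mem_shF A.2.1 v).2 hv
    have hn : ∀ w ∈ shF e A.1, 0 ≤ kk e (qf A.1 (iv w)) / ZZ e A.1 *
        (iv w ⬝ᵥ (A.1 *ᵥ iv v)) ^ 2 := fun w _ =>
      mul_nonneg (div_nonneg (le_max_left _ _) hZ.le) (sq_nonneg _)
    exact Finset.single_le_sum hn hmem
  have h2 : qf (A.1 + A.1 * PP e A.1 * A.1)⁻¹ (JR g *ᵥ iv v) = qf A.1 (iv v) := by
    have hu : IsUnit A.1.det := (Matrix.isUnit_iff_isUnit_det _).1 A.2.1.isUnit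
    have huB : IsUnit (A.1 + A.1 * PP e A.1 * A.1).det :=
      (Matrix.isUnit_iff_isUnit_det _).1 (mra_B e A).isUnit
    have h3 : (A.1 + A.1 * PP e A.1 * A.1) *ᵥ ((A.1)⁻¹ *ᵥ (JR g *ᵥ iv v)) = JR g *ᵥ iv v := by
      have h4 : A.1 *ᵥ ((A.1)⁻¹ *ᵥ (JR g *ᵥ iv v)) = JR g *ᵥ iv v := by
        rw [Matrix.mulVec_mulVec, Matrix.mul_nonsing_inv _ hu, Matrix.one_mulVec]
      rw [Matrix.add_mulVec, ← Matrix.mulVec_mulVec, h4, ← Matrix.mulVec_mulVec,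
        PP_mulJ he A v hv, Matrix.mulVec_zero, add_zero]
    have h5 : (A.1 + A.1 * PP e A.1 * A.1)⁻¹ *ᵥ (JR g *ᵥ iv v) =
        (A.1)⁻¹ *ᵥ (JR g *ᵥ iv v) := by
      conv_lhs => rw [← h3]
      rw [Matrix.mulVec_mulVec, Matrix.nonsing_inv_mul _ huB, Matrix.one_mulVec]
    rw [← mra_invJ A (iv v)]
    simp only [qf]
    rw [h5]
  rw [h2]
  linarith

theorem rr_half {e : ℝ} (he : e ≤ 1) (A : SpF g) (v : Ix g → ℝ) :
    qf A.1 v ≤ 2 * qf (rr e he A).1 v := by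
  have h1 : ∀ v, qf (A.1 + A.1 * PP e A.1 * A.1) v ≤ 2 * qf A.1 v := by
    intro v
    rw [mra_add, mra_APA]
    have := mra_le e A v
    linarith
  have h2 := inv_anti (mra_B e A) A.2.1 2 two_pos h1 (JR g *ᵥ v)
  rw [mra_invJ] at h2
  rw [rr_qf]
  have h3 := PP_nonneg (e := e) A.2.1 (A.1 *ᵥ v)
  linarith

theorem rr_two {e : ℝ} (he : e ≤ 1) (A : SpF g) (v : Ix g → ℝ) :
    qf (rr e he A).1 v ≤ 2 * qf A.1 v := by
  have h1 : ∀ v, qf A.1 v ≤ 1 * qf (A.1 + A.1 * PP e A.1 * A.1) v := by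
    intro v
    rw [mra_add, mra_APA]
    have := PP_nonneg (e := e) A.2.1 (A.1 *ᵥ v)
    linarith
  have h2 := inv_anti A.2.1 (mra_B e A) 1 one_pos h1 (JR g *ᵥ v)
  rw [mra_invJ] at h2
  rw [rr_qf]
  have h3 := mra_le e A v
  linarith

theorem rr_near {e : ℝ} (he : e ≤ 1) (A : SpF g) : SNear (Real.log 2) A.1 (rr e he A).1 := by
  intro v
  rw [Real.exp_log two_pos]
  exact ⟨rr_two he A v, rr_half he A v⟩

theorem rr_fix {e : ℝ} (he : e ≤ 1) (A : SpF g)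
    (h : ∀ v : Ix g → ℤ, v ≠ 0 → e ≤ qf A.1 (iv v)) : rr e he A = A := by
  have hP : PP e A.1 = 0 := by
    unfold PP
    refine Finset.sum_eq_zero fun w hw => ?_
    have h1 : qf A.1 (iv w) < e := (mem_shF A.2.1 w).1 hw
    have h2 : w = 0 := by
      by_contra hne
      exact absurd (h w hne) (not_le.2 h1)
    have h3 : (iv w : Ix g → ℝ) = 0 := by
      funext i
      simp [iv, h2]
    rw [h3, Matrix.vecMulVec_zero, smul_zero]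
  apply Subtype.ext
  have h0 : (rr e he A).1 = A.1 * PP e A.1 * A.1 +
      (JR g)ᵀ * (A.1 + A.1 * PP e A.1 * A.1)⁻¹ * JR g := rfl
  rw [h0, hP, Matrix.mul_zero, Matrix.zero_mul, add_zero, zero_add, sp_inv]
  calc (JR g)ᵀ * (JR g * A.1 * (JR g)ᵀ) * JR g
      = ((JR g)ᵀ * JR g) * A.1 * ((JR g)ᵀ * JR g) := by simp only [Matrix.mul_assoc]
    _ = A.1 := by rw [mra_JtJ, Matrix.one_mul, Matrix.mul_one]

end

end Tor
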