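import Mathlib
import Pool.Agent.Lib.MP_05cdf2_gt.B.MRa

/-! MP_05cdf2_gt, B-Sp, job MRb: iterating the map `r` removes the very short vectors.

`sh_card`: choose a natural number `p ≥ 1` with `4 e < p^2 μ`. The map `w ↦ (w i : ZMod p)` is injective on `shF e A`: if
`w ≠ w'` are congruent then `w - w' = p u` with `u ≠ 0`, so `qf A (w - w') = p^2 qf A u ≥ p^2 μ > 4 e` (`qf_smul`), but
`qf A (a - b) ≤ 2 qf A a + 2 qf A b` (parallelogram) `< 4 e`. So `N = Fintype.card (Ix g → ZMod p)` works (`Finset.card_le_card_of_injOn`).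
`ZZ_le`: every term of the sum has `0 ≤ s < e ≤ 1`, `kk e s * s ≤ 1`.
`rr_step`: `μ ≤ m ≤ e/2` a lower bound for `qf A`; `v ≠ 0`: (i) `qf A v ≥ e`: `rr_half`. (ii) `e/2 ≤ qf A v < e`: `rr_short` gives
`qf r v ≥ qf A v`. (iii) `qf A v < e/2`: `kk ≥ e/2`, `ZZ ≤ 1 + N`, so
`qf r v ≥ qf A v + (e/2) / (1 + N) * m^2 ≥ m + (e/2)/(1+N) * μ^2`.
`rr_growth`: let `μ' = min μ (e/2)`, `δ = (e/2)/(1+N) * μ'^2`; by induction on `n` (`Function.iterate_succ_apply'`) `min (e/2) (μ' + n δ) ≤ qf (r^n A) v` for all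
`v ≠ 0`; take `n` with `μ' + n δ ≥ e/2`.
-/

set_option autoImplicit false

namespace Tor
open Matrix

section
variable {g : ℕ}

theorem mrb_sub {A : Matrix (Ix g) (Ix g) ℝ} (hA : PD A) (v w : Ix g → ℝ) :
    qf A (v - w) ≤ 2 * qf A v + 2 * qf A w := by
  have h1 : qf A (v - w) + qf A (v + w) = 2 * qf A v + 2 * qf A w := by
    unfold qf
    rw [mulVec_sub, mulVec_add]
    simp only [dotProduct_sub, sub_dotProduct, dotProduct_add, add_dotProduct]
    ring
  have h2 := qf_nonneg hA (v + w)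
  linarith

theorem sh_card (e μ : ℝ) (he : 0 < e) (hμ : 0 < μ) : ∃ N : ℕ, ∀ A : SpF g,
    (∀ v : Ix g → ℤ, v ≠ 0 → μ ≤ qf A.1 (iv v)) → (shF e A.1).card ≤ N := by
  classical
  obtain ⟨p, hp⟩ := exists_nat_gt (4 * e / μ)
  have hp0 : (0 : ℝ) < p := lt_trans (by positivity) hp
  have hp1 : 1 ≤ p := by
    have : 0 < p := by exact_mod_cast hp0
    omega
  have hp2 : 4 * e < (p : ℝ) ^ 2 * μ := by
    have h1 : 4 * e < p * μ := by
      rw [div_lt_iff₀ hμ] at hp
      exact hp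
    have h2 : (1 : ℝ) ≤ p := by exact_mod_cast hp1
    have h3 : (p : ℝ) * μ ≤ (p : ℝ) ^ 2 * μ := by
      apply mul_le_mul_of_nonneg_right _ hμ.le
      nlinarith
    linarith
  haveI : NeZero p := ⟨by omega⟩
  refine ⟨Fintype.card (Ix g → ZMod p), fun A hA => ?_⟩
  rw [← Finset.card_univ]
  apply Finset.card_le_card_of_injOn (fun (w : Ix g → ℤ) (i : Ix g) => ((w i : ℤ) : ZMod p))
  · intro w _
    exact Finset.mem_coe.2 (Finset.mem_univ _)
  · intro w hw w' hw' hww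
    by_contra hne
    rw [Finset.mem_coe, mem_shF A.2.1] at hw hw'
    have hd : ∀ i, ∃ t : ℤ, w i - w' i = (p : ℤ) * t := by
      intro i
      have h1 : ((w' i : ℤ) : ZMod p) = ((w i : ℤ) : ZMod p) := (congrFun hww i).symm
      rw [ZMod.intCast_eq_intCast_iff_dvd_sub] at h1
      exact h1
    choose u hu using hd
    have hu0 : u ≠ 0 := by
      intro h
      apply hne
      funext i
      have h1 := hu i
      rw [h] at h1
      simp only [Pi.zero_apply, mul_zero] at h1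
      omega
    have h2 : iv w - iv w' = (p : ℝ) • iv u := by
      funext i
      simp only [Pi.sub_apply, iv, Pi.smul_apply, smul_eq_mul]
      have h1 := hu i
      have h3 : ((w i - w' i : ℤ) : ℝ) = (((p : ℤ) * u i : ℤ) : ℝ) := by rw [h1]
      push_cast at h3
      exact h3
    have h3 := mrb_sub A.2.1 (iv w) (iv w')
    rw [h2, qf_smul] at h3
    have h4 := hA u hu0
    have h5 : (p : ℝ) ^ 2 * μ ≤ (p : ℝ) ^ 2 * qf A.1 (iv u) :=
      mul_le_mul_of_nonneg_left h4 (by positivity)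
    linarith

theorem ZZ_le {e : ℝ} (he : e ≤ 1) (A : SpF g) : ZZ e A.1 ≤ 1 + (shF e A.1).card := by
  unfold ZZ
  have h : ∑ w ∈ shF e A.1, kk e (qf A.1 (iv w)) * qf A.1 (iv w) ≤ (shF e A.1).card • (1 : ℝ) := by
    apply Finset.sum_le_card_nsmul
    intro w hw
    rw [mem_shF A.2.1] at hw
    have h0 := qf_nonneg A.2.1 (iv w)
    unfold kk
    rw [max_eq_right (by linarith)]
    nlinarith
  rw [nsmul_eq_mul, mul_one] at h
  linarith

theorem rr_step {e : ℝ} (he0 : 0 < e) (he : e ≤ 1) (μ m : ℝ) (hμ : 0 < μ) (hm : μ ≤ m)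
    (hm' : m ≤ e / 2) (N : ℕ) (A : SpF g) (hN : (shF e A.1).card ≤ N)
    (h : ∀ v : Ix g → ℤ, v ≠ 0 → m ≤ qf A.1 (iv v)) (v : Ix g → ℤ) (hv : v ≠ 0) :
    min (e / 2) (m + e / 2 / (1 + N) * μ ^ 2) ≤ qf (rr e he A).1 (iv v) := by
  have h0 := qf_nonneg A.2.1 (iv v)
  rcases le_or_gt e (qf A.1 (iv v)) with h1 | h1
  · have h2 := rr_half he A (iv v)
    refine le_trans (min_le_left _ _) ?_
    linarith
  · have hs := rr_short he A v h1
    have hZ1 : 1 ≤ ZZ e A.1 := ZZ_pos A.2.1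
    have hk0 : 0 ≤ kk e (qf A.1 (iv v)) := le_max_left _ _
    rcases le_or_gt (e / 2) (qf A.1 (iv v)) with h2 | h2
    · refine le_trans (min_le_left _ _) (le_trans h2 (le_trans ?_ hs))
      have h3 : 0 ≤ kk e (qf A.1 (iv v)) / ZZ e A.1 * (qf A.1 (iv v)) ^ 2 := by positivity
      linarith
    · refine le_trans (min_le_right _ _) (le_trans ?_ hs)
      have hk : e / 2 ≤ kk e (qf A.1 (iv v)) := by
        unfold kk
        exact le_trans (by linarith) (le_max_right _ _)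
      have hZ : ZZ e A.1 ≤ 1 + N := by
        have h3 := ZZ_le he A
        have h4 : ((shF e A.1).card : ℝ) ≤ N := by exact_mod_cast hN
        linarith
      have hq : μ ≤ qf A.1 (iv v) := le_trans hm (h v hv)
      have h5 : e / 2 / (1 + N) ≤ kk e (qf A.1 (iv v)) / ZZ e A.1 :=
        div_le_div₀ hk0 hk (by linarith) hZ
      have h6 : μ ^ 2 ≤ (qf A.1 (iv v)) ^ 2 := pow_le_pow_left₀ hμ.le hq 2
      have h7 : e / 2 / (1 + N) * μ ^ 2 ≤
          kk e (qf A.1 (iv v)) / ZZ e A.1 * (qf A.1 (iv v)) ^ 2 :=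
        mul_le_mul h5 h6 (by positivity) (by positivity)
      have h8 := h v hv
      linarith

theorem rr_growth {e : ℝ} (he0 : 0 < e) (he : e ≤ 1) (μ : ℝ) (hμ : 0 < μ) : ∃ n : ℕ,
    ∀ A : SpF g, (∀ v : Ix g → ℤ, v ≠ 0 → μ ≤ qf A.1 (iv v)) →
      ∀ v : Ix g → ℤ, v ≠ 0 → e / 4 ≤ qf ((rr e he)^[n] A).1 (iv v) := by
  obtain ⟨μ', hμ'⟩ : ∃ μ', μ' = min μ (e / 2) := ⟨_, rfl⟩
  have hμ'0 : 0 < μ' := by rw [hμ']; exact lt_min hμ (by linarith)
  have hμ'e : μ' ≤ e / 2 := by rw [hμ']; exact min_le_right _ _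
  have hμ'μ : μ' ≤ μ := by rw [hμ']; exact min_le_left _ _
  obtain ⟨N, hN⟩ := sh_card (g := g) e μ' he0 hμ'0
  obtain ⟨δ, hδ⟩ : ∃ δ, δ = e / 2 / (1 + (N : ℝ)) * μ' ^ 2 := ⟨_, rfl⟩
  have hδ0 : 0 < δ := by rw [hδ]; positivity
  have key : ∀ A : SpF g, (∀ v : Ix g → ℤ, v ≠ 0 → μ ≤ qf A.1 (iv v)) → ∀ n : ℕ,
      ∀ v : Ix g → ℤ, v ≠ 0 → min (e / 2) (μ' + n * δ) ≤ qf ((rr e he)^[n] A).1 (iv v) := by
    intro A hA n
    induction n with
    | zero =>
      intro v hv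
      refine le_trans (min_le_right _ _) ?_
      simp only [Nat.cast_zero, zero_mul, add_zero, Function.iterate_zero, id_eq]
      exact le_trans hμ'μ (hA v hv)
    | succ n ih =>
      intro v hv
      rw [Function.iterate_succ_apply']
      have hn : 0 ≤ (n : ℝ) * δ := by positivity
      have h1 : μ' ≤ min (e / 2) (μ' + n * δ) := le_min hμ'e (by linarith)
      have h2 := rr_step he0 he μ' (min (e / 2) (μ' + n * δ)) hμ'0 h1 (min_le_left _ _) N
        ((rr e he)^[n] A) (hN _ (fun w hw => le_trans h1 (ih w hw))) ih v hv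
      refine le_trans ?_ h2
      rw [← hδ]
      apply le_min (min_le_left _ _)
      rcases le_total (e / 2) (μ' + n * δ) with h3 | h3
      · rw [min_eq_left h3]
        exact le_trans (min_le_left _ _) (by linarith)
      · rw [min_eq_right h3]
        refine le_trans (min_le_right _ _) ?_
        push_cast
        linarith
  obtain ⟨n, hn⟩ := exists_nat_ge (e / 2 / δ)
  refine ⟨n, fun A hA v hv => ?_⟩
  refine le_trans ?_ (key A hA n v hv)
  rw [div_le_iff₀ hδ0] at hn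
  apply le_min (by linarith)
  linarith

end

end Tor
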