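import Mathlib
import Pool.Agent.Lib.MP_05cdf2_gt.B.MBasic

/-! MP_05cdf2_gt, B-Sp, job MRc: closeness versus convergence of matrices.

`near_of_tendsto`: `|qf (X k) v - qf Y v| ≤ ε (∑ |v i|)^2 ≤ ε n ∑ (v i)^2` where `ε` bounds the entries of `X k - Y` in absolute
value, and `(v i)^2 ≤ qf Y v * qf Y⁻¹ e_i` (`PD.cauchy'`), so `|qf (X k) v - qf Y v| ≤ ε C qf Y v` with a constant `C`; eventually `ε C` is so small that
`1 - ε C ≥ exp (-η)` and `1 + ε C ≤ exp η`.
`tendsto_of_near`: for every fixed `v`: `qf (X k) v → qf Z v` and `exp (-δ k) * qf (X k) v ≤ qf (Y k) v ≤ exp (δ k) * qf (X k) v`, so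
`qf (Y k) v → qf Z v` (squeeze). Entries: `2 M i j = qf M (e_i + e_j) - qf M e_i - qf M e_j` for symmetric `M` (also `Z` is symmetric as a limit);
`tendsto_pi_nhds` twice.
`sp_seq_compact`: `x k` has `qf (x k) v ≤ exp D * qf p v` for all `v`, so the entries are bounded by a constant `C` (polarisation as above, or
`PD.cauchy`). The box `{M | ∀ i j, |M i j| ≤ C}` is compact (`isCompact_univ_pi` twice, as functions `Ix g → Ix g → ℝ`), take a convergent
subsequence (`IsCompact.tendsto_subseq`). The limit `M` is symmetric, satisfies `M J M = J` (continuity), `SNear D p M` (limits of inequalities,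
`le_of_tendsto'`), and is PD because `qf p v ≤ exp D * qf M v`.
-/

set_option autoImplicit false

namespace Tor
open Matrix Filter Topology

section
variable {ι : Type} [Fintype ι] [DecidableEq ι]

theorem mrc_e (v : ι → ℝ) (i : ι) : v ⬝ᵥ (Pi.single i 1 : ι → ℝ) = v i := by
  rw [dotProduct_single, mul_one]

theorem mrc_qf_sub (A B : Matrix ι ι ℝ) (v : ι → ℝ) : qf (A - B) v = qf A v - qf B v := by
  unfold qf
  rw [Matrix.sub_mulVec, dotProduct_sub]

/-- sum of the absolute values of the entries -/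
noncomputable def mrcS (M : Matrix ι ι ℝ) : ℝ := ∑ i, ∑ j, |M i j|

theorem mrc_bound (M : Matrix ι ι ℝ) (v : ι → ℝ) : |qf M v| ≤ mrcS M * ∑ l, (v l) ^ 2 := by
  have h0 : ∀ i, (v i) ^ 2 ≤ ∑ l, (v l) ^ 2 := fun i =>
    Finset.single_le_sum (f := fun l => (v l) ^ 2) (fun l _ => sq_nonneg _) (Finset.mem_univ i)
  have h1 : ∀ i j, |v i * (M i j * v j)| ≤ |M i j| * ∑ l, (v l) ^ 2 := by
    intro i j
    rw [abs_mul, abs_mul]
    have h2 : |v i| * |v j| ≤ ∑ l, (v l) ^ 2 := by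
      have h3 := h0 i
      have h4 := h0 j
      have h5 : |v i| * |v j| ≤ ((v i) ^ 2 + (v j) ^ 2) / 2 := by
        have := sq_nonneg (|v i| - |v j|)
        have e1 := sq_abs (v i)
        have e2 := sq_abs (v j)
        nlinarith
      linarith
    have h6 := mul_le_mul_of_nonneg_left h2 (abs_nonneg (M i j))
    calc |v i| * (|M i j| * |v j|) = |M i j| * (|v i| * |v j|) := by ring
      _ ≤ _ := h6
  have h2 : qf M v = ∑ i, ∑ j, v i * (M i j * v j) := by
    unfold qf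
    simp only [dotProduct, Matrix.mulVec, Finset.mul_sum]
  rw [h2]
  calc |∑ i, ∑ j, v i * (M i j * v j)| ≤ ∑ i, |∑ j, v i * (M i j * v j)| :=
        Finset.abs_sum_le_sum_abs _ _
    _ ≤ ∑ i, ∑ j, |v i * (M i j * v j)| :=
        Finset.sum_le_sum fun i _ => Finset.abs_sum_le_sum_abs _ _
    _ ≤ ∑ i, ∑ j, |M i j| * ∑ l, (v l) ^ 2 :=
        Finset.sum_le_sum fun i _ => Finset.sum_le_sum fun j _ => h1 i j
    _ = mrcS M * ∑ l, (v l) ^ 2 := by
        unfold mrcS
        rw [Finset.sum_mul]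
        refine Finset.sum_congr rfl fun i _ => ?_
        rw [Finset.sum_mul]

theorem mrc_coord {A : Matrix ι ι ℝ} (hA : PD A) (v : ι → ℝ) :
    ∑ l, (v l) ^ 2 ≤ qf A v * ∑ l, qf A⁻¹ (Pi.single l 1) := by
  rw [Finset.mul_sum]
  refine Finset.sum_le_sum fun l _ => ?_
  have := hA.cauchy' v (Pi.single l 1)
  rwa [mrc_e] at this

theorem mrc_entry {M : Matrix ι ι ℝ} (hM : Mᵀ = M) (i j : ι) :
    M i j = (qf M (Pi.single i 1 + Pi.single j 1) - qf M (Pi.single i 1)
      - qf M (Pi.single j 1)) / 2 := by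
  have h1 : ∀ i j : ι, (Pi.single i 1 : ι → ℝ) ⬝ᵥ (M *ᵥ (Pi.single j 1 : ι → ℝ)) = M i j := by
    intro i j
    rw [Matrix.mulVec_single_one, single_dotProduct, one_mul]
    rfl
  have h2 : M j i = M i j := congrFun (congrFun hM i) j
  unfold qf
  rw [Matrix.mulVec_add, dotProduct_add, add_dotProduct, add_dotProduct, h1, h1, h1, h1, h2]
  ring

theorem mrc_qf_tendsto {X : ℕ → Matrix ι ι ℝ} {Z : Matrix ι ι ℝ} (h : Tendsto X atTop (𝓝 Z))
    (v : ι → ℝ) : Tendsto (fun k => qf (X k) v) atTop (𝓝 (qf Z v)) := by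
  have hc : Continuous (fun M : Matrix ι ι ℝ => qf M v) := by
    unfold qf
    exact continuous_const.dotProduct (continuous_id.matrix_mulVec continuous_const)
  exact (hc.tendsto Z).comp h

theorem mrc_of_entries {Y : ℕ → Matrix ι ι ℝ} {Z : Matrix ι ι ℝ}
    (h : ∀ i j, Tendsto (fun k => Y k i j) atTop (𝓝 (Z i j))) : Tendsto Y atTop (𝓝 Z) :=
  tendsto_pi_nhds.2 fun i => tendsto_pi_nhds.2 fun j => h i j

theorem mrc_entries {Y : ℕ → Matrix ι ι ℝ} {Z : Matrix ι ι ℝ} (h : Tendsto Y atTop (𝓝 Z))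
    (i j : ι) : Tendsto (fun k => Y k i j) atTop (𝓝 (Z i j)) :=
  tendsto_pi_nhds.1 (tendsto_pi_nhds.1 h i) j

theorem mrc_symm {X : ℕ → Matrix ι ι ℝ} {Z : Matrix ι ι ℝ} (h : Tendsto X atTop (𝓝 Z))
    (hX : ∀ k, (X k)ᵀ = X k) : Zᵀ = Z := by
  ext i j
  have h1 := mrc_entries h j i
  have h2 := mrc_entries h i j
  have h3 : (fun k => X k j i) = fun k => X k i j := by
    funext k
    exact congrFun (congrFun (hX k) i) j
  rw [h3] at h1
  exact tendsto_nhds_unique h1 h2

theorem near_of_tendsto (X : ℕ → Matrix ι ι ℝ) (Y : Matrix ι ι ℝ) (hY : PD Y)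
    (h : Tendsto X atTop (𝓝 Y)) (η : ℝ) (hη : 0 < η) : ∀ᶠ k in atTop, SNear η (X k) Y := by
  obtain ⟨C, hC⟩ : ∃ C, C = ∑ l, qf Y⁻¹ (Pi.single l 1) := ⟨_, rfl⟩
  have hS : Tendsto (fun k => mrcS (X k - Y) * C) atTop (𝓝 0) := by
    have hc : Continuous (fun M : Matrix ι ι ℝ => mrcS (M - Y) * C) := by
      unfold mrcS
      refine Continuous.mul (continuous_finsetSum _ fun i _ => continuous_finsetSum _ fun j _ => ?_)
        continuous_const
      have h1 : Continuous (fun M : Matrix ι ι ℝ => (M - Y) i j) := by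
        have h2 : Continuous (fun M : Matrix ι ι ℝ => M i j) := continuous_id.matrix_elem i j
        exact h2.sub continuous_const
      exact h1.abs
    have h3 := (hc.tendsto Y).comp h
    have h4 : mrcS (Y - Y) * C = 0 := by
      rw [sub_self]
      simp [mrcS]
    rw [h4] at h3
    exact h3
  have hexp : 0 < Real.exp η - 1 := by
    have := Real.add_one_lt_exp hη.ne'
    linarith
  have hexp2 : 0 < 1 - Real.exp (-η) := by
    have : Real.exp (-η) < 1 := by
      rw [Real.exp_lt_one_iff]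
      linarith
    linarith
  filter_upwards [hS.eventually (gt_mem_nhds hexp), hS.eventually (gt_mem_nhds hexp2)]
    with k hk1 hk2
  intro v
  have h1 := mrc_bound (X k - Y) v
  have h2 := mrc_coord hY v
  rw [← hC] at h2
  have h3 : 0 ≤ mrcS (X k - Y) :=
    Finset.sum_nonneg fun i _ => Finset.sum_nonneg fun j _ => abs_nonneg _
  have h4 := mul_le_mul_of_nonneg_left h2 h3
  have hq : 0 ≤ qf Y v := qf_nonneg hY v
  rw [mrc_qf_sub] at h1
  have h5 : |qf (X k) v - qf Y v| ≤ (mrcS (X k - Y) * C) * qf Y v := by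
    calc |qf (X k) v - qf Y v| ≤ mrcS (X k - Y) * ∑ l, (v l) ^ 2 := h1
      _ ≤ mrcS (X k - Y) * (qf Y v * C) := h4
      _ = (mrcS (X k - Y) * C) * qf Y v := by ring
  have h6 := abs_le.1 h5
  have h7 : (mrcS (X k - Y) * C) * qf Y v ≤ (Real.exp η - 1) * qf Y v :=
    mul_le_mul_of_nonneg_right hk1.le hq
  have h8 : (mrcS (X k - Y) * C) * qf Y v ≤ (1 - Real.exp (-η)) * qf Y v :=
    mul_le_mul_of_nonneg_right hk2.le hq
  constructor
  · have h9 : Real.exp (-η) * qf Y v ≤ qf (X k) v := by linarith [h6.1]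
    have h10 := mul_le_mul_of_nonneg_left h9 (Real.exp_pos η).le
    rw [← mul_assoc, ← Real.exp_add, add_neg_cancel, Real.exp_zero, one_mul] at h10
    exact h10
  · linarith [h6.2]

theorem tendsto_of_near (X Y : ℕ → Matrix ι ι ℝ) (Z : Matrix ι ι ℝ) (hX : Tendsto X atTop (𝓝 Z))
    (hXs : ∀ k, (X k)ᵀ = X k) (hYs : ∀ k, (Y k)ᵀ = Y k) (δ : ℕ → ℝ)
    (hδ : Tendsto δ atTop (𝓝 0)) (h : ∀ k, SNear (δ k) (X k) (Y k)) : Tendsto Y atTop (𝓝 Z) := by
  have hq : ∀ v, Tendsto (fun k => qf (Y k) v) atTop (𝓝 (qf Z v)) := by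
    intro v
    have h1 := mrc_qf_tendsto hX v
    have h2 : Tendsto (fun k => Real.exp (-δ k) * qf (X k) v) atTop (𝓝 (qf Z v)) := by
      have h3 : Tendsto (fun k => Real.exp (-δ k)) atTop (𝓝 1) := by
        have h4 := (Real.continuous_exp.tendsto (-0)).comp hδ.neg
        rw [neg_zero, Real.exp_zero] at h4
        exact h4
      have h5 := h3.mul h1
      rw [one_mul] at h5
      exact h5
    have h3 : Tendsto (fun k => Real.exp (δ k) * qf (X k) v) atTop (𝓝 (qf Z v)) := by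
      have h3 : Tendsto (fun k => Real.exp (δ k)) atTop (𝓝 1) := by
        have h4 := (Real.continuous_exp.tendsto 0).comp hδ
        rw [Real.exp_zero] at h4
        exact h4
      have h5 := h3.mul h1
      rw [one_mul] at h5
      exact h5
    refine tendsto_of_tendsto_of_tendsto_of_le_of_le h2 h3 (fun k => ?_) (fun k => ?_)
    · have h4 := (h k v).2
      have h5 := mul_le_mul_of_nonneg_left h4 (Real.exp_pos (-δ k)).le
      rw [← mul_assoc, ← Real.exp_add, neg_add_cancel, Real.exp_zero, one_mul] at h5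
      exact h5
    · exact (h k v).1
  have hZ : Zᵀ = Z := mrc_symm hX hXs
  apply mrc_of_entries
  intro i j
  have h1 : (fun k => Y k i j) = fun k => (qf (Y k) (Pi.single i 1 + Pi.single j 1)
      - qf (Y k) (Pi.single i 1) - qf (Y k) (Pi.single j 1)) / 2 := by
    funext k
    exact mrc_entry (hYs k) i j
  rw [h1, mrc_entry hZ i j]
  exact (((hq _).sub (hq _)).sub (hq _)).div_const 2

end

theorem sp_seq_compact {g : ℕ} (p : SpF g) (D : ℝ) (x : ℕ → SpF g)
    (h : ∀ k, SNear D p.1 (x k).1) : ∃ (y : SpF g) (φ : ℕ → ℕ), StrictMono φ ∧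
      SNear D p.1 y.1 ∧ Tendsto (fun k => (x (φ k)).1) atTop (𝓝 y.1) := by
  obtain ⟨C, hC⟩ : ∃ C : ℝ, ∀ k i j, |(x k).1 i j| ≤ C := by
    obtain ⟨C0, hC0⟩ : ∃ C0 : ℝ, ∀ i, qf p.1 (Pi.single i 1) ≤ C0 := by
      refine ⟨∑ i, |qf p.1 (Pi.single i 1)|, fun i => ?_⟩
      have h1 := Finset.single_le_sum (f := fun i => |qf p.1 (Pi.single i 1)|)
        (fun l _ => abs_nonneg _) (Finset.mem_univ i)
      exact le_trans (le_abs_self _) h1
    refine ⟨Real.exp D * C0, fun k i j => ?_⟩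
    have h1 := (x k).2.1.cauchy (Pi.single i 1) (Pi.single j 1)
    rw [Matrix.mulVec_single_one, single_dotProduct, one_mul] at h1
    have h2 : ∀ i, qf (x k).1 (Pi.single i 1) ≤ Real.exp D * C0 := fun i =>
      le_trans (h k _).1 (mul_le_mul_of_nonneg_left (hC0 i) (Real.exp_pos D).le)
    have h3 : ∀ i, 0 ≤ qf (x k).1 (Pi.single i 1) := fun i => qf_nonneg (x k).2.1 _
    have h4 : ((x k).1 i j) ^ 2 ≤ (Real.exp D * C0) ^ 2 := by
      calc ((x k).1 i j) ^ 2 ≤ qf (x k).1 (Pi.single i 1) * qf (x k).1 (Pi.single j 1) := h1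
        _ ≤ (Real.exp D * C0) * (Real.exp D * C0) :=
            mul_le_mul (h2 i) (h2 j) (h3 j) (le_trans (h3 i) (h2 i))
        _ = (Real.exp D * C0) ^ 2 := by ring
    exact abs_le_of_sq_le_sq h4 (le_trans (h3 i) (h2 i))
  have hcomp : IsCompact ((Set.univ.pi fun _ : Ix g => Set.univ.pi fun _ : Ix g =>
      Set.Icc (-C) C) : Set (Ix g → Ix g → ℝ)) :=
    isCompact_univ_pi fun i => isCompact_univ_pi fun j => isCompact_Icc
  have hin : ∀ k, (fun i j => (x k).1 i j : Ix g → Ix g → ℝ) ∈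
      ((Set.univ.pi fun _ : Ix g => Set.univ.pi fun _ : Ix g =>
      Set.Icc (-C) C) : Set (Ix g → Ix g → ℝ)) := fun k i _ j _ => abs_le.1 (hC k i j)
  obtain ⟨M, hM, φ, hφ, hlim⟩ := hcomp.tendsto_subseq hin
  suffices H : ∀ M : Matrix (Ix g) (Ix g) ℝ, Tendsto (fun k => (x (φ k)).1) atTop (𝓝 M) →
      ∃ (y : SpF g) (φ : ℕ → ℕ), StrictMono φ ∧
      SNear D p.1 y.1 ∧ Tendsto (fun k => (x (φ k)).1) atTop (𝓝 y.1) from H M hlim
  clear hM hlim M
  intro M hlim'
  have hsymm : (M : Matrix (Ix g) (Ix g) ℝ)ᵀ = M := mrc_symm hlim' fun k => (x (φ k)).2.1.symm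
  have hq := mrc_qf_tendsto hlim'
  have hnear : SNear D p.1 (M : Matrix (Ix g) (Ix g) ℝ) := by
    intro v
    constructor
    · exact le_of_tendsto' (hq v) fun k => (h (φ k) v).1
    · exact ge_of_tendsto' ((hq v).const_mul (Real.exp D)) fun k => (h (φ k) v).2
  have hPD : PD (M : Matrix (Ix g) (Ix g) ℝ) := by
    refine ⟨hsymm, fun v hv => ?_⟩
    have h1 := p.2.1.pos v hv
    have h2 := (hnear v).2
    have h3 := Real.exp_pos D
    by_contra h4
    push Not at h4
    have h5 := mul_le_mul_of_nonneg_left h4 h3.le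
    linarith
  have hJ : (M : Matrix (Ix g) (Ix g) ℝ) * JR g * M = JR g := by
    have hc : Continuous (fun N : Matrix (Ix g) (Ix g) ℝ => N * JR g * N) :=
      (continuous_id.matrix_mul continuous_const).matrix_mul continuous_id
    have h1 := (hc.tendsto M).comp hlim'
    have h2 : ((fun N : Matrix (Ix g) (Ix g) ℝ => N * JR g * N) ∘ fun k => (x (φ k)).1)
        = fun _ => JR g := by
      funext k
      exact (x (φ k)).2.2
    rw [h2] at h1
    exact tendsto_nhds_unique h1 tendsto_const_nhds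
  exact ⟨⟨M, hPD, hJ⟩, φ, hφ, hnear, hlim'⟩

end Tor
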