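import Mathlib
import Pool.Agent.Lib.MP_05cdf2_gt.B.MRa
import Pool.Agent.Lib.MP_05cdf2_gt.B.MRc

/-! MP_05cdf2_gt, B-Sp, job MRd: continuity and uniform continuity of the map `r` and of its iterates.

`rr_cont`: let `F` be the finite set of integral `w` with `qf p w ≤ exp D * e` (`short_finite`; for `e ≤ 0` too). If `qf (x k) w < e` then
`qf p w ≤ exp D * qf (x k) w ≤ exp D * e`, so `w ∈ F`; same for `y`. By `ZZ_eq`, `PP_eq` the sums are over the fixed finite set `F`, so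
`ZZ e (x k) → ZZ e y`, `PP e (x k) → PP e y` (continuity of finite sums, `max`, division by `ZZ ≥ 1`), and the inverse of
`x k + x k P x k` converges: `Matrix.inv_def`, `Ring.inverse_eq_inv'`, `Continuous.matrix_det`, `Continuous.matrix_adjugate`, the
determinant of the limit is not zero.
`rr_unif`: otherwise there are for each `k` forms `x k, y k` near `D` to `p`, `SNear (1/(k+1)) (x k) (y k)`, but not
`SNear η (r (x k)) (r (y k))`. Subsequence `x (φ k) → z` (`sp_seq_compact`), `y (φ k) → z` (`tendsto_of_near`), `r (x (φ k)) → r z`, `r (y (φ k)) → r z`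
(`rr_cont`), so for large `k` both are `SNear (η/2)` to `r z` (`near_of_tendsto`): contradiction by `near_symm`, `near_trans`.
`rr_unif_iter`: induction on `n` for all `D`: `r^[n+1] x = r^[n] (r x)` and `SNear (D + log 2) p (r x)` by `rr_near`, `near_trans`.
-/

set_option autoImplicit false

namespace Tor
open Matrix Filter Topology

section
variable {g : ℕ}

theorem mrd_kk_tendsto (e : ℝ) {f : ℕ → ℝ} {a : ℝ} (h : Tendsto f atTop (𝓝 a)) :
    Tendsto (fun k => kk e (f k)) atTop (𝓝 (kk e a)) := by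
  have hc : Continuous (fun s : ℝ => kk e s) := by
    unfold kk
    exact continuous_const.max (continuous_const.sub continuous_id)
  exact (hc.tendsto a).comp h

theorem mrd_inv_tendsto {ι : Type} [Fintype ι] [DecidableEq ι] {X : ℕ → Matrix ι ι ℝ}
    {Y : Matrix ι ι ℝ} (h : Tendsto X atTop (𝓝 Y)) (hY : IsUnit Y) :
    Tendsto (fun k => (X k)⁻¹) atTop (𝓝 Y⁻¹) := by
  have hdet : Y.det ≠ 0 := ((Matrix.isUnit_iff_isUnit_det Y).1 hY).ne_zero
  have h1 : Tendsto (fun k => (X k).det) atTop (𝓝 Y.det) :=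
    ((Continuous.matrix_det continuous_id).tendsto Y).comp h
  have h2 : Tendsto (fun k => (X k).adjugate) atTop (𝓝 Y.adjugate) :=
    ((Continuous.matrix_adjugate continuous_id).tendsto Y).comp h
  have h3 : ∀ M : Matrix ι ι ℝ, M⁻¹ = (M.det)⁻¹ • M.adjugate := by
    intro M
    rw [Matrix.inv_def, Ring.inverse_eq_inv']
  have h4 : (fun k => (X k)⁻¹) = fun k => ((X k).det)⁻¹ • (X k).adjugate := by
    funext k
    exact h3 (X k)
  rw [h4, h3 Y]
  exact (h1.inv₀ hdet).smul h2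

theorem rr_cont {e : ℝ} (he : e ≤ 1) (p : SpF g) (D : ℝ) (x : ℕ → SpF g) (y : SpF g)
    (hx : ∀ k, SNear D p.1 (x k).1) (hy : SNear D p.1 y.1)
    (h : Tendsto (fun k => (x k).1) atTop (𝓝 y.1)) :
    Tendsto (fun k => (rr e he (x k)).1) atTop (𝓝 (rr e he y).1) := by
  obtain ⟨F, hF⟩ : ∃ F : Finset (Ix g → ℤ), ∀ A : SpF g, SNear D p.1 A.1 →
      ∀ w, qf A.1 (iv w) < e → w ∈ F := by
    refine ⟨(short_finite p.2.1 (Real.exp D * e)).toFinset, fun A hA w hw => ?_⟩
    rw [Set.Finite.mem_toFinset]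
    have h1 := (hA (iv w)).2
    have h2 := mul_le_mul_of_nonneg_left hw.le (Real.exp_pos D).le
    exact le_trans h1 h2
  have hq : ∀ w : Ix g → ℤ, Tendsto (fun k => qf (x k).1 (iv w)) atTop (𝓝 (qf y.1 (iv w))) :=
    fun w => mrc_qf_tendsto h (iv w)
  have hZ : Tendsto (fun k => ZZ e (x k).1) atTop (𝓝 (ZZ e y.1)) := by
    have h1 : (fun k => ZZ e (x k).1) = fun k =>
        1 + ∑ w ∈ F, kk e (qf (x k).1 (iv w)) * qf (x k).1 (iv w) := by
      funext k
      exact ZZ_eq (x k).2.1 F (hF (x k) (hx k))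
    rw [h1, ZZ_eq y.2.1 F (hF y hy)]
    exact tendsto_const_nhds.add
      (tendsto_finsetSum _ fun w _ => (mrd_kk_tendsto e (hq w)).mul (hq w))
  have hZ0 : ZZ e y.1 ≠ 0 := by
    have := ZZ_pos (e := e) y.2.1
    linarith
  have hP : Tendsto (fun k => PP e (x k).1) atTop (𝓝 (PP e y.1)) := by
    have h1 : (fun k => PP e (x k).1) = fun k =>
        ∑ w ∈ F, (kk e (qf (x k).1 (iv w)) / ZZ e (x k).1) • Matrix.vecMulVec (iv w) (iv w) := by
      funext k
      exact PP_eq (x k).2.1 F (hF (x k) (hx k))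
    rw [h1, PP_eq y.2.1 F (hF y hy)]
    exact tendsto_finsetSum _ fun w _ => ((mrd_kk_tendsto e (hq w)).div hZ hZ0).smul_const _
  have hAPA : Tendsto (fun k => (x k).1 * PP e (x k).1 * (x k).1) atTop
      (𝓝 (y.1 * PP e y.1 * y.1)) := (h.mul hP).mul h
  have hB := h.add hAPA
  have hBu : IsUnit (y.1 + y.1 * PP e y.1 * y.1) := by
    have hAt : (y.1)ᵀ = y.1 := y.2.1.symm
    have h1 : (y.1 * PP e y.1 * y.1)ᵀ = y.1 * PP e y.1 * y.1 := by
      rw [Matrix.transpose_mul, Matrix.transpose_mul, PP_symm, hAt, Matrix.mul_assoc]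
    have h2 : ∀ v, 0 ≤ qf (y.1 * PP e y.1 * y.1) v := by
      intro v
      have h3 := qf_conj (PP e y.1) y.1 v
      rw [hAt] at h3
      rw [h3]
      exact PP_nonneg y.2.1 _
    exact (y.2.1.add h1 h2).isUnit
  have hC := mrd_inv_tendsto hB hBu
  exact hAPA.add ((tendsto_const_nhds.mul hC).mul tendsto_const_nhds)

theorem rr_unif {e : ℝ} (he : e ≤ 1) (p : SpF g) (D η : ℝ) (hη : 0 < η) : ∃ δ : ℝ, 0 < δ ∧
    ∀ x y : SpF g, SNear D p.1 x.1 → SNear D p.1 y.1 → SNear δ x.1 y.1 →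
      SNear η (rr e he x).1 (rr e he y).1 := by
  by_contra hcon
  push Not at hcon
  choose x y hx hy hxy hn using fun k : ℕ => hcon (1 / ((k : ℝ) + 1)) (by positivity)
  obtain ⟨z, φ, hφ, hz, hlim⟩ := sp_seq_compact p D x hx
  have h1 : Tendsto (fun k => (y (φ k)).1) atTop (𝓝 z.1) := by
    refine tendsto_of_near (fun k => (x (φ k)).1) (fun k => (y (φ k)).1) z.1 hlim
      (fun k => (x (φ k)).2.1.symm) (fun k => (y (φ k)).2.1.symm)
      (fun k => 1 / ((φ k : ℝ) + 1)) ?_ (fun k => hxy (φ k))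
    exact tendsto_one_div_add_atTop_nhds_zero_nat.comp hφ.tendsto_atTop
  have h2 := rr_cont he p D (fun k => x (φ k)) z (fun k => hx (φ k)) hz hlim
  have h3 := rr_cont he p D (fun k => y (φ k)) z (fun k => hy (φ k)) hz h1
  have h4 := near_of_tendsto _ _ (rr e he z).2.1 h2 (η / 2) (by linarith)
  have h5 := near_of_tendsto _ _ (rr e he z).2.1 h3 (η / 2) (by linarith)
  obtain ⟨k, hk1, hk2⟩ := (h4.and h5).exists
  have h6 := near_trans hk1 (near_symm hk2)
  rw [add_halves] at h6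
  exact hn (φ k) h6

theorem rr_unif_iter {e : ℝ} (he : e ≤ 1) (p : SpF g) (n : ℕ) : ∀ (D η : ℝ), 0 < η →
    ∃ δ : ℝ, 0 < δ ∧ ∀ x y : SpF g, SNear D p.1 x.1 → SNear D p.1 y.1 → SNear δ x.1 y.1 →
      SNear η ((rr e he)^[n] x).1 ((rr e he)^[n] y).1 := by
  induction n with
  | zero =>
    intro D η hη
    exact ⟨η, hη, fun x y _ _ h => h⟩
  | succ n ih =>
    intro D η hη
    obtain ⟨δ1, hδ1, h1⟩ := ih (D + Real.log 2) η hη
    obtain ⟨δ, hδ, h2⟩ := rr_unif he p D δ1 hδ1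
    refine ⟨δ, hδ, fun x y hx hy hxy => ?_⟩
    rw [Function.iterate_succ_apply, Function.iterate_succ_apply]
    exact h1 _ _ (near_trans hx (rr_near he x)) (near_trans hy (rr_near he y)) (h2 x y hx hy hxy)

end

end Tor
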