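import Mathlib
import Pool.Agent.Lib.MP_05cdf2_gt.B.MHerm
import Pool.Agent.Lib.MP_05cdf2_gt.B.MMean
import Pool.Agent.Lib.MP_05cdf2_gt.B.MRb
import Pool.Agent.Lib.MP_05cdf2_gt.B.MRd
import Pool.Agent.Lib.MP_05cdf2_gt.B.LSubR
import Pool.Agent.Lib.MP_05cdf2_gt.B.LEss

/-! MP_05cdf2_gt, B-Sp, job MEss: essential acyclicity for the symplectic group.

`spRel c A γ`: all columns of `γ` are shorter than `c` for `A`. `NN g c`: lists of group elements with a common point.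

`spRel_not_short`: `sp_pull A γ` gives `A'` with `qf A' v = qf A (im γ v)`; `qf A' e_i = qf A (γ e_i) < c` (`im γ *ᵥ Pi.single i 1` is the column,
`im_mulVec`), so `1 ≤ c * qf A' v` for integral `v ≠ 0` (`sp_not_short`); for `w ≠ 0` apply this to `v = γ⁻¹ w ≠ 0`, `im γ (iv v) = iv w`.
`sp_lower`: for `p : SpF g` there is `C` with `qf p e_i < C` for all `i`, `sp_not_short`, so `1 ≤ C * qf p v`, `μ = 1 / C` (if `Ix g` is empty there is no `v ≠ 0`).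
`sp_ess`: let `c₀ = max c 1`, `e = 1 / c₀ ≤ 1`, `c₁` from `sp_basis g (e/4)`, `c' = max (2 c₁) c₀`.
`ess_of_mean` with `P = spMean g`, `U γ = {A | spRel c₀ A γ}`, `U' γ = {A | spRel c' A γ}`, `r = rr e _`: `hU` is `gm_lt`; `hUU` monotone; `hr`: `rr_fix` and
`spRel_not_short`; `hcov p D`: `μ` from `sp_lower p`, all `x` near `D` to `p` have `qf x v ≥ exp (-D) μ`; `n` from `rr_growth` (for `exp (-D) μ`), `δ` from `rr_unif_iter` with
`η = log 2`. For a list `l` (nonempty, `x₀ ∈ l`) let `γ` be from `sp_basis` for `r^[n] x₀`; `x ∈ l`: `SNear (log 2) (r^[n] x₀) (r^[n] x)`, so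
`qf (r^[n] x) (γ e_i) ≤ 2 * qf (r^[n] x₀) (γ e_i) < 2 c₁ ≤ c'`. Then `ess_dowker` with `R = spRel c₀`, `R' = spRel c'` (the sets of lists are the same up to
unfolding). Finally `NN g c ⊆ NN g c₀`.
-/

set_option autoImplicit false

namespace Tor
open Matrix

/-- all columns of `γ` are short for `A` -/
def spRel (g : ℕ) (c : ℝ) (A : SpF g) (γ : symplecticGroup (Fin g) ℤ) : Prop :=
  ∀ i, qf A.1 (iv (fun j => γ.1 j i)) < c

/-- lists with a common point -/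
def NN (g : ℕ) (c : ℝ) : Set (List (symplecticGroup (Fin g) ℤ)) :=
  {l | ∃ A : SpF g, ∀ γ ∈ l, spRel g c A γ}

theorem mess_col {g : ℕ} (γ : symplecticGroup (Fin g) ℤ) (i : Ix g) :
    im γ.1 *ᵥ (Pi.single i 1 : Ix g → ℝ) = iv (fun j => γ.1 j i) := by
  have h1 : (Pi.single i 1 : Ix g → ℝ) = iv (Pi.single i 1 : Ix g → ℤ) := by
    funext j
    unfold iv
    by_cases h : j = i
    · subst h
      simp
    · rw [Pi.single_eq_of_ne h, Pi.single_eq_of_ne h]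
      simp
  rw [h1, im_mulVec, Matrix.mulVec_single_one]
  rfl

theorem spRel_not_short {g : ℕ} {c : ℝ} {A : SpF g} {γ : symplecticGroup (Fin g) ℤ}
    (h : spRel g c A γ) (w : Ix g → ℤ) (hw : w ≠ 0) : 1 ≤ c * qf A.1 (iv w) := by
  obtain ⟨A', hA'⟩ := sp_pull A γ
  have hc : ∀ i, qf A'.1 (Pi.single i 1) < c := by
    intro i
    rw [hA', mess_col]
    exact h i
  have hγ : γ.1 *ᵥ ((γ⁻¹ : symplecticGroup (Fin g) ℤ).1 *ᵥ w) = w := by
    have h1 : γ.1 * (γ⁻¹ : symplecticGroup (Fin g) ℤ).1 = 1 := by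
      have h2 : γ * γ⁻¹ = 1 := mul_inv_cancel γ
      exact congrArg Subtype.val h2
    rw [Matrix.mulVec_mulVec, h1, Matrix.one_mulVec]
  have hv : ((γ⁻¹ : symplecticGroup (Fin g) ℤ).1 *ᵥ w) ≠ 0 := by
    intro h0
    rw [h0, Matrix.mulVec_zero] at hγ
    exact hw hγ.symm
  have h3 := sp_not_short A' c hc _ hv
  rw [hA', im_mulVec, hγ] at h3
  exact h3

theorem sp_lower {g : ℕ} (p : SpF g) : ∃ μ : ℝ, 0 < μ ∧
    ∀ v : Ix g → ℤ, v ≠ 0 → μ ≤ qf p.1 (iv v) := by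
  obtain ⟨C, hC0, hC⟩ : ∃ C : ℝ, 0 < C ∧ ∀ i, qf p.1 (Pi.single i 1) < C := by
    refine ⟨1 + ∑ i, qf p.1 (Pi.single i 1), ?_, ?_⟩
    · have h : 0 ≤ ∑ i, qf p.1 (Pi.single i (1 : ℝ)) :=
        Finset.sum_nonneg fun i _ => qf_nonneg p.2.1 _
      linarith
    · intro i
      have h : qf p.1 (Pi.single i (1 : ℝ)) ≤ ∑ i, qf p.1 (Pi.single i (1 : ℝ)) :=
        Finset.single_le_sum (f := fun i => qf p.1 (Pi.single i (1 : ℝ)))
          (fun i _ => qf_nonneg p.2.1 _) (Finset.mem_univ i)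
      linarith
  refine ⟨1 / C, by positivity, fun v hv => ?_⟩
  rw [div_le_iff₀' hC0]
  exact sp_not_short p C hC v hv

theorem sp_ess_mean (g : ℕ) (c : ℝ) (hc : 1 ≤ c) : ∃ c' : ℝ, c ≤ c' ∧
    ∀ z ∈ Sup {l : List (SpF g) | ∃ γ, ∀ A ∈ l, spRel g c A γ}, bd z = 0 →
      ∃ w ∈ Sup {l : List (SpF g) | ∃ γ, ∀ A ∈ l, spRel g c' A γ}, bd w = z := by
  have hc0 : 0 < c := by linarith
  have he0 : 0 < 1 / c := by positivity
  have he : 1 / c ≤ 1 := by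
    rw [div_le_one hc0]
    exact hc
  obtain ⟨c₁, hc₁⟩ := sp_basis g (1 / c / 4) (by positivity)
  refine ⟨max (2 * c₁) c, le_max_right _ _, ?_⟩
  refine ess_of_mean (spMean g) (fun γ => {A | spRel g c A γ})
    (fun γ => {A | spRel g (max (2 * c₁) c) A γ}) ?_ ?_ (rr (1 / c) he) ?_ ?_
  · intro γ A B hA hB j
    exact gm_lt A B _ c (hA j) (hB j)
  · rintro l ⟨γ, h⟩
    exact ⟨γ, fun x hx j => lt_of_lt_of_le (h x hx j) (le_max_right _ _)⟩
  · intro γ A hA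
    refine rr_fix he A fun v hv => ?_
    rw [div_le_iff₀' hc0]
    exact spRel_not_short hA v hv
  · intro p D
    obtain ⟨μ, hμ, hμp⟩ := sp_lower p
    obtain ⟨n, hn⟩ := rr_growth (g := g) he0 he (Real.exp (-D) * μ)
      (mul_pos (Real.exp_pos _) hμ)
    obtain ⟨δ, hδ, hδ'⟩ := rr_unif_iter he p n D (Real.log 2) (Real.log_pos (by norm_num))
    refine ⟨n, δ, hδ, fun l hl1 hl2 => ?_⟩
    rcases List.eq_nil_or_concat l with rfl | ⟨l', x₀, hl'⟩
    · exact ⟨1, by simp⟩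
    have hx₀ : x₀ ∈ l := by
      rw [hl']
      simp
    have hlow : ∀ v : Ix g → ℤ, v ≠ 0 → Real.exp (-D) * μ ≤ qf x₀.1 (iv v) := by
      intro v hv
      have h1 : SNear D p.1 x₀.1 := hl2 x₀ hx₀
      have h2 : qf p.1 (iv v) ≤ Real.exp D * qf x₀.1 (iv v) := (h1 (iv v)).2
      have h3 := hμp v hv
      calc Real.exp (-D) * μ ≤ Real.exp (-D) * (Real.exp D * qf x₀.1 (iv v)) :=
            mul_le_mul_of_nonneg_left (h3.trans h2) (Real.exp_pos _).le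
        _ = qf x₀.1 (iv v) := by
            rw [← mul_assoc, ← Real.exp_add, neg_add_cancel, Real.exp_zero, one_mul]
    obtain ⟨γ, hγ⟩ := hc₁ ((rr (1 / c) he)^[n] x₀) (hn x₀ hlow)
    refine ⟨γ, fun x hx j => ?_⟩
    have h1 : SNear (Real.log 2) ((rr (1 / c) he)^[n] x₀).1 ((rr (1 / c) he)^[n] x).1 :=
      hδ' x₀ x (hl2 x₀ hx₀) (hl2 x hx) (hl1 x₀ hx₀ x hx)
    have h2 := (h1 (iv (fun k => γ.1 k j))).1
    rw [Real.exp_log (by norm_num : (0 : ℝ) < 2)] at h2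
    have h3 := hγ j
    show qf ((rr (1 / c) he)^[n] x).1 (iv (fun k => γ.1 k j)) < max (2 * c₁) c
    refine lt_of_lt_of_le ?_ (le_max_left _ _)
    linarith

theorem sp_ess (g : ℕ) (c : ℝ) : ∃ c' : ℝ, c ≤ c' ∧
    ∀ z ∈ Sup (NN g c), bd z = 0 → ∃ w ∈ Sup (NN g c'), bd w = z := by
  obtain ⟨c', hcc', h⟩ := sp_ess_mean g (max c 1) (le_max_right _ _)
  refine ⟨c', (le_max_left _ _).trans hcc', ?_⟩
  intro z hz hbz
  have hz' : z ∈ Sup (NN g (max c 1)) := by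
    refine Sup_mono ?_ hz
    rintro l ⟨A, hA⟩
    exact ⟨A, fun γ hγ j => lt_of_lt_of_le (hA γ hγ j) (le_max_left _ _)⟩
  have : Nonempty (symplecticGroup (Fin g) ℤ) := ⟨1⟩
  exact ess_dowker (spRel g (max c 1)) (spRel g c')
    (fun A γ hA j => lt_of_lt_of_le (hA j) hcc') h z hz' hbz

end Tor
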