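import Mathlib
import Pool.Agent.Lib.MP_05cdf2_gt.B.MEss
import Pool.Agent.Lib.MP_05cdf2_gt.B.EssG

/-! MP_05cdf2_gt, B-Sp, job SpFin: the integral symplectic group is of type FP_infinity.

`NN_inv`: for `l ∈ NN g c` with point `A` let `A'` be `sp_pull A γ₀⁻¹`; `qf A' (γ₀ γ e_i) = qf A (γ₀⁻¹ γ₀ γ e_i) = qf A (γ e_i)` (`im_mulVec`; the columns of a
product `M * N` are `M *ᵥ` the columns of `N`).
`NN_fin`: if `[1, γ] ∈ NN g c` with point `A` then `qf A e_i < c` and by `sp_coord` `(γ j i)^2 ≤ c * qf A (γ e_i) ≤ c * c`, (`c > 0` if `Ix g` is not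
empty) so all entries of `γ` are bounded by `c` in absolute value: finitely many matrices (`Set.Finite.subset` of a finite set of functions into
`Finset.Icc`, `Set.Finite.pi`), the map `γ ↦ γ.1` is injective.
`GFP_Sp`: `GFP_of_lists` with `N n = NN g n`; `hess`: `sp_ess` and `Nat.ceil` (`NN` is monotone in `c`).
-/

set_option autoImplicit false

namespace Tor
open Matrix

theorem NN_mono {g : ℕ} {c c' : ℝ} (h : c ≤ c') : NN g c ⊆ NN g c' := by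
  rintro l ⟨A, hA⟩
  exact ⟨A, fun γ hγ i => lt_of_lt_of_le (hA γ hγ i) h⟩

theorem NN_closed (g : ℕ) (c : ℝ) : Closed (NN g c) := by
  rintro l ⟨A, hA⟩ l' hl'
  exact ⟨A, fun γ hγ => hA γ (hl'.subset hγ)⟩

theorem NN_inv {g : ℕ} {c : ℝ} (γ₀ : symplecticGroup (Fin g) ℤ)
    (l : List (symplecticGroup (Fin g) ℤ)) (hl : l ∈ NN g c) : l.map (γ₀ * ·) ∈ NN g c := by
  obtain ⟨A, hA⟩ := hl
  obtain ⟨A', hA'⟩ := sp_pull A γ₀⁻¹
  refine ⟨A', fun δ hδ i => ?_⟩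
  rw [List.mem_map] at hδ
  obtain ⟨γ, hγ, rfl⟩ := hδ
  have h1 := hA γ hγ i
  rw [hA', im_mulVec]
  have h2 : (γ₀⁻¹ : symplecticGroup (Fin g) ℤ).1 *ᵥ (fun j => (γ₀ * γ).1 j i)
      = fun j => γ.1 j i := by
    have h3 : (fun j => (γ₀ * γ).1 j i) = γ₀.1 *ᵥ (fun j => γ.1 j i) := by
      funext j
      rfl
    have h4 : (γ₀⁻¹ : symplecticGroup (Fin g) ℤ).1 * γ₀.1 = 1 :=
      congrArg Subtype.val (inv_mul_cancel γ₀)
    rw [h3, Matrix.mulVec_mulVec, h4, Matrix.one_mulVec]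
  rw [h2]
  exact h1

theorem spfin_bound {g : ℕ} {c : ℝ} {γ : symplecticGroup (Fin g) ℤ} (h : [1, γ] ∈ NN g c)
    (j i : Ix g) : γ.1 j i ∈ Set.Icc (-⌈c⌉) ⌈c⌉ := by
  obtain ⟨A, hA⟩ := h
  have h1 := hA 1 (by simp)
  have h2 := hA γ (by simp)
  have hc : ∀ i, qf A.1 (Pi.single i 1) < c := by
    intro i
    have h3 := h1 i
    rw [← mess_col] at h3
    have h4 : im (1 : symplecticGroup (Fin g) ℤ).1 = 1 := mbasic_im_one
    rw [h4, Matrix.one_mulVec] at h3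
    exact h3
  have h5 := sp_coord A c hc (iv (fun j => γ.1 j i)) j
  have h6 := h2 i
  have h7 : 0 ≤ qf A.1 (iv (fun j => γ.1 j i)) := qf_nonneg A.2.1 _
  have h8 : 0 < c := lt_of_le_of_lt h7 h6
  have h9 : ((γ.1 j i : ℤ) : ℝ) ^ 2 ≤ c ^ 2 := by
    have h10 : (iv (fun j => γ.1 j i) j) = ((γ.1 j i : ℤ) : ℝ) := rfl
    rw [h10] at h5
    nlinarith
  have h11 := abs_le_of_sq_le_sq' h9 h8.le
  have h12 : c ≤ (⌈c⌉ : ℝ) := Int.le_ceil c
  constructor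
  · have : ((-⌈c⌉ : ℤ) : ℝ) ≤ ((γ.1 j i : ℤ) : ℝ) := by
      push_cast
      linarith [h11.1]
    exact_mod_cast this
  · have : ((γ.1 j i : ℤ) : ℝ) ≤ ((⌈c⌉ : ℤ) : ℝ) := by
      linarith [h11.2]
    exact_mod_cast this

theorem NN_fin (g : ℕ) (c : ℝ) : {γ : symplecticGroup (Fin g) ℤ | [1, γ] ∈ NN g c}.Finite := by
  have h1 : {M : Ix g → Ix g → ℤ | ∀ j i, M j i ∈ Set.Icc (-⌈c⌉) ⌈c⌉}.Finite := by
    have h2 : {M : Ix g → Ix g → ℤ | ∀ j i, M j i ∈ Set.Icc (-⌈c⌉) ⌈c⌉}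
        = Set.pi Set.univ (fun _ : Ix g => Set.pi Set.univ (fun _ : Ix g => Set.Icc (-⌈c⌉) ⌈c⌉)) := by
      ext M
      simp only [Set.mem_setOf_eq, Set.mem_pi, Set.mem_univ, forall_const]
    rw [h2]
    exact Set.Finite.pi' (fun _ => Set.Finite.pi' (fun _ => Set.finite_Icc _ _)) |>.subset (by
      intro M hM
      simp only [Set.mem_pi, Set.mem_univ, forall_const] at hM
      simpa using hM)
  refine Set.Finite.of_finite_image (f := fun γ : symplecticGroup (Fin g) ℤ => (fun j i => γ.1 j i)) ?_ ?_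
  · refine h1.subset ?_
    rintro M ⟨γ, hγ, rfl⟩ j i
    exact spfin_bound hγ j i
  · intro γ _ γ' _ h
    apply Subtype.ext
    ext j i
    exact congrFun (congrFun h j) i

/-- the identity is a symplectic form -/
theorem spfin_nonempty (g : ℕ) : Nonempty (SpF g) := by
  refine ⟨⟨1, PD.iff.2 Matrix.PosDef.one, ?_⟩⟩
  rw [Matrix.one_mul, Matrix.mul_one]

/-- the integral symplectic group is of type FP_infinity -/
theorem GFP_Sp (g : ℕ) : GFP (symplecticGroup (Fin g) ℤ) := by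
  refine GFP_of_lists (fun n => NN g (n : ℝ)) (fun n => NN_closed g n)
    (fun n γ₀ l hl => NN_inv γ₀ l hl) ?_ (fun n => NN_fin g n) ?_
  · obtain ⟨A⟩ := spfin_nonempty g
    exact ⟨A, by simp⟩
  · intro n
    obtain ⟨c', _, h⟩ := sp_ess g (n : ℝ)
    refine ⟨⌈c'⌉₊, fun z hz hbz => ?_⟩
    obtain ⟨w, hw, hbw⟩ := h z hz hbz
    exact ⟨w, Sup_mono (NN_mono (Nat.le_ceil c')) hw, hbw⟩

end Tor
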